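import Pool.Agent.Lib.Sm.P.RedM

/-!
# SMITH block P (parity), module L90: `H^1(D_v, M)` is 2-divisible, abstract form
-/

set_option autoImplicit false

namespace Pool.Agent.Sm

variable {G V Pl M : Type*} [Group G] [AddCommGroup V] [DistribMulAction G V]
  [AddCommGroup M] [DistribMulAction G M]

namespace Sys

variable {S : Sys G V Pl}

/-- A 2-finite cocycle on `D v` with values in `M` is determined by its values at `sg v`, `phi v`. -/
theorem cocM_zero (h : S.Ok) (v : Pl) {c : G → M} (hf : S.TFOn (S.D v) c)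
    (hc : ∀ s ∈ S.D v, ∀ t ∈ S.D v, c (s * t) = c s + s • c t)
    (h1 : c (S.sg v) = 0) (h2 : c (S.phi v) = 0) : ∀ s ∈ S.D v, c s = 0 := by
  have hcl : Subgroup.closure {S.phi v, S.sg v} ≤ S.D v := by
    rw [Subgroup.closure_le]
    rintro x (rfl | rfl)
    · exact h.phi_mem v
    · exact h.sg_mem v
  have hone : c 1 = 0 := by
    have := hc 1 (one_mem _) 1 (one_mem _)
    rw [one_mul, one_smul] at this
    exact left_eq_add.mp this
  have hz : ∀ x ∈ Subgroup.closure {S.phi v, S.sg v}, c x = 0 := by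
    intro x hx
    refine Subgroup.closure_induction (p := fun x _ => c x = 0) ?_ hone ?_ ?_ hx
    · rintro y (rfl | rfl)
      · exact h2
      · exact h1
    · intro a b ha hb ha' hb'
      rw [hc a (hcl ha) b (hcl hb), ha', hb', smul_zero, add_zero]
    · intro a ha ha'
      have := hc a⁻¹ ((S.D v).inv_mem (hcl ha)) a (hcl ha)
      rw [inv_mul_cancel, hone, ha', smul_zero, add_zero] at this
      exact this.symm
  intro s hs
  obtain ⟨N, hN, hNc⟩ := hf
  obtain ⟨t, ht, hts⟩ := gen h v hN hs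
  have := hNc t (hcl ht) (t⁻¹ * s) hts ((S.D v).mul_mem ((S.D v).inv_mem (hcl ht)) hs)
  rw [mul_inv_cancel_left] at this
  rw [this, hz t ht]

/-- Kummer theory in the form: every value at `sg v` is attained by a cocycle, `sg v` acts
trivially on `M` and `phi v - 1` is surjective on `M`. -/
theorem l90_of (h : S.Ok) (v : Pl) (half : ∀ m : M, ∃ m', (2 : ℕ) • m' = m)
    (act : ∀ m : M, ∃ N ∈ S.NN, ∀ s ∈ N, s • m = m)
    (kum : ∀ m : M, ∃ κ : G → M, S.TFOn (S.D v) κ ∧
      (∀ s ∈ S.D v, ∀ t ∈ S.D v, κ (s * t) = κ s + s • κ t) ∧ κ (S.sg v) = m)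
    (hsg : ∀ m : M, S.sg v • m = m) (hphi : ∀ m : M, ∃ m', S.phi v • m' - m' = m)
    (z : G → M) (hz : S.TFOn (S.D v) z)
    (hzc : ∀ s ∈ S.D v, ∀ t ∈ S.D v, z (s * t) = z s + s • z t) :
    ∃ (z' : G → M) (m : M), S.TFOn (S.D v) z' ∧
      (∀ s ∈ S.D v, ∀ t ∈ S.D v, z' (s * t) = z' s + s • z' t) ∧
      ∀ s ∈ S.D v, z s = (2 : ℕ) • z' s + (s • m - m) := by
  obtain ⟨a, ha⟩ := half (z (S.sg v))
  obtain ⟨κ, hκ, hκc, hκs⟩ := kum a
  obtain ⟨m, hm⟩ := hphi (z (S.phi v) - (2 : ℕ) • κ (S.phi v))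
  obtain ⟨N, hN, hN'⟩ := act m
  refine ⟨κ, m, hκ, hκc, fun s hs => ?_⟩
  have h5 : S.TFOn (S.D v) (fun s : G => s • m) :=
    ⟨N, hN, fun s _ n hn _ => by beta_reduce; rw [mul_smul, hN' n hn]⟩
  have key := cocM_zero h v (c := fun s => z s - (2 : ℕ) • κ s - (s • m - m))
    (TFOn.comp₂ h (TFOn.comp₂ h hz hκ (fun a b => a - (2 : ℕ) • b)) h5 (fun a b => a - (b - m)))
    (fun s hs t ht => by
      beta_reduce
      rw [hzc s hs t ht, hκc s hs t ht, mul_smul]
      simp only [smul_sub, smul_add, smul_comm s (2 : ℕ)]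
      abel)
    (by
      beta_reduce
      rw [hκs, ha, hsg]
      abel)
    (by
      beta_reduce
      rw [hm]
      abel) s hs
  beta_reduce at key
  rw [sub_sub, sub_eq_zero] at key
  exact key

end Sys

end Pool.Agent.Sm
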