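import Pool.Agent.Lib.Sm.P.Mu
import Pool.Agent.Lib.Sm.P.L90
import Pool.Agent.Lib.SmD.Const

/-!
# SMITH block P (parity), module MuLoc: action on the 2-power roots of unity, Kummer cocycles
-/

set_option autoImplicit false

namespace Pool.Agent.SmP

open Pool.Agent.Lib.SmD Pool.Agent.SmD

section

variable {K Ω : Type} [Field K] [Field Ω] [Algebra K Ω]

private theorem muLoc_tot {r : ℕ} (hr : Odd r) (j : ℕ) :
    ∃ q : ℕ, r ^ (2 ^ j).totient = 1 + 2 ^ j * q := by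
  have hc : r.Coprime (2 ^ j) := Nat.Coprime.pow_right j (Nat.coprime_two_right.2 hr)
  have h1 := Nat.ModEq.pow_totient hc
  have h0 : 1 ≤ r ^ (2 ^ j).totient := Nat.one_le_pow _ _ hr.pos
  obtain ⟨q, hq⟩ := (Nat.modEq_iff_dvd' h0).1 h1.symm
  exact ⟨q, by omega⟩

private theorem muLoc_tot_pos (j : ℕ) : 0 < (2 ^ j).totient :=
  Nat.totient_pos.2 (by positivity)

/-- `MuT Ω` is divisible. -/
theorem MuT.div [IsSepClosed Ω] (h2 : (2 : Ω) ≠ 0) {n : ℕ} (hn : n ≠ 0) (u : MuT Ω) :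
    ∃ v : MuT Ω, n • v = u := by
  obtain ⟨e, r, hr, rfl⟩ := Nat.exists_eq_two_pow_mul_odd hn
  have h1 : ∀ (e : ℕ) (u : MuT Ω), ∃ v : MuT Ω, (2 : ℕ) ^ e • v = u := by
    intro e
    induction e with
    | zero => exact fun u => ⟨u, by rw [pow_zero, one_smul]⟩
    | succ e ih =>
      intro u
      obtain ⟨v, hv⟩ := ih u
      obtain ⟨v', hv'⟩ := MuT.half h2 v
      exact ⟨v', by rw [pow_succ, mul_smul, hv', hv]⟩
  obtain ⟨v, hv⟩ := h1 e u
  obtain ⟨j, hj⟩ := v.tors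
  obtain ⟨q, hq⟩ := muLoc_tot hr j
  refine ⟨r ^ ((2 ^ j).totient - 1) • v, ?_⟩
  have h3 : r * r ^ ((2 ^ j).totient - 1) = 1 + 2 ^ j * q := by
    rw [← pow_succ', Nat.sub_add_cancel (muLoc_tot_pos j), hq]
  rw [mul_smul, smul_smul r, h3, add_smul, one_smul, mul_comm (2 ^ j) q, mul_smul, hj, smul_zero,
    add_zero, hv]

/-- The 2-power roots of unity are constants. -/
theorem MuT.isCst {p : ℕ} (hp : Odd p) (u : MuT Ω) : IsCst p u.el := by
  obtain ⟨j, hj⟩ := u.tors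
  obtain ⟨q, hq⟩ := muLoc_tot hp j
  refine ⟨(2 ^ j).totient, muLoc_tot_pos j, ?_⟩
  rw [hq, ← MuT.el_nsmul, add_smul, one_smul, mul_comm (2 ^ j) q, mul_smul, hj, smul_zero,
    add_zero]

theorem MuT.smul_iner {p : ℕ} [Fact p.Prime] [CharP Ω p] (hp : Odd p) {w : ValuationSubring Ω}
    {σ : Ω ≃ₐ[K] Ω} (h : σ ∈ iner K w) (u : MuT Ω) : σ • u = u :=
  MuT.el_inj (by rw [MuT.el_smul, iner_cst h (u.isCst hp)])

theorem MuT.smul_frob {p : ℕ} [Fact p.Prime] [CharP Ω p] (hp : Odd p) {w : ValuationSubring Ω}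
    {φ : Ω ≃ₐ[K] Ω} (h : IsFrob K w φ) (u : MuT Ω) : φ • u = resCard (below K w) • u :=
  MuT.el_inj (by rw [MuT.el_smul, h.cst (u.isCst hp), MuT.el_nsmul])

/-- `φ - 1` is surjective on `MuT Ω`. -/
theorem MuT.frob_sub [IsSepClosed Ω] (h2 : (2 : Ω) ≠ 0) {p : ℕ} [Fact p.Prime] [CharP Ω p]
    (hp : Odd p) {w : ValuationSubring Ω} {φ : Ω ≃ₐ[K] Ω} (h : IsFrob K w φ)
    (hq : 1 < resCard (below K w)) (u : MuT Ω) : ∃ v : MuT Ω, φ • v - v = u := by
  obtain ⟨v, hv⟩ := MuT.div h2 (n := resCard (below K w) - 1) (by omega) u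
  refine ⟨v, ?_⟩
  rw [MuT.smul_frob hp h, ← hv]
  conv_lhs => rw [← Nat.sub_add_cancel hq.le, add_smul, one_smul, add_sub_cancel_right]

/-- A `2^k`-th root of an element of `K` is fixed by an element of `NN`. -/
theorem exists_NN_fix_root [IsGalois K Ω] [IsSepClosed Ω] (h2 : (2 : Ω) ≠ 0) {y : Ω} {a : K}
    {k : ℕ} (hy0 : y ≠ 0) (hy : y ^ 2 ^ k = algebraMap K Ω a) :
    ∃ N ∈ NN K Ω, ∀ s ∈ N, s y = y := by
  obtain ⟨N0, hN0, h0⟩ := cyc_fin (K := K) h2 k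
  have hN0' : ∀ s ∈ N0, ∀ ρ : Ω, ρ ^ 2 ^ k = 1 → s ρ = ρ := by
    intro s hs ρ hρ
    rw [cyc_spec h2 k s hρ, h0 s hs]
    rcases Nat.eq_zero_or_pos k with rfl | hk
    · have : ρ = 1 := by simpa using hρ
      rw [this, one_pow]
    · have : Fact (1 < 2 ^ k) := ⟨Nat.one_lt_two_pow (by omega)⟩
      rw [ZMod.val_one, pow_one]
  have hρ : ∀ s : Ω ≃ₐ[K] Ω, (s y / y) ^ 2 ^ k = 1 := by
    intro s
    rw [div_pow, ← map_pow, hy, AlgEquiv.commutes, div_self]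
    rw [← hy]
    exact pow_ne_zero _ hy0
  have hsy : ∀ s : Ω ≃ₐ[K] Ω, s y = (s y / y) * y := fun s => by
    rw [div_mul_cancel₀ _ hy0]
  have hnorm := NN.normal hN0
  refine ⟨N0 ⊓ MulAction.stabilizer (Ω ≃ₐ[K] Ω) y, mem_NN_of_pow ?_ ?_ ?_, fun s hs => hs.2⟩
  · refine ⟨fun n hn g => ⟨hnorm.conj_mem n hn.1 g, MulAction.mem_stabilizer_iff.2 ?_⟩⟩
    have h3 : n y = y := hn.2
    change g (n (g⁻¹ y)) = y
    rw [hsy g⁻¹, map_mul, hN0' n hn.1 _ (hρ g⁻¹), h3, ← hsy, ← AlgEquiv.mul_apply, mul_inv_cancel,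
      AlgEquiv.one_apply]
  · rw [Subgroup.coe_inf]
    refine (NN.isOpen hN0).inter ?_
    have hint : IsIntegral K y := (Algebra.IsAlgebraic.isAlgebraic (R := K) y).isIntegral
    have hfd : FiniteDimensional K (IntermediateField.adjoin K {y}) :=
      IntermediateField.adjoin.finiteDimensional hint
    have h1 := IntermediateField.fixingSubgroup_isOpen (IntermediateField.adjoin K {y})
    refine Subgroup.isOpen_mono (H₁ := (IntermediateField.adjoin K {y}).fixingSubgroup) ?_ h1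
    intro s hs
    rw [MulAction.mem_stabilizer_iff]
    exact (IntermediateField.mem_fixingSubgroup_iff _ _).1 hs y
      (IntermediateField.mem_adjoin_simple_self K y)
  · intro σ
    obtain ⟨r, hr⟩ := hN0.2.2
    have h3 : σ ^ 2 ^ r ∈ N0 := by
      rw [← hr]
      exact Subgroup.pow_index_mem N0 σ
    set τ := σ ^ 2 ^ r with hτ
    have h4 : ∀ j : ℕ, (τ ^ j) y = (τ y / y) ^ j * y := by
      intro j
      induction j with
      | zero => rw [pow_zero, pow_zero, one_mul, AlgEquiv.one_apply]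
      | succ j ih =>
        rw [pow_succ', AlgEquiv.mul_apply, ih, map_mul, map_pow, hN0' τ h3 _ (hρ τ), hsy τ,
          ← mul_assoc, ← hsy τ, pow_succ]
    refine ⟨r + k, ?_⟩
    have h5 : σ ^ 2 ^ (r + k) = τ ^ 2 ^ k := by rw [pow_add, pow_mul]
    rw [h5]
    refine ⟨N0.pow_mem h3 _, MulAction.mem_stabilizer_iff.2 ?_⟩
    change (τ ^ 2 ^ k) y = y
    rw [h4, hρ, one_mul]

/-- Kummer cocycles: every value at `σ` is attained. -/
theorem exists_kummer [IsGalois K Ω] [IsSepClosed Ω] (h2 : (2 : Ω) ≠ 0) {π : K} (hπ : π ≠ 0)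
    {σ : Ω ≃ₐ[K] Ω} (hσ : chi K π σ = 1) (m : MuT Ω) :
    ∃ κ : (Ω ≃ₐ[K] Ω) → MuT Ω, (∃ N ∈ NN K Ω, ∀ s, ∀ n ∈ N, κ (s * n) = κ s) ∧
      (∀ s t, κ (s * t) = κ s + s • κ t) ∧ κ σ = m := by
  choose r hr using exists_sqrt h2
  obtain ⟨y, hy0, hy1⟩ : ∃ y : ℕ → Ω, y 0 = algebraMap K Ω π ∧ ∀ n, y (n + 1) ^ 2 = y n :=
    ⟨fun n => Nat.rec (algebraMap K Ω π) (fun _ x => r x) n, rfl, fun n => hr _⟩
  have hy : ∀ n, y n ^ 2 ^ n = algebraMap K Ω π := by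
    intro n
    induction n with
    | zero => rw [pow_zero, pow_one, hy0]
    | succ n ih => rw [pow_succ' 2 n, pow_mul, hy1, ih]
  have hπ' : algebraMap K Ω π ≠ 0 := by simpa using hπ
  have hyne : ∀ n, y n ≠ 0 := fun n h => hπ' (by rw [← hy n, h, zero_pow (by positivity)])
  have hyd : ∀ i n, y (n + i) ^ 2 ^ i = y n := by
    intro i
    induction i with
    | zero => intro n; rw [pow_zero, pow_one, add_zero]
    | succ i ih => intro n; rw [pow_succ' 2 i, pow_mul, ← add_assoc, hy1, ih]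
  obtain ⟨j, hj⟩ := m.tors
  have hρ : ∀ s : Ω ≃ₐ[K] Ω, (s (y (j + 1)) / y (j + 1)) ^ 2 ^ (j + 1) = 1 := by
    intro s
    rw [div_pow, ← map_pow, hy, AlgEquiv.commutes, div_self hπ']
  set κ : (Ω ≃ₐ[K] Ω) → MuT Ω := fun s => MuT.mk (s (y (j + 1)) / y (j + 1)) (j + 1) (hρ s) with hκ
  have hκc : ∀ s t, κ (s * t) = κ s + s • κ t := by
    intro s t
    apply MuT.el_inj
    rw [MuT.el_add, MuT.el_smul, hκ]
    simp only [MuT.el_mk]
    rw [map_div₀, AlgEquiv.mul_apply]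
    have h1 : s (y (j + 1)) ≠ 0 := (map_ne_zero_iff _ s.injective).2 (hyne _)
    field_simp
  have hκσ : (κ σ).el ^ 2 ^ j = -1 := by
    rw [hκ]
    simp only [MuT.el_mk]
    have h1 := hyd j 1
    rw [add_comm] at h1
    rw [div_pow, ← map_pow, h1]
    have h3 : y 1 ^ 2 = algebraMap K Ω π := by rw [hy1, hy0]
    have h4 : σ (y 1) = -y 1 := (chi_eq_one_iff h2 hπ σ h3).1 hσ
    rw [h4, neg_div, div_self (hyne 1)]
  have hprim : IsPrimitiveRoot (κ σ).el (2 ^ (j + 1)) := by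
    have h4 : (-1 : Ω) ≠ 1 := by
      intro h
      apply h2
      rw [← one_add_one_eq_two]
      nth_rewrite 1 [← h]
      exact neg_add_cancel 1
    have : Fact (Nat.Prime 2) := ⟨Nat.prime_two⟩
    rw [← orderOf_eq_prime_pow (p := 2) (x := (κ σ).el) (n := j) (by rw [hκσ]; exact h4)
      (by rw [pow_succ, pow_mul, hκσ]; simp)]
    exact IsPrimitiveRoot.orderOf _
  obtain ⟨a, -, ha⟩ := hprim.eq_pow_of_pow_eq_one (ξ := m.el)
    (by rw [← MuT.el_nsmul, pow_succ', mul_smul, hj, smul_zero, MuT.el_zero])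
  obtain ⟨N, hN, hN'⟩ := exists_NN_fix_root (K := K) h2 (hyne (j + 1)) (hy (j + 1))
  refine ⟨fun s => a • κ s, ⟨N, hN, fun s n hn => ?_⟩, fun s t => ?_, ?_⟩
  · have h5 : κ n = 0 := by
      apply MuT.el_inj
      rw [hκ]
      simp only [MuT.el_mk, MuT.el_zero]
      rw [hN' n hn, div_self (hyne _)]
    beta_reduce
    rw [hκc, h5, smul_zero, add_zero]
  · beta_reduce
    rw [hκc, nsmul_add, smul_comm s a (κ t)]
  · apply MuT.el_inj
    rw [MuT.el_nsmul, ha]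

end

end Pool.Agent.SmP
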