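import Pool.Agent.Lib.SM.E.Iso
import Pool.Agent.Lib.SM.E.Kappa
import Pool.Agent.Lib.SM.E.E6Final

/-!
# SMITH block P5: multiplicative places, points

`y ^ 2 = (x - a) (x - b) (x - c)` with `|a - b| < |a - c| = |b - c| = |π| ^ (2 m)`. A point `Q` whose
double is invariant under inertia is moved by inertia by multiples of `T_c` only (`sign_c`); there are
points moved by inertia (`moved_odd`, `moved_twist`).
-/

set_option autoImplicit false

namespace Pool.Agent.Sm.Mult

open WeierstrassCurve WeierstrassCurve.Affine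
open Pool.Agent.Lib.SmD Pool.Agent.Sm Pool.Agent.SmithE

section sqrt

variable {K Om : Type} [Field K] [Field Om] [Algebra K Om] {w : ValuationSubring Om} {π : K}

theorem val_pi_ne (hL : LocHyp K w π) : w.valuation (algebraMap K Om π) ≠ 0 := by
  rw [Ne, Valuation.zero_iff, map_eq_zero]
  exact hL.pi_ne

/-- square roots of elements of even value are fixed by inertia -/
theorem fix_even (hL : LocHyp K w π) {s : Om ≃ₐ[K] Om} (hs : s ∈ iner K w) {r : Om}
    (hr : s (r ^ 2) = r ^ 2) {n : ℤ}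
    (hn : w.valuation (r ^ 2) = w.valuation (algebraMap K Om π) ^ (2 * n)) : s r = r := by
  have hp := val_pi_ne hL
  have hp0 : algebraMap K Om π ≠ 0 := by
    intro h
    exact hp (by rw [h, map_zero])
  have hz : (algebraMap K Om π) ^ n ≠ 0 := zpow_ne_zero _ hp0
  have hsp : s ((algebraMap K Om π) ^ n) = (algebraMap K Om π) ^ n := by
    rw [map_zpow₀, AlgEquiv.commutes]
  have h1 : s (r / (algebraMap K Om π) ^ n) = r / (algebraMap K Om π) ^ n := by
    refine sqrt_fix_iner hL.two hs (x := r ^ 2 / ((algebraMap K Om π) ^ n) ^ 2) ?_ ?_ ?_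
    · rw [map_div₀, hn, map_pow, map_zpow₀, ← zpow_natCast, ← zpow_mul]
      rw [show n * ((2 : ℕ) : ℤ) = 2 * n by push_cast; ring]
      exact div_self (zpow_ne_zero _ hp)
    · rw [map_div₀, hr, map_pow, hsp]
    · rw [div_pow]
  rw [map_div₀, hsp] at h1
  exact (div_left_inj' hz).mp h1

/-- square roots of elements of odd value are moved by `sg` -/
theorem move_odd (hL : LocHyp K w π) {s : Om ≃ₐ[K] Om} (hs : s ∈ iner K w) {ρ : Om}
    (hρ : ρ ^ 2 = algebraMap K Om π) (hsρ : s ρ = -ρ) {r : Om}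
    (hr : s (r ^ 2) = r ^ 2) {n : ℤ}
    (hn : w.valuation (r ^ 2) = w.valuation (algebraMap K Om π) ^ (2 * n + 1)) : s r = -r := by
  have hp := val_pi_ne hL
  have hρ0 : ρ ≠ 0 := by
    rintro rfl
    apply hp
    rw [← hρ, zero_pow two_ne_zero, map_zero]
  have h1 : s (r / ρ) = r / ρ := by
    refine fix_even hL hs (n := n) ?_ ?_
    · rw [div_pow, map_div₀, hr, hρ, AlgEquiv.commutes]
    · rw [div_pow, map_div₀, hρ, hn, zpow_add₀ hp, zpow_one, mul_div_assoc, div_self hp, mul_one]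
  rw [map_div₀, hsρ, div_neg, ← neg_div] at h1
  exact neg_eq_iff_eq_neg.mp ((div_left_inj' hρ0).mp h1)

/-- the sign of `s` on a root with `s R = sgn (e) R` -/
theorem ee_zero_of_fix (h20 : (2 : Om) ≠ 0) {s : Om ≃ₐ[K] Om} {r : Om} (hr : r ≠ 0) {e : ZMod 2}
    (h1 : s r = ((sgn e : ℤ) : Om) * r) (h3 : s r = r) : e = 0 :=
  Sg.unique h20 hr h1 (Sg_zero.mpr h3)

theorem ee_one_of_neg (h20 : (2 : Om) ≠ 0) {s : Om ≃ₐ[K] Om} {r : Om} (hr : r ≠ 0) {e : ZMod 2}
    (h1 : s r = ((sgn e : ℤ) : Om) * r) (h3 : s r = -r) : e = 1 :=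
  Sg.unique h20 hr h1 (Sg_one.mpr h3)

theorem ee_add_right' (z x y : V1) : ee z (x + y) = ee z x + ee z y := by
  unfold ee
  simp only [Prod.fst_add, Prod.snd_add]
  ring

/-- the sign as a unit -/
def eu (a : ZMod 2) : ℤˣ := if a = 0 then 1 else -1

theorem coe_eu (a : ZMod 2) : ((eu a : ℤˣ) : ℤ) = sgn a := by
  unfold eu sgn
  split_ifs <;> rfl

end sqrt

variable {K Om : Type} [Field K] [Field Om] [Algebra K Om] [DecidableEq Om] {e₁ e₂ e₃ : K}
  (h2 : (2 : K) ≠ 0) (h12 : e₁ ≠ e₂) (h13 : e₁ ≠ e₃) (h23 : e₂ ≠ e₃)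

/-- `a, b, c` is a permutation of `e₁, e₂, e₃`, with the corresponding elements of `V1`. -/
structure Pm (Om : Type) [Field Om] [Algebra K Om] [DecidableEq Om] (a b c : K) (wa wb wc : V1) :
    Prop where
  hW : WeierstrassCurve.Affine.baseChange (crv e₁ e₂ e₃) Om =
    crv (algebraMap K Om a) (algebraMap K Om b) (algebraMap K Om c)
  sa : ∀ P : Pt Om e₁ e₂ e₃, P + P ≠ 0 → ∀ z : V1,
    Rf (algebraMap K Om a) (algebraMap K Om b) (algebraMap K Om c)
      (P + (iota h2 h12 h13 h23 Om z : VV Om e₁ e₂ e₃).1) = ((sgn (ee z wa) : ℤ) : Om) *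
        Rf (algebraMap K Om a) (algebraMap K Om b) (algebraMap K Om c) P
  sb : ∀ P : Pt Om e₁ e₂ e₃, P + P ≠ 0 → ∀ z : V1,
    Rf (algebraMap K Om b) (algebraMap K Om a) (algebraMap K Om c)
      (P + (iota h2 h12 h13 h23 Om z : VV Om e₁ e₂ e₃).1) = ((sgn (ee z wb) : ℤ) : Om) *
        Rf (algebraMap K Om b) (algebraMap K Om a) (algebraMap K Om c) P
  sc : ∀ P : Pt Om e₁ e₂ e₃, P + P ≠ 0 → ∀ z : V1,
    Rf (algebraMap K Om c) (algebraMap K Om a) (algebraMap K Om b)
      (P + (iota h2 h12 h13 h23 Om z : VV Om e₁ e₂ e₃).1) = ((sgn (ee z wc) : ℤ) : Om) *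
        Rf (algebraMap K Om c) (algebraMap K Om a) (algebraMap K Om b) P
  sum : wa + wb = wc
  ne : wc ≠ 0
  ta : ∃ h, (iota h2 h12 h13 h23 Om wa : VV Om e₁ e₂ e₃).1 = .some (algebraMap K Om a) 0 h

theorem ee_10 (z : V1) : ee z (1, 0) = z.2 := by
  unfold ee; simp

theorem ee_01 (z : V1) : ee z (0, 1) = z.1 := by
  unfold ee; simp

theorem ee_11 (z : V1) : ee z (1, 1) = z.1 + z.2 := by
  unfold ee; simp

theorem Rf3_iota (Q : Pt Om e₁ e₂ e₃) (hQ : Q + Q ≠ 0) (z : V1) :
    Rf (algebraMap K Om e₃) (algebraMap K Om e₁) (algebraMap K Om e₂)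
      (Q + (iota h2 h12 h13 h23 Om z : VV Om e₁ e₂ e₃).1) =
      ((sgn (z.1 + z.2) : ℤ) : Om) *
        Rf (algebraMap K Om e₃) (algebraMap K Om e₁) (algebraMap K Om e₂) Q := by
  have h := Rsign3 h2 h12 h13 h23 Q hQ z
  rcases zcases (z.1 + z.2) with h1 | h1
  · rw [h1, ZMod.val_zero, pow_zero] at h
    rw [h1, sgn_zero, Int.cast_one]
    exact h
  · rw [h1, ZMod.val_one, pow_one] at h
    rw [h1, sgn_one, Int.cast_neg, Int.cast_one]
    exact h

theorem pm3 : Pm h2 h12 h13 h23 Om e₁ e₂ e₃ (1, 0) (0, 1) (1, 1) where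
  hW := baseChange_crv
  sa P hP z := by rw [ee_10]; exact Rf1_iota h2 h12 h13 h23 P hP z
  sb P hP z := by rw [ee_01]; exact Rf2_iota h2 h12 h13 h23 P hP z
  sc P hP z := by rw [ee_11]; exact Rf3_iota h2 h12 h13 h23 P hP z
  sum := by decide
  ne := by decide
  ta := ⟨nonsingular_bc1 h12 h13, by rw [iota_one_zero, coe_T1]; rfl⟩

theorem pm2 : Pm h2 h12 h13 h23 Om e₁ e₃ e₂ (1, 0) (1, 1) (0, 1) where
  hW := baseChange_crv.trans (crv_swap23 _ _ _)
  sa P hP z := by rw [ee_10, Rf_comm, Rf_comm P]; exact Rf1_iota h2 h12 h13 h23 P hP z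
  sb P hP z := by rw [ee_11]; exact Rf3_iota h2 h12 h13 h23 P hP z
  sc P hP z := by rw [ee_01]; exact Rf2_iota h2 h12 h13 h23 P hP z
  sum := by decide
  ne := by decide
  ta := ⟨nonsingular_bc1 h12 h13, by rw [iota_one_zero, coe_T1]; rfl⟩

theorem pm1 : Pm h2 h12 h13 h23 Om e₂ e₃ e₁ (0, 1) (1, 1) (1, 0) where
  hW := (baseChange_crv.trans (crv_swap12 _ _ _)).trans (crv_swap23 _ _ _)
  sa P hP z := by rw [ee_01, Rf_comm, Rf_comm P]; exact Rf2_iota h2 h12 h13 h23 P hP z
  sb P hP z := by rw [ee_11, Rf_comm, Rf_comm P]; exact Rf3_iota h2 h12 h13 h23 P hP z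
  sc P hP z := by rw [ee_10]; exact Rf1_iota h2 h12 h13 h23 P hP z
  sum := by decide
  ne := by decide
  ta := ⟨nonsingular_bc2 h12 h23, by rw [iota_zero_one, coe_T2]; rfl⟩

variable {h2 h12 h13 h23} {a b c : K} {wa wb wc : V1} {w : ValuationSubring Om} {π : K}

section main

variable [IsGalois K Om]

/-- **Inertia moves points with inertia-invariant double by multiples of `T_c` only.** -/
theorem sign_c (pm : Pm h2 h12 h13 h23 Om a b c wa wb wc) (hL : LocHyp K w π)
    (hab : w.valuation (algebraMap K Om (a - b)) < w.valuation (algebraMap K Om (a - c)))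
    {m : ℤ} (hm : w.valuation (algebraMap K Om (a - c)) =
      w.valuation (algebraMap K Om π) ^ (2 * m))
    {Q : Pt Om e₁ e₂ e₃} (hQ : ∀ s ∈ iner K w, s • (Q + Q) = Q + Q)
    {s : Om ≃ₐ[K] Om} (hs : s ∈ iner K w) {z : V1}
    (hz : s • Q = Q + (iota h2 h12 h13 h23 Om z : VV Om e₁ e₂ e₃).1) : ee z wc = 0 := by
  have h20 : (2 : Om) ≠ 0 := two_ne_zero_Om hL.two
  have hp := val_pi_ne hL
  by_cases hQQ : Q + Q = 0
  · have h1 := SmithE.fix_of_add_self h20 s Q hQQ
    rw [hz] at h1
    have h3 : (iota h2 h12 h13 h23 Om z : VV Om e₁ e₂ e₃) = 0 := Subtype.ext (add_eq_left.mp h1)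
    have h4 : z = 0 := iota_injective h2 h12 h13 h23 (Ω := Om) (by rw [h3, map_zero])
    rw [h4]
    unfold ee
    simp
  obtain ⟨X, Y, hXY, hd, ra, rb, rc⟩ := Rf_sq pm.hW h20 hQQ
  have he := eqn pm.hW hXY
  have hfix : ∀ t ∈ iner K w, t X = X ∧ t Y = Y := by
    intro t ht
    have h1 := hQ t ht
    rw [hd] at h1
    exact (smul_some_eq_iff t hXY).mp h1
  -- values
  set A := algebraMap K Om a with hA
  set B := algebraMap K Om b with hB
  set C := algebraMap K Om c with hC
  have hAB : w.valuation (A - B) < w.valuation (A - C) := by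
    rw [hA, hB, hC, ← map_sub, ← map_sub]
    exact hab
  have hAC : w.valuation (A - C) = w.valuation (algebraMap K Om π) ^ (2 * m) := by
    rw [hA, hC, ← map_sub]
    exact hm
  have hBC : w.valuation (B - C) = w.valuation (A - C) := by
    have e : B - C = (A - C) - (A - B) := by ring
    rw [e]
    exact Valuation.map_sub_eq_of_lt_left _ hAB
  -- the sign relations
  have sgc : s (Rf C A B Q) = ((sgn (ee z wc) : ℤ) : Om) * Rf C A B Q := by
    rw [← pm.sc Q hQQ z, ← hz]
    exact (Rf_smul Q s c a b).symm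
  have sga : s (Rf A B C Q) = ((sgn (ee z wa) : ℤ) : Om) * Rf A B C Q := by
    rw [← pm.sa Q hQQ z, ← hz]
    exact (Rf_smul Q s a b c).symm
  have sgb : s (Rf B A C Q) = ((sgn (ee z wb) : ℤ) : Om) * Rf B A C Q := by
    rw [← pm.sb Q hQQ z, ← hz]
    exact (Rf_smul Q s b a c).symm
  by_cases hR : Rf C A B Q = 0
  · -- `2 Q = T_c`
    rw [hR, zero_pow two_ne_zero, sub_eq_zero] at rc
    have ea : A - C ≠ 0 := by
      intro h
      rw [h, map_zero] at hAC
      exact zpow_ne_zero _ hp hAC.symm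
    have eb : B - C ≠ 0 := by
      intro h
      rw [h, map_zero] at hBC
      rw [← hBC] at hAC
      exact zpow_ne_zero _ hp hAC.symm
    have sfix : ∀ x y : K, s (algebraMap K Om x - algebraMap K Om y) =
        algebraMap K Om x - algebraMap K Om y := by
      intro x y
      rw [map_sub, s.commutes, s.commutes]
    have fa : s (Rf A B C Q) = Rf A B C Q := by
      refine fix_even hL hs (n := m) ?_ ?_
      · rw [← ra, rc]
        exact sfix c a
      · rw [← ra, rc, Valuation.map_sub_swap]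
        exact hAC
    have fb : s (Rf B A C Q) = Rf B A C Q := by
      refine fix_even hL hs (n := m) ?_ ?_
      · rw [← rb, rc]
        exact sfix c b
      · rw [← rb, rc, Valuation.map_sub_swap, hBC]
        exact hAC
    have na : Rf A B C Q ≠ 0 := by
      intro h
      rw [h, zero_pow two_ne_zero, rc] at ra
      exact ea (by rw [← neg_sub, ra, neg_zero])
    have nb : Rf B A C Q ≠ 0 := by
      intro h
      rw [h, zero_pow two_ne_zero, rc] at rb
      exact eb (by rw [← neg_sub, rb, neg_zero])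
    have za := ee_zero_of_fix h20 na sga fa
    have zb := ee_zero_of_fix h20 nb sgb fb
    rw [← pm.sum, ee_add_right', za, zb, add_zero]
  · -- the general case: the value of `X - c` is even
    have hXC : X - C ≠ 0 := by
      rw [rc]
      exact pow_ne_zero _ hR
    have hXCf : ∀ t ∈ iner K w, t (X - C) = X - C := by
      intro t ht
      rw [map_sub, (hfix t ht).1, hC, t.commutes]
    obtain ⟨n, hn⟩ := value_iner hL hXC hXCf
    have key : ∃ i : ℤ, n = 2 * i := by
      by_cases hY : Y = 0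
      · -- `2 Q = T_a` or `T_b`
        have h0 : (X - A) * (X - B) * (X - C) = 0 := by
          rw [← he, hY, zero_pow two_ne_zero]
        have h3 : w.valuation (X - C) = w.valuation (A - C) := by
          rcases mul_eq_zero.mp ((mul_eq_zero.mp h0).resolve_right hXC) with h4 | h4
          · rw [sub_eq_zero.mp h4]
          · rw [sub_eq_zero.mp h4, hBC]
        rw [hn, hAC] at h3
        exact ⟨m, hL.zpow_inj h3⟩
      · obtain ⟨l, hl⟩ := value_iner hL hY fun t ht => (hfix t ht).2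
        have hev : w.valuation Y ^ 2 =
            w.valuation (X - A) * w.valuation (X - B) * w.valuation (X - C) := by
          rw [← map_pow, he, map_mul, map_mul]
        have exa : X - A = (X - C) - (A - C) := by ring
        have exb : X - B = (X - C) - (B - C) := by ring
        rcases lt_trichotomy (w.valuation (X - C)) (w.valuation (A - C)) with hlt | heq | hgt
        · have va : w.valuation (X - A) = w.valuation (A - C) := by
            rw [exa]
            exact Valuation.map_sub_eq_of_lt_right _ hlt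
          have vb : w.valuation (X - B) = w.valuation (A - C) := by
            rw [exb, ← hBC]
            exact Valuation.map_sub_eq_of_lt_right _ (by rw [hBC]; exact hlt)
          rw [va, vb, hl, hn, hAC, ← zpow_natCast, ← zpow_mul, ← zpow_add₀ hp,
            ← zpow_add₀ hp] at hev
          have := hL.zpow_inj hev
          refine ⟨l - 2 * m, ?_⟩
          push_cast at this
          linarith
        · rw [hn, hAC] at heq
          exact ⟨m, hL.zpow_inj heq⟩
        · have va : w.valuation (X - A) = w.valuation (X - C) := by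
            rw [exa]
            exact Valuation.map_sub_eq_of_lt_left _ hgt
          have vb : w.valuation (X - B) = w.valuation (X - C) := by
            rw [exb]
            exact Valuation.map_sub_eq_of_lt_left _ (by rw [hBC]; exact hgt)
          rw [va, vb, hl, hn, ← zpow_natCast, ← zpow_mul, ← zpow_add₀ hp,
            ← zpow_add₀ hp] at hev
          have := hL.zpow_inj hev
          refine ⟨l - n, ?_⟩
          push_cast at this
          linarith
    obtain ⟨i, hi⟩ := key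
    have fc : s (Rf C A B Q) = Rf C A B Q := by
      refine fix_even hL hs (n := i) ?_ ?_
      · rw [← rc]
        exact hXCf s hs
      · rw [← rc, hn, hi]
    exact ee_zero_of_fix h20 hR sgc fc

omit [IsGalois K Om] in
/-- A half of `T_a` is moved by `sg` if the value of `a - b` is odd. -/
theorem moved_odd (pm : Pm h2 h12 h13 h23 Om a b c wa wb wc) (hL : LocHyp K w π)
    {n : ℤ} (hn : w.valuation (algebraMap K Om (a - b)) =
      w.valuation (algebraMap K Om π) ^ (2 * n + 1))
    {Q : Pt Om e₁ e₂ e₃} (hQ : Q + Q = (iota h2 h12 h13 h23 Om wa : VV Om e₁ e₂ e₃).1)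
    {s : Om ≃ₐ[K] Om} (hs : s ∈ iner K w) {ρ : Om} (hρ : ρ ^ 2 = algebraMap K Om π)
    (hsρ : s ρ = -ρ) {z : V1}
    (hz : s • Q = Q + (iota h2 h12 h13 h23 Om z : VV Om e₁ e₂ e₃).1) : z ≠ 0 := by
  have h20 : (2 : Om) ≠ 0 := two_ne_zero_Om hL.two
  have hp := val_pi_ne hL
  obtain ⟨hns, hta⟩ := pm.ta
  rw [hta] at hQ
  have hQQ : Q + Q ≠ 0 := by
    rw [hQ]
    exact WeierstrassCurve.Affine.Point.some_ne_zero _
  obtain ⟨-, rb, -⟩ := Rf_sq_of_eq pm.hW h20 hQ
  have sgb : s (Rf (algebraMap K Om b) (algebraMap K Om a) (algebraMap K Om c) Q) =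
      ((sgn (ee z wb) : ℤ) : Om) *
        Rf (algebraMap K Om b) (algebraMap K Om a) (algebraMap K Om c) Q := by
    rw [← pm.sb Q hQQ z, ← hz]
    exact (Rf_smul Q s b a c).symm
  have hmv : s (Rf (algebraMap K Om b) (algebraMap K Om a) (algebraMap K Om c) Q) =
      -Rf (algebraMap K Om b) (algebraMap K Om a) (algebraMap K Om c) Q := by
    refine move_odd hL hs hρ hsρ (n := n) ?_ ?_
    · rw [← rb, ← map_sub, s.commutes]
    · rw [← rb, ← map_sub]
      exact hn
  have hne : Rf (algebraMap K Om b) (algebraMap K Om a) (algebraMap K Om c) Q ≠ 0 := by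
    intro h
    rw [h, zero_pow two_ne_zero, ← map_sub] at rb
    rw [rb, map_zero] at hn
    exact zpow_ne_zero _ hp hn.symm
  have h1 := ee_one_of_neg h20 hne sgb hmv
  rintro rfl
  unfold ee at h1
  simp at h1

/-- **Twist by `a - c`**: a point moved by `sg` with decomposition-invariant double. -/
theorem moved_twist [IsSepClosed Om] (pm : Pm h2 h12 h13 h23 Om a b c wa wb wc)
    (hL : LocHyp K w π) {m : ℤ} (hm : w.valuation (algebraMap K Om (a - c)) =
      w.valuation (algebraMap K Om π) ^ (2 * m))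
    (hab : w.valuation (algebraMap K Om (a - b)) <
      w.valuation (algebraMap K Om (a - c)) * w.valuation (algebraMap K Om π)) :
    ∃ Q : VV Om e₁ e₂ e₃, (∀ s ∈ dec K w, (2 : ℕ) • dl (chi K (a - c)) Q s = 0) ∧
      ∀ s ∈ iner K w, ∀ ρ : Om, ρ ^ 2 = algebraMap K Om π → s ρ = -ρ → ∀ z : V1,
        dl (chi K (a - c)) Q s = iota h2 h12 h13 h23 Om z → z ≠ 0 := by
  have h20 : (2 : Om) ≠ 0 := two_ne_zero_Om hL.two
  have hp := val_pi_ne hL
  have hp0 : algebraMap K Om π ≠ 0 := by
    intro h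
    exact hp (by rw [h, map_zero])
  have hac : a - c ≠ 0 := by
    intro h
    rw [h, map_zero, map_zero] at hm
    exact zpow_ne_zero _ hp hm.symm
  have hACK : algebraMap K Om (a - c) ≠ 0 := by
    rw [Ne, map_eq_zero]
    exact hac
  obtain ⟨d, hd⟩ := Pool.Agent.Lib.SmD.exists_sqrt h20 (algebraMap K Om (a - c))
  have hd0 : d ≠ 0 := root_ne_zero hac hd
  -- the point `P`
  set A := algebraMap K Om a with hA
  set B := algebraMap K Om b with hB
  set C := algebraMap K Om c with hC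
  set p := algebraMap K Om π with hpdef
  have hACe : algebraMap K Om (a - c) = A - C := by rw [hA, hC, map_sub]
  have hABe : algebraMap K Om (a - b) = A - B := by rw [hA, hB, map_sub]
  rw [hACe] at hm hab hd hACK
  rw [hABe] at hab
  have hsA : ∀ s : Om ≃ₐ[K] Om, s A = A := fun s => s.commutes a
  have hsB : ∀ s : Om ≃ₐ[K] Om, s B = B := fun s => s.commutes b
  have hsC : ∀ s : Om ≃ₐ[K] Om, s C = C := fun s => s.commutes c
  have hsp : ∀ s : Om ≃ₐ[K] Om, s p = p := fun s => s.commutes π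
  obtain ⟨x0, hx0⟩ : ∃ x0 : Om, x0 = A + (C - A) * p := ⟨_, rfl⟩
  obtain ⟨y0, hy0⟩ := Pool.Agent.Lib.SmD.exists_sqrt h20 ((x0 - A) * (x0 - B) * (x0 - C))
  -- the unit
  obtain ⟨U, hU⟩ : ∃ U : Om, U = (1 + (A - B) / ((C - A) * p)) * (1 - p) := ⟨_, rfl⟩
  have hCA : C - A ≠ 0 := by
    rw [← neg_sub]
    exact neg_ne_zero.mpr hACK
  have hvCA : w.valuation (C - A) = w.valuation (A - C) := Valuation.map_sub_swap _ _ _
  have hδ : w.valuation ((A - B) / ((C - A) * p)) < 1 := by
    rw [map_div₀, map_mul, hvCA]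
    refine (div_lt_one₀ ?_).mpr hab
    rw [zero_lt_iff]
    exact mul_ne_zero ((Valuation.ne_zero_iff _).mpr hACK) hp
  have hU1 : w.valuation (U - 1) < 1 := by
    have e : U - 1 = (A - B) / ((C - A) * p) * (1 - p) - p := by rw [hU]; ring
    rw [e]
    refine (Valuation.map_sub _ _ _).trans_lt (max_lt ?_ hL.pi_lt)
    rw [map_mul]
    refine mul_lt_one_of_lt_of_le hδ ?_
    refine (Valuation.map_sub _ _ _).trans (max_le ?_ hL.pi_lt.le)
    rw [map_one]
  have hUne : U ≠ 0 := by
    rintro h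
    rw [h, zero_sub, Valuation.map_neg, map_one] at hU1
    exact lt_irrefl _ hU1
  have hUy : (y0 / (d * ((C - A) * p))) ^ 2 = U := by
    rw [div_pow, hy0, mul_pow, hd, hU, hx0]
    field_simp
    ring
  have hUf : ∀ s ∈ dec K w, s (y0 / (d * ((C - A) * p))) = y0 / (d * ((C - A) * p)) := by
    intro s hs
    refine sqrt_fix_dec hL.two hs hU1 ?_ hUy
    rw [hU]
    simp only [map_mul, map_add, map_sub, map_div₀, map_one, hsA, hsB, hsC, hsp]
  have hden : d * ((C - A) * p) ≠ 0 := mul_ne_zero hd0 (mul_ne_zero hCA hp0)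
  have hy0e : y0 = (y0 / (d * ((C - A) * p))) * (d * ((C - A) * p)) :=
    (div_mul_cancel₀ _ hden).symm
  have hy0ne : y0 ≠ 0 := by
    rintro h
    rw [h, zero_div, zero_pow two_ne_zero] at hUy
    exact hUne hUy.symm
  have hns : (WeierstrassCurve.Affine.baseChange (crv e₁ e₂ e₃) Om).Nonsingular x0 y0 := by
    rw [pm.hW]
    exact nonsingular_crv_of_ne h20 hy0 hy0ne
  have hsd : ∀ s : Om ≃ₐ[K] Om, s d = ((sgn (chi K (a - c) s) : ℤ) : Om) * d := by
    intro s
    have h1 := SmF.chi_spec (f := a - c) (by rw [hd, hACe]) s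
    rcases zcases (chi K (a - c) s) with h | h
    · rw [h, sgn_zero, Int.cast_one]
      rw [h, ZMod.val_zero, pow_zero] at h1
      exact h1
    · rw [h, sgn_one, Int.cast_neg, Int.cast_one]
      rw [h, ZMod.val_one, pow_one] at h1
      exact h1
  have hsy : ∀ s ∈ dec K w, s y0 = ((sgn (chi K (a - c) s) : ℤ) : Om) * y0 := by
    intro s hs
    have h1 : s y0 = (y0 / (d * ((C - A) * p))) *
        ((((sgn (chi K (a - c) s) : ℤ) : Om) * d) * ((C - A) * p)) := by
      conv_lhs => rw [hy0e]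
      rw [map_mul, hUf s hs, map_mul, hsd s, map_mul, map_sub, hsC, hsA, hsp]
    rw [h1]
    conv_rhs => rw [hy0e]
    ring
  have hsx : ∀ s : Om ≃ₐ[K] Om, s x0 = x0 := by
    intro s
    rw [hx0]
    simp only [map_mul, map_add, map_sub, hsA, hsC, hsp]
  have hP : ∀ s ∈ dec K w, (sgn (chi K (a - c) s) : ℤ) •
      (s • (.some x0 y0 hns : Pt Om e₁ e₂ e₃)) = .some x0 y0 hns := by
    intro s hs
    obtain ⟨h', hsm⟩ := smul_some s hns
    have h1 := hsy s hs
    rcases zcases (chi K (a - c) s) with h | h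
    · rw [h, sgn_zero, one_smul]
      rw [h, sgn_zero, Int.cast_one, one_mul] at h1
      exact (smul_some_eq_iff s hns).mpr ⟨hsx s, h1⟩
    · rw [h, sgn_one, Int.cast_neg, Int.cast_one, neg_one_mul] at h1
      rw [h, sgn_one, neg_one_smul, hsm, WeierstrassCurve.Affine.Point.neg_some,
        WeierstrassCurve.Affine.Point.some.injEq]
      refine ⟨hsx s, ?_⟩
      rw [negY_eq pm.hW, h1, neg_neg]
  -- a half
  obtain ⟨Q0, hQ0⟩ := pt_exists_half h12 h13 h23 h2 (.some x0 y0 hns : Pt Om e₁ e₂ e₃)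
  obtain ⟨Q1, hQ1, hQ2⟩ := e6_twist_locHyp hL h12 h13 h23 hac (d := d) (by rw [hd, hACe])
    (fun s => eu (chi K (a - c) s)) (fun s => by rw [coe_eu]; exact hsd s) Q0 1
    (by
      intro s hs
      rw [coe_eu, pow_one, smul_sub, two_smul, two_smul, ← smul_add, ← smul_add, ← hQ0, hP s hs,
        sub_self])
  have hdl : ∀ s ∈ dec K w, (dl (chi K (a - c)) (⟨Q1, hQ1⟩ : VV Om e₁ e₂ e₃) s).1 =
      (sgn (chi K (a - c) s) : ℤ) • (s • Q0) - Q0 := by
    intro s hs
    have h1 := hQ2 s hs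
    simp only [coe_eu] at h1
    rw [← h1]
    rfl
  refine ⟨⟨Q1, hQ1⟩, ?_, ?_⟩
  · intro s hs
    apply Subtype.ext
    change (2 : ℕ) • (dl (chi K (a - c)) (⟨Q1, hQ1⟩ : VV Om e₁ e₂ e₃) s).1 = 0
    rw [hdl s hs, smul_sub, two_smul, two_smul, ← smul_add, ← smul_add, ← hQ0, hP s hs, sub_self]
  · intro s hs ρ hρ hsρ z hz
    have h1 := hdl s (iner_le_dec K w hs)
    rw [hz] at h1
    -- `s` fixes `d`
    have hsd0 : s d = d := by
      refine fix_even hL hs (n := m) ?_ ?_
      · rw [hd, map_sub, hsA, hsC]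
      · rw [hd]
        exact hm
    have hc0 : chi K (a - c) s = 0 := by
      refine Sg.unique h20 hd0 (hsd s) (Sg_zero.mpr hsd0)
    rw [hc0, sgn_zero, one_smul] at h1
    have h3 : s • Q0 = Q0 + (iota h2 h12 h13 h23 Om z : VV Om e₁ e₂ e₃).1 := by
      rw [h1]
      abel
    have hQQ : Q0 + Q0 ≠ 0 := by
      rw [← hQ0]
      exact WeierstrassCurve.Affine.Point.some_ne_zero _
    obtain ⟨ra, -, -⟩ := Rf_sq_of_eq pm.hW h20 hQ0.symm
    have sga : s (Rf A B C Q0) = ((sgn (ee z wa) : ℤ) : Om) * Rf A B C Q0 := by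
      rw [← pm.sa Q0 hQQ z, ← h3]
      exact (Rf_smul Q0 s a b c).symm
    have ra' : (Rf A B C Q0) ^ 2 = (C - A) * p := by
      rw [← ra, hx0]
      ring
    have hmv : s (Rf A B C Q0) = -Rf A B C Q0 := by
      refine move_odd hL hs hρ hsρ (n := m) ?_ ?_
      · rw [ra', map_mul, map_sub, hsA, hsC, hsp]
      · rw [ra', map_mul, hvCA, hm, zpow_add₀ hp, zpow_one]
    have hne : Rf A B C Q0 ≠ 0 := by
      intro h
      rw [h, zero_pow two_ne_zero] at ra'
      exact mul_ne_zero hCA hp0 ra'.symm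
    have h4 := ee_one_of_neg h20 hne sga hmv
    rintro rfl
    unfold ee at h4
    simp at h4

end main

end Pool.Agent.Sm.Mult
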