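import Pool.Agent.Lib.Sm.P.Cyc
import Pool.Agent.Lib.SmD.Sqrt

/-!
# SMITH block P (parity), module Mu: the 2-power roots of unity, written additively

`MuT Ω` = group of the 2-power roots of unity of `Ω`, additive, with the action of `Gal(Ω/K)`;
`zet Ω m` = compatible system of primitive roots; `zh Ω m : ZMod (2^m) →+ MuT Ω`;
`hfM Ω : ZMod 2 →+ MuT Ω`, `1 ↦ -1`.
-/

set_option autoImplicit false

namespace Pool.Agent.SmP

open Pool.Agent.Lib.SmD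

/-- The 2-power roots of unity. -/
def muSub (Ω : Type) [Field Ω] : AddSubgroup (Additive Ωˣ) where
  carrier := {u | ∃ j : ℕ, (2 : ℕ) ^ j • u = 0}
  zero_mem' := ⟨0, smul_zero _⟩
  add_mem' := by
    rintro a b ⟨i, hi⟩ ⟨j, hj⟩
    refine ⟨i + j, ?_⟩
    have h1 : (2 : ℕ) ^ (i + j) • a = 0 := by rw [pow_add, mul_nsmul, hi, nsmul_zero]
    have h2 : (2 : ℕ) ^ (i + j) • b = 0 := by rw [add_comm, pow_add, mul_nsmul, hj, nsmul_zero]
    rw [nsmul_add, h1, h2, add_zero]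
  neg_mem' := by
    rintro a ⟨i, hi⟩
    exact ⟨i, by rw [neg_nsmul, hi, neg_zero]⟩

/-- The group of 2-power roots of unity. -/
abbrev MuT (Ω : Type) [Field Ω] : Type := muSub Ω

section

variable {K Ω : Type} [Field K] [Field Ω] [Algebra K Ω]

/-- The underlying element of `Ω`. -/
def MuT.el (u : MuT Ω) : Ω := ((Additive.toMul u.1 : Ωˣ) : Ω)

theorem MuT.el_inj {u v : MuT Ω} (h : u.el = v.el) : u = v :=
  Subtype.ext (Additive.toMul.injective (Units.ext h))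

theorem MuT.el_add (u v : MuT Ω) : (u + v).el = u.el * v.el := rfl

theorem MuT.el_zero : (0 : MuT Ω).el = 1 := rfl

theorem MuT.el_nsmul (n : ℕ) (u : MuT Ω) : (n • u).el = u.el ^ n := by
  induction n with
  | zero => rw [zero_smul, pow_zero, MuT.el_zero]
  | succ n ih => rw [succ_nsmul, MuT.el_add, ih, pow_succ]

theorem MuT.el_ne_zero (u : MuT Ω) : u.el ≠ 0 := Units.ne_zero _

theorem MuT.tors (u : MuT Ω) : ∃ j : ℕ, (2 : ℕ) ^ j • u = 0 := by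
  obtain ⟨j, hj⟩ := u.2
  exact ⟨j, Subtype.ext hj⟩

/-- A root of unity as an element of `MuT Ω`. -/
def MuT.mk (x : Ω) (j : ℕ) (h : x ^ 2 ^ j = 1) : MuT Ω :=
  ⟨Additive.ofMul (Units.ofPowEqOne x (2 ^ j) h (by positivity)), j, by
    apply Additive.toMul.injective
    apply Units.ext
    change (x ^ 2 ^ j : Ω) = 1
    exact h⟩

theorem MuT.el_mk (x : Ω) (j : ℕ) (h : x ^ 2 ^ j = 1) : (MuT.mk x j h).el = x := rfl

instance : DistribMulAction (Ω ≃ₐ[K] Ω) (MuT Ω) where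
  smul s u := ⟨Additive.ofMul (Units.map (s : Ω →* Ω) u.1.toMul), by
    obtain ⟨j, hj⟩ := u.2
    refine ⟨j, ?_⟩
    have h1 : u.1.toMul ^ 2 ^ j = 1 := congrArg Additive.toMul hj
    apply Additive.toMul.injective
    change (Units.map (s : Ω →* Ω) u.1.toMul) ^ 2 ^ j = 1
    rw [← map_pow, h1, map_one]⟩
  one_smul u := MuT.el_inj rfl
  mul_smul s t u := MuT.el_inj rfl
  smul_zero s := MuT.el_inj (map_one s)
  smul_add s u v := MuT.el_inj (map_mul s u.el v.el)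

theorem MuT.el_smul (s : Ω ≃ₐ[K] Ω) (u : MuT Ω) : (s • u).el = s u.el := rfl

/-- The conditions for a compatible system of roots of unity. -/
def IsZet (ζ : ℕ → MuT Ω) : Prop :=
  ζ 0 = 0 ∧ (∀ m, (2 : ℕ) • ζ (m + 1) = ζ m) ∧ (ζ 1).el = -1

theorem exists_zet [IsSepClosed Ω] (h2 : (2 : Ω) ≠ 0) : ∃ ζ : ℕ → MuT Ω, IsZet ζ := by
  choose r hr using exists_sqrt h2
  let z : ℕ → Ω := fun n => Nat.rec (-1 : Ω) (fun _ x => r x) n
  have hz0 : z 0 = -1 := rfl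
  have hz : ∀ n, z (n + 1) ^ 2 = z n := fun n => hr _
  have hz' : ∀ n, z n ^ 2 ^ (n + 1) = 1 := by
    intro n
    induction n with
    | zero => rw [hz0]; simp
    | succ n ih => rw [pow_succ' 2 (n + 1), pow_mul, hz, ih]
  refine ⟨fun n => match n with
    | 0 => 0
    | n + 1 => MuT.mk (z n) (n + 1) (hz' n), rfl, fun m => ?_, rfl⟩
  apply MuT.el_inj
  rw [MuT.el_nsmul]
  match m with
  | 0 => change (-1 : Ω) ^ 2 = 1; simp
  | m + 1 => exact hz m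

end

open Classical in
/-- A compatible system of primitive 2-power roots of unity. -/
noncomputable def zet (Ω : Type) [Field Ω] (m : ℕ) : MuT Ω :=
  if h : ∃ ζ : ℕ → MuT Ω, IsZet ζ then h.choose m else 0

section

variable {K Ω : Type} [Field K] [Field Ω] [Algebra K Ω]

theorem zet_zero : zet Ω 0 = 0 := by
  rw [zet]
  split_ifs with h
  · exact h.choose_spec.1
  · rfl

theorem two_zet (m : ℕ) : (2 : ℕ) • zet Ω (m + 1) = zet Ω m := by
  rw [zet, zet]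
  split_ifs with h
  · exact h.choose_spec.2.1 m
  · exact smul_zero _

theorem two_pow_zet (j m : ℕ) : (2 : ℕ) ^ j • zet Ω (m + j) = zet Ω m := by
  induction j with
  | zero => rw [pow_zero, one_smul, add_zero]
  | succ j ih => rw [pow_succ, mul_smul, ← add_assoc, two_zet, ih]

theorem pow_zet (m : ℕ) : (2 : ℕ) ^ m • zet Ω m = 0 := by
  have := two_pow_zet (Ω := Ω) m 0
  rwa [zero_add, zet_zero] at this

theorem zpow_zet (m : ℕ) : ((2 ^ m : ℕ) : ℤ) • zet Ω m = 0 := by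
  rw [natCast_zsmul, pow_zet]

theorem el_zet_one [IsSepClosed Ω] (h2 : (2 : Ω) ≠ 0) : (zet Ω 1).el = -1 := by
  have h := exists_zet h2
  rw [zet, dif_pos h]
  exact h.choose_spec.2.2

theorem zet_prim [IsSepClosed Ω] (h2 : (2 : Ω) ≠ 0) (m : ℕ) :
    IsPrimitiveRoot (zet Ω m).el (2 ^ m) := by
  match m with
  | 0 =>
    rw [zet_zero, MuT.el_zero, pow_zero]
    exact IsPrimitiveRoot.one
  | m + 1 =>
    have h1 : (zet Ω (m + 1)).el ^ 2 ^ m = -1 := by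
      rw [← MuT.el_nsmul, add_comm m 1, two_pow_zet, el_zet_one h2]
    have h3 : (zet Ω (m + 1)).el ^ 2 ^ (m + 1) = 1 := by
      rw [← MuT.el_nsmul, pow_zet, MuT.el_zero]
    have h4 : (-1 : Ω) ≠ 1 := by
      intro h
      apply h2
      rw [← one_add_one_eq_two]
      nth_rewrite 1 [← h]
      exact neg_add_cancel 1
    have : Fact (Nat.Prime 2) := ⟨Nat.prime_two⟩
    rw [← orderOf_eq_prime_pow (p := 2) (x := (zet Ω (m + 1)).el) (n := m) (by rw [h1]; exact h4) h3]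
    exact IsPrimitiveRoot.orderOf _

theorem exists_nsmul_zet [IsSepClosed Ω] (h2 : (2 : Ω) ≠ 0) {m : ℕ} {u : MuT Ω}
    (hu : (2 : ℕ) ^ m • u = 0) : ∃ a : ℕ, u = a • zet Ω m := by
  have h1 : u.el ^ 2 ^ m = 1 := by rw [← MuT.el_nsmul, hu, MuT.el_zero]
  obtain ⟨a, -, ha⟩ := (zet_prim h2 m).eq_pow_of_pow_eq_one h1
  exact ⟨a, MuT.el_inj (by rw [MuT.el_nsmul, ha])⟩

theorem smul_zet [IsSepClosed Ω] (h2 : (2 : Ω) ≠ 0) (s : Ω ≃ₐ[K] Ω) (m : ℕ) :
    s • zet Ω m = (cyc m s).val • zet Ω m := by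
  apply MuT.el_inj
  rw [MuT.el_smul, MuT.el_nsmul]
  exact cyc_spec h2 m s (by rw [← MuT.el_nsmul, pow_zet, MuT.el_zero])

theorem MuT.half [IsSepClosed Ω] (h2 : (2 : Ω) ≠ 0) (u : MuT Ω) :
    ∃ v : MuT Ω, (2 : ℕ) • v = u := by
  obtain ⟨j, hj⟩ := u.tors
  obtain ⟨a, ha⟩ := exists_nsmul_zet h2 hj
  exact ⟨a • zet Ω (j + 1), by rw [smul_comm, two_zet, ha]⟩

theorem MuT.act [IsSepClosed Ω] [IsGalois K Ω] (h2 : (2 : Ω) ≠ 0) (u : MuT Ω) :
    ∃ N ∈ Pool.Agent.SmD.NN K Ω, ∀ s ∈ N, s • u = u := by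
  obtain ⟨j, hj⟩ := u.tors
  obtain ⟨a, ha⟩ := exists_nsmul_zet h2 hj
  obtain ⟨N, hN, h1⟩ := cyc_fin (K := K) h2 j
  refine ⟨N, hN, fun s hs => ?_⟩
  have h3 : s • zet Ω j = zet Ω j := by
    rw [smul_zet h2, h1 s hs]
    rcases Nat.eq_zero_or_pos j with rfl | hj0
    · rw [zet_zero, smul_zero]
    · have : Fact (1 < 2 ^ j) := ⟨Nat.one_lt_two_pow (by omega)⟩
      rw [ZMod.val_one, one_smul]
  rw [ha, smul_comm, h3]

/-- `ZMod (2^m)` as the group of `2^m`-th roots of unity. -/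
noncomputable def zh (Ω : Type) [Field Ω] (m : ℕ) : ZMod (2 ^ m) →+ MuT Ω :=
  ZMod.lift (2 ^ m) ⟨zmultiplesHom (MuT Ω) (zet Ω m), zpow_zet m⟩

/-- `ZMod 2` as the group `{1, -1}`. -/
noncomputable def hfM (Ω : Type) [Field Ω] : ZMod 2 →+ MuT Ω :=
  ZMod.lift 2 ⟨zmultiplesHom (MuT Ω) (zet Ω 1), by
    have := zpow_zet (Ω := Ω) 1
    rwa [pow_one] at this⟩

theorem zh_intCast (m : ℕ) (k : ℤ) : zh Ω m (k : ZMod (2 ^ m)) = k • zet Ω m := by
  rw [zh, ZMod.lift_coe]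
  rfl

theorem hfM_intCast (k : ℤ) : hfM Ω (k : ZMod 2) = k • zet Ω 1 := by
  rw [hfM, ZMod.lift_coe]
  rfl

theorem hfM_one : hfM Ω 1 = zet Ω 1 := by
  have := hfM_intCast (Ω := Ω) 1
  rwa [Int.cast_one, one_smul] at this

theorem zh_two (m : ℕ) (a : ZMod (2 ^ (m + 1))) :
    (2 : ℕ) • zh Ω (m + 1) a =
      zh Ω m (ZMod.castHom (pow_dvd_pow 2 (Nat.le_succ m)) (ZMod (2 ^ m)) a) := by
  obtain ⟨k, rfl⟩ := ZMod.intCast_surjective a
  rw [zh_intCast, map_intCast, zh_intCast, smul_comm, two_zet]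

theorem smul_zh [IsSepClosed Ω] (h2 : (2 : Ω) ≠ 0) (s : Ω ≃ₐ[K] Ω) (m : ℕ) (a : ZMod (2 ^ m)) :
    s • zh Ω m a = zh Ω m (cyc m s * a) := by
  obtain ⟨k, rfl⟩ := ZMod.intCast_surjective a
  have h1 : cyc m s * (k : ZMod (2 ^ m)) = (((cyc m s).val : ℤ) * k : ℤ) := by
    rw [Int.cast_mul, Int.cast_natCast, ZMod.natCast_zmod_val]
  rw [h1, zh_intCast, zh_intCast, smul_comm, smul_zet h2, mul_comm, mul_smul, natCast_zsmul]

/-- `zh (n + 1) (2^n k) = hf k`. -/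
theorem zh_top (n : ℕ) (k : ℤ) :
    zh Ω (n + 1) ((2 ^ n * k : ℤ) : ZMod (2 ^ (n + 1))) = hfM Ω (k : ZMod 2) := by
  rw [zh_intCast, hfM_intCast, mul_comm, mul_smul]
  congr 1
  have := two_pow_zet (Ω := Ω) n 1
  rw [add_comm] at this
  rw [← this, ← natCast_zsmul]
  push_cast
  rfl

theorem hfM_inj [IsSepClosed Ω] (h2 : (2 : Ω) ≠ 0) : Function.Injective (hfM Ω) := by
  rw [injective_iff_map_eq_zero]
  intro a ha
  have h01 : ∀ a : ZMod 2, a = 0 ∨ a = 1 := by decide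
  rcases h01 a with h | h
  · exact h
  · exfalso
    rw [h, hfM_one] at ha
    have h1 := el_zet_one h2
    rw [ha, MuT.el_zero] at h1
    apply h2
    rw [← one_add_one_eq_two]
    nth_rewrite 1 [h1]
    exact neg_add_cancel 1

theorem MuT.two [IsSepClosed Ω] (h2 : (2 : Ω) ≠ 0) (u : MuT Ω) (hu : (2 : ℕ) • u = 0) :
    ∃ a, hfM Ω a = u := by
  obtain ⟨a, ha⟩ := exists_nsmul_zet h2 (m := 1) (by rwa [pow_one])
  refine ⟨((a : ℤ) : ZMod 2), ?_⟩
  rw [hfM_intCast, ha, natCast_zsmul]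

end

end Pool.Agent.SmP
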