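import Pool.Agent.Lib.SmD.HomLoc
import Pool.Agent.Lib.SmD.NN
import Pool.Agent.Lib.Sm.G.Gen

/-!
# SMITH, block P: the tame relation

`w` a place of the separably closed Galois extension `Om` of `K`, `2` a unit at `w`, `π` a
uniformizer of the place below, `τ` a tame inertia element, `φ` a Frobenius element, `q` the
number of elements of the residue field of the place below.

* `iner_gen`: modulo every `N ∈ NN K Om` the inertia group is generated by `τ`;
* `tame`: `φ τ φ⁻¹ (τ ^ q)⁻¹ ∈ N` for every `N ∈ NN K Om`.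
-/

set_option autoImplicit false

namespace Pool.Agent.SmP

open Pool.Agent.Lib.SmD Pool.Agent.SmD

variable {K Om : Type*} [Field K] [Field Om] [Algebra K Om] {w : ValuationSubring Om} {π : K}

/-- `2`-power roots exist -/
theorem exists_root2 [IsSepClosed Om] (h2 : (2 : Om) ≠ 0) (x : Om) (r : ℕ) :
    ∃ y : Om, y ^ (2 ^ r) = x := by
  induction r with
  | zero => exact ⟨x, by simp⟩
  | succ r ih =>
    obtain ⟨y, hy⟩ := ih
    obtain ⟨z, hz⟩ := Pool.Agent.Lib.SmD.exists_sqrt h2 y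
    exact ⟨z, by rw [pow_succ', pow_mul, hz, hy]⟩

/-- the automorphisms fixing all `2 ^ r`-th roots of `a` -/
def fixRoots (Om : Type*) [Field Om] [Algebra K Om] (a : K) (r : ℕ) : Subgroup (Om ≃ₐ[K] Om) where
  carrier := {σ | ∀ y : Om, y ^ (2 ^ r) = algebraMap K Om a → σ y = y}
  one_mem' := fun _ _ => rfl
  mul_mem' := by
    intro σ τ hσ hτ y hy
    rw [AlgEquiv.mul_apply, hτ y hy, hσ y hy]
  inv_mem' := by
    intro σ hσ y hy
    have h := hσ y hy
    calc σ⁻¹ y = σ⁻¹ (σ y) := by rw [h]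
      _ = y := by rw [← AlgEquiv.mul_apply, inv_mul_cancel, AlgEquiv.one_apply]

theorem mem_fixRoots {a : K} {r : ℕ} {σ : Om ≃ₐ[K] Om} :
    σ ∈ fixRoots Om a r ↔ ∀ y : Om, y ^ (2 ^ r) = algebraMap K Om a → σ y = y := Iff.rfl

theorem pow_mem_fixRoots (a : K) (σ : Om ≃ₐ[K] Om) (r : ℕ) :
    ∃ m : ℕ, σ ^ (2 ^ m) ∈ fixRoots Om a r := by
  induction r with
  | zero =>
    refine ⟨0, fun y hy => ?_⟩
    rw [pow_zero, pow_one] at hy
    rw [hy, AlgEquiv.commutes]
  | succ r ih =>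
    obtain ⟨m, hm⟩ := ih
    refine ⟨m + 1, fun y hy => ?_⟩
    set τ := σ ^ (2 ^ m) with hτ
    have e : σ ^ (2 ^ (m + 1)) = τ * τ := by rw [hτ, ← pow_add]; congr 1; ring
    have h1 : τ (y ^ 2) = y ^ 2 := hm (y ^ 2) (by rw [← pow_mul, ← pow_succ', hy])
    rw [map_pow] at h1
    rw [e, AlgEquiv.mul_apply]
    rcases sq_eq_sq_iff_eq_or_eq_neg.mp h1 with h | h
    · rw [h, h]
    · rw [h, map_neg, h, neg_neg]

theorem fixRoots_mem_NN [IsGalois K Om] (a : K) (r : ℕ) : fixRoots Om a r ∈ NN K Om := by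
  classical
  refine mem_NN_of_pow ⟨fun σ hσ τ => ?_⟩ ?_ (fun σ => pow_mem_fixRoots a σ r)
  · intro y hy
    have h1 : (τ⁻¹ y) ^ (2 ^ r) = algebraMap K Om a := by
      rw [← map_pow, hy, AlgEquiv.commutes]
    have h2 := hσ _ h1
    rw [AlgEquiv.mul_apply, AlgEquiv.mul_apply, h2, ← AlgEquiv.mul_apply, mul_inv_cancel,
      AlgEquiv.one_apply]
  · have hfin : {y : Om | y ^ (2 ^ r) = algebraMap K Om a}.Finite := by
      have hp : (Polynomial.X ^ (2 ^ r) - Polynomial.C (algebraMap K Om a) :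
          Polynomial Om) ≠ 0 := Polynomial.X_pow_sub_C_ne_zero (by positivity) _
      refine (Multiset.finite_toSet (Polynomial.X ^ (2 ^ r) - Polynomial.C (algebraMap K Om a) :
          Polynomial Om).roots).subset fun y hy => ?_
      have hy' : y ^ (2 ^ r) = algebraMap K Om a := hy
      rw [Set.mem_ofPred_eq, Polynomial.mem_roots hp, Polynomial.IsRoot.def]
      simp [hy']
    have h3 : (fixRoots Om a r : Set (Om ≃ₐ[K] Om)) =
        ⋂ y ∈ {y : Om | y ^ (2 ^ r) = algebraMap K Om a},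
          (MulAction.stabilizer (Om ≃ₐ[K] Om) y : Set (Om ≃ₐ[K] Om)) := by
      ext σ
      simp only [Set.mem_iInter]
      rfl
    rw [h3]
    exact hfin.isOpen_biInter fun y _ => stabilizer_isOpen_of_isIntegral (K := K) y

/-- `N ∈ NN` is defined at a finite level -/
theorem finOn_of_NN [IsGalois K Om] {N : Subgroup (Om ≃ₐ[K] Om)} (hN : N ∈ NN K Om) {α : Type*}
    (D : Subgroup (Om ≃ₐ[K] Om)) (f : (Om ≃ₐ[K] Om) → α)
    (hf : ∀ s ∈ D, ∀ n ∈ N, n ∈ D → f (s * n) = f s) : FinOn D f := by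
  obtain ⟨L, hfd, -, -, hL⟩ := exists_field_of_mem_NN hN
  refine ⟨L, hfd, fun s hs t ht hst => ?_⟩
  have h1 : s⁻¹ * t ∈ N := by
    rw [← hL, IntermediateField.mem_fixingSubgroup_iff]
    intro x hx
    rw [AlgEquiv.mul_apply, ← hst x hx, ← AlgEquiv.mul_apply, inv_mul_cancel, AlgEquiv.one_apply]
  have h2 := hf s hs _ h1 (D.mul_mem (D.inv_mem hs) ht)
  rw [mul_inv_cancel_left] at h2
  exact h2.symm

/-- the strong form: modulo `N ∈ NN` the inertia group is generated by a tame inertia element -/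
theorem iner_gen [IsGalois K Om] [IsSepClosed Om] (h : LocHyp K w π) {τ : Om ≃ₐ[K] Om}
    (hτ : IsSg K w π τ) {N : Subgroup (Om ≃ₐ[K] Om)} (hN : N ∈ NN K Om) {s : Om ≃ₐ[K] Om}
    (hs : s ∈ iner K w) : ∃ a : ℤ, (τ ^ a)⁻¹ * s ∈ N := by
  classical
  have hnorm := hN.1
  obtain ⟨r, hr⟩ := hN.2.2
  set I := iner K w with hI
  set N0 : Subgroup I := N.subgroupOf I with hN0
  set L : Subgroup I := (Subgroup.zpowers τ).subgroupOf I ⊔ N0 with hL
  have hcl : Subgroup.zpowers τ ≤ I := by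
    rw [Subgroup.zpowers_le]
    exact hτ.1
  have key : L = ⊤ := by
    by_contra hne
    have : N0.Normal := inferInstance
    have hidx : N0.index ∣ 2 ^ r := by
      rw [← hr]
      exact Subgroup.relIndex_dvd_index_of_normal N I
    obtain ⟨m, _, hm⟩ := (Nat.dvd_prime_pow Nat.prime_two).mp hidx
    obtain ⟨M, hLM, hM2⟩ := Pool.Agent.Sm.exists_index_two' N0 L hm le_sup_right hne
    let c : (Om ≃ₐ[K] Om) → ZMod 2 := fun s => if hs : s ∈ I then
      (if (⟨s, hs⟩ : I) ∈ M then 0 else 1) else 0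
    have hc : ∀ (s : Om ≃ₐ[K] Om) (hs : s ∈ I), c s = if (⟨s, hs⟩ : I) ∈ M then 0 else 1 := by
      intro s hs; simp only [c, hs, dite_true]
    have hadd : ∀ s ∈ I, ∀ t ∈ I, c (s * t) = c s + c t := by
      intro s hs t ht
      rw [hc s hs, hc t ht, hc (s * t) (I.mul_mem hs ht)]
      have := Subgroup.mul_mem_iff_of_index_two hM2 (a := (⟨s, hs⟩ : I)) (b := ⟨t, ht⟩)
      have e : (⟨s * t, I.mul_mem hs ht⟩ : I) = ⟨s, hs⟩ * ⟨t, ht⟩ := rfl
      rw [e]
      by_cases h1 : (⟨s, hs⟩ : I) ∈ M <;> by_cases h2 : (⟨t, ht⟩ : I) ∈ M <;>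
        simp only [this, h1, h2, if_true, if_false, iff_self, iff_false, not_true,
          iff_true] <;> decide
    have htf : FinOn I c := by
      refine finOn_of_NN hN I c fun s hs n hn hnI => ?_
      rw [hadd s hs n hnI, hc n hnI, if_pos (hLM (Subgroup.mem_sup_right ?_)), add_zero]
      rw [hN0, Subgroup.mem_subgroupOf]
      exact hn
    have h0 : c τ = 0 := by
      rw [hc τ hτ.1, if_pos]
      apply hLM
      apply Subgroup.mem_sup_left
      rw [Subgroup.mem_subgroupOf]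
      exact Subgroup.mem_zpowers τ
    have hall := hom_iner h hτ hadd htf h0
    have : M = ⊤ := by
      rw [eq_top_iff]
      rintro ⟨x, hx⟩ _
      have := hall x hx
      rw [hc x hx] at this
      by_contra hxM
      rw [if_neg hxM] at this
      exact one_ne_zero this
    rw [this, Subgroup.index_top] at hM2
    omega
  have hsL : (⟨s, hs⟩ : I) ∈ L := by rw [key]; trivial
  obtain ⟨t, ht, n, hn, htn⟩ := (Subgroup.mem_sup_of_normal_right).mp hsL
  rw [Subgroup.mem_subgroupOf] at ht hn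
  obtain ⟨a, ha⟩ := Subgroup.mem_zpowers_iff.1 ht
  refine ⟨a, ?_⟩
  have h3 : ((t : I) : Om ≃ₐ[K] Om) * (n : Om ≃ₐ[K] Om) = s := by
    have := congrArg (fun z : I => (z : Om ≃ₐ[K] Om)) htn
    exact this
  rw [ha, ← h3, inv_mul_cancel_left]
  exact hn

/-- `2`-power roots of unity are not congruent to `1` -/
theorem root_eq_one (h2 : w.valuation 2 = 1) (r : ℕ) : ∀ z : Om, z ^ (2 ^ r) = 1 →
    w.valuation (z - 1) < 1 → z = 1 := by
  induction r with
  | zero => intro z hz _; simpa using hz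
  | succ r ih =>
    intro z hz hlt
    have hz1 : w.valuation z = 1 := by
      have : w.valuation z ^ (2 ^ (r + 1)) = 1 := by rw [← map_pow, hz, map_one]
      exact (pow_eq_one_iff.1 this).resolve_right (by positivity)
    have h3 : z ^ 2 = 1 := by
      apply ih
      · rw [← pow_mul, ← pow_succ', hz]
      · have e : z ^ 2 - 1 = (z - 1) * (z + 1) := by ring
        rw [e, map_mul]
        have h4 : w.valuation (z + 1) ≤ 1 := by
          refine (w.valuation.map_add _ _).trans ?_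
          rw [hz1, map_one, max_self]
        calc w.valuation (z - 1) * w.valuation (z + 1) ≤ w.valuation (z - 1) * 1 :=
              mul_le_mul_right h4 _
          _ < 1 := by rwa [mul_one]
    rw [sq] at h3
    rcases mul_self_eq_one_iff.1 h3 with h | h
    · exact h
    · exfalso
      rw [h] at hlt
      have e : (-1 - 1 : Om) = -2 := by norm_num
      rw [e, Valuation.map_neg, h2] at hlt
      exact lt_irrefl _ hlt

/-- inertia fixes the roots of unity of `2`-power order -/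
theorem iner_root (h2 : w.valuation 2 = 1) {σ : Om ≃ₐ[K] Om} (hσ : σ ∈ iner K w) (r : ℕ) :
    ∀ z : Om, z ^ (2 ^ r) = 1 → σ z = z := by
  induction r with
  | zero => intro z hz; rw [pow_zero, pow_one] at hz; rw [hz, map_one]
  | succ r ih =>
    intro z hz
    have h3 : (z ^ 2) ^ (2 ^ r) = 1 := by rw [← pow_mul, ← pow_succ', hz]
    have h4 : w.valuation (z ^ 2) = 1 := by
      have : w.valuation (z ^ 2) ^ (2 ^ r) = 1 := by rw [← map_pow, h3, map_one]
      exact (pow_eq_one_iff.1 this).resolve_right (by positivity)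
    exact sqrt_fix_iner h2 hσ h4 (ih _ h3) rfl

/-- a Frobenius element raises the roots of unity of `2`-power order to the power `q` -/
theorem frob_root (h2 : w.valuation 2 = 1) {φ : Om ≃ₐ[K] Om} (hφ : IsFrob K w φ) (r : ℕ) {z : Om}
    (hz : z ^ (2 ^ r) = 1) : φ z = z ^ resCard (below K w) := by
  set q := resCard (below K w) with hq
  have hz0 : z ≠ 0 := by
    rintro rfl
    rw [zero_pow (by positivity)] at hz
    exact zero_ne_one hz
  have hz1 : w.valuation z = 1 := by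
    have : w.valuation z ^ (2 ^ r) = 1 := by rw [← map_pow, hz, map_one]
    exact (pow_eq_one_iff.1 this).resolve_right (by positivity)
  have hzw : z ∈ w := by rw [← ValuationSubring.valuation_le_one_iff, hz1]
  have h3 := hφ.frob z hzw
  have h4 : φ z * (z ^ q)⁻¹ = 1 := by
    apply root_eq_one h2 r
    · rw [mul_pow, ← map_pow, hz, map_one, inv_pow, ← pow_mul, mul_comm q, pow_mul, hz, one_pow,
        inv_one, mul_one]
    · have e : φ z * (z ^ q)⁻¹ - 1 = (φ z - z ^ q) * (z ^ q)⁻¹ := by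
        rw [sub_mul, mul_inv_cancel₀ (pow_ne_zero _ hz0)]
      rw [e, map_mul, map_inv₀, map_pow, hz1, one_pow, inv_one, mul_one]
      exact h3
  exact (mul_inv_eq_one₀ (pow_ne_zero _ hz0)).1 h4

/-- the tame relation modulo `N ∈ NN` -/
theorem tame [IsGalois K Om] [IsSepClosed Om] (h : LocHyp K w π) {τ φ : Om ≃ₐ[K] Om}
    (hτ : IsSg K w π τ) (hφ : IsFrob K w φ) {N : Subgroup (Om ≃ₐ[K] Om)} (hN : N ∈ NN K Om) :
    φ * τ * φ⁻¹ * (τ ^ resCard (below K w))⁻¹ ∈ N := by
  set q := resCard (below K w) with hq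
  obtain ⟨r, hr⟩ := hN.2.2
  have hnorm := hN.1
  set s := φ * τ * φ⁻¹ * (τ ^ q)⁻¹ with hs
  have hsI : s ∈ iner K w := by
    rw [hs]
    refine (iner K w).mul_mem ?_ ((iner K w).inv_mem ((iner K w).pow_mem hτ.1 q))
    exact iner_conj hφ.mem hτ.1
  have h2 : (2 : Om) ≠ 0 := h.two_ne
  have hπ0 : algebraMap K Om π ≠ 0 := (map_ne_zero_iff _ (algebraMap K Om).injective).2 h.pi_ne
  -- `τ` and `φ` on a root of `π`
  have hact : ∀ σ : Om ≃ₐ[K] Om, ∀ y : Om, y ^ (2 ^ r) = algebraMap K Om π →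
      (σ y * y⁻¹) ^ (2 ^ r) = 1 ∧ σ y = (σ y * y⁻¹) * y := by
    intro σ y hy
    have hy0 : y ≠ 0 := by
      rintro rfl
      rw [zero_pow (by positivity)] at hy
      exact hπ0 hy.symm
    constructor
    · rw [mul_pow, ← map_pow, hy, AlgEquiv.commutes, inv_pow, hy, mul_inv_cancel₀ hπ0]
    · rw [mul_assoc, inv_mul_cancel₀ hy0, mul_one]
  have hpow : ∀ y : Om, y ^ (2 ^ r) = algebraMap K Om π → ∀ n : ℕ,
      (τ ^ n) y = (τ y * y⁻¹) ^ n * y := by
    intro y hy n
    obtain ⟨e1, e2⟩ := hact τ y hy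
    induction n with
    | zero => simp
    | succ n ih =>
      rw [pow_succ', AlgEquiv.mul_apply, ih, map_mul, iner_root h.two hτ.1 r _ (by
        rw [← pow_mul, mul_comm n, pow_mul, e1, one_pow])]
      calc (τ y * y⁻¹) ^ n * τ y = (τ y * y⁻¹) ^ n * ((τ y * y⁻¹) * y) := by rw [← e2]
        _ = (τ y * y⁻¹) ^ n * (τ y * y⁻¹) * y := (mul_assoc _ _ _).symm
        _ = (τ y * y⁻¹) ^ (n + 1) * y := by rw [pow_succ]
  -- `φ τ = τ ^ q φ` on the roots of `π`
  have hcomm : ∀ y : Om, y ^ (2 ^ r) = algebraMap K Om π → φ (τ y) = (τ ^ q) (φ y) := by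
    intro y hy
    obtain ⟨e1, e2⟩ := hact τ y hy
    obtain ⟨f1, f2⟩ := hact φ y hy
    calc φ (τ y) = φ ((τ y * y⁻¹) * y) := by rw [← e2]
      _ = (τ y * y⁻¹) ^ q * φ y := by rw [map_mul, frob_root h.two hφ r e1]
      _ = (τ y * y⁻¹) ^ q * ((φ y * y⁻¹) * y) := by rw [← f2]
      _ = (φ y * y⁻¹) * ((τ y * y⁻¹) ^ q * y) := by ring
      _ = (τ ^ q) (φ y * y⁻¹) * (τ ^ q) y := by
          rw [iner_root h.two ((iner K w).pow_mem hτ.1 q) r _ f1, hpow y hy]
      _ = (τ ^ q) (φ y) := by rw [← map_mul, ← f2]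
  have hfix : ∀ y : Om, y ^ (2 ^ r) = algebraMap K Om π → s y = y := by
    intro y hy
    set y0 := φ⁻¹ ((τ ^ q)⁻¹ y) with hy0
    have h3 : y0 ^ (2 ^ r) = algebraMap K Om π := by
      rw [hy0, ← map_pow, ← map_pow, hy, AlgEquiv.commutes, AlgEquiv.commutes]
    have h4 : s y = φ (τ y0) := by
      rw [hs, AlgEquiv.mul_apply, AlgEquiv.mul_apply, AlgEquiv.mul_apply]
    rw [h4, hcomm y0 h3, hy0]
    have e1 : φ (φ⁻¹ ((τ ^ q)⁻¹ y)) = (τ ^ q)⁻¹ y := by
      rw [← AlgEquiv.mul_apply, mul_inv_cancel, AlgEquiv.one_apply]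
    rw [e1, ← AlgEquiv.mul_apply, mul_inv_cancel, AlgEquiv.one_apply]
  -- conclusion
  obtain ⟨a, ha⟩ := iner_gen h hτ (inf_mem_NN hN (fixRoots_mem_NN π r)) hsI
  obtain ⟨y, hy⟩ := exists_root2 h2 (algebraMap K Om π) r
  have hn : ((τ ^ a)⁻¹ * s) y = y := ha.2 y hy
  have hya : (τ ^ a) y = y := by
    rw [AlgEquiv.mul_apply, hfix y hy] at hn
    calc (τ ^ a) y = (τ ^ a) ((τ ^ a)⁻¹ y) := by rw [hn]
      _ = y := by rw [← AlgEquiv.mul_apply, mul_inv_cancel, AlgEquiv.one_apply]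
  have hτN : τ ^ (2 ^ r) ∈ N := by
    rw [← hr]
    exact Subgroup.pow_index_mem N τ
  -- the order of the action of `τ` on `y`
  have hdvd : ((2 ^ r : ℕ) : ℤ) ∣ a := by
    obtain ⟨e1, e2⟩ := hact τ y hy
    set ζ := τ y * y⁻¹ with hζ
    have hy0 : y ≠ 0 := by
      rintro rfl
      rw [zero_pow (by positivity)] at hy
      exact hπ0 hy.symm
    have hord : orderOf ζ = 2 ^ r := by
      rcases r with _ | r
      · rw [pow_zero, pow_one] at e1
        rw [e1, orderOf_one, pow_zero]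
      · refine orderOf_eq_prime_pow ?_ e1
        intro h3
        have h4 : (y ^ (2 ^ r)) ^ 2 = algebraMap K Om π := by rw [← pow_mul, ← pow_succ, hy]
        have h5 := hτ.2
        rw [chi_eq_one_iff h2 h.pi_ne τ h4] at h5
        have h6 : τ (y ^ (2 ^ r)) = y ^ (2 ^ r) := by
          rw [map_pow, e2, mul_pow, h3, one_mul]
        rw [h6] at h5
        have h7 : (2 : Om) * y ^ (2 ^ r) = 0 := by linear_combination h5
        exact (mul_ne_zero h2 (pow_ne_zero _ hy0)) h7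
    have hza : ∀ n : ℕ, (τ ^ n) y = ζ ^ n * y := hpow y hy
    -- reduce to a natural exponent
    obtain ⟨n, rfl | rfl⟩ := a.eq_nat_or_neg
    · rw [zpow_natCast, hza] at hya
      have h3 : ζ ^ n = 1 := by
        have : ζ ^ n * y = 1 * y := by rw [hya, one_mul]
        exact mul_right_cancel₀ hy0 this
      rw [← orderOf_dvd_iff_pow_eq_one, hord] at h3
      exact_mod_cast h3
    · rw [zpow_neg, zpow_natCast] at hya
      have h4 : (τ ^ n) y = y := by
        conv_rhs => rw [← AlgEquiv.one_apply (R := K) y, ← mul_inv_cancel (τ ^ n),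
          AlgEquiv.mul_apply, hya]
      rw [hza] at h4
      have h3 : ζ ^ n = 1 := by
        have : ζ ^ n * y = 1 * y := by rw [h4, one_mul]
        exact mul_right_cancel₀ hy0 this
      rw [← orderOf_dvd_iff_pow_eq_one, hord] at h3
      rw [dvd_neg]
      exact_mod_cast h3
  obtain ⟨b, hb⟩ := hdvd
  have h3 : τ ^ a ∈ N := by
    rw [hb, zpow_mul, zpow_natCast]
    exact N.zpow_mem hτN b
  have h4 := N.mul_mem h3 ha.1
  rwa [mul_inv_cancel_left] at h4

end Pool.Agent.SmP
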