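import Pool.Agent.Lib.Sm.P.LS
import Pool.Agent.Lib.Sm.P.DTame
import Pool.Agent.Lib.Sm.Inst.Inst

/-!
SMITH block P: the local data `LH` and `MFr` of the module LS for the system `sysOf`.

* `mfr_core`: at every place `eps v = m`, `sg v` fixes and `ph v` raises to the power `2 m + 1` the
  roots of unity of 2-power order, and the tame relation;
* `sysOf_LH`: existence of `al`, `be`;
* `sysOf_MFr`: `MFr` for a 2-power torsion module of units.
-/

set_option autoImplicit false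

open Polynomial Pool.Agent.BSDFF Pool.Agent.Lib.SmD Pool.Agent.SmithE Pool.Agent.BSDP.R

namespace Pool.Agent.Sm.Inst

variable {k : Type} [Field k] [Finite k] {Ω : Type} [Field Ω] [Algebra (RatFunc k) Ω]
  [IsSepClosure (RatFunc k) Ω]

theorem mfr_core (h2 : (2 : k) ≠ 0) (v : Place k (RatFunc k)) : ∃ m : ℕ,
    SmF.eps v = (m : ZMod 2) ∧
    (∀ (r : ℕ) (z : Ω), z ^ 2 ^ r = 1 → sg Ω v z = z) ∧
    (∀ (r : ℕ) (z : Ω), z ^ 2 ^ r = 1 → ph Ω v z = z ^ (2 * m + 1)) ∧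
    ∀ N ∈ SmD.NN (RatFunc k) Ω,
      ph Ω v * sg Ω v * (ph Ω v)⁻¹ * ((sg Ω v) ^ (2 * m + 1))⁻¹ ∈ N := by
  have : IsSepClosed Ω := IsSepClosure.sep_closed (RatFunc k)
  have : IsGalois (RatFunc k) Ω := inferInstance
  obtain ⟨m, hm, he⟩ := exists_half_resCard (Ω := Ω) h2 v
  obtain ⟨π, hπ, h⟩ := exists_locHyp (Om := Ω) h2 v
  refine ⟨m, he, fun r z hz => SmP.iner_root h.two (sg_iner h2 v) r z hz, fun r z hz => ?_,
    fun N hN => ?_⟩
  · rw [← hm]
    exact SmP.frob_root h.two (ph_frob v) r hz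
  · rw [← hm]
    exact SmP.tame h (isSg_sg h2 v hπ) (ph_frob v) hN

/-- The homomorphisms `al`, `be`. -/
theorem sysOf_LH {α β : k[X]} (h2 : (2 : k) ≠ 0) (hα : α ≠ 0) (hβ : β ≠ 0) (hαβ : α ≠ β) :
    ∃ al be : Place k (RatFunc k) → (Ω ≃ₐ[RatFunc k] Ω) → ZMod 2,
      (sysOf Ω h2 hα hβ hαβ).LH al be := by
  have : IsSepClosed Ω := IsSepClosure.sep_closed (RatFunc k)
  have : IsGalois (RatFunc k) Ω := inferInstance
  choose f hf0 hfs hfp using fun v : Place k (RatFunc k) => exists_chi_pair (Om := Ω) h2 v 1 0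
  choose g hg0 hgs hgp using fun v : Place k (RatFunc k) => exists_chi_pair (Om := Ω) h2 v 0 1
  exact ⟨fun v => chi (RatFunc k) (f v), fun v => chi (RatFunc k) (g v),
    { al_hom := fun v => SmF.chi_homG (two_K h2) (hf0 v)
      be_hom := fun v => SmF.chi_homG (two_K h2) (hg0 v)
      al_sg := hfs
      al_phi := hfp
      be_sg := hgs
      be_phi := hgp }⟩

/-- `MFr` for the 2-power torsion modules of units of `Ω`. -/
theorem sysOf_MFr {α β : k[X]} (h2 : (2 : k) ≠ 0) (hα : α ≠ 0) (hβ : β ≠ 0) (hαβ : α ≠ β)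
    {M : Type*} [AddCommGroup M] [DistribMulAction (Ω ≃ₐ[RatFunc k] Ω) M]
    (j : M →+ Additive Ωˣ) (hj : Function.Injective j)
    (hjs : ∀ (s : Ω ≃ₐ[RatFunc k] Ω) (x : M), (((j (s • x)).toMul : Ωˣ) : Ω) =
      s (((j x).toMul : Ωˣ) : Ω))
    (htor : ∀ x : M, ∃ r : ℕ, (2 : ℕ) ^ r • x = 0) :
    (sysOf Ω h2 hα hβ hαβ).MFr M := by
  intro v
  obtain ⟨m, h1, h3, h4, h5⟩ := mfr_core (Ω := Ω) h2 v
  have hz : ∀ x : M, ∃ r : ℕ, (((j x).toMul : Ωˣ) : Ω) ^ 2 ^ r = 1 := by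
    intro x
    obtain ⟨r, hr⟩ := htor x
    refine ⟨r, ?_⟩
    have h6 : (2 : ℕ) ^ r • j x = 0 := by rw [← map_nsmul, hr, map_zero]
    have h7 : ((j x).toMul : Ωˣ) ^ 2 ^ r = 1 := by
      have := congrArg Additive.toMul h6
      simpa using this
    rw [← Units.val_pow_eq_pow_val, h7, Units.val_one]
  refine ⟨m, h1, fun x => ?_, fun x => ?_, h5⟩
  · obtain ⟨r, hr⟩ := hz x
    apply hj
    apply Additive.toMul.injective
    apply Units.ext
    exact (hjs _ x).trans (h3 r _ hr)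
  · obtain ⟨r, hr⟩ := hz x
    apply hj
    apply Additive.toMul.injective
    apply Units.ext
    refine (hjs _ x).trans ((h4 r _ hr).trans ?_)
    rw [map_nsmul, toMul_nsmul, Units.val_pow_eq_pow_val]

end Pool.Agent.Sm.Inst
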