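import Pool.Agent.Lib.Sm.P.MuLoc
import Pool.Agent.Lib.Sm.Inst.Inst

/-!
# SMITH block P (parity), module MInst: the module `MuT Ω` over the places of `k(t)`
-/

set_option autoImplicit false

open Polynomial Pool.Agent.BSDFF Pool.Agent.Lib.SmD Pool.Agent.SmithE Pool.Agent.BSDP.R

namespace Pool.Agent.Sm.Inst

open Pool.Agent.SmP

variable {k : Type} [Field k] [Finite k] {Ω : Type} [Field Ω] [Algebra (RatFunc k) Ω]

open scoped Classical in
/-- The facts on `M` for the instance over `k(t)`. -/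
theorem mok_sysOf [IsSepClosure (RatFunc k) Ω] {α β : k[X]}
    (h2 : (2 : k) ≠ 0) (hα : α ≠ 0) (hβ : β ≠ 0) (hαβ : α ≠ β)
    (hok : (sysOf Ω h2 hα hβ hαβ).Ok) : (sysOf Ω h2 hα hβ hαβ).MOk (hfM Ω) := by
  have hsc : IsSepClosed Ω := IsSepClosure.sep_closed (RatFunc k)
  have hgal : IsGalois (RatFunc k) Ω := inferInstance
  have h20 : (2 : Ω) ≠ 0 := SmF.two_ne_zero' (two_K h2)
  obtain ⟨p, hp⟩ := CharP.exists k
  have hpp : p.Prime := CharP.char_is_prime k p
  have hfp : Fact p.Prime := ⟨hpp⟩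
  have hpK : CharP (RatFunc k) p :=
    charP_of_injective_algebraMap (algebraMap k (RatFunc k)).injective p
  have hpΩ : CharP Ω p :=
    charP_of_injective_algebraMap (algebraMap (RatFunc k) Ω).injective p
  have hodd : Odd p := by
    rcases hpp.eq_two_or_odd' with h | h
    · exfalso
      apply h2
      have := CharP.cast_eq_zero k p
      rw [h] at this
      exact_mod_cast this
    · exact h
  refine
    { half := MuT.half h20
      tors := MuT.tors
      inj := hfM_inj h20
      two := MuT.two h20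
      act := MuT.act h20
      l90 := fun v z hz hzc => ?_ }
  refine Sys.l90_of hok v (MuT.half h20) (MuT.act h20) (fun m => ?_) (fun m => ?_) (fun m => ?_)
    z hz hzc
  · obtain ⟨π, hπ, hL⟩ := exists_locHyp (Om := Ω) h2 v
    obtain ⟨κ, ⟨N, hN, h1⟩, h3, h4⟩ := exists_kummer h20 hL.pi_ne (chi_sg_irr (Om := Ω) h2 v hπ) m
    exact ⟨κ, ⟨N, hN, fun s _ n hn _ => h1 s n hn⟩, fun s _ t _ => h3 s t, h4⟩
  · exact MuT.smul_iner hodd (sg_iner (Om := Ω) h2 v) m
  · have hfin := finite_residue_below (Om := Ω) v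
    refine MuT.frob_sub h20 hodd (ph_frob (Om := Ω) v) ?_ m
    exact Finite.one_lt_card

end Pool.Agent.Sm.Inst
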