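import Pool.Agent.Lib.Sm.P.WeilV
import Pool.Agent.Lib.Sm.P.Weil

/-!
SMITH, block P: the family `we B z` of Weil pairings is an instance of the structure `Weil`.
-/

set_option autoImplicit false

namespace Pool.Agent.SmP

open Pool.Agent.Sm

variable {G V Pl M : Type*} [Group G] [AddCommGroup V] [DistribMulAction G V] [AddCommGroup M]
  [DistribMulAction G M]

theorem weil_of_CB (S : Sys G V Pl) (B : CB V) (hP : B.P 1 = S.iota (1, 0))
    (hQ : B.Q 1 = S.iota (0, 1)) (z : (m : ℕ) → ZMod (2 ^ m) →+ M)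
    (hz : ∀ (m : ℕ) (a : ZMod (2 ^ (m + 1))), (2 : ℕ) • z (m + 1) a =
      z m (ZMod.castHom (pow_dvd_pow 2 (Nat.le_succ m)) (ZMod (2 ^ m)) a))
    (hs : ∀ (m : ℕ) (s : G) (a : ZMod (2 ^ m)), s • z m a = z m (dt B m s * a))
    (j : ZMod 2 →+ M) (hj : ∀ a : ℤ, j (a : ZMod 2) = z 1 a)
    (hfix : ∀ (s : G) (a : ZMod 2), s • j a = j a) : Weil S (we B z) j where
  add_left m _ _ y hx hx' _ := we_add_left B z m y hx hx'
  add_right m x _ _ _ hy hy' := we_add_right B z m x hy hy'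
  alt m x _ := we_self B z m x
  comp m _ _ hx hy := we_shift B z hz m hx hy
  equiv m s _ _ hx hy := we_smul B z (hs m s) hx hy
  one w w' := we_iota B z hP hQ hj w w'
  fix := hfix

end Pool.Agent.SmP
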