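import Pool.Agent.Lib.Sm.P.Det
import Pool.Agent.Lib.Sm.P.WeilI
import Pool.Agent.Lib.Sm.Inst.Inst

/-!
SMITH, block P0: the Weil pairings for the instance `sysOf` of `Sys` (the curve
`y ^ 2 = x (x - α) (x - β)` over `k(t)`).
-/

set_option autoImplicit false

open Polynomial

namespace Pool.Agent.SmP

open Pool.Agent.Sm Pool.Agent.SmithE Pool.Agent.Lib.SmD Pool.Agent.BSDFF

variable {k : Type} [Field k] [Finite k] {Ω : Type} [Field Ω] [Algebra (RatFunc k) Ω]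
  [IsSepClosure (RatFunc k) Ω]

/-- **The Weil pairings for `sysOf`.** -/
theorem exists_weil {α β : k[X]} (h2 : (2 : k) ≠ 0) (hα : α ≠ 0) (hβ : β ≠ 0) (hαβ : α ≠ β)
    (hc : ∀ c : k, β ≠ C c * α) {M : Type} [AddCommGroup M]
    [DistribMulAction (Ω ≃ₐ[RatFunc k] Ω) M] (z : (m : ℕ) → ZMod (2 ^ m) →+ M)
    (hz : ∀ (m : ℕ) (a : ZMod (2 ^ (m + 1))), (2 : ℕ) • z (m + 1) a =
      z m (ZMod.castHom (pow_dvd_pow 2 (Nat.le_succ m)) (ZMod (2 ^ m)) a))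
    (hs : ∀ (m : ℕ) (s : Ω ≃ₐ[RatFunc k] Ω) (a : ZMod (2 ^ m)), s • z m a = z m (cyc m s * a))
    (j : ZMod 2 →+ M) (hj : ∀ a : ℤ, j (a : ZMod 2) = z 1 a)
    (hfix : ∀ (s : Ω ≃ₐ[RatFunc k] Ω) (a : ZMod 2), s • j a = j a) :
    ∃ e, Weil (Inst.sysOf Ω h2 hα hβ hαβ) e j := by
  classical
  have hsc : IsSepClosed Ω := IsSepClosure.sep_closed (RatFunc k)
  obtain ⟨B, h1, h3⟩ := exists_CB_VV (Ω := Ω) (Inst.two_K h2) (Inst.zero_ne_map hα)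
    (Inst.zero_ne_map hβ) (Inst.map_ne_map hαβ)
  refine ⟨we B z, weil_of_CB (Inst.sysOf Ω h2 hα hβ hαβ) B ?_ ?_ z hz ?_ j hj hfix⟩
  · rw [h1]
    exact (iota_one_zero _ _ _ _).symm
  · rw [h3]
    exact (iota_zero_one _ _ _ _).symm
  · intro m s a
    rw [hs, dt_eq_cyc h2 hα hβ hαβ hc B m s]

end Pool.Agent.SmP
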