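import Pool.Agent.Lib.Sm.P.Sym
import Pool.Agent.Lib.Sm.P.MInst
import Pool.Agent.Lib.Sm.P.LHInst
import Pool.Agent.Lib.Sm.P.WeilS
import Pool.Agent.Lib.SM.C.Hasse

/-!
SMITH block P: the reciprocity `RecipM` and the Weil pairings for the system `sysOf`, with
coefficients in the module `MuT Ω` of the roots of unity of 2-power order.

* `mfr_sysOf`, `hasseF_sysOf` (the Hasse principle without infinity), `recipM_sysOf`,
  `weil_sysOf`; `ok_sysOf` is `Sys.Ok`.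
-/

set_option autoImplicit false

open Polynomial Pool.Agent.BSDFF Pool.Agent.Lib.SmD Pool.Agent.SmithE Pool.Agent.BSDP.R

namespace Pool.Agent.Sm.Inst

open Pool.Agent.SmP

variable {k : Type} [Field k] [Finite k] {Ω : Type} [Field Ω] [Algebra (RatFunc k) Ω]
  [IsSepClosure (RatFunc k) Ω] {α β : k[X]}

theorem mfr_sysOf (h2 : (2 : k) ≠ 0) (hα : α ≠ 0) (hβ : β ≠ 0) (hαβ : α ≠ β) :
    (sysOf Ω h2 hα hβ hαβ).MFr (MuT Ω) :=
  sysOf_MFr h2 hα hβ hαβ (muSub Ω).subtype Subtype.val_injective (fun _ _ => rfl) MuT.tors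

/-- Reciprocity with coefficients in the roots of unity of 2-power order. -/
theorem recipM_sysOf_of (h2 : (2 : k) ≠ 0) (hα : α ≠ 0) (hβ : β ≠ 0) (hαβ : α ≠ β)
    (hok : (sysOf Ω h2 hα hβ hαβ).Ok) (hH : (sysOf Ω h2 hα hβ hαβ).HasseF) :
    (sysOf Ω h2 hα hβ hαβ).RecipM (hfM Ω) := by
  obtain ⟨al, be, hl⟩ := sysOf_LH (Ω := Ω) h2 hα hβ hαβ
  have hM := mok_sysOf h2 hα hβ hαβ hok
  have hF := mfr_sysOf (Ω := Ω) h2 hα hβ hαβ
  have hZ : (sysOf Ω h2 hα hβ hαβ).RecipZ :=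
    Sys.recipZ_of hok hM hF hH hl (Sys.Rz.theta h2 hok hM hF hl rfl rfl rfl rfl rfl)
  exact hZ.recipM hok hM

/-- The Hasse principle without a condition at infinity. -/
theorem hasseF_sysOf (h2 : (2 : k) ≠ 0) (hα : α ≠ 0) (hβ : β ≠ 0) (hαβ : α ≠ β) :
    (sysOf Ω h2 hα hβ hαβ).HasseF := by
  intro c hc hcoc loc
  refine SmithC.hasse_fin h2 c hc hcoc fun v hv => ?_
  obtain ⟨b, ⟨N, hN, h⟩, hs⟩ := loc v hv
  exact ⟨b, ⟨N, SmD.NN.normal hN, SmD.NN.isOpen hN, h⟩, hs⟩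

/-- All hypotheses of the abstract part. -/
theorem ok_sysOf (h2 : (2 : k) ≠ 0) (hα : α ≠ 0) (hβ : β ≠ 0) (hαβ : α ≠ β) :
    (sysOf Ω h2 hα hβ hαβ).Ok :=
  sysOf_ok_of h2 hα hβ hαβ (SmithC.hasse h2)

/-- Reciprocity with coefficients in the roots of unity of 2-power order. -/
theorem recipM_sysOf (h2 : (2 : k) ≠ 0) (hα : α ≠ 0) (hβ : β ≠ 0) (hαβ : α ≠ β) :
    (sysOf Ω h2 hα hβ hαβ).RecipM (hfM Ω) :=
  recipM_sysOf_of h2 hα hβ hαβ (ok_sysOf h2 hα hβ hαβ) (hasseF_sysOf h2 hα hβ hαβ)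

/-- The Weil pairings with values in the roots of unity of 2-power order. -/
theorem weil_sysOf (h2 : (2 : k) ≠ 0) (hα : α ≠ 0) (hβ : β ≠ 0) (hαβ : α ≠ β)
    (hc : ∀ c : k, β ≠ C c * α) : ∃ e, Weil (sysOf Ω h2 hα hβ hαβ) e (hfM Ω) := by
  have hsc : IsSepClosed Ω := IsSepClosure.sep_closed (RatFunc k)
  have h20 : (2 : Ω) ≠ 0 := SmF.two_ne_zero' (two_K h2)
  refine exists_weil h2 hα hβ hαβ hc (zh Ω) zh_two (fun m s a => smul_zh h20 s m a) (hfM Ω)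
    (fun a => ?_) (fun s a => ?_)
  · rw [hfM_intCast, zh_intCast]
  · have h01 : ∀ a : ZMod 2, a = 0 ∨ a = 1 := by decide
    rcases h01 a with rfl | rfl
    · rw [map_zero, smul_zero]
    · rw [hfM_one]
      apply MuT.el_inj
      rw [MuT.el_smul, el_zet_one h20, map_neg, map_one]

end Pool.Agent.Sm.Inst
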