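import Pool.Agent.Lib.Sm.G.Kum

/-!
# SMITH block P5: the local quadratic forms

`hyp ep x` = the symbol `[c_1, c_2]_v` of the two components of a homomorphism `c : D_v → V1` with the
pair of values `x = (c (sg), c (phi))`. `S.qv m v x = [c_1, c_2]_v + <c, m>_v`: a quadratic form on
`V1 × V1` with polar form `S.sy v`. `S.QOk m`: it vanishes on all local Kummer groups, of all twists.
-/

set_option autoImplicit false

namespace Pool.Agent.Sm

variable {G V Pl : Type*} [Group G] [AddCommGroup V] [DistribMulAction G V]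

/-- The symbol `[x_1, x_2]` of the two components. -/
def hyp (ep : ZMod 2) (x : V1 × V1) : ZMod 2 :=
  x.1.1 * x.2.2 + x.2.1 * x.1.2 + ep * (x.1.1 * x.1.2)

/-- The polar form of `hyp` is `sym`. -/
theorem hyp_add (ep : ZMod 2) (x y : V1 × V1) :
    hyp ep (x + y) = hyp ep x + hyp ep y + sym ep x y := by
  simp only [hyp, sym, ee, Prod.fst_add, Prod.snd_add]
  ring

namespace Sys

/-- The local quadratic form `[x_1, x_2]_v + <x, m>_v`. -/
def qv (S : Sys G V Pl) (m : G → V1) (v : Pl) (x : V1 × V1) : ZMod 2 :=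
  hyp (S.eps v) x + S.sy v x (S.loc v m)

theorem qv_add (S : Sys G V Pl) (m : G → V1) (v : Pl) (x y : V1 × V1) :
    S.qv m v (x + y) = S.qv m v x + S.qv m v y + S.sy v x y := by
  simp only [qv, sy, hyp_add, sym_add_left]
  ring

/-- The quadratic form attached to `m` vanishes on all local Kummer groups. -/
structure QOk (S : Sys G V Pl) (m : G → V1) : Prop where
  hom : S.HomG m
  van : ∀ chi : G → ZMod 2, S.HomG chi → ∀ v, ∀ x ∈ S.Wl chi v, S.qv m v x = 0

end Sys

end Pool.Agent.Sm
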