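import Pool.Agent.Lib.Sm.P.Lagr
import Pool.Agent.Lib.Sm.P.QDefs
import Pool.Agent.Lib.Sm.G.Crit

/-!
# SMITH block P5, module Kramer: the parity of the 2-Selmer ranks of two twists

`parity_rel`: if outside the finite set `T` the local Kummer groups of the two twists agree or
intersect trivially, then `#Sel1 (chi) * #Sel1 (chi') * ∏_(v ∈ T) #(W_v ∩ W'_v)` is a square.
-/

set_option autoImplicit false

namespace Pool.Agent.Sm

open Module

theorem Kramer_sym_smul (ep a : ZMod 2) (x y : V1 × V1) : sym ep (a • x) y = a • sym ep x y := by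
  simp only [sym, ee, Prod.smul_fst, Prod.smul_snd, smul_eq_mul]
  ring

theorem Kramer_sym_nondeg : ∀ (ep : ZMod 2) (x : V1 × V1), (∀ y, sym ep x y = 0) → x = 0 := by
  decide +kernel

namespace Sys

variable {G V Pl : Type*} [Group G] [AddCommGroup V] [DistribMulAction G V]

section form

variable (S : Sys G V Pl) (U : Finset Pl)

/-- The sum of the local pairings over `U`. -/
noncomputable def bU : LinearMap.BilinForm (ZMod 2) (U → V1 × V1) :=
  LinearMap.mk₂ (ZMod 2) (fun x y => ∑ v : U, S.sy v.1 (x v) (y v))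
    (fun x y z => by
      simp only [Pi.add_apply, sy_add_left, Finset.sum_add_distrib])
    (fun a x y => by
      simp only [Pi.smul_apply, sy, Kramer_sym_smul, Finset.smul_sum])
    (fun x y z => by
      simp only [Pi.add_apply, sy_add_right, Finset.sum_add_distrib])
    (fun a x y => by
      simp only [Pi.smul_apply, sy, sym_comm _ (x _), Kramer_sym_smul, Finset.smul_sum])

theorem bU_apply (x y : U → V1 × V1) : S.bU U x y = ∑ v : U, S.sy v.1 (x v) (y v) := rfl

theorem bU_comm (x y : U → V1 × V1) : S.bU U x y = S.bU U y x := by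
  rw [bU_apply, bU_apply]
  exact Finset.sum_congr rfl fun v _ => sym_comm _ _ _

theorem bU_nondeg : (S.bU U).Nondegenerate := by
  classical
  have h : ∀ x, (∀ y, S.bU U x y = 0) → x = 0 := by
    intro x hx
    funext v
    refine Kramer_sym_nondeg (S.eps v.1) _ fun y => ?_
    have h1 := hx (Pi.single v y)
    rw [bU_apply, Finset.sum_eq_single v] at h1
    · rwa [Pi.single_eq_same] at h1
    · intro w _ hw
      rw [Pi.single_eq_of_ne hw, sy_zero_right]
    · intro h2
      exact absurd (Finset.mem_univ v) h2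
  refine ⟨h, ?_⟩
  intro y hy
  refine h y fun x => ?_
  rw [bU_comm]
  exact hy x

/-- The sum of the local quadratic forms over `U`. -/
noncomputable def qU (m : G → V1) (x : U → V1 × V1) : ZMod 2 := ∑ v : U, S.qv m v.1 (x v)

theorem qU_add (m : G → V1) (x y : U → V1 × V1) :
    S.qU U m (x + y) = S.qU U m x + S.qU U m y + S.bU U x y := by
  simp only [qU, bU_apply, Pi.add_apply, qv_add, Finset.sum_add_distrib]

theorem finrank_XU : finrank (ZMod 2) (U → V1 × V1) = 2 * (2 * U.card) := by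
  rw [Module.finrank_pi_fintype]
  simp only [Module.finrank_prod, Module.finrank_self, Finset.sum_const, Finset.card_univ,
    Fintype.card_coe, smul_eq_mul]
  ring

/-- The product of the local Kummer groups. -/
noncomputable def PW (chi : G → ZMod 2) : Submodule (ZMod 2) (U → V1 × V1) :=
  AddSubgroup.toZModSubmodule 2 (AddSubgroup.pi Set.univ fun v : U => S.W chi v.1)

theorem mem_PW {chi : G → ZMod 2} {x : U → V1 × V1} :
    x ∈ S.PW U chi ↔ ∀ v : U, x v ∈ S.W chi v.1 := by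
  rw [PW, AddSubgroup.mem_toZModSubmodule, AddSubgroup.mem_pi]
  exact ⟨fun h v => h v (Set.mem_univ v), fun h v _ => h v⟩

/-- The global classes which satisfy the local conditions outside `U`, as elements of the product
over `U`. -/
noncomputable def GU (chi : G → ZMod 2) (h : S.Ok) : Submodule (ZMod 2) (U → V1 × V1) :=
  AddSubgroup.toZModSubmodule 2
    { carrier := {x | ∃ c : G → V1, S.HomG c ∧ (∀ v : U, S.loc v.1 c = x v) ∧
        ∀ v, v ∉ U → S.loc v c ∈ S.W chi v}
      zero_mem' := ⟨0, HomG.zero h, fun _ => rfl, fun v _ => (S.W chi v).zero_mem⟩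
      add_mem' := by
        rintro x y ⟨c, h1, h2, h3⟩ ⟨d, g1, g2, g3⟩
        exact ⟨c + d, h1.add h g1, fun v => by rw [loc_add, h2, g2]; rfl,
          fun v hv => (S.W chi v).add_mem (h3 v hv) (g3 v hv)⟩
      neg_mem' := by
        rintro x ⟨c, h1, h2, h3⟩
        have hx : -x = x := funext fun v => by
          have : ∀ a : V1 × V1, -a = a := by decide
          exact this _
        rw [hx]
        exact ⟨c, h1, h2, h3⟩ }

theorem mem_GU {chi : G → ZMod 2} {h : S.Ok} {x : U → V1 × V1} :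
    x ∈ S.GU U chi h ↔ ∃ c : G → V1, S.HomG c ∧ (∀ v : U, S.loc v.1 c = x v) ∧
      ∀ v, v ∉ U → S.loc v c ∈ S.W chi v := Iff.rfl

end form

variable {S : Sys G V Pl}

private theorem Kramer_card {E : Type*} [AddCommGroup E] [Module (ZMod 2) E] [Module.Finite (ZMod 2) E] :
    Nat.card E = 2 ^ finrank (ZMod 2) E := by
  rw [Module.natCard_eq_pow_finrank (K := ZMod 2), Nat.card_eq_fintype_card, ZMod.card]

theorem card_PW_inf (U : Finset Pl) (chi chi' : G → ZMod 2) :
    Nat.card (S.PW U chi ⊓ S.PW U chi' : Submodule (ZMod 2) (U → V1 × V1)) =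
      ∏ v ∈ U, Nat.card (S.W chi v ⊓ S.W chi' v : AddSubgroup (V1 × V1)) := by
  classical
  rw [← Finset.prod_coe_sort U, ← Nat.card_pi]
  refine Nat.card_congr ⟨fun x v => ⟨x.1 v, (S.mem_PW U).mp x.2.1 v, (S.mem_PW U).mp x.2.2 v⟩,
    fun y => ⟨fun v => (y v).1, (S.mem_PW U).mpr fun v => (y v).2.1,
      (S.mem_PW U).mpr fun v => (y v).2.2⟩, fun _ => rfl, fun _ => rfl⟩

theorem finrank_PW (h : S.Ok) {chi : G → ZMod 2} (hchi : S.HomG chi) (U : Finset Pl) :
    finrank (ZMod 2) (S.PW U chi) = 2 * U.card := by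
  have h1 := card_PW_inf (S := S) U chi chi
  rw [inf_idem] at h1
  simp only [inf_idem, card_W h hchi, Finset.prod_const] at h1
  rw [Kramer_card] at h1
  have h2 : (2 : ℕ) ^ finrank (ZMod 2) (S.PW U chi) = 2 ^ (2 * U.card) := by
    rw [h1, pow_mul]
    norm_num
  exact Nat.pow_right_injective le_rfl h2

/-- Reciprocity for the quadratic forms. -/
theorem sum_qv (h : S.Ok) {m c : G → V1} (hm : S.HomG m) (hc : S.HomG c) :
    ∑ᶠ v, S.qv m v (S.loc v c) = 0 := by
  have h1 : S.HomG (fun s => ((c s).1, (0 : ZMod 2))) :=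
    ⟨hc.1.comp fun w => (w.1, (0 : ZMod 2)), fun s t => by
      beta_reduce; rw [hc.2 s t]; exact Prod.ext rfl (add_zero 0).symm⟩
  have h2 : S.HomG (fun s => ((0 : ZMod 2), (c s).2)) :=
    ⟨hc.1.comp fun w => ((0 : ZMod 2), w.2), fun s t => by
      beta_reduce; rw [hc.2 s t]; exact Prod.ext (add_zero 0).symm rfl⟩
  have e1 : ∀ v, S.qv m v (S.loc v c) =
      S.sy v (S.loc v fun s => ((c s).1, (0 : ZMod 2))) (S.loc v fun s => ((0 : ZMod 2), (c s).2)) +
      S.sy v (S.loc v c) (S.loc v m) := by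
    intro v
    simp only [qv, hyp, sy, sym, ee, loc]
    ring
  rw [finsum_congr e1, finsum_add_distrib (sy_supp h h1 h2) (sy_supp h hc hm), h.recip _ _ h1 h2,
    h.recip _ _ hc hm, add_zero]

theorem qU_GU (h : S.Ok) {m : G → V1} (hm : S.QOk m) {chi : G → ZMod 2} (hchi : S.HomG chi)
    (U : Finset Pl) : ∀ x ∈ S.GU U chi h, S.qU U m x = 0 := by
  rintro x ⟨c, h1, h2, h3⟩
  rw [← sum_qv h hm.hom h1, qU, finsum_eq_sum_of_support_subset _ (s := U)]
  · rw [← Finset.sum_coe_sort U]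
    exact Finset.sum_congr rfl fun v _ => by rw [h2]
  · intro v hv
    by_contra hU
    exact hv (hm.van chi hchi v _ (h3 v hU))

theorem qU_PW {m : G → V1} (hm : S.QOk m) {chi : G → ZMod 2} (hchi : S.HomG chi)
    (U : Finset Pl) : ∀ x ∈ S.PW U chi, S.qU U m x = 0 := by
  intro x hx
  exact Finset.sum_eq_zero fun v _ => hm.van chi hchi v.1 _ ((S.mem_PW U).mp hx v)

theorem dual_GU (h : S.Ok) {chi : G → ZMod 2} (hchi : S.HomG chi) (U : Finset Pl) :
    (S.bU U).orthogonal (S.GU U chi h ⊓ S.PW U chi) ≤ S.GU U chi h ⊔ S.PW U chi := by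
  classical
  intro x hx
  set xi : Pl → V1 × V1 := fun v => if hv : v ∈ U then x ⟨v, hv⟩ else 0 with hxi
  have hxi1 : ∀ v : U, xi v.1 = x v := fun v => by rw [hxi]; exact dif_pos v.2
  have hxi2 : ∀ v, v ∉ U → xi v = 0 := fun v hv => by rw [hxi]; exact dif_neg hv
  obtain ⟨om, hom, hloc⟩ := h.dual (S.W chi) (card_W h hchi)
    (fun v x hx y hy => h.isot chi hchi v x hx y hy) (exc_fin h hchi) xi
    (U.finite_toSet.subset fun v hv => by
      by_contra hU
      refine hv ?_
      rw [hxi2 v hU]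
      exact (S.W chi v).zero_mem)
    (fun b hb1 hb2 => by
      have h1 : (fun v : U => S.loc v.1 b) ∈ S.GU U chi h ⊓ S.PW U chi :=
        ⟨⟨b, hb1, fun _ => rfl, fun v _ => hb2 v⟩, (S.mem_PW U).mpr fun v => hb2 v.1⟩
      have h2 : S.bU U (fun v : U => S.loc v.1 b) x = 0 := hx _ h1
      rw [bU_comm, bU_apply] at h2
      rw [← h2, finsum_eq_sum_of_support_subset _ (s := U), ← Finset.sum_coe_sort U]
      · exact Finset.sum_congr rfl fun v _ => by rw [hxi1]
      · intro v hv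
        by_contra hU
        refine hv ?_
        change S.sy v (xi v) (S.loc v b) = 0
        rw [hxi2 v hU, sy_zero_left])
  set a : U → V1 × V1 := fun v => S.loc v.1 om with ha
  have h3 : a ∈ S.GU U chi h := ⟨om, hom, fun _ => rfl, fun v hv => by
    have := hloc v
    rwa [hxi2 v hv, sub_zero] at this⟩
  have h4 : x - a ∈ S.PW U chi := (S.mem_PW U).mpr fun v => by
    have h5 := (S.W chi v.1).neg_mem (hloc v.1)
    rw [hxi1, neg_sub] at h5
    exact h5
  rw [show x = a + (x - a) by abel]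
  exact Submodule.add_mem_sup h3 h4

theorem finrank_GU (h : S.Ok) {m : G → V1} (hm : S.QOk m) {chi : G → ZMod 2} (hchi : S.HomG chi)
    (U : Finset Pl) : finrank (ZMod 2) (S.GU U chi h) = 2 * U.card := by
  refine finrank_of_dual (S.bU U) (S.bU_nondeg U) (finrank_XU U) _ (S.PW U chi) ?_
    (finrank_PW h hchi U) (dual_GU h hchi U)
  intro x hx y hy
  have h1 := S.qU_add U m x y
  rw [qU_GU h hm hchi U _ (Submodule.add_mem _ hx hy), qU_GU h hm hchi U _ hx,
    qU_GU h hm hchi U _ hy, zero_add, zero_add] at h1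
  exact h1.symm

/-- Restriction of the 2-Selmer group to `U`. -/
noncomputable def resU (h : S.Ok) (chi : G → ZMod 2) (U : Finset Pl) :
    S.Sel1 h chi →+ (U → V1 × V1) where
  toFun c v := S.loc v.1 c.1
  map_zero' := rfl
  map_add' _ _ := rfl

theorem resU_range (h : S.Ok) (chi : G → ZMod 2) (U : Finset Pl) :
    Nat.card (resU h chi U).range =
      Nat.card (S.GU U chi h ⊓ S.PW U chi : Submodule (ZMod 2) (U → V1 × V1)) := by
  have h1 : ((resU h chi U).range : Set (U → V1 × V1)) =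
      ((S.GU U chi h ⊓ S.PW U chi : Submodule (ZMod 2) (U → V1 × V1)) : Set _) := by
    ext x
    constructor
    · rintro ⟨c, rfl⟩
      exact ⟨⟨c.1, c.2.1, fun _ => rfl, fun v _ => c.2.2 v⟩, (S.mem_PW U).mpr fun v => c.2.2 v.1⟩
    · rintro ⟨⟨c, h1, h2, h3⟩, h4⟩
      refine ⟨⟨c, h1, fun v => ?_⟩, funext fun v => h2 v⟩
      by_cases hv : v ∈ U
      · have := (S.mem_PW U).mp h4 ⟨v, hv⟩
        rw [← h2] at this
        exact this
      · exact h3 v hv
  exact Nat.card_congr (Equiv.setCongr h1)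

theorem card_Sel1_resU (h : S.Ok) (chi : G → ZMod 2) (U : Finset Pl) :
    Nat.card (S.Sel1 h chi) = Nat.card (resU h chi U).ker *
      Nat.card (S.GU U chi h ⊓ S.PW U chi : Submodule (ZMod 2) (U → V1 × V1)) := by
  rw [← resU_range, card_hom]

/-- The kernels of the restriction maps of the two twists agree. -/
theorem card_ker_resU (h : S.Ok) {chi chi' : G → ZMod 2} {U : Finset Pl}
    (hU : ∀ v, v ∉ U → S.W chi v = S.W chi' v) :
    Nat.card (resU h chi U).ker = Nat.card (resU h chi' U).ker := by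
  have key : ∀ {chi chi' : G → ZMod 2}, (∀ v, v ∉ U → S.W chi v = S.W chi' v) →
      ∀ c : (resU h chi U).ker, c.1.1 ∈ S.Sel1 h chi' := by
    intro chi chi' hU c
    refine ⟨c.1.2.1, fun v => ?_⟩
    by_cases hv : v ∈ U
    · have h1 : S.loc v c.1.1 = 0 := congrFun c.2 ⟨v, hv⟩
      rw [h1]
      exact (S.W chi' v).zero_mem
    · rw [← mem_W, ← hU v hv]
      exact c.1.2.2 v
  exact Nat.card_congr ⟨fun c => ⟨⟨c.1.1, key hU c⟩, c.2⟩,
    fun c => ⟨⟨c.1.1, key (fun v hv => (hU v hv).symm) c⟩, c.2⟩, fun _ => rfl, fun _ => rfl⟩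

theorem GU_congr (h : S.Ok) {chi chi' : G → ZMod 2} {U : Finset Pl}
    (hU : ∀ v, v ∉ U → S.W chi v = S.W chi' v) : S.GU U chi h = S.GU U chi' h := by
  ext x
  rw [mem_GU, mem_GU]
  constructor
  · rintro ⟨c, h1, h2, h3⟩
    exact ⟨c, h1, h2, fun v hv => by rw [← hU v hv]; exact h3 v hv⟩
  · rintro ⟨c, h1, h2, h3⟩
    exact ⟨c, h1, h2, fun v hv => by rw [hU v hv]; exact h3 v hv⟩

/-- The parity relation (Kramer; Klagsbrun, Mazur, Rubin). -/
theorem parity_rel (h : S.Ok) {m : G → V1} (hm : S.QOk m) {chi chi' : G → ZMod 2}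
    (hchi : S.HomG chi) (hchi' : S.HomG chi') (T : Finset Pl)
    (hT : ∀ v, v ∉ T → S.W chi v = S.W chi' v ∨ S.W chi v ⊓ S.W chi' v = ⊥) :
    IsSquare (Nat.card (S.Sel1 h chi) * Nat.card (S.Sel1 h chi') *
      ∏ v ∈ T, Nat.card (S.W chi v ⊓ S.W chi' v : AddSubgroup (V1 × V1))) := by
  classical
  have hfin : {v | S.W chi v ≠ S.W chi' v}.Finite := by
    refine ((exc_fin h hchi).union (exc_fin h hchi')).subset fun v hv => ?_
    by_contra hcon
    rw [Set.mem_union, not_or] at hcon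
    refine hv (AddSubgroup.ext fun x => ?_)
    rw [not_not.mp hcon.1 x, not_not.mp hcon.2 x]
  set U : Finset Pl := hfin.toFinset with hUdef
  have hU : ∀ v, v ∉ U → S.W chi v = S.W chi' v := fun v hv => by
    by_contra hcon
    exact hv (hfin.mem_toFinset.mpr hcon)
  have hU' : ∀ v, v ∈ U → S.W chi v ≠ S.W chi' v := fun v hv => hfin.mem_toFinset.mp hv
  -- the three Lagrangians
  have h3 := three_lagr (S.bU U) (S.bU_nondeg U) (S.bU_comm U) (S.qU U m) (S.qU_add U m)
    (finrank_XU U) (S.GU U chi h) (S.PW U chi) (S.PW U chi') (qU_GU h hm hchi U)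
    (qU_PW hm hchi U) (qU_PW hm hchi' U) (finrank_GU h hm hchi U) (finrank_PW h hchi U)
    (finrank_PW h hchi' U)
  rw [card_Sel1_resU h chi U, card_Sel1_resU h chi' U, ← card_ker_resU h hU, ← GU_congr h hU]
  set K := Nat.card (resU h chi U).ker with hK
  set f : Pl → ℕ := fun v => Nat.card (S.W chi v ⊓ S.W chi' v : AddSubgroup (V1 × V1)) with hf
  have hBC : Nat.card (S.PW U chi ⊓ S.PW U chi' : Submodule (ZMod 2) (U → V1 × V1)) =
      ∏ v ∈ U, f v := card_PW_inf U chi chi'
  have e1 : ∏ v ∈ U, f v = ∏ v ∈ U ∩ T, f v := by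
    symm
    refine Finset.prod_subset Finset.inter_subset_left fun v hv hv' => ?_
    have hvT : v ∉ T := fun h1 => hv' (Finset.mem_inter.mpr ⟨hv, h1⟩)
    have h1 : S.W chi v ⊓ S.W chi' v = ⊥ := (hT v hvT).resolve_left (hU' v hv)
    change Nat.card (S.W chi v ⊓ S.W chi' v : AddSubgroup (V1 × V1)) = 1
    rw [h1]
    exact AddSubgroup.card_bot
  have e2 : ∏ v ∈ T, f v = (∏ v ∈ U ∩ T, f v) * 4 ^ (T \ U).card := by
    rw [← Finset.prod_inter_mul_prod_sdiff T U f, Finset.inter_comm T U]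
    congr 1
    rw [← Finset.prod_const]
    refine Finset.prod_congr rfl fun v hv => ?_
    have h1 := hU v (Finset.mem_sdiff.mp hv).2
    change Nat.card (S.W chi v ⊓ S.W chi' v : AddSubgroup (V1 × V1)) = 4
    rw [← h1, inf_idem, card_W h hchi]
  rw [e2, ← e1, ← hBC, Kramer_card (E := (S.GU U chi h ⊓ S.PW U chi : Submodule _ _)),
    Kramer_card (E := (S.GU U chi h ⊓ S.PW U chi' : Submodule _ _)),
    Kramer_card (E := (S.PW U chi ⊓ S.PW U chi' : Submodule _ _))]
  set a := finrank (ZMod 2) (S.GU U chi h ⊓ S.PW U chi : Submodule (ZMod 2) (U → V1 × V1))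
  set b := finrank (ZMod 2) (S.GU U chi h ⊓ S.PW U chi' : Submodule (ZMod 2) (U → V1 × V1))
  set c := finrank (ZMod 2) (S.PW U chi ⊓ S.PW U chi' : Submodule (ZMod 2) (U → V1 × V1))
  have h4 : Even (a + b + c) := by
    rw [Nat.even_iff] at h3 ⊢
    omega
  obtain ⟨r, hr⟩ := h4
  refine ⟨K * 2 ^ r * 2 ^ (T \ U).card, ?_⟩
  have h5 : (2 : ℕ) ^ a * 2 ^ b * 2 ^ c = 2 ^ r * 2 ^ r := by
    rw [← pow_add, ← pow_add, ← pow_add, hr]
  have h6 : (4 : ℕ) ^ (T \ U).card = 2 ^ (T \ U).card * 2 ^ (T \ U).card := by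
    rw [← mul_pow]
    norm_num
  rw [h6]
  calc K * 2 ^ a * (K * 2 ^ b) * (2 ^ c * (2 ^ (T \ U).card * 2 ^ (T \ U).card))
      = K * K * (2 ^ a * 2 ^ b * 2 ^ c) * (2 ^ (T \ U).card * 2 ^ (T \ U).card) := by ring
    _ = K * 2 ^ r * 2 ^ (T \ U).card * (K * 2 ^ r * 2 ^ (T \ U).card) := by
      rw [h5]; ring

end Sys

end Pool.Agent.Sm
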