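import Pool.Agent.Lib.Sm.P.Theta

/-!
# SMITH block P (parity), module LocV: the obstruction of a local coboundary vanishes

For `Q` in `V` with `dl Q` of level `n` on `H` the class of `Ob n (dl Q)` in `H^2(H, M)` is `0`.
-/

set_option autoImplicit false

namespace Pool.Agent.Sm

variable {G V Pl M : Type*} [Group G] [AddCommGroup V] [DistribMulAction G V]
  [AddCommGroup M] [DistribMulAction G M]

namespace Theta

variable {T : Theta G V M} {S : Sys G V Pl}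

/-- The cup product of `dl Q`, `Q` of level `n`, with a cocycle of level `n` is a coboundary. -/
theorem cup_dl (h : S.Ok) (hT : T.Ok S) {chi : G → ZMod 2} (n : ℕ) {H : Subgroup G}
    {Q : V} {Phi : G → V} (hQ : (2 : ℕ) ^ n • Q = 0) (hl : ∀ s ∈ H, (2 : ℕ) ^ n • Phi s = 0)
    (hf : S.TFOn H Phi) (hc : ∀ s ∈ H, ∀ t ∈ H, Phi (s * t) = Phi s + tw chi s (Phi t)) :
    S.Coh H (T.cup chi n (dl chi Q) Phi) (fun _ _ => 0) := by
  refine ⟨fun s => T.e n Q (Phi s), hf.comp _, fun s hs t ht => ?_⟩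
  have hs1 := hl s hs
  have ht1 := hl t ht
  beta_reduce
  rw [cup, dl, e_sub_left hT n (tw_lev chi s hQ) hQ (tw_lev chi s ht1), e_tw hT chi n s hQ ht1,
    hc s hs t ht, e_add_right hT n hQ hs1 (tw_lev chi s ht1)]
  abel

/-- Cup products of local coboundaries vanish. -/
theorem cup_dl_dl (h : S.Ok) (hT : T.Ok S) {chi : G → ZMod 2} (hchi : S.HomG chi)
    {H : Subgroup G} : ∀ (r n : ℕ) (Q R : V), (2 : ℕ) ^ (n + r) • Q = 0 →
    (∀ s ∈ H, (2 : ℕ) ^ n • dl chi Q s = 0) → (∀ s ∈ H, (2 : ℕ) ^ n • dl chi R s = 0) →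
    S.Coh H (T.cup chi n (dl chi Q) (dl chi R)) (fun _ _ => 0)
  | 0, n, Q, R, hQ, _, hR => cup_dl h hT n (by simpa using hQ) hR ((Sys.dl_tf h hchi R).on H)
      (fun s _ t _ => dl_mul hchi.2 R s t)
  | r + 1, n, Q, R, hQ, hQ', hR => by
    obtain ⟨R', hR'⟩ := h.half R
    have hlR : ∀ s ∈ H, (2 : ℕ) ^ (n + 1) • dl chi R' s = 0 := fun s hs => by
      rw [pow_succ, mul_smul, ← dl_nsmul, hR', hR s hs]
    have h1 := cup_dl_dl h hT hchi r (n + 1) Q R' (by rw [← hQ]; congr 2; omega)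
      (fun s hs => lev_mono (Nat.le_succ n) (hQ' s hs)) hlR
    refine (Sys.Coh.of_eq h fun s hs t ht => ?_).trans h h1
    rw [cup, cup, ← hR', dl_nsmul, tw_nsmul]
    exact (hT.shift n _ _ (hQ' s hs) (tw_lev chi s (hlR t ht))).symm

/-- The obstruction is additive on local coboundaries. -/
theorem ob_dl_add (h : S.Ok) (hT : T.Ok S) {chi : G → ZMod 2} (hchi : S.HomG chi)
    {H : Subgroup G} (n : ℕ) (Q R : V) (hQ : ∀ s ∈ H, (2 : ℕ) ^ n • dl chi Q s = 0)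
    (hR : ∀ s ∈ H, (2 : ℕ) ^ n • dl chi R s = 0) :
    S.Coh H (T.Ob chi n (dl chi (Q + R)))
      (fun s t => T.Ob chi n (dl chi Q) s t + T.Ob chi n (dl chi R) s t) := by
  obtain ⟨r, hr⟩ := h.tors R
  have h1 := ob_add h hT n (H := H) hQ hR ((Sys.dl_tf h hchi Q).on H) ((Sys.dl_tf h hchi R).on H)
    (fun s _ t _ => dl_mul hchi.2 Q s t) (fun s _ t _ => dl_mul hchi.2 R s t)
  have h2 := cup_dl_dl h hT hchi r n R Q (lev_mono (Nat.le_add_left r n) hr) hR hQ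
  have h3 : (dl chi (Q + R)) = (fun s => dl chi Q s + dl chi R s) := funext fun s => dl_add chi Q R s
  rw [h3]
  refine h1.trans h ?_
  have h4 := Sys.Coh.add h (Sys.Coh.refl h H (fun s t => T.Ob chi n (dl chi Q) s t +
    T.Ob chi n (dl chi R) s t)) h2
  refine h4.trans h (Sys.Coh.of_eq h fun s _ t _ => ?_)
  beta_reduce
  rw [add_zero]

theorem ob_neg (hT : T.Ok S) {chi : G → ZMod 2} (n : ℕ) {Psi : G → V} {s t : G}
    (hs : (2 : ℕ) ^ n • Psi s = 0) (ht : (2 : ℕ) ^ n • Psi t = 0) :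
    T.Ob chi n (fun s => -Psi s) s t = T.Ob chi n Psi s t := by
  simp only [Ob, tw_neg]
  rw [be_neg_left hT n hs (neg_lev (tw_lev chi s ht)), be_neg_right hT n hs (tw_lev chi s ht),
    neg_neg, hT.qq_neg n s _ ht]

theorem ob_zero (hT : T.Ok S) {chi : G → ZMod 2} (n : ℕ) (s t : G) :
    T.Ob chi n (fun _ => (0 : V)) s t = 0 := by
  simp only [Ob, tw_zero]
  rw [be_zero_left hT n (smul_zero _), qq_zero hT, add_zero]

/-- Twice the obstruction of a local coboundary vanishes. -/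
theorem two_ob_dl (h : S.Ok) (hT : T.Ok S) {chi : G → ZMod 2} (hchi : S.HomG chi)
    {H : Subgroup G} (n : ℕ) (Q : V) (hQ : ∀ s ∈ H, (2 : ℕ) ^ n • dl chi Q s = 0) :
    S.Coh H (fun s t => (2 : ℕ) • T.Ob chi n (dl chi Q) s t) (fun _ _ => 0) := by
  have hQ' : ∀ s ∈ H, (2 : ℕ) ^ n • dl chi (-Q) s = 0 := fun s hs => by
    rw [dl_neg, smul_neg, hQ s hs, neg_zero]
  have h1 := (ob_dl_add h hT hchi n Q (-Q) hQ hQ').symm
  refine (Sys.Coh.of_eq h fun s hs t ht => ?_).trans h (h1.trans h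
    (Sys.Coh.of_eq h fun s _ t _ => ?_))
  · have h2 : dl chi (-Q) = fun s => -dl chi Q s := funext fun s => dl_neg chi Q s
    beta_reduce
    rw [h2, ob_neg hT n (hQ s hs) (hQ t ht), two_nsmul]
  · have h3 : dl chi (Q + -Q) = fun _ => (0 : V) := funext fun s => by
      rw [add_neg_cancel, dl_zero]
    rw [h3, ob_zero hT]

theorem ob_two (hT : T.Ok S) {chi : G → ZMod 2} (n : ℕ) {Psi : G → V} {s t : G}
    (hs : (2 : ℕ) ^ (n + 1) • Psi s = 0) (ht : (2 : ℕ) ^ (n + 1) • Psi t = 0) :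
    T.Ob chi n (fun s => (2 : ℕ) • Psi s) s t = (2 : ℕ) • T.Ob chi (n + 1) Psi s t := by
  simp only [Ob, tw_nsmul, smul_add]
  rw [hT.be_two n _ _ hs (tw_lev chi s ht), hT.qq_two n s _ ht]

/-- The obstruction of a local coboundary vanishes. -/
theorem ob_dl (h : S.Ok) (hT : T.Ok S) {chi : G → ZMod 2} (hchi : S.HomG chi)
    {H : Subgroup G} (n : ℕ) (Q : V) (hQ : ∀ s ∈ H, (2 : ℕ) ^ n • dl chi Q s = 0) :
    S.Coh H (T.Ob chi n (dl chi Q)) (fun _ _ => 0) := by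
  obtain ⟨R, hR⟩ := h.half Q
  have hlR : ∀ s ∈ H, (2 : ℕ) ^ (n + 1) • dl chi R s = 0 := fun s hs => by
    rw [pow_succ, mul_smul, ← dl_nsmul, hR, hQ s hs]
  have h1 := two_ob_dl h hT hchi (n + 1) R hlR
  refine (Sys.Coh.of_eq h fun s hs t ht => ?_).trans h h1
  have h2 : dl chi Q = fun s => (2 : ℕ) • dl chi R s := funext fun s => by
    rw [← hR, dl_nsmul]
  rw [h2, ob_two hT n (hlR s hs) (hlR t ht)]

/-- The obstruction of `dl Q + iota x` is the cup product of `x` and `2^n dl Q`. -/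
theorem ob_local (h : S.Ok) (hT : T.Ok S) {chi : G → ZMod 2} (hchi : S.HomG chi)
    {H : Subgroup G} (n : ℕ) (hn : 1 ≤ n) (Q : V) (x : G → V1) {hat : G → V}
    (hQ : ∀ s ∈ H, (2 : ℕ) ^ (n + 1) • dl chi Q s = 0) (hx : S.TFOn H x)
    (hxc : ∀ s ∈ H, ∀ t ∈ H, x (s * t) = x s + x t)
    (he : ∀ s ∈ H, hat s = dl chi Q s + S.iota (x s)) :
    S.Coh H (T.Ob chi (n + 1) hat)
      (fun s t => T.hf (ee (x s) (S.un ((2 : ℕ) ^ n • dl chi Q t)))) := by
  have hli : ∀ w : V1, (2 : ℕ) ^ (n + 1) • S.iota w = 0 := fun w =>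
    lev_mono (n := 1) (by omega) (by rw [pow_one]; exact Sys.two_iota S w)
  have h1 := ob_add h hT (n + 1) (H := H) (chi := chi) (Psi := dl chi Q)
    (Phi := fun s => S.iota (x s)) hQ (fun s _ => hli _) ((Sys.dl_tf h hchi Q).on H)
    (hx.comp _) (fun s _ t _ => dl_mul hchi.2 Q s t)
    (fun s hs t ht => by rw [Sys.tw_iota h, hxc s hs t ht, map_add])
  have h2 := ob_dl h hT hchi (H := H) (n + 1) Q hQ
  have h3 : S.Coh H (T.Ob chi (n + 1) hat)
      (T.Ob chi (n + 1) (fun s => dl chi Q s + S.iota (x s))) :=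
    Sys.Coh.of_eq h fun s hs t ht => by rw [Ob, Ob, he s hs, he t ht]
  refine h3.trans h (h1.trans h ?_)
  have h4 := Sys.Coh.add h (Sys.Coh.add h h2 (Sys.Coh.refl h H
    (T.Ob chi (n + 1) (fun s => S.iota (x s))))) (Sys.Coh.refl h H
    (T.cup chi (n + 1) (fun s => S.iota (x s)) (dl chi Q)))
  refine h4.trans h (Sys.Coh.of_eq h fun s hs t ht => ?_)
  beta_reduce
  have h5 : T.Ob chi (n + 1) (fun s => S.iota (x s)) s t = 0 := by
    simp only [Ob, Sys.tw_iota h]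
    rw [hT.be_low (n + 1) (by omega) _ _ (Sys.two_iota S _) (Sys.two_iota S _),
      hT.qq_low (n + 1) (by omega) _ _ (Sys.two_iota S _), add_zero]
  rw [h5, zero_add, zero_add, cup, hT.e_iota n _ _ (tw_lev chi s (hQ t ht)), ← tw_nsmul]
  congr 2
  rw [Sys.tw_of_two h]
  rw [smul_smul, ← pow_succ', hQ t ht]

end Theta

end Pool.Agent.Sm
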