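import Pool.Agent.Lib.Sm.G.Crit
import Pool.Agent.Lib.Sm.P.LocV

/-!
# SMITH block P (parity), module Alt: the Cassels-Tate pairings are alternating
-/

set_option autoImplicit false

namespace Pool.Agent.Sm

variable {G V Pl M : Type*} [Group G] [AddCommGroup V] [DistribMulAction G V]
  [AddCommGroup M] [DistribMulAction G M]

namespace Theta

variable {T : Theta G V M} {S : Sys G V Pl}

/-- `2^j Psi` for `Psi` of level `j + 1`, as a homomorphism to `V1`. -/
noncomputable def top (S : Sys G V Pl) (j : ℕ) (Psi : G → V) (s : G) : V1 :=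
  S.un ((2 : ℕ) ^ j • Psi s)

theorem isSel_top {chi : G → ZMod 2} : ∀ (j : ℕ) {Psi : G → V}, S.IsSel chi (j + 1) Psi →
    S.IsSel chi 1 (fun s => (2 : ℕ) ^ j • Psi s)
  | 0, Psi, hP => by simpa using hP
  | j + 1, Psi, hP => by
    have h1 := isSel_top j hP.two
    have h2 : (fun s => (2 : ℕ) ^ j • ((2 : ℕ) • Psi) s) = fun s => (2 : ℕ) ^ (j + 1) • Psi s :=
      funext fun s => by rw [Pi.smul_apply, smul_smul, pow_succ]
    rwa [h2] at h1

theorem isSel1_top (h : S.Ok) {chi : G → ZMod 2} {j : ℕ} {Psi : G → V}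
    (hP : S.IsSel chi (j + 1) Psi) : S.IsSel1 chi (top S j Psi) :=
  Sys.isSel_un h (isSel_top j hP)

/-- P3: the pairing of `Psi` with `2^j Psi` vanishes. -/
theorem ct_top_self (h : S.Ok) (hT : T.Ok S) (hR : S.RecipM T.hf) {chi : G → ZMod 2}
    (hchi : S.HomG chi) {j : ℕ} {Psi : G → V} (hP : S.IsSel chi (j + 1) Psi) :
    S.CT chi Psi (top S j Psi) = 0 := by
  obtain ⟨hat, Q, hd⟩ := Sys.exists_liftData h hchi hP
  have hlev : ∀ s, (2 : ℕ) ^ (j + 2) • hat s = 0 := fun s => by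
    rw [pow_succ, mul_smul, hd.two, hP.lev]
  have ha := isSel1_top h hP
  rw [Sys.CT_eq h hchi hd ha]
  set x : Pl → G → V1 := fun v s => S.un (hat s - dl chi (Q v) s) with hx
  have hix : ∀ v, ∀ s ∈ S.D v, hat s = dl chi (Q v) s + S.iota (x v s) := fun v s hs => by
    rw [hx]
    beta_reduce
    rw [Sys.iota_un h (hd.two_sub v hs)]
    abel
  have hcD : ∀ v, S.CocD chi v (fun s => hat s - dl chi (Q v) s) := fun v =>
    Sys.CocD.sub h ⟨hd.tf.on _, fun s _ t _ => hd.coc s t⟩ (Sys.dl_cocD h hchi (Q v) v)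
  have hQ : ∀ v, ∀ s ∈ S.D v, (2 : ℕ) ^ (j + 1 + 1) • dl chi (Q v) s = 0 := fun v s hs => by
    rw [pow_succ, mul_smul, ← hd.loc v s hs, hP.lev]
  have hxc : ∀ v, ∀ s ∈ S.D v, ∀ t ∈ S.D v, x v (s * t) = x v s + x v t := fun v s hs t ht => by
    have h1 := (hcD v).coc s hs t ht
    rw [Sys.tw_of_two h chi s (hd.two_sub v ht)] at h1
    rw [hx]
    beta_reduce
    rw [h1, Sys.un_add h (hd.two_sub v hs) (hd.two_sub v ht)]
  have key := hR (T.Ob chi (j + 2) hat) x (fun _ => top S j Psi)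
    (ob_tf2 h hT hchi (j + 2) hlev hd.tf) (ob_coc hT hchi.2 (j + 2) hlev hd.coc) (fun v => by
      refine ⟨(hcD v).tf.comp S.un, hxc v, ha.1.1.on _, fun s _ t _ => ha.1.2 s t, ?_⟩
      refine (ob_local h hT hchi (j + 1) (by omega) (Q v) (x v) (hQ v) ((hcD v).tf.comp S.un)
        (hxc v) (hix v)).trans h (Sys.Coh.of_eq h fun s hs t ht => ?_)
      rw [top, pow_succ, mul_smul, ← hd.loc v t ht])
  exact key

/-- P4: the pairing of `SelZ_j` with the image of `SelZ_(j+1)` vanishes. -/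
theorem ct_top (h : S.Ok) (hT : T.Ok S) (hR : S.RecipM T.hf) {chi : G → ZMod 2}
    (hchi : S.HomG chi) {j : ℕ} {Phi Psi : G → V} (hF : S.IsSel chi j Phi)
    (hP : S.IsSel chi (j + 1) Psi) : S.CT chi Phi (top S j Psi) = 0 := by
  have hF' : S.IsSel chi (j + 1) Phi := hF.mono (Nat.le_succ j)
  have h1 := ct_top_self h hT hR hchi (hP.add h hF')
  have h2 : top S j (Psi + Phi) = top S j Psi := funext fun s => by
    rw [top, top, Pi.add_apply, smul_add, hF.lev, add_zero]
  rw [h2, Sys.CT_add_left h hchi hP hF' (isSel1_top h hP), ct_top_self h hT hR hchi hP,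
    zero_add] at h1
  exact h1

/-- The form `(Psi, Psi') ↦ <Psi, 2^j Psi'>` on `SelZ_(j+1)` is symmetric. -/
theorem ct_top_comm (h : S.Ok) (hT : T.Ok S) (hR : S.RecipM T.hf) {chi : G → ZMod 2}
    (hchi : S.HomG chi) {j : ℕ} {Phi Psi : G → V} (hF : S.IsSel chi (j + 1) Phi)
    (hP : S.IsSel chi (j + 1) Psi) :
    S.CT chi Phi (top S j Psi) = S.CT chi Psi (top S j Phi) := by
  have h1 := ct_top_self h hT hR hchi (hP.add h hF)
  have h2 : top S j (Psi + Phi) = top S j Psi + top S j Phi := funext fun s => by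
    rw [Pi.add_apply, top, top, top, Pi.add_apply, smul_add, Sys.un_add h]
    · rw [smul_smul, ← pow_succ', hP.lev]
    · rw [smul_smul, ← pow_succ', hF.lev]
  rw [h2, Sys.CT_add_right h hchi (hP.add h hF) (isSel1_top h hP) (isSel1_top h hF),
    Sys.CT_add_left h hchi hP hF (isSel1_top h hP), Sys.CT_add_left h hchi hP hF (isSel1_top h hF),
    ct_top_self h hT hR hchi hP, ct_top_self h hT hR hchi hF, zero_add, add_zero] at h1
  exact CharTwo.add_eq_zero.1 h1

end Theta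

end Pool.Agent.Sm
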