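import Pool.Agent.Lib.Sm.P.Par
import Pool.Agent.Lib.Sm.P.AltW
import Pool.Agent.Lib.Sm.G.TowerJ

/-!
# SMITH block P (parity), module ParJ: the parity theorem for the tower of a vector of primes

If the tower is alternating (`altn_twJ`: theta data, `altn_twJ_weil`: Weil pairings; both need the
reciprocity `RecipM`), the number of Selmer cocycles of level `i` of the
twist by `∏ j, p j` grows like `4 ^ i` if `#Sel1` is a power of `4`, and like `8 ^ i` if not,
provided `#SelZ k < 16 ^ k` for some `k`.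
-/

set_option autoImplicit false

open Polynomial Module

namespace Pool.Agent.Sm

variable {k : Type} [Field k] {G V Pl : Type} {M : Type*} [Group G] [AddCommGroup V]
  [DistribMulAction G V] [AddCommGroup M] [DistribMulAction G M]
variable {S : Sys G V Pl} {ch : k[X] → G → ZMod 2} {d : TwData k} {J : Type}
  [Fintype J] {p : J → k[X]} {T : Theta G V M}

/-- The tower is alternating (theta data). -/
theorem altn_twJ (h : S.Ok) (hc : CodeOk S ch d p) (hT : T.Ok S) (hR : S.RecipM T.hf) :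
    (twJ S h ch d p).Altn := fun _ _ hm => Theta.ct_top_self h hT hR hc.chi hm

/-- The tower is alternating (Weil pairings). -/
theorem altn_twJ_weil (h : S.Ok) (hc : CodeOk S ch d p) {e : ℕ → V → V → M} {z : ZMod 2 →+ M}
    (hw : Weil S e z) (hR : S.RecipM z) :
    (twJ S h ch d p).Altn := fun _ _ hm => Weil.ct_top_self h hw hR hc.chi hm

theorem card_Kp_twJ (h : S.Ok) (hc : CodeOk S ch d p) : Nat.card (twJ S h ch d p).Kp = 4 := by
  let f : V1 → (twJ S h ch d p).Kp := fun w => ⟨kapJ d J w, (mem_twJ_Kp h hc _).mpr ⟨w, rfl⟩⟩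
  have hs : Function.Surjective f := by
    rintro ⟨a, ha⟩
    obtain ⟨w, rfl⟩ := (mem_twJ_Kp h hc a).mp ha
    exact ⟨w, rfl⟩
  have hi : Function.Injective f := by
    intro w w' hw
    by_contra hne
    have h1 : w - w' ≠ 0 := sub_ne_zero.mpr hne
    obtain ⟨i, hi⟩ := d.nondeg _ h1
    have h2 : d.T i w = d.T i w' := congrFun (congrArg (fun c : CodeJ d J => c.2.1)
      (congrArg Subtype.val hw)) i
    rw [map_sub, h2, sub_self] at hi
    revert hi
    generalize w - w' = x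
    revert x
    decide
  rw [← Nat.card_congr (Equiv.ofBijective f ⟨hi, hs⟩), Sys.card_V1]

theorem card_Sel1_twJ (h : S.Ok) (hc : CodeOk S ch d p) :
    Nat.card (S.Sel1 h (chiJ ch p)) = 2 ^ finrank (ZMod 2) (twJ S h ch d p).Fs := by
  have : Module.Finite (ZMod 2) (CodeJ d J) := Module.Finite.of_finite
  let f : (twJ S h ch d p).Fs → S.Sel1 h (chiJ ch p) := fun a => ⟨homJ ch d p a.1, a.2⟩
  have hs : Function.Surjective f := by
    rintro ⟨b, hb⟩
    obtain ⟨c, rfl⟩ := hc.surj b hb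
    exact ⟨⟨c, (mem_twJ_Fs S h ch d p c).mpr hb⟩, rfl⟩
  have hi : Function.Injective f := fun a b hab =>
    Subtype.ext (hc.inj (congrArg Subtype.val hab))
  rw [← Nat.card_congr (Equiv.ofBijective f ⟨hi, hs⟩),
    Module.natCard_eq_pow_finrank (K := ZMod 2), Nat.card_eq_fintype_card, ZMod.card]

theorem even_Fs_iff (h : S.Ok) (hc : CodeOk S ch d p) :
    Even (finrank (ZMod 2) (twJ S h ch d p).Fs) ↔
      ∃ r : ℕ, Nat.card (S.Sel1 h (chiJ ch p)) = 4 ^ r := by
  rw [card_Sel1_twJ h hc]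
  constructor
  · rintro ⟨r, hr⟩
    exact ⟨r, by rw [hr, ← two_mul, pow_mul]; norm_num⟩
  · rintro ⟨r, hr⟩
    refine ⟨r, ?_⟩
    have h1 : (2 : ℕ) ^ finrank (ZMod 2) (twJ S h ch d p).Fs = 2 ^ (r + r) := by
      rw [hr, ← two_mul, pow_mul]; norm_num
    exact Nat.pow_right_injective le_rfl h1

/-- Parity theorem, even case. -/
theorem selZ_even (h : S.Ok) (hc : CodeOk S ch d p) (ha : (twJ S h ch d p).Altn) {n : ℕ}
    (hn : Nat.card (S.SelZ h (chiJ ch p) n) < 16 ^ n)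
    (hr : ∃ r : ℕ, Nat.card (S.Sel1 h (chiJ ch p)) = 4 ^ r) :
    ∃ B : ℕ, ∀ i, Nat.card (S.SelZ h (chiJ ch p) i) ≤ B * 4 ^ i :=
  Tower.card_Z_even (twJ_ok h hc) ha (card_Kp_twJ h hc)
    ((even_Fs_iff h hc).mpr hr) hn

/-- Parity theorem, odd case. -/
theorem selZ_odd (h : S.Ok) (hc : CodeOk S ch d p) (ha : (twJ S h ch d p).Altn) {n : ℕ}
    (hn : Nat.card (S.SelZ h (chiJ ch p) n) < 16 ^ n)
    (hr : ¬ ∃ r : ℕ, Nat.card (S.Sel1 h (chiJ ch p)) = 4 ^ r) :
    (∀ i, 8 ^ i ≤ Nat.card (S.SelZ h (chiJ ch p) i)) ∧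
      ∃ B : ℕ, ∀ i, Nat.card (S.SelZ h (chiJ ch p) i) ≤ B * 8 ^ i :=
  Tower.card_Z_odd (twJ_ok h hc) ha (card_Kp_twJ h hc)
    (fun h1 => hr ((even_Fs_iff h hc).mp h1)) hn

end Pool.Agent.Sm
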