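import Pool.Agent.Lib.Sm.P.Equi
import Pool.Agent.Lib.Sm.P.Kramer
import Pool.Agent.Lib.Sm.P.ParJ
import Pool.Agent.Lib.Sm.I.Code
import Pool.Agent.Lib.SmK.Grid

/-!
SMITH over `F_q(t)` (MP_48b749_nt), block P (P5): the parity of the dimension of the 2-Selmer group
of the twist by `D` as a function of the symbols of `D` modulo the bad primes.

`W_cmp_good`, `W_eq_of_agree` : the local Kummer groups of two twists at one place;
`flip` : if `D`, `D'` have the same degree and the same symbols except at a multiplicative place,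
then exactly one of the 2-Selmer groups has order a power of 4;
`half_even` : so half of the `D` have a 2-Selmer group of order a power of 4;
`parity_const` : if there is no multiplicative finite place, then the parity is constant.
-/

set_option autoImplicit false

open Polynomial Finset

namespace Pool.Agent.SmP

open Pool.Agent.Sm Pool.Agent.Sm.Sys

section abstract

variable {G V Pl : Type*} [Group G] [AddCommGroup V] [DistribMulAction G V] {S : Sys G V Pl}

private theorem HalfP_z01 : ∀ x : ZMod 2, x = 0 ∨ x = 1 := by decide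

/-- The local Kummer groups depend only on the values of the character at `sg` and `phi`. -/
theorem W_eq_of_agree (h : S.Ok) {chi chi' : G → ZMod 2} (hchi : S.HomG chi)
    (hchi' : S.HomG chi') {v : Pl} (h1 : chi (S.sg v) = chi' (S.sg v))
    (h2 : chi (S.phi v) = chi' (S.phi v)) : S.W chi v = S.W chi' v := by
  have hall : ∀ s ∈ S.D v, chi s = chi' s := by
    intro s hs
    have h3 : ∀ s ∈ S.D v, (fun s => chi s + chi' s) s = 0 := by
      refine h.homD v (fun s => chi s + chi' s) ?_ ?_ ?_ ?_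
      · obtain ⟨N, hN, hN'⟩ := hchi.1
        obtain ⟨N₂, hN₂, hN₂'⟩ := hchi'.1
        refine ⟨N ⊓ N₂, h.inf_mem N hN N₂ hN₂, fun s _ n hn _ => ?_⟩
        show chi (s * n) + chi' (s * n) = chi s + chi' s
        rw [hN' s n hn.1, hN₂' s n hn.2]
      · intro s _ t _
        simp only [hchi.2 s t, hchi'.2 s t]
        ring
      · simp only [h1]
        exact CharTwo.add_self_eq_zero _
      · simp only [h2]
        exact CharTwo.add_self_eq_zero _
    have h4 := h3 s hs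
    simp only at h4
    have key : ∀ a b : ZMod 2, a + b = 0 → a = b := by decide
    exact key _ _ h4
  have hdl : ∀ (Q : V), ∀ s ∈ S.D v, dl chi Q s = dl chi' Q s := by
    intro Q s hs
    unfold dl tw
    rw [hall s hs]
  ext x
  rw [mem_W, mem_W]
  constructor
  · rintro ⟨Q, hQ1, hQ2, hQ3⟩
    exact ⟨Q, fun s hs => by rw [← hdl Q s hs]; exact hQ1 s hs,
      by rw [← hdl Q _ (h.sg_mem v)]; exact hQ2, by rw [← hdl Q _ (h.phi_mem v)]; exact hQ3⟩
  · rintro ⟨Q, hQ1, hQ2, hQ3⟩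
    exact ⟨Q, fun s hs => by rw [hdl Q s hs]; exact hQ1 s hs,
      by rw [hdl Q _ (h.sg_mem v)]; exact hQ2, by rw [hdl Q _ (h.phi_mem v)]; exact hQ3⟩

private theorem HalfP_ram_unr (h : S.Ok) {chi chi' : G → ZMod 2} (hchi : S.HomG chi) {v : Pl}
    (hv : v ∈ S.good) (h1 : chi (S.sg v) = 0) (h2 : chi' (S.sg v) = 1) :
    S.W chi v ⊓ S.W chi' v = ⊥ := by
  rw [eq_bot_iff]
  rintro x ⟨hx1, hx2⟩
  rw [AddSubgroup.mem_bot]
  have h3 : x.1 = 0 := (mem_Wl_good h hchi hv h1 x).1 hx1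
  exact Wl_ram_ext h hv h2 hx2 (S.W chi' v).zero_mem h3

/-- At a good place the local Kummer groups of two twists are equal or intersect trivially. -/
theorem W_cmp_good (h : S.Ok) {chi chi' : G → ZMod 2} (hchi : S.HomG chi) (hchi' : S.HomG chi')
    {v : Pl} (hv : v ∈ S.good) : S.W chi v = S.W chi' v ∨ S.W chi v ⊓ S.W chi' v = ⊥ := by
  rcases HalfP_z01 (chi (S.sg v)) with h1 | h1 <;> rcases HalfP_z01 (chi' (S.sg v)) with h2 | h2
  · left
    rw [W_good h hchi hv h1, W_good h hchi' hv h2]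
  · exact Or.inr (HalfP_ram_unr h hchi hv h1 h2)
  · right
    rw [inf_comm]
    exact HalfP_ram_unr h hchi' hv h2 h1
  · by_cases h3 : chi (S.phi v) = chi' (S.phi v)
    · exact Or.inl (W_eq_of_agree h hchi hchi' (h1.trans h2.symm) h3)
    · right
      rw [eq_bot_iff]
      rintro x ⟨hx1, hx2⟩
      rw [AddSubgroup.mem_bot]
      obtain ⟨z, hz⟩ := h.half (S.iota x.1)
      have e1 := (mem_Wl_ram h hv h1 x hz).mp hx1
      have e2 := (mem_Wl_ram h hv h2 x hz).mp hx2
      have e3 : tw chi (S.phi v) z = tw chi' (S.phi v) z := by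
        have := e1.trans e2.symm
        unfold dl at this
        exact sub_left_injective this
      have e4 : (2 : ℕ) • (S.phi v • z) = 0 := by
        unfold tw sgn at e3
        rcases HalfP_z01 (chi (S.phi v)) with h4 | h4 <;>
          rcases HalfP_z01 (chi' (S.phi v)) with h5 | h5
        · exact absurd (h4.trans h5.symm) h3
        · rw [h4, h5, if_pos rfl, if_neg one_ne_zero, one_smul, neg_smul, one_smul] at e3
          rw [two_nsmul]
          nth_rewrite 1 [e3]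
          exact neg_add_cancel _
        · rw [h4, h5, if_pos rfl, if_neg one_ne_zero, one_smul, neg_smul, one_smul] at e3
          rw [two_nsmul]
          nth_rewrite 1 [← e3]
          exact neg_add_cancel _
        · exact absurd (h4.trans h5.symm) h3
      have e5 : x.1 = 0 := by
        have e6 : S.phi v • ((2 : ℕ) • z) = 0 := by
          rw [two_nsmul, smul_add, ← two_nsmul]
          exact e4
        rw [hz, h.iota_fix] at e6
        exact h.iota_inj (by rw [e6, map_zero])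
      exact Wl_ram_ext h hv h1 hx1 (S.W chi v).zero_mem e5

end abstract

section chars

variable {k : Type} [Field k] {G V Pl : Type} [Group G] [AddCommGroup V]
  [DistribMulAction G V] {S : Sys G V Pl} {ch : k[X] → G → ZMod 2} {d : TwData k}
  {pl : k[X] → Pl}

theorem ch_one (hc : ChOk S ch d pl) (s : G) : ch 1 s = 0 := by
  have h1 := hc.mul 1 1 one_ne_zero one_ne_zero s
  rw [one_mul] at h1
  exact left_eq_add.mp h1

theorem chiJ_eq (hc : ChOk S ch d pl) {J : Type} [Fintype J] {p : J → k[X]}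
    (hp : ∀ j, p j ≠ 0) : chiJ ch p = ch (∏ j, p j) := by
  classical
  funext s
  unfold chiJ
  have key : ∀ T : Finset J, ∑ j ∈ T, ch (p j) s = ch (∏ j ∈ T, p j) s := by
    intro T
    induction T using Finset.induction_on with
    | empty => rw [sum_empty, prod_empty, ch_one hc]
    | insert a T ha ih =>
      rw [sum_insert ha, prod_insert ha, hc.mul _ _ (hp a) (prod_ne_zero_iff.2 fun j _ => hp j),
        ih]
  exact key univ

variable [Finite k]

/-- The primes of `D`. -/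
theorem pvec_PD {B : Finset k[X]} (hB : ∀ P, P ∈ B ↔ ∃ i, d.ell i = P) {n : ℕ} {D : k[X]}
    (hD : D ∈ SmK.DD B n) : PVec d (fun P : PD D => P.1) where
  monic P := ((SmK.mem_primesOf (SmK.mem_DD.1 hD).1.ne_zero).1 P.2).1
  irr P := ((SmK.mem_primesOf (SmK.mem_DD.1 hD).1.ne_zero).1 P.2).2.1
  inj := Subtype.val_injective
  ne P i hP := by
    have h1 := (SmK.mem_primesOf (SmK.mem_DD.1 hD).1.ne_zero).1 P.2
    exact (SmK.mem_DD.1 hD).2.2.2 _ ((hB _).2 ⟨i, rfl⟩) (hP ▸ h1.2.2)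

theorem prod_PD {B : Finset k[X]} {n : ℕ} {D : k[X]} (hD : D ∈ SmK.DD B n) :
    ∏ P : PD D, P.1 = D := by
  have h1 := SmK.mem_DD.1 hD
  conv_rhs => rw [← SmK.prod_primesOf h1.1 h1.2.2.1]
  exact prod_coe_sort (BSDP.R.primesOf D) fun P => P

theorem card_Sel1_pow (h : S.Ok) (hc : ChOk S ch d pl) {B : Finset k[X]}
    (hB : ∀ P, P ∈ B ↔ ∃ i, d.ell i = P) {n : ℕ} (hn : 0 < n) {D : k[X]}
    (hD : D ∈ SmK.DD B n) : ∃ i : ℕ, Nat.card (S.Sel1 h (ch D)) = 2 ^ i := by
  have hp := pvec_PD hB hD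
  have hne : Nonempty (PD D) := by
    by_contra hemp
    rw [not_nonempty_iff] at hemp
    have h1 := prod_PD hD
    rw [Finset.univ_eq_empty, prod_empty] at h1
    have h2 := (SmK.mem_DD.1 hD).2.1
    rw [← h1, natDegree_one] at h2
    omega
  have h1 := card_Sel1_twJ h (Code.codeOk h hc hp)
  rw [chiJ_eq hc fun P : PD D => (hp.monic P).ne_zero, prod_PD hD] at h1
  exact ⟨_, h1⟩

private theorem HalfP_four {i : ℕ} : (∃ r : ℕ, 2 ^ i = 4 ^ r) ↔ Even i := by
  constructor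
  · rintro ⟨r, hr⟩
    have h1 : (2 : ℕ) ^ i = 2 ^ (r + r) := by
      rw [hr, ← two_mul, pow_mul]
      norm_num
    exact ⟨r, Nat.pow_right_injective le_rfl h1⟩
  · rintro ⟨r, rfl⟩
    exact ⟨r, by rw [← two_mul, pow_mul]; norm_num⟩

private theorem HalfP_sq {i : ℕ} (hi : IsSquare (2 ^ i)) : Even i := by
  obtain ⟨r, hr⟩ := hi
  obtain ⟨a, -, ha⟩ := (Nat.dvd_prime_pow Nat.prime_two).1 (show r ∣ 2 ^ i from ⟨r, hr⟩)
  rw [ha, ← pow_add] at hr
  exact ⟨a, Nat.pow_right_injective le_rfl hr⟩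

/-- The places at which two twists of the same degree are compared. -/
private theorem HalfP_cmp (h : S.Ok) (hc : ChOk S ch d pl) {B : Finset k[X]}
    (hB : ∀ P, P ∈ B ↔ ∃ i, d.ell i = P) {n : ℕ} {D D' : k[X]} (hD : D ∈ SmK.DD B n)
    (hD' : D' ∈ SmK.DD B n) (v : Pl)
    (hv : ∀ i, v = pl (d.ell i) → leg (d.ell i) D = leg (d.ell i) D' ∨
      S.W (ch D) v ⊓ S.W (ch D') v = ⊥ ∨ S.W (ch D) v = S.W (ch D') v) :
    S.W (ch D) v = S.W (ch D') v ∨ S.W (ch D) v ⊓ S.W (ch D') v = ⊥ := by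
  have h1 := SmK.mem_DD.1 hD
  have h1' := SmK.mem_DD.1 hD'
  have hchi := hc.hom D h1.1.ne_zero
  have hchi' := hc.hom D' h1'.1.ne_zero
  rcases hc.pl_cases v with rfl | ⟨P, hP, hP', rfl⟩
  · left
    have hdeg : D.natDegree = D'.natDegree := h1.2.1.trans h1'.2.1.symm
    exact W_eq_of_agree h hchi hchi' (hc.inf_sg _ _ h1.1 h1'.1 hdeg)
      (hc.inf_phi _ _ h1.1 h1'.1 hdeg)
  · by_cases hPB : ∃ i, P = d.ell i
    · obtain ⟨i, rfl⟩ := hPB
      have h3 : ¬ d.ell i ∣ D := h1.2.2.2 _ ((hB _).2 ⟨i, rfl⟩)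
      have h3' : ¬ d.ell i ∣ D' := h1'.2.2.2 _ ((hB _).2 ⟨i, rfl⟩)
      rcases hv i rfl with h4 | h4 | h4
      · left
        refine W_eq_of_agree h hchi hchi' ?_ ?_
        · rw [hc.sg_off _ _ hP hP' h3, hc.sg_off _ _ hP hP' h3']
        · rw [hc.ph _ _ hP hP' h3, hc.ph _ _ hP hP' h3', h4]
      · exact Or.inr h4
      · exact Or.inl h4
    · push Not at hPB
      exact W_cmp_good h hchi hchi' ((hc.good P hP hP').2 hPB)

/-- If the symbols differ exactly at a multiplicative place, the parities differ. -/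
theorem flip (h : S.Ok) (hc : ChOk S ch d pl) {m : G → V1} (hm : S.QOk m) {B : Finset k[X]}
    (hB : ∀ P, P ∈ B ↔ ∃ i, d.ell i = P) (i0 : Fin d.h)
    (hM : ∀ chi chi' : G → ZMod 2, S.HomG chi → S.HomG chi' →
      chi (S.sg (pl (d.ell i0))) = 0 → chi' (S.sg (pl (d.ell i0))) = 0 →
      chi (S.phi (pl (d.ell i0))) ≠ chi' (S.phi (pl (d.ell i0))) →
      Nat.card (S.W chi (pl (d.ell i0)) ⊓ S.W chi' (pl (d.ell i0)) : AddSubgroup (V1 × V1)) = 2)
    {n : ℕ} {D D' : k[X]} (hD : D ∈ SmK.DD B n) (hD' : D' ∈ SmK.DD B n)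
    (heq : ∀ i, i ≠ i0 → leg (d.ell i) D = leg (d.ell i) D')
    (hne : leg (d.ell i0) D ≠ leg (d.ell i0) D') :
    (∃ r : ℕ, Nat.card (S.Sel1 h (ch D)) = 4 ^ r) ↔
      ¬ ∃ r : ℕ, Nat.card (S.Sel1 h (ch D')) = 4 ^ r := by
  classical
  have h1 := SmK.mem_DD.1 hD
  have h1' := SmK.mem_DD.1 hD'
  have hchi := hc.hom D h1.1.ne_zero
  have hchi' := hc.hom D' h1'.1.ne_zero
  have hn : 0 < n := by
    rcases Nat.eq_zero_or_pos n with rfl | hn
    · have e1 := eq_one_of_monic_natDegree_zero h1.1 h1.2.1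
      have e2 := eq_one_of_monic_natDegree_zero h1'.1 h1'.2.1
      exact absurd (by rw [e1, e2]) hne
    · exact hn
  obtain ⟨a, ha⟩ := card_Sel1_pow h hc hB hn hD
  obtain ⟨b, hb⟩ := card_Sel1_pow h hc hB hn hD'
  have h3 : ¬ d.ell i0 ∣ D := h1.2.2.2 _ ((hB _).2 ⟨i0, rfl⟩)
  have h3' : ¬ d.ell i0 ∣ D' := h1'.2.2.2 _ ((hB _).2 ⟨i0, rfl⟩)
  have hmi := d.ell_monic i0
  have hii := d.ell_irr i0
  have hcard := hM (ch D) (ch D') hchi hchi' (hc.sg_off _ _ hmi hii h3)
    (hc.sg_off _ _ hmi hii h3') (by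
      rw [hc.ph _ _ hmi hii h3, hc.ph _ _ hmi hii h3']
      exact hne)
  have key := parity_rel h hm hchi hchi' {pl (d.ell i0)} (by
    intro v hv
    rw [mem_singleton] at hv
    refine HalfP_cmp h hc hB hD hD' v fun i hi => Or.inl (heq i ?_)
    rintro rfl
    exact hv hi)
  rw [prod_singleton, hcard, ha, hb] at key
  have e : 2 ^ a * 2 ^ b * 2 = 2 ^ (a + b + 1) := by ring
  rw [e] at key
  have h4 := HalfP_sq key
  rw [ha, hb, HalfP_four, HalfP_four]
  rw [Nat.even_add_one, Nat.even_add] at h4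
  tauto

open Classical in
/-- **Half of the twists.** If one of the finite bad places is multiplicative, the order of the
2-Selmer group is a power of 4 for `(1/2 + o(1)) #DD` of the `D`. -/
theorem half_even (h : S.Ok) (hc : ChOk S ch d pl) {m : G → V1} (hm : S.QOk m) {B : Finset k[X]}
    (hB : ∀ P, P ∈ B ↔ ∃ i, d.ell i = P) (i0 : Fin d.h)
    (hM : ∀ chi chi' : G → ZMod 2, S.HomG chi → S.HomG chi' →
      chi (S.sg (pl (d.ell i0))) = 0 → chi' (S.sg (pl (d.ell i0))) = 0 →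
      chi (S.phi (pl (d.ell i0))) ≠ chi' (S.phi (pl (d.ell i0))) →
      Nat.card (S.W chi (pl (d.ell i0)) ⊓ S.W chi' (pl (d.ell i0)) : AddSubgroup (V1 × V1)) = 2)
    (ε : ℝ) (hε : 0 < ε) : ∃ n0 : ℕ, ∀ n : ℕ, n0 ≤ n →
    |(#{D ∈ SmK.DD B n | ∃ r : ℕ, Nat.card (S.Sel1 h (ch D)) = 4 ^ r} : ℝ) -
      #(SmK.DD B n) / 2| ≤ ε * #(SmK.DD B n) :=
  half_of_flip d.ell B hc.two d.ell_monic d.ell_irr d.ell_inj hB i0
    (fun D => ∃ r : ℕ, Nat.card (S.Sel1 h (ch D)) = 4 ^ r)
    (fun _ _ hD _ hD' heq hne => flip h hc hm hB i0 hM hD hD' heq hne) ε hε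

/-- If at every finite bad place the local Kummer groups of two unramified twists are equal or
intersect trivially (additive reduction), then the parity is the same for all `D` of the same
degree. -/
theorem parity_const (h : S.Ok) (hc : ChOk S ch d pl) {m : G → V1} (hm : S.QOk m)
    {B : Finset k[X]} (hB : ∀ P, P ∈ B ↔ ∃ i, d.ell i = P)
    (hA : ∀ i, ∀ chi chi' : G → ZMod 2, S.HomG chi → S.HomG chi' →
      chi (S.sg (pl (d.ell i))) = 0 → chi' (S.sg (pl (d.ell i))) = 0 →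
      S.W chi (pl (d.ell i)) ⊓ S.W chi' (pl (d.ell i)) = ⊥ ∨
        S.W chi (pl (d.ell i)) = S.W chi' (pl (d.ell i)))
    {n : ℕ} {D D' : k[X]} (hD : D ∈ SmK.DD B n) (hD' : D' ∈ SmK.DD B n) :
    (∃ r : ℕ, Nat.card (S.Sel1 h (ch D)) = 4 ^ r) ↔
      ∃ r : ℕ, Nat.card (S.Sel1 h (ch D')) = 4 ^ r := by
  classical
  have h1 := SmK.mem_DD.1 hD
  have h1' := SmK.mem_DD.1 hD'
  have hchi := hc.hom D h1.1.ne_zero
  have hchi' := hc.hom D' h1'.1.ne_zero
  rcases Nat.eq_zero_or_pos n with rfl | hn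
  · have e1 := eq_one_of_monic_natDegree_zero h1.1 h1.2.1
    have e2 := eq_one_of_monic_natDegree_zero h1'.1 h1'.2.1
    rw [e1, e2]
  obtain ⟨a, ha⟩ := card_Sel1_pow h hc hB hn hD
  obtain ⟨b, hb⟩ := card_Sel1_pow h hc hB hn hD'
  have key := parity_rel h hm hchi hchi' ∅ (by
    intro v _
    refine HalfP_cmp h hc hB hD hD' v fun i hi => Or.inr ?_
    subst hi
    exact hA i _ _ hchi hchi'
      (hc.sg_off _ _ (d.ell_monic i) (d.ell_irr i) (h1.2.2.2 _ ((hB _).2 ⟨i, rfl⟩)))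
      (hc.sg_off _ _ (d.ell_monic i) (d.ell_irr i) (h1'.2.2.2 _ ((hB _).2 ⟨i, rfl⟩))))
  rw [prod_empty, mul_one, ha, hb, ← pow_add] at key
  have h4 := HalfP_sq key
  rw [ha, hb, HalfP_four, HalfP_four]
  rw [Nat.even_add] at h4
  exact h4

end chars

end Pool.Agent.SmP
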