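import Pool.Agent.Lib.Sm.P.QDefs

/-!
# SMITH block P5: comparison of the local Kummer groups of two twists

`W_eq_of_values`: the group depends only on the values of the character at `sg v` and `phi v`.
`W_good_or`: at a good place two such groups are equal or meet in `0`.
-/

set_option autoImplicit false

namespace Pool.Agent.Sm

namespace Sys

variable {G V Pl : Type*} [Group G] [AddCommGroup V] [DistribMulAction G V] {S : Sys G V Pl}

/-- A character is determined on `D v` by its values at `sg v` and `phi v`. -/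
private theorem QLoc_eq_on (h : S.Ok) {chi chi' : G → ZMod 2} (hchi : S.HomG chi)
    (hchi' : S.HomG chi') {v : Pl} (h1 : chi (S.sg v) = chi' (S.sg v))
    (h2 : chi (S.phi v) = chi' (S.phi v)) : ∀ s ∈ S.D v, chi s = chi' s := by
  have hz : ∀ a b : ZMod 2, a + b = 0 ↔ a = b := by decide
  have h3 := h.homD v (fun s => chi s + chi' s)
    ((hchi.1.comp₂ h hchi'.1 (fun a b => a + b)).on (S.D v))
    (fun s _ t _ => by
      rw [hchi.2, hchi'.2]
      ring)
    ((hz _ _).2 h1) ((hz _ _).2 h2)
  exact fun s hs => (hz _ _).1 (h3 s hs)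

private theorem QLoc_Wl_le (h : S.Ok) {chi chi' : G → ZMod 2} {v : Pl}
    (he : ∀ s ∈ S.D v, chi s = chi' s) {x : V1 × V1} (hx : x ∈ S.Wl chi v) :
    x ∈ S.Wl chi' v := by
  have hdl : ∀ (Q : V), ∀ s ∈ S.D v, dl chi Q s = dl chi' Q s := by
    intro Q s hs
    rw [dl, dl, tw, tw, he s hs]
  obtain ⟨Q, hQ, h1, h2⟩ := hx
  refine ⟨Q, fun s hs => ?_, ?_, ?_⟩
  · rw [← hdl Q s hs]
    exact hQ s hs
  · rw [← hdl Q _ (h.sg_mem v)]
    exact h1
  · rw [← hdl Q _ (h.phi_mem v)]
    exact h2

/-- The local Kummer group depends only on the values of the character at `sg v`, `phi v`. -/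
theorem W_eq_of_values (h : S.Ok) {chi chi' : G → ZMod 2} (hchi : S.HomG chi)
    (hchi' : S.HomG chi') {v : Pl} (h1 : chi (S.sg v) = chi' (S.sg v))
    (h2 : chi (S.phi v) = chi' (S.phi v)) : S.W chi v = S.W chi' v := by
  have he := QLoc_eq_on h hchi hchi' h1 h2
  ext x
  exact ⟨fun hx => QLoc_Wl_le h he hx, fun hx => QLoc_Wl_le h (fun s hs => (he s hs).symm) hx⟩

/-- At a good place where the twist is ramified the Kummer group contains no nonzero unramified
pair. -/
private theorem QLoc_ram_unr (h : S.Ok) {chi : G → ZMod 2} {v : Pl} (hv : v ∈ S.good)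
    (h1 : chi (S.sg v) = 1) {x : V1 × V1} (hx : x ∈ S.W chi v) (h0 : x.1 = 0) : x = 0 :=
  Wl_ram_ext h hv h1 hx (S.W chi v).zero_mem h0

/-- At a good place the Kummer groups of two twists are equal or meet in `0`. -/
theorem W_good_or (h : S.Ok) {chi chi' : G → ZMod 2} (hchi : S.HomG chi)
    (hchi' : S.HomG chi') {v : Pl} (hv : v ∈ S.good) :
    S.W chi v = S.W chi' v ∨ S.W chi v ⊓ S.W chi' v = ⊥ := by
  have hz : ∀ a : ZMod 2, a = 0 ∨ a = 1 := by decide
  rcases hz (chi (S.sg v)) with h0 | h0 <;> rcases hz (chi' (S.sg v)) with h0' | h0'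
  · left
    rw [W_good h hchi hv h0, W_good h hchi' hv h0']
  · right
    rw [W_good h hchi hv h0, eq_bot_iff]
    rintro x ⟨hx, hx'⟩
    exact QLoc_ram_unr h hv h0' hx' hx
  · right
    rw [W_good h hchi' hv h0', eq_bot_iff]
    rintro x ⟨hx, hx'⟩
    exact QLoc_ram_unr h hv h0 hx hx'
  · by_cases hp : chi (S.phi v) = chi' (S.phi v)
    · exact Or.inl (W_eq_of_values h hchi hchi' (h0.trans h0'.symm) hp)
    · right
      rw [eq_bot_iff]
      rintro x ⟨hx, hx'⟩
      obtain ⟨z, hz2⟩ := h.half (S.iota x.1)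
      have e1 := (mem_Wl_ram h hv h0 x hz2).mp hx
      have e2 := (mem_Wl_ram h hv h0' x hz2).mp hx'
      -- `2 phi z = 0`
      have hne : ∀ a b : ZMod 2, a ≠ b → (a = 0 ∧ b = 1) ∨ (a = 1 ∧ b = 0) := by decide
      have key : (2 : ℕ) • (S.phi v • z) = 0 := by
        rcases hne _ _ hp with ⟨ha, hb⟩ | ⟨ha, hb⟩
        · rw [dl, tw_of_zero chi ha] at e1
          rw [dl, tw_of_one chi' hb, ← e1] at e2
          rw [two_nsmul]
          have e3 : -(S.phi v • z) = S.phi v • z := sub_left_inj.mp e2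
          exact neg_eq_iff_add_eq_zero.mp e3
        · rw [dl, tw_of_one chi ha] at e1
          rw [dl, tw_of_zero chi' hb, ← e1] at e2
          rw [two_nsmul]
          have e3 : S.phi v • z = -(S.phi v • z) := sub_left_inj.mp e2
          exact neg_eq_iff_add_eq_zero.mp e3.symm
      have h3 : (2 : ℕ) • z = 0 := by
        rw [smul_comm] at key
        exact (smul_eq_zero_iff_eq _).mp key
      have h4 : x.1 = 0 := by
        rw [h3] at hz2
        exact (iota_eq_zero h).mp hz2.symm
      exact QLoc_ram_unr h hv h0 hx h4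

end Sys

end Pool.Agent.Sm
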