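import Pool.Agent.Lib.Sm.P.MultA
import Pool.Agent.Lib.Sm.Inst.Inst
import Pool.Agent.Lib.Sm.G.Kum
import Pool.Agent.Lib.Sm.P.QLoc
import Pool.Agent.Lib.SmF.Lag

/-!
# SMITH block P5, module M: the local Kummer groups at a place of multiplicative reduction

`sysOf_mult`: at a finite place `P` where `y ^ 2 = x (x - α) (x - β)` has multiplicative reduction,
the local Kummer groups of two unramified twists which differ at the Frobenius intersect in a group
with 2 elements.
-/

set_option autoImplicit false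

open Polynomial Pool.Agent.BSDFF Pool.Agent.Lib.SmD Pool.Agent.SmithE Pool.Agent.BSDP.R

namespace Pool.Agent.Sm.Mult

open Sys

section abs

variable {G V Pl : Type*} [Group G] [AddCommGroup V] [DistribMulAction G V] {S : Sys G V Pl}

/-- the Kummer groups are maximal isotropic -/
theorem mem_W_of_orth (h : S.Ok) {chi : G → ZMod 2} (hchi : S.HomG chi) (v : Pl) (x : V1 × V1)
    (hx : ∀ y ∈ S.W chi v, S.sy v x y = 0) : x ∈ S.W chi v := by
  let L : Submodule (ZMod 2) (Unit → V1 × V1) :=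
    AddSubgroup.toZModSubmodule 2 (AddSubgroup.pi Set.univ fun _ : Unit => S.W chi v)
  have hL : ∀ y : Unit → V1 × V1, y ∈ L ↔ y () ∈ S.W chi v := by
    intro y
    change y ∈ AddSubgroup.pi Set.univ (fun _ : Unit => S.W chi v) ↔ _
    rw [AddSubgroup.mem_pi]
    exact ⟨fun h => h () (Set.mem_univ _), fun h i _ => h⟩
  have hcL : Nat.card L = 4 := by
    rw [← card_W h hchi v]
    exact Nat.card_congr ⟨fun y => ⟨y.1 (), (hL _).1 y.2⟩, fun y => ⟨fun _ => y.1, (hL _).2 y.2⟩,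
      fun y => Subtype.ext (funext fun _ => rfl), fun y => rfl⟩
  have hcU : Nat.card (Unit → V1 × V1) = 16 := by
    simp [Nat.card_eq_fintype_card]
  have hiso : ∀ y ∈ L, ∀ z ∈ L, SmF.frm (fun _ : Unit => S.eps v) y z = 0 := by
    intro y hy z hz
    rw [SmF.frm_apply, Finset.univ_unique, Finset.sum_singleton]
    exact h.isot chi hchi v _ ((hL _).1 hy) _ ((hL _).1 hz)
  obtain ⟨l, hl, u, hu, hxe⟩ := SmF.lag (SmF.frm fun _ : Unit => S.eps v) (SmF.frm_nondeg _)
    (SmF.frm_symm _) L L hiso hiso (by rw [hcL, hcU]; norm_num) (by rw [hcL, hcU]; norm_num)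
    (fun _ => x) (by
      intro b hb _
      rw [SmF.frm_apply, Finset.univ_unique, Finset.sum_singleton]
      exact hx _ ((hL _).1 hb))
  have h1 := congrFun hxe ()
  have h3 : x = l () + u () := h1
  rw [h3]
  exact (S.W chi v).add_mem ((hL _).1 hl) ((hL _).1 hu)

/-- the general intersection statement -/
theorem card_inf_two (h : S.Ok) {chi chi' : G → ZMod 2} (hchi : S.HomG chi)
    (hchi' : S.HomG chi') {v : Pl} (h0 : chi (S.sg v) = 0) (h0' : chi' (S.sg v) = 0)
    (hne : chi (S.phi v) ≠ chi' (S.phi v)) {wc : V1} (hwc : wc ≠ 0)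
    (hW : ∀ x ∈ S.W chi v, ee x.1 wc = 0) (hW' : ∀ x ∈ S.W chi' v, ee x.1 wc = 0)
    (hram : (∃ x ∈ S.W chi v, x.1 ≠ 0) ∨ ∃ x ∈ S.W chi' v, x.1 ≠ 0) :
    Nat.card (S.W chi v ⊓ S.W chi' v : AddSubgroup (V1 × V1)) = 2 := by
  have hη : ∀ {c : G → ZMod 2}, S.HomG c → (∀ x ∈ S.W c v, ee x.1 wc = 0) →
      ((0, wc) : V1 × V1) ∈ S.W c v := by
    intro c hc hcW
    refine mem_W_of_orth h hc v _ fun y hy => ?_
    have h1 := hcW y hy
    unfold Sys.sy sym
    unfold ee at h1 ⊢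
    simp only [Prod.fst_zero, Prod.snd_zero, zero_mul, mul_zero, add_zero, zero_add]
    linear_combination h1
  have hη1 := hη hchi hW
  have hη2 := hη hchi' hW'
  have hne' : S.W chi v ≠ S.W chi' v := by
    intro he
    -- the unramified elements
    have hU : ∀ w : V1, ((0, w) : V1 × V1) ∈ S.W chi v := by
      intro w
      obtain ⟨z, hz⟩ := h.half (S.iota w)
      have hd2 : ∀ (c : G → ZMod 2) (s : G), (2 : ℕ) • dl c z s = 0 := by
        intro c s
        rw [← dl_nsmul, hz, dl_iota h]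
      have hx1 : (S.un (dl chi z (S.sg v)), S.un (dl chi z (S.phi v))) ∈ S.W chi v :=
        ⟨z, fun s _ => hd2 chi s, (iota_un h (hd2 _ _)).symm, (iota_un h (hd2 _ _)).symm⟩
      have hx2 : (S.un (dl chi' z (S.sg v)), S.un (dl chi' z (S.phi v))) ∈ S.W chi v := by
        rw [he]
        exact ⟨z, fun s _ => hd2 chi' s, (iota_un h (hd2 _ _)).symm, (iota_un h (hd2 _ _)).symm⟩
      have e1 : dl chi z (S.sg v) = dl chi' z (S.sg v) := by
        unfold dl tw
        rw [h0, h0']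
      have e2 : dl chi z (S.phi v) - dl chi' z (S.phi v) = S.iota w := by
        have hs : S.phi v • (z + z) = z + z := by
          rw [← two_nsmul, hz, h.iota_fix]
        have hzz : z + z = S.iota w := by rw [← two_nsmul, hz]
        have hneg : -(z + z) = z + z := by
          rw [hzz]
          have h3 := Sys.two_iota S w
          rw [two_nsmul] at h3
          exact neg_eq_of_add_eq_zero_left h3
        rw [smul_add] at hs
        unfold dl tw
        rcases zcases (chi (S.phi v)) with ha | ha <;> rcases zcases (chi' (S.phi v)) with hb | hb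
        · exact absurd (ha.trans hb.symm) hne
        · rw [ha, hb, sgn_zero, sgn_one, one_smul, neg_one_smul]
          have : S.phi v • z - z - (-(S.phi v • z) - z) = S.phi v • z + S.phi v • z := by abel
          rw [this, hs, hzz]
        · rw [ha, hb, sgn_zero, sgn_one, one_smul, neg_one_smul]
          have : -(S.phi v • z) - z - (S.phi v • z - z) = -(S.phi v • z + S.phi v • z) := by abel
          rw [this, hs, hneg, hzz]
        · exact absurd (ha.trans hb.symm) hne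
      have h5 := (S.W chi v).sub_mem hx1 hx2
      have h6 : ((S.un (dl chi z (S.sg v)), S.un (dl chi z (S.phi v))) -
          (S.un (dl chi' z (S.sg v)), S.un (dl chi' z (S.phi v))) : V1 × V1) = (0, w) := by
        refine Prod.ext ?_ ?_
        · change S.un (dl chi z (S.sg v)) - S.un (dl chi' z (S.sg v)) = 0
          rw [e1, sub_self]
        · change S.un (dl chi z (S.phi v)) - S.un (dl chi' z (S.phi v)) = w
          apply h.iota_inj
          rw [map_sub, iota_un h (hd2 _ _), iota_un h (hd2 _ _), e2]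
      rw [h6] at h5
      exact h5
    have hle : Ur ≤ S.W chi v := by
      intro x hx
      have h1 : x = (0, x.2) := Prod.ext (mem_Ur.mp hx) rfl
      rw [h1]
      exact hU _
    have hUr : Ur = S.W chi v := by
      apply SetLike.coe_injective
      refine Set.eq_of_subset_of_ncard_le hle ?_ (Set.toFinite _)
      rw [← Nat.card_coe_set_eq, ← Nat.card_coe_set_eq]
      have e1 : Nat.card (S.W chi v : Set (V1 × V1)) = 4 := card_W h hchi v
      have e2 : Nat.card (Ur : Set (V1 × V1)) = 4 := card_Ur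
      rw [e1, e2]
    rcases hram with ⟨x, hx, hx1⟩ | ⟨x, hx, hx1⟩
    · rw [← hUr] at hx
      exact hx1 (mem_Ur.mp hx)
    · rw [← he, ← hUr] at hx
      exact hx1 (mem_Ur.mp hx)
  -- counting
  have hd : Nat.card (S.W chi v ⊓ S.W chi' v : AddSubgroup (V1 × V1)) ∣ 4 := by
    rw [← card_W h hchi v]
    exact AddSubgroup.card_dvd_of_le inf_le_left
  have h4 : Nat.card (S.W chi v ⊓ S.W chi' v : AddSubgroup (V1 × V1)) ≠ 4 := by
    intro h4
    apply hne'
    have key : ∀ A : AddSubgroup (V1 × V1), (S.W chi v ⊓ S.W chi' v) ≤ A → Nat.card A = 4 →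
        S.W chi v ⊓ S.W chi' v = A := by
      intro A hA hcA
      apply SetLike.coe_injective
      refine Set.eq_of_subset_of_ncard_le hA ?_ (Set.toFinite _)
      rw [← Nat.card_coe_set_eq, ← Nat.card_coe_set_eq]
      have e1 : Nat.card (A : Set (V1 × V1)) = 4 := hcA
      have e2 : Nat.card ((S.W chi v ⊓ S.W chi' v : AddSubgroup (V1 × V1)) : Set (V1 × V1)) = 4 :=
        h4
      rw [e1, e2]
    exact (key _ inf_le_left (card_W h hchi v)).symm.trans
      (key _ inf_le_right (card_W h hchi' v))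
  have h1 : Nat.card (S.W chi v ⊓ S.W chi' v : AddSubgroup (V1 × V1)) ≠ 1 := by
    intro h1
    have hb : (S.W chi v ⊓ S.W chi' v : AddSubgroup (V1 × V1)) = ⊥ :=
      AddSubgroup.card_eq_one.mp h1
    have h3 : ((0, wc) : V1 × V1) ∈ (S.W chi v ⊓ S.W chi' v : AddSubgroup (V1 × V1)) :=
      ⟨hη1, hη2⟩
    rw [hb, AddSubgroup.mem_bot] at h3
    exact hwc (congrArg Prod.snd h3)
  have hle := Nat.le_of_dvd (by norm_num) hd
  interval_cases Nat.card (S.W chi v ⊓ S.W chi' v : AddSubgroup (V1 × V1))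
  · simp at hd
  · exact absurd rfl h1
  · rfl
  · omega
  · exact absurd rfl h4

end abs

variable {k : Type} [Field k] [Finite k] {Ω : Type} [Field Ω] [Algebra (RatFunc k) Ω]
  [IsSepClosure (RatFunc k) Ω] {α β : k[X]}

open scoped Classical in
/-- the general statement at a place `v` with `|a - b| < |a - c| = |π| ^ (2 m)` -/
theorem sysOf_inf (h2 : (2 : k) ≠ 0) (hα : α ≠ 0) (hβ : β ≠ 0) (hαβ : α ≠ β)
    (h : (Inst.sysOf Ω h2 hα hβ hαβ).Ok) {v : Place k (RatFunc k)} {π : v.ring}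
    (hπ : Irreducible π) {a b c : RatFunc k} {wa wb wc : V1}
    (pm : Pm (Inst.two_K h2) (Inst.zero_ne_map hα) (Inst.zero_ne_map hβ) (Inst.map_ne_map hαβ) Ω
      a b c wa wb wc)
    (hab : (ab Ω v).valuation (algebraMap (RatFunc k) Ω (a - b)) <
      (ab Ω v).valuation (algebraMap (RatFunc k) Ω (a - c))) {m : ℤ}
    (hm : (ab Ω v).valuation (algebraMap (RatFunc k) Ω (a - c)) =
      (ab Ω v).valuation (algebraMap (RatFunc k) Ω (π : RatFunc k)) ^ (2 * m)) (hne : a ≠ b)
    {chi chi' : (Ω ≃ₐ[RatFunc k] Ω) → ZMod 2} (hchi : (Inst.sysOf Ω h2 hα hβ hαβ).HomG chi)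
    (hchi' : (Inst.sysOf Ω h2 hα hβ hαβ).HomG chi')
    (h0 : chi ((Inst.sysOf Ω h2 hα hβ hαβ).sg v) = 0)
    (h0' : chi' ((Inst.sysOf Ω h2 hα hβ hαβ).sg v) = 0)
    (hph : chi ((Inst.sysOf Ω h2 hα hβ hαβ).phi v) ≠ chi' ((Inst.sysOf Ω h2 hα hβ hαβ).phi v)) :
    Nat.card ((Inst.sysOf Ω h2 hα hβ hαβ).W chi v ⊓ (Inst.sysOf Ω h2 hα hβ hαβ).W chi' v :
      AddSubgroup (V1 × V1)) = 2 := by
  have : IsSepClosed Ω := IsSepClosure.sep_closed (RatFunc k)
  have : IsGalois (RatFunc k) Ω := inferInstance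
  set S := Inst.sysOf Ω h2 hα hβ hαβ with hS
  have hL := locHyp_ab (Om := Ω) h2 v hπ
  have h20 : (2 : Ω) ≠ 0 := two_ne_zero_Om hL.two
  have hp := val_pi_ne hL
  obtain ⟨ρ, hρ⟩ := Pool.Agent.Lib.SmD.exists_sqrt h20 (algebraMap (RatFunc k) Ω (π : RatFunc k))
  have hsgI : sg Ω v ∈ iner (RatFunc k) (ab Ω v) := sg_iner h2 v
  have hsgρ : sg Ω v ρ = -ρ := by
    have h1 := SmF.chi_spec hρ (sg Ω v)
    rw [chi_sg_irr h2 v hπ, ZMod.val_one, pow_one, neg_one_mul] at h1
    exact h1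
  -- unramified characters vanish on the inertia group
  have hI : ∀ {e : (Ω ≃ₐ[RatFunc k] Ω) → ZMod 2}, S.HomG e → e (S.sg v) = 0 →
      ∀ s ∈ iner (RatFunc k) (ab Ω v), e s = 0 := by
    intro e he he0
    obtain ⟨⟨N, hN, hN'⟩, hmul⟩ := he
    exact homI h2 v e ⟨N, hN, fun s _ n hn _ => hN' s n hn⟩ (fun s _ t _ => hmul s t) he0
  -- the constraint
  have hcon : ∀ {e : (Ω ≃ₐ[RatFunc k] Ω) → ZMod 2}, S.HomG e → e (S.sg v) = 0 →
      ∀ x ∈ S.W e v, ee x.1 wc = 0 := by
    rintro e he he0 x ⟨Q, hQ, hx1, -⟩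
    have hI' := hI he he0
    have hdl : ∀ s ∈ iner (RatFunc k) (ab Ω v), dl e Q s = s • Q - Q := by
      intro s hs
      unfold dl tw
      rw [hI' s hs, sgn_zero, one_smul]
    refine sign_c pm hL hab hm (Q := Q.1) ?_ hsgI (z := x.1) ?_
    · intro s hs
      have h1 := hQ s (iner_le_dec _ _ hs)
      rw [hdl s hs, two_nsmul] at h1
      have h3 := congrArg Subtype.val h1
      have h4 : (s • Q.1 - Q.1) + (s • Q.1 - Q.1) = 0 := h3
      rw [smul_add]
      rw [← sub_eq_zero]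
      rw [← h4]
      abel
    · have h1 : dl e Q (sg Ω v) = iota _ _ _ _ Ω x.1 := hx1
      rw [hdl _ hsgI] at h1
      have h3 : (sg Ω v) • Q.1 - Q.1 = (iota (Inst.two_K h2) (Inst.zero_ne_map hα)
        (Inst.zero_ne_map hβ) (Inst.map_ne_map hαβ) Ω x.1 : VV Ω _ _ _).1 :=
        congrArg Subtype.val h1
      rw [← h3]
      abel
  -- ramified elements
  have hram : (∃ x ∈ S.W chi v, x.1 ≠ 0) ∨ ∃ x ∈ S.W chi' v, x.1 ≠ 0 := by
    obtain ⟨n, hn⟩ := hL.disc (a - b) (sub_ne_zero.mpr hne)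
    have hnm : 2 * m < n := by
      rw [hn, hm] at hab
      by_contra hle
      rw [not_lt] at hle
      refine absurd hab (not_lt.mpr ?_)
      exact zpow_le_zpow_right_of_le_one₀ (zero_lt_iff.mpr hp) hL.pi_lt.le hle
    rcases Int.even_or_odd' n with ⟨i, hi | hi⟩
    · -- even: the twist by `a - c`
      have hlt2 : (ab Ω v).valuation (algebraMap (RatFunc k) Ω (a - b)) <
          (ab Ω v).valuation (algebraMap (RatFunc k) Ω (a - c)) *
            (ab Ω v).valuation (algebraMap (RatFunc k) Ω (π : RatFunc k)) := by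
        rw [hn, hm]
        nth_rewrite 3 [← zpow_one ((ab Ω v).valuation (algebraMap (RatFunc k) Ω (π : RatFunc k)))]
        rw [← zpow_add₀ hp]
        exact zpow_lt_zpow_right_of_lt_one₀ (zero_lt_iff.mpr hp) hL.pi_lt (by omega)
      obtain ⟨Q, hQ1, hQ2⟩ := moved_twist pm hL hm hlt2
      have hac : a - c ≠ 0 := by
        intro h1
        rw [h1, map_zero, map_zero] at hm
        exact zpow_ne_zero _ hp hm.symm
      -- `chi_(a - c)` is unramified
      have hf0 : Pool.Agent.Lib.SmD.chi (RatFunc k) (a - c) (sg Ω v) = 0 := by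
        obtain ⟨d, hd⟩ := Pool.Agent.Lib.SmD.exists_sqrt h20 (algebraMap (RatFunc k) Ω (a - c))
        rw [chi_eq_zero_iff _ _ hd]
        refine fix_even hL hsgI (n := m) ?_ ?_
        · rw [hd, AlgEquiv.commutes]
        · rw [hd]
          exact hm
      have hfH : S.HomG (fun s => Pool.Agent.Lib.SmD.chi (RatFunc k) (a - c) s) :=
        SmF.chi_homG (Inst.two_K h2) hac
      have hx : ∃ x ∈ S.W (fun s => Pool.Agent.Lib.SmD.chi (RatFunc k) (a - c) s) v, x.1 ≠ 0 := by
        have hs := hQ1 (S.sg v) (h.sg_mem v)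
        have hph' := hQ1 (S.phi v) (h.phi_mem v)
        refine ⟨(S.un (dl (Pool.Agent.Lib.SmD.chi (RatFunc k) (a - c)) Q (S.sg v)),
          S.un (dl (Pool.Agent.Lib.SmD.chi (RatFunc k) (a - c)) Q (S.phi v))),
          ⟨Q, hQ1, (iota_un h hs).symm, (iota_un h hph').symm⟩, ?_⟩
        exact hQ2 (sg Ω v) hsgI ρ hρ hsgρ _ (iota_un h hs).symm
      rcases zcases (Pool.Agent.Lib.SmD.chi (RatFunc k) (a - c) (S.phi v) + chi (S.phi v))
        with he | he
      · left
        have hz : ∀ x y : ZMod 2, x + y = 0 → x = y := by decide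
        rw [← W_eq_of_values h hfH hchi (hf0.trans h0.symm) (hz _ _ he)]
        exact hx
      · right
        have hz : ∀ x y z : ZMod 2, x + y = 1 → y ≠ z → x = z := by decide
        rw [← W_eq_of_values h hfH hchi' (hf0.trans h0'.symm) (hz _ _ _ he hph)]
        exact hx
    · -- odd: a half of `T_a`
      obtain ⟨z, hz⟩ := h.half (S.iota wa)
      left
      have hd2 : ∀ s, (2 : ℕ) • dl chi z s = 0 := by
        intro s
        rw [← dl_nsmul, hz, dl_iota h]
      refine ⟨(S.un (dl chi z (S.sg v)), S.un (dl chi z (S.phi v))),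
        ⟨z, fun s _ => hd2 s, (iota_un h (hd2 _)).symm, (iota_un h (hd2 _)).symm⟩, ?_⟩
      have h1 : dl chi z (S.sg v) = S.iota (S.un (dl chi z (S.sg v))) := (iota_un h (hd2 _)).symm
      change S.un (dl chi z (S.sg v)) ≠ 0
      generalize S.un (dl chi z (S.sg v)) = xi at h1 ⊢
      refine moved_odd (π := (π : RatFunc k)) pm hL (n := i) (by rw [hn, hi]) (Q := z.1) ?_ hsgI
        hρ hsgρ ?_
      · have h3 : z + z = S.iota wa := by rw [← two_nsmul, hz]
        exact congrArg Subtype.val h3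
      · unfold dl tw at h1
        rw [h0, sgn_zero, one_smul, sub_eq_iff_eq_add'] at h1
        exact congrArg Subtype.val h1
  exact card_inf_two h hchi hchi' h0 h0' hph pm.ne (hcon hchi h0) (hcon hchi' h0') hram

/-- The curve `y ^ 2 = x (x - α) (x - β)` has multiplicative reduction at `P`: after division of
`α, β` by `P ^ (2 m)` exactly two of `0, α, β` coincide modulo `P`. -/
def MultP (P α β : k[X]) : Prop :=
  ∃ m : ℕ, P ^ (2 * m) ∣ α ∧ P ^ (2 * m) ∣ β ∧
    ¬ (P ^ (2 * m + 1) ∣ α ∧ P ^ (2 * m + 1) ∣ β) ∧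
    (P ^ (2 * m + 1) ∣ α ∨ P ^ (2 * m + 1) ∣ β ∨ P ^ (2 * m + 1) ∣ α - β)

open scoped Classical in
/-- **Module M**: the intersection at a place of multiplicative reduction has 2 elements. -/
theorem sysOf_mult (h2 : (2 : k) ≠ 0) (hα : α ≠ 0) (hβ : β ≠ 0) (hαβ : α ≠ β)
    (h : (Inst.sysOf Ω h2 hα hβ hαβ).Ok) {P : k[X]} (hP : Irreducible P) (hM : MultP P α β)
    {chi chi' : (Ω ≃ₐ[RatFunc k] Ω) → ZMod 2} (hchi : (Inst.sysOf Ω h2 hα hβ hαβ).HomG chi)
    (hchi' : (Inst.sysOf Ω h2 hα hβ hαβ).HomG chi')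
    (h0 : chi ((Inst.sysOf Ω h2 hα hβ hαβ).sg (placeOf P hP)) = 0)
    (h0' : chi' ((Inst.sysOf Ω h2 hα hβ hαβ).sg (placeOf P hP)) = 0)
    (hph : chi ((Inst.sysOf Ω h2 hα hβ hαβ).phi (placeOf P hP)) ≠
      chi' ((Inst.sysOf Ω h2 hα hβ hαβ).phi (placeOf P hP))) :
    Nat.card ((Inst.sysOf Ω h2 hα hβ hαβ).W chi (placeOf P hP) ⊓
      (Inst.sysOf Ω h2 hα hβ hαβ).W chi' (placeOf P hP) : AddSubgroup (V1 × V1)) = 2 := by
  obtain ⟨m, dα, dβ, hn, hd⟩ := hM
  have hL := locHyp_ab (Om := Ω) h2 (placeOf P hP) (SmF.unif_placeOf hP)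
  set q := (ab Ω (placeOf P hP)).valuation
    (algebraMap (RatFunc k) Ω (algebraMap k[X] (RatFunc k) P)) with hq
  have hπe : (ab Ω (placeOf P hP)).valuation (algebraMap (RatFunc k) Ω
      (polyHom (placeOf P hP) (X_mem_placeOf P hP) P : RatFunc k)) = q := rfl
  have hq0 : q ≠ 0 := val_pi_ne hL
  have hq1 : q < 1 := hL.pi_lt
  -- values of polynomials
  have vle : ∀ {f : k[X]} {n : ℕ}, P ^ n ∣ f → (ab Ω (placeOf P hP)).valuation
      (algebraMap (RatFunc k) Ω (algebraMap k[X] (RatFunc k) f)) ≤ q ^ n := by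
    rintro f n ⟨g, rfl⟩
    rw [map_mul, map_mul, map_mul, map_pow, map_pow, map_pow, ← hq]
    exact mul_le_of_le_one_right' (val_poly_le P hP g)
  have veq : ∀ {f : k[X]} {n : ℕ}, P ^ n ∣ f → ¬ P ^ (n + 1) ∣ f →
      (ab Ω (placeOf P hP)).valuation
        (algebraMap (RatFunc k) Ω (algebraMap k[X] (RatFunc k) f)) = q ^ n := by
    rintro f n ⟨g, rfl⟩ hg
    rw [map_mul, map_mul, map_mul, map_pow, map_pow, map_pow, ← hq, val_poly_eq_one hP, mul_one]
    rintro ⟨r, rfl⟩
    exact hg ⟨r, by ring⟩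
  have hlt : q ^ (2 * m + 1) < q ^ (2 * m) :=
    pow_lt_pow_right_of_lt_one₀ (zero_lt_iff.mpr hq0) hq1 (Nat.lt_succ_self _)
  have hz : q ^ (2 * m) = q ^ (2 * (m : ℤ)) := by
    rw [← zpow_natCast]
    congr 1
  have hneg : ∀ x : RatFunc k, (ab Ω (placeOf P hP)).valuation (algebraMap (RatFunc k) Ω (0 - x)) =
      (ab Ω (placeOf P hP)).valuation (algebraMap (RatFunc k) Ω x) := by
    intro x
    rw [zero_sub, map_neg, Valuation.map_neg]
  rcases hd with d | d | d
  · have hβ' : ¬ P ^ (2 * m + 1) ∣ β := fun h' => hn ⟨d, h'⟩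
    refine sysOf_inf h2 hα hβ hαβ h (SmF.unif_placeOf hP) (pm3 _ _ _ _) ?_ (m := m) ?_
      (Inst.zero_ne_map hα) hchi hchi' h0 h0' hph
    · rw [hneg, hneg, veq dβ hβ']
      exact (vle d).trans_lt hlt
    · rw [hneg, veq dβ hβ', hπe, hz]
  · have hα' : ¬ P ^ (2 * m + 1) ∣ α := fun h' => hn ⟨h', d⟩
    refine sysOf_inf h2 hα hβ hαβ h (SmF.unif_placeOf hP) (pm2 _ _ _ _) ?_ (m := m) ?_
      (Inst.zero_ne_map hβ) hchi hchi' h0 h0' hph
    · rw [hneg, hneg, veq dα hα']
      exact (vle d).trans_lt hlt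
    · rw [hneg, veq dα hα', hπe, hz]
  · have hα' : ¬ P ^ (2 * m + 1) ∣ α := by
      intro h'
      refine hn ⟨h', ?_⟩
      have e : β = α - (α - β) := by ring
      rw [e]
      exact dvd_sub h' d
    refine sysOf_inf h2 hα hβ hαβ h (SmF.unif_placeOf hP) (pm1 _ _ _ _) ?_ (m := m) ?_
      (Inst.map_ne_map hαβ) hchi hchi' h0 h0' hph
    · rw [← map_sub, sub_zero, veq dα hα']
      exact (vle d).trans_lt hlt
    · rw [sub_zero, veq dα hα', hπe, hz]

end Pool.Agent.Sm.Mult
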