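import Pool.Agent.Lib.Sm.P.RecInst
import Pool.Agent.Lib.Sm.P.ParJ

/-!
SMITH block P: the parity theorem for the curve `y ^ 2 = x (x - α) (x - β)` over `k(t)`: the tower
of a vector of primes is alternating, and the number of Selmer cocycles of level `i` of the twist
grows like `4 ^ i` or like `8 ^ i`.
-/

set_option autoImplicit false

open Polynomial

namespace Pool.Agent.Sm.Inst

open Pool.Agent.SmP

variable {k : Type} [Field k] [Finite k] {Ω : Type} [Field Ω] [Algebra (RatFunc k) Ω]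
  [IsSepClosure (RatFunc k) Ω] {α β : k[X]}

theorem altn_sysOf (h2 : (2 : k) ≠ 0) (hα : α ≠ 0) (hβ : β ≠ 0) (hαβ : α ≠ β)
    (hc : ∀ c : k, β ≠ C c * α) {ch : k[X] → (Ω ≃ₐ[RatFunc k] Ω) → ZMod 2} {d : TwData k}
    {J : Type} [Fintype J] {p : J → k[X]} (h : (sysOf Ω h2 hα hβ hαβ).Ok)
    (hcode : CodeOk (sysOf Ω h2 hα hβ hαβ) ch d p) :
    (twJ (sysOf Ω h2 hα hβ hαβ) h ch d p).Altn := by
  obtain ⟨e, he⟩ := weil_sysOf (Ω := Ω) h2 hα hβ hαβ hc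
  exact altn_twJ_weil h hcode he (recipM_sysOf h2 hα hβ hαβ)

/-- Parity theorem, even case. -/
theorem selZ_even_sysOf (h2 : (2 : k) ≠ 0) (hα : α ≠ 0) (hβ : β ≠ 0) (hαβ : α ≠ β)
    (hc : ∀ c : k, β ≠ C c * α) {ch : k[X] → (Ω ≃ₐ[RatFunc k] Ω) → ZMod 2} {d : TwData k}
    {J : Type} [Fintype J] {p : J → k[X]} (h : (sysOf Ω h2 hα hβ hαβ).Ok)
    (hcode : CodeOk (sysOf Ω h2 hα hβ hαβ) ch d p) {n : ℕ}
    (hn : Nat.card ((sysOf Ω h2 hα hβ hαβ).SelZ h (chiJ ch p) n) < 16 ^ n)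
    (hr : ∃ r : ℕ, Nat.card ((sysOf Ω h2 hα hβ hαβ).Sel1 h (chiJ ch p)) = 4 ^ r) :
    ∃ B : ℕ, ∀ i, Nat.card ((sysOf Ω h2 hα hβ hαβ).SelZ h (chiJ ch p) i) ≤ B * 4 ^ i :=
  selZ_even h hcode (altn_sysOf h2 hα hβ hαβ hc h hcode) hn hr

/-- Parity theorem, odd case. -/
theorem selZ_odd_sysOf (h2 : (2 : k) ≠ 0) (hα : α ≠ 0) (hβ : β ≠ 0) (hαβ : α ≠ β)
    (hc : ∀ c : k, β ≠ C c * α) {ch : k[X] → (Ω ≃ₐ[RatFunc k] Ω) → ZMod 2} {d : TwData k}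
    {J : Type} [Fintype J] {p : J → k[X]} (h : (sysOf Ω h2 hα hβ hαβ).Ok)
    (hcode : CodeOk (sysOf Ω h2 hα hβ hαβ) ch d p) {n : ℕ}
    (hn : Nat.card ((sysOf Ω h2 hα hβ hαβ).SelZ h (chiJ ch p) n) < 16 ^ n)
    (hr : ¬ ∃ r : ℕ, Nat.card ((sysOf Ω h2 hα hβ hαβ).Sel1 h (chiJ ch p)) = 4 ^ r) :
    (∀ i, 8 ^ i ≤ Nat.card ((sysOf Ω h2 hα hβ hαβ).SelZ h (chiJ ch p) i)) ∧
      ∃ B : ℕ, ∀ i, Nat.card ((sysOf Ω h2 hα hβ hαβ).SelZ h (chiJ ch p) i) ≤ B * 8 ^ i :=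
  selZ_odd h hcode (altn_sysOf h2 hα hβ hαβ hc h hcode) hn hr

end Pool.Agent.Sm.Inst
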