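import Pool.Agent.Lib.Sm.P.QDefs
import Pool.Agent.Lib.Sm.Inst.Inst
import Pool.Agent.Lib.SM.E.Kappa

/-!
# SMITH block P5: the local quadratic forms of the curve `y ^ 2 = x (x - α) (x - β)`

`qOk`: `Sys.QOk` for the instance `sysOf` and the homomorphism `m = (χ_(α (α - β)), χ_(α β))`.
-/

set_option autoImplicit false

namespace Pool.Agent.SmithE

open WeierstrassCurve WeierstrassCurve.Affine
open Pool.Agent.Lib.SmD Pool.Agent.Sm

section explicit

variable {K Om : Type} [Field K] [Field Om] [Algebra K Om] [DecidableEq Om] {e₁ e₂ e₃ : K}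
  (h2 : (2 : K) ≠ 0) (h12 : e₁ ≠ e₂) (h13 : e₁ ≠ e₃) (h23 : e₂ ≠ e₃)
  [IsSepClosed Om] {w : ValuationSubring Om}

/-- The quadratic function vanishing on the Kummer image, with its linear part made explicit
(`exists_qf` with `A`). -/
theorem QInst_qf (hv2 : w.valuation 2 = 1) {s φ : Om ≃ₐ[K] Om} (hs : s ∈ iner K w)
    (hφ : IsFrob K w φ) {m : ℕ} (hq : resCard (below K w) = 2 * m + 1)
    {chi : (Om ≃ₐ[K] Om) → ZMod 2} {d : Om} (hd : d ≠ 0) (hds : Sg s d (chi s))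
    (hdφ : Sg φ d (chi φ)) {δ : Om} (hδ : δ ^ 2 = algebraMap K Om (e₂ - e₁)) {a1 a2 : ZMod 2}
    (ha1 : Sg s δ a1) (ha2 : Sg φ δ a2) (Q : VV Om e₁ e₂ e₃) (x : V1 × V1)
    (hx1 : dl chi Q s = iota h2 h12 h13 h23 Om x.1)
    (hx2 : dl chi Q φ = iota h2 h12 h13 h23 Om x.2) :
    qf (m : ZMod 2) (chi s + a1, chi φ + a2) x = 0 := by
  have h20 : (2 : Om) ≠ 0 := two_ne_zero_Om hv2
  have inj := (algebraMap K Om).injective
  have hW := baseChange_crv (Ω := Om) (e₁ := e₁) (e₂ := e₂) (e₃ := e₃)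
  obtain ⟨i, hi⟩ := exists_sqrt h20 (-1 : Om)
  have hδ0 : δ ≠ 0 := by
    rintro rfl
    rw [zero_pow two_ne_zero] at hδ
    exact h12 (sub_eq_zero.mp (inj (by rw [← hδ, map_zero]))).symm
  have hi0 : i ≠ 0 := by
    rintro rfl
    rw [zero_pow two_ne_zero] at hi
    have : (1 : Om) = 0 := by linear_combination hi
    exact one_ne_zero this
  obtain ⟨i1, i2⟩ := Sg_of_sq_neg_one hv2 hs hφ hq (t := i) (by rw [hi]; simp)
    (by rw [hi, map_neg, map_one]) (by rw [hi, map_neg, map_one])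
  have hA1 := hds.mul ha1
  have hA2 := hdφ.mul ha2
  have hD0 : d * δ ≠ 0 := mul_ne_zero hd hδ0
  by_cases hQ : Q.1 + Q.1 = 0
  · have z1 := dl_of_add_self h2 h12 h13 h23 hx1 hQ
    have z2 := dl_of_add_self h2 h12 h13 h23 hx2 hQ
    obtain ⟨x1, x2⟩ := x
    change x1 = 0 at z1
    change x2 = 0 at z2
    subst z1 z2
    simp [qf, br]
  · obtain ⟨X, Y, hXY, hPP, q1, q2, q3⟩ := Rf_sq hW h20 hQ
    have s1 := Sg_Rf1 h2 h12 h13 h23 hx1 hQ hds
    have f1 := Sg_Rf1 h2 h12 h13 h23 hx2 hQ hdφ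
    have s2 := Sg_Rf2 h2 h12 h13 h23 hx1 hQ hds
    have f2 := Sg_Rf2 h2 h12 h13 h23 hx2 hQ hdφ
    set R1 := Rf (algebraMap K Om e₁) (algebraMap K Om e₂) (algebraMap K Om e₃) Q.1 with hR1
    set R2 := Rf (algebraMap K Om e₂) (algebraMap K Om e₁) (algebraMap K Om e₃) Q.1 with hR2
    have hrel : R1 ^ 2 - R2 ^ 2 = δ ^ 2 := by
      rw [← q1, ← q2, hδ, map_sub]
      ring
    obtain ⟨⟨x11, x12⟩, ⟨x21, x22⟩⟩ := x
    change Sg s (d * R1) x12 at s1
    change Sg φ (d * R1) x22 at f1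
    change Sg s (d * R2) x11 at s2
    change Sg φ (d * R2) x21 at f2
    generalize chi s + a1 = A1 at hA1 ⊢
    generalize chi φ + a2 = A2 at hA2 ⊢
    by_cases hR10 : R1 = 0
    · -- `2 Q = T₁`
      have e1 : (i * (d * δ)) ^ 2 = (d * R2) ^ 2 := by
        rw [hR10] at hrel
        have e3 : δ ^ 2 = - R2 ^ 2 := by rw [← hrel]; ring
        rw [mul_pow, hi, mul_pow, e3]
        ring
      have hne : i * (d * δ) ≠ 0 := mul_ne_zero hi0 hD0
      have k1 := (s2.of_sq_eq e1).unique h20 hne (i1.mul hA1)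
      have k2 := (f2.of_sq_eq e1).unique h20 hne (i2.mul hA2)
      rw [zero_add] at k1
      rw [k1, k2]
      generalize (m : ZMod 2) = ep
      clear * -
      simp only [qf, br]
      revert A1 A2 x12 x22 ep
      decide
    · by_cases hR20 : R2 = 0
      · have e1 : (d * δ) ^ 2 = (d * R1) ^ 2 := by
          rw [hR20] at hrel
          rw [mul_pow, ← hrel]
          ring
        have k1 := (s1.of_sq_eq e1).unique h20 hD0 hA1
        have k2 := (f1.of_sq_eq e1).unique h20 hD0 hA2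
        rw [k1, k2]
        generalize (m : ZMod 2) = ep
        clear * -
        simp only [qf, br]
        revert A1 A2 x11 x21 ep
        decide
      · -- the general case: Steinberg
        have hst : ((d * R1) / (d * δ)) ^ 2 + (i * (d * R2) / (d * δ)) ^ 2 = 1 := by
          have e3 : (d * δ) ^ 2 = (d * R1) ^ 2 - (d * R2) ^ 2 := by
            rw [mul_pow, ← hrel]
            ring
          rw [div_pow, div_pow, ← add_div, mul_pow i, hi, div_eq_one_iff_eq (pow_ne_zero _ hD0), e3]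
          ring
        have key := steinberg hv2 hs hφ hq
          (div_ne_zero (mul_ne_zero hd hR10) hD0)
          (div_ne_zero (mul_ne_zero hi0 (mul_ne_zero hd hR20)) hD0) hst
          (s1.div hA1) (f1.div hA2) ((i1.mul s2).div hA1) ((i2.mul f2).div hA2)
        rw [zero_add] at key
        revert key
        generalize (m : ZMod 2) = ep
        clear * -
        simp only [qf, br]
        revert A1 A2 x11 x21 x12 x22 ep
        decide

end explicit

end Pool.Agent.SmithE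

open Polynomial Pool.Agent.BSDFF Pool.Agent.Lib.SmD Pool.Agent.SmithE Pool.Agent.BSDP.R

namespace Pool.Agent.Sm.Inst

variable {k : Type} [Field k]

/-- The homomorphism `m = (χ_((e₂ - e₁) (e₂ - e₃)), χ_((e₁ - e₂) (e₁ - e₃)))`, for
`(e₁, e₂, e₃) = (0, α, β)`. -/
noncomputable def mF (Ω : Type) [Field Ω] [Algebra (RatFunc k) Ω] (α β : k[X])
    (s : Ω ≃ₐ[RatFunc k] Ω) : V1 :=
  (chi (RatFunc k) (((algebraMap k[X] (RatFunc k) α) - 0) *
      (algebraMap k[X] (RatFunc k) α - algebraMap k[X] (RatFunc k) β)) s,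
    chi (RatFunc k) ((0 - algebraMap k[X] (RatFunc k) α) *
      (0 - algebraMap k[X] (RatFunc k) β)) s)

/-- the identity between the two quadratic functions -/
private theorem QInst_key (ep x11 x12 x21 x22 X1 X2 a1 a2 b1 b2 r1 r2 p1 p2 : ZMod 2)
    (h1 : b1 = a1) (h2 : b2 = ep + a2) :
    hyp ep ((x11, x12), (x21, x22)) +
        sym ep ((x11, x12), (x21, x22)) ((a1 + r1, b1 + p1), (a2 + r2, b2 + p2)) =
      qf ep (X1 + a1, X2 + a2) ((x11, x12), (x21, x22)) +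
        sym ep ((X1 + (b1 + (a1 + r1)), X1 + ((b1 + p1) + a1)),
          (X2 + (b2 + (a2 + r2)), X2 + ((b2 + p2) + a2))) ((x11, x12), (x21, x22)) := by
  subst h1 h2
  simp only [hyp, sym, ee, qf, br]
  ring_nf
  reduce_mod_char

open scoped Classical in
/-- **The quadratic forms of block P5 vanish on the local Kummer groups.** -/
theorem qOk [Finite k] {Ω : Type} [Field Ω] [Algebra (RatFunc k) Ω]
    [IsSepClosure (RatFunc k) Ω] {α β : k[X]} (h2 : (2 : k) ≠ 0) (hα : α ≠ 0) (hβ : β ≠ 0)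
    (hαβ : α ≠ β) : (sysOf Ω h2 hα hβ hαβ).QOk (mF Ω α β) := by
  have : IsSepClosed Ω := IsSepClosure.sep_closed (RatFunc k)
  have : IsGalois (RatFunc k) Ω := inferInstance
  have h2K := two_K h2
  have H := locVals (k := k) (Om := Ω) h2
  have h12 := zero_ne_map hα
  have h13 := zero_ne_map hβ
  have h23 := map_ne_map hαβ
  have hK1 := sub_ne_zero.mpr h12.symm
  have hK1' := sub_ne_zero.mpr h12
  have hK2 := sub_ne_zero.mpr h23
  have hK3 := sub_ne_zero.mpr h13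
  have hom : SmF.HomG (mF Ω α β) :=
    (SmF.chi_homG h2K (mul_ne_zero hK1 hK2)).prod (SmF.chi_homG h2K (mul_ne_zero hK1' hK3))
  refine ⟨hom, ?_⟩
  rintro chi hchi v x ⟨Q, -, hx1, hx2⟩
  obtain ⟨f, hf, hchi'⟩ := SmF.kummer h2K (c := chi) hchi
  obtain ⟨d, hd⟩ := SmF.exists_sqrt (Ω := Ω) h2K f
  have hd0 : d ≠ 0 := by
    rintro rfl
    apply hf
    apply (algebraMap (RatFunc k) Ω).injective
    rw [← hd, map_zero]
    simp
  have toSg : ∀ {g : RatFunc k} {y : Ω}, y ^ 2 = algebraMap (RatFunc k) Ω g →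
      ∀ s : Ω ≃ₐ[RatFunc k] Ω, Sg s y (Pool.Agent.Lib.SmD.chi (RatFunc k) g s) := by
    intro g y hy s
    rw [Sg, SmF.chi_spec hy s]
    rcases zcases (Pool.Agent.Lib.SmD.chi (RatFunc k) g s) with h | h
    · rw [h]
      simp [sgn]
    · rw [h, ZMod.val_one]
      simp [sgn]
  have hsg : ∀ s : Ω ≃ₐ[RatFunc k] Ω, Sg s d (chi s) := by
    intro s
    rw [hchi']
    exact toSg hd s
  obtain ⟨δ, hδ⟩ := SmF.exists_sqrt (Ω := Ω) h2K (algebraMap k[X] (RatFunc k) α - 0)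
  obtain ⟨m, hm, hm'⟩ := exists_half_resCard (Ω := Ω) h2 v
  have hqf := QInst_qf h2K h12 h13 h23 (val_two h2 v) (sg_iner h2 v) (ph_frob v) hm hd0
    (hsg _) (hsg _) hδ (toSg hδ _) (toSg hδ _) Q x hx1 hx2
  -- the Kummer class of the third point of order 2
  obtain ⟨z, hz⟩ := half_VV h2K h12 h13 h23 (iota h2K h12 h13 h23 Ω (1, 1))
  have hk := kappa_tw h2K h12 h13 h23 chi z (1, 1) hz
  have hiso := isotropic h2K h12 h13 h23 (val_two h2 v) (sg_iner h2 v) (ph_frob v) hm hd0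
    (hsg _) (hsg _) z Q (_, _) x (hk _) (hk _) hx1 hx2
  -- the characters of `-1`
  have hneg : ∀ s : Ω ≃ₐ[RatFunc k] Ω,
      Pool.Agent.Lib.SmD.chi (RatFunc k) (0 - algebraMap k[X] (RatFunc k) α) s =
        Pool.Agent.Lib.SmD.chi (RatFunc k) (-1 : RatFunc k) s +
          Pool.Agent.Lib.SmD.chi (RatFunc k) (algebraMap k[X] (RatFunc k) α - 0) s := by
    intro s
    rw [← SmF.chi_mul_elt h2K (neg_ne_zero.mpr one_ne_zero) hK1]
    congr 1
    ring
  have hn1 : Pool.Agent.Lib.SmD.chi (RatFunc k) (-1 : RatFunc k) (sg Ω v) = 0 := by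
    refine chi_sg_unit h2 v (neg_ne_zero.mpr one_ne_zero) ?_ ?_
    · exact neg_mem (one_mem _)
    · rw [inv_neg, inv_one]
      exact neg_mem (one_mem _)
  have hn2 : Pool.Agent.Lib.SmD.chi (RatFunc k) (-1 : RatFunc k) (ph Ω v) = (m : ZMod 2) := by
    rw [← hm']
    exact H.eps_eq h2 v
  have e1 := hneg (sg Ω v)
  have e2 := hneg (ph Ω v)
  rw [hn1, zero_add] at e1
  rw [hn2] at e2
  change hyp (SmF.eps v) x + sym (SmF.eps v) x (mF Ω α β (sg Ω v), mF Ω α β (ph Ω v)) = 0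
  rw [hm']
  obtain ⟨⟨x11, x12⟩, ⟨x21, x22⟩⟩ := x
  have hmul1 : ∀ s : Ω ≃ₐ[RatFunc k] Ω, _ := fun s => SmF.chi_mul_elt (Ω := Ω) h2K hK1 hK2 s
  have hmul2 : ∀ s : Ω ≃ₐ[RatFunc k] Ω, _ := fun s => SmF.chi_mul_elt (Ω := Ω) h2K hK1' hK3 s
  simp only [kap0, one_mul, smul_eq_mul, mul_one, Prod.smul_mk, Prod.mk_add_mk, hmul1, hmul2]
    at hiso
  simp only [mF, hmul1, hmul2]
  rw [QInst_key _ _ _ _ _ _ _ _ _ _ _ _ _ _ _ e1 e2, hqf, hiso, add_zero]

end Pool.Agent.Sm.Inst
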