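import Pool.Agent.Lib.Sm.P.EvenKap
import Pool.Agent.Lib.Sm.P.QInst
import Pool.Agent.Lib.SmF.UnrC
import Pool.Agent.Lib.SM.E.KapJ

/-!
# SMITH block P, module EvenInst: a family of twists whose 2-Selmer groups have square orders

`even_sysOf`: for the curve `y ^ 2 = x (x - α) (x - β)` over `k(t)`, `-1` a square in `k`, such that for
every prime `P` dividing `α β (α - β)` the largest power of `P` dividing `α` and `β` is odd, and `D`
squarefree prime to `α β (α - β)` with `max (deg α, deg β) + deg D` odd, the order of the 2-Selmer group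
of the twist by `D` is a square, i.e. a power of `4`.
-/

set_option autoImplicit false

open Polynomial Pool.Agent.BSDFF Pool.Agent.Lib.SmD Pool.Agent.SmithE Pool.Agent.BSDP.R

namespace Pool.Agent.Sm.Inst

variable {k : Type} [Field k]

/-- The local condition: at least two of the three characters have the value `1 + X` at `sg v`. -/
private theorem EvenInst_key (X a b c : ZMod 2)
    (h : (a = 1 + X ∧ b = 1 + X) ∨ (a = 1 + X ∧ c = 1 + X) ∨ (b = 1 + X ∧ c = 1 + X)) :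
    (∀ w : V1, X • w + (w.1 * a + w.2 * (a + c), w.1 * (a + b) + w.2 * a) = 0 → w = 0) ∧
      X • ((a + c, a + b) : V1) + ((a + c) * a + (a + b) * (a + c), (a + c) * (a + b) +
        (a + b) * a) = (a + c, a + b) := by
  revert X a b c
  decide +kernel

private theorem EvenInst_ee (X A B C m1 m2 : ZMod 2) :
    ee (X • ((m1, m2) : V1) + (m1 * A + m2 * (A + C), m1 * (A + B) + m2 * A)) (m1, m2) =
      ee (m1, m2) (A + C, A + B) := by
  revert X A B C m1 m2
  decide +kernel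

section

variable [Finite k] {Ω : Type} [Field Ω] [Algebra (RatFunc k) Ω] [IsSepClosure (RatFunc k) Ω]
  {α β : k[X]}

open scoped Classical in
/-- The everywhere unramified homomorphisms. -/
theorem card_unr_sysOf (h2 : (2 : k) ≠ 0) (hα : α ≠ 0) (hβ : β ≠ 0) (hαβ : α ≠ β)
    (h : (sysOf Ω h2 hα hβ hαβ).Ok) : Nat.card ((sysOf Ω h2 hα hβ hαβ).Unr h) = 4 := by
  have h2K := two_K h2
  have H := locVals (k := k) (Om := Ω) h2
  obtain ⟨u, hu⟩ : ∃ u : k, ¬ IsSquare u := by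
    have := Fintype.ofFinite k
    refine FiniteField.exists_nonsquare fun h0 => h2 ?_
    have h1 := CharP.cast_eq_zero k (ringChar k)
    rw [h0] at h1
    exact_mod_cast h1
  have hu0 : u ≠ 0 := by
    rintro rfl
    exact hu ⟨0, by ring⟩
  obtain ⟨χu, hχu⟩ : ∃ c : (Ω ≃ₐ[RatFunc k] Ω) → ZMod 2, c =
      fun s => Pool.Agent.Lib.SmD.chi (RatFunc k) (algebraMap k (RatFunc k) u) s := ⟨_, rfl⟩
  have hom : SmF.HomG χu := by
    rw [hχu]
    exact SmF.chi_homG h2K (SmF.algC_ne hu0)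
  have hsg : ∀ v, χu (sg Ω v) = 0 := fun v => by
    rw [hχu]
    exact H.sg_const v hu0
  have hph : χu (ph Ω (placeInfty k)) = 1 := by
    rw [hχu]
    exact H.ph_nonsq hu
  have hmem : ∀ w : V1, (fun s => χu s • w) ∈ (sysOf Ω h2 hα hβ hαβ).Unr h := by
    intro w
    refine ⟨⟨hom.1.comp fun x => x • w, fun s t => ?_⟩, fun v => ?_⟩
    · change χu (s * t) • w = χu s • w + χu t • w
      rw [hom.2, add_smul]
    · change χu (sg Ω v) • w = 0
      rw [hsg, zero_smul]
  let f : V1 → (sysOf Ω h2 hα hβ hαβ).Unr h := fun w => ⟨fun s => χu s • w, hmem w⟩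
  have hf : Function.Bijective f := by
    constructor
    · intro w w' hw
      have h1 := congrFun (congrArg Subtype.val hw) (ph Ω (placeInfty k))
      change χu _ • w = χu _ • w' at h1
      rwa [hph, one_smul, one_smul] at h1
    · rintro ⟨c, hc, hc0⟩
      have hc' : SmF.HomG c := hc
      obtain ⟨a, ha⟩ := H.unr_char h2 hu hc'.fst fun v => congrArg Prod.fst (hc0 v)
      obtain ⟨b, hb⟩ := H.unr_char h2 hu hc'.snd fun v => congrArg Prod.snd (hc0 v)
      refine ⟨(a, b), Subtype.ext (funext fun s => Prod.ext ?_ ?_)⟩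
      · change χu s * a = (c s).1
        rw [ha s, mul_comm, hχu]
      · change χu s * b = (c s).2
        rw [hb s, mul_comm, hχu]
  rw [← Nat.card_congr (Equiv.ofBijective f hf), Sys.card_V1]

omit [Finite k] [IsSepClosure (RatFunc k) Ω] in
/-- The valuations at a bad prime. -/
private theorem EvenInst_bad {sg ph : Place k (RatFunc k) → (Ω ≃ₐ[RatFunc k] Ω)}
    [IsSepClosure (RatFunc k) Ω] (H : SmF.LocVals sg ph)
    (h2 : (2 : k) ≠ 0) {P : k[X]} (hP : Irreducible P) {m : ℕ} {f : k[X]} (hf : f ≠ 0)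
    (hPf : ¬ P ∣ f) :
    Pool.Agent.Lib.SmD.chi (RatFunc k) (algebraMap k[X] (RatFunc k) (P ^ (2 * m + 1) * f))
      (sg (placeOf P hP)) = 1 := by
  have h2K := two_K h2
  have hP0 := SmF.alg_ne hP.ne_zero
  rw [map_mul, map_pow, SmF.chi_mul_elt h2K (pow_ne_zero _ hP0) (SmF.alg_ne hf),
    H.sg_of_not_dvd hP hPf, SmF.chi_pow h2K hP0, H.sg_self hP]
  push_cast
  have : (2 : ZMod 2) = 0 := rfl
  rw [this, zero_mul, zero_add, mul_one, add_zero]

omit [Finite k] [IsSepClosure (RatFunc k) Ω] in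
/-- At a bad prime at least two of the three characters are ramified. -/
private theorem EvenInst_two {sg ph : Place k (RatFunc k) → (Ω ≃ₐ[RatFunc k] Ω)}
    [IsSepClosure (RatFunc k) Ω] (H : SmF.LocVals sg ph)
    (h2 : (2 : k) ≠ 0) (hα : α ≠ 0) (hβ : β ≠ 0) (hαβ : α ≠ β) {P : k[X]} (hP : Irreducible P)
    {m : ℕ} (hPα : P ^ (2 * m + 1) ∣ α) (hPβ : P ^ (2 * m + 1) ∣ β)
    (hn : ¬ (P ^ (2 * m + 2) ∣ α ∧ P ^ (2 * m + 2) ∣ β)) {a b c : ZMod 2}
    (ha : Pool.Agent.Lib.SmD.chi (RatFunc k) (algebraMap k[X] (RatFunc k) α)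
      (sg (placeOf P hP)) = a)
    (hb : Pool.Agent.Lib.SmD.chi (RatFunc k) (algebraMap k[X] (RatFunc k) β)
      (sg (placeOf P hP)) = b)
    (hc : Pool.Agent.Lib.SmD.chi (RatFunc k) (algebraMap k[X] (RatFunc k) (α - β))
      (sg (placeOf P hP)) = c) :
    (a = 1 ∧ b = 1) ∨ (a = 1 ∧ c = 1) ∨ (b = 1 ∧ c = 1) := by
  obtain ⟨α1, rfl⟩ := hPα
  obtain ⟨β1, rfl⟩ := hPβ
  have hα1 := right_ne_zero_of_mul hα
  have hβ1 := right_ne_zero_of_mul hβ
  have hsub : P ^ (2 * m + 1) * α1 - P ^ (2 * m + 1) * β1 = P ^ (2 * m + 1) * (α1 - β1) := by ring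
  rw [hsub] at hc
  have hγ1 : α1 - β1 ≠ 0 := fun h0 => hαβ (by rw [sub_eq_zero.1 h0])
  have hpow : P ^ (2 * m + 2) = P ^ (2 * m + 1) * P := pow_succ _ _
  rw [hpow] at hn
  by_cases h1 : P ∣ α1
  · have h3 : ¬ P ∣ β1 := fun h3 => hn ⟨mul_dvd_mul_left _ h1, mul_dvd_mul_left _ h3⟩
    have h4 : ¬ P ∣ α1 - β1 := fun h4 => h3 ((dvd_sub_right h1).1 h4)
    right; right
    rw [← hb, ← hc]
    exact ⟨EvenInst_bad H h2 hP hβ1 h3, EvenInst_bad H h2 hP hγ1 h4⟩
  · by_cases h3 : P ∣ β1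
    · have h4 : ¬ P ∣ α1 - β1 := fun h4 => h1 ((dvd_sub_left h3).1 h4)
      right; left
      rw [← ha, ← hc]
      exact ⟨EvenInst_bad H h2 hP hα1 h1, EvenInst_bad H h2 hP hγ1 h4⟩
    · left
      rw [← ha, ← hb]
      exact ⟨EvenInst_bad H h2 hP hα1 h1, EvenInst_bad H h2 hP hβ1 h3⟩

omit [Finite k] [IsSepClosure (RatFunc k) Ω] in
/-- At infinity at least two of the three characters have the value `max (deg α, deg β)`. -/
private theorem EvenInst_inf {sg ph : Place k (RatFunc k) → (Ω ≃ₐ[RatFunc k] Ω)}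
    [IsSepClosure (RatFunc k) Ω] (H : SmF.LocVals sg ph)
    (h2 : (2 : k) ≠ 0) (hα : α ≠ 0) (hβ : β ≠ 0) (hαβ : α ≠ β) {a b c : ZMod 2}
    (ha : Pool.Agent.Lib.SmD.chi (RatFunc k) (algebraMap k[X] (RatFunc k) α)
      (sg (placeInfty k)) = a)
    (hb : Pool.Agent.Lib.SmD.chi (RatFunc k) (algebraMap k[X] (RatFunc k) β)
      (sg (placeInfty k)) = b)
    (hc : Pool.Agent.Lib.SmD.chi (RatFunc k) (algebraMap k[X] (RatFunc k) (α - β))
      (sg (placeInfty k)) = c) {M : ZMod 2}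
    (hM : ((max α.natDegree β.natDegree : ℕ) : ZMod 2) = M) :
    (a = M ∧ b = M) ∨ (a = M ∧ c = M) ∨ (b = M ∧ c = M) := by
  rw [H.sg_infty' h2 hα] at ha
  rw [H.sg_infty' h2 hβ] at hb
  rw [H.sg_infty' h2 (sub_ne_zero.2 hαβ)] at hc
  rcases lt_trichotomy α.natDegree β.natDegree with h | h | h
  · right; right
    rw [natDegree_sub_eq_right_of_natDegree_lt h] at hc
    rw [max_eq_right h.le] at hM
    exact ⟨hb.symm.trans hM, hc.symm.trans hM⟩
  · left
    rw [h, max_self] at hM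
    rw [h] at ha
    exact ⟨ha.symm.trans hM, hb.symm.trans hM⟩
  · right; left
    rw [natDegree_sub_eq_left_of_natDegree_lt h] at hc
    rw [max_eq_left h.le] at hM
    exact ⟨ha.symm.trans hM, hc.symm.trans hM⟩

open scoped Classical in
/-- **A family of twists whose 2-Selmer groups have square orders.** -/
theorem even_sysOf (h2 : (2 : k) ≠ 0) (hα : α ≠ 0) (hβ : β ≠ 0) (hαβ : α ≠ β)
    (h : (sysOf Ω h2 hα hβ hαβ).Ok) (hneg : IsSquare (-1 : k))
    (hbad : ∀ P : k[X], Irreducible P → P ∣ α * β * (α - β) → ∃ m : ℕ, P ^ (2 * m + 1) ∣ α ∧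
      P ^ (2 * m + 1) ∣ β ∧ ¬ (P ^ (2 * m + 2) ∣ α ∧ P ^ (2 * m + 2) ∣ β))
    {D : k[X]} (hD : D ≠ 0) (hsq : Squarefree D)
    (hcop : ∀ P : k[X], Irreducible P → P ∣ D → ¬ P ∣ α * β * (α - β))
    (hdeg : Odd (max α.natDegree β.natDegree + D.natDegree)) :
    IsSquare (Nat.card ((sysOf Ω h2 hα hβ hαβ).Sel1 h (chP Ω D))) := by
  have h2K := two_K h2
  have H := locVals (k := k) (Om := Ω) h2
  have h12 := zero_ne_map hα
  have h13 := zero_ne_map hβ
  have h23 := map_ne_map hαβ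
  have hγ : α - β ≠ 0 := sub_ne_zero.2 hαβ
  have hfα := SmF.alg_ne hα
  have hfβ := SmF.alg_ne hβ
  have hfγ := SmF.alg_ne hγ
  have hfD := SmF.alg_ne hD
  -- the characters
  obtain ⟨a, ha⟩ : ∃ c : (Ω ≃ₐ[RatFunc k] Ω) → ZMod 2, c =
      fun s => Pool.Agent.Lib.SmD.chi (RatFunc k) (algebraMap k[X] (RatFunc k) α) s := ⟨_, rfl⟩
  obtain ⟨b, hb⟩ : ∃ c : (Ω ≃ₐ[RatFunc k] Ω) → ZMod 2, c =
      fun s => Pool.Agent.Lib.SmD.chi (RatFunc k) (algebraMap k[X] (RatFunc k) β) s := ⟨_, rfl⟩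
  obtain ⟨c, hc⟩ : ∃ c : (Ω ≃ₐ[RatFunc k] Ω) → ZMod 2, c =
      fun s => Pool.Agent.Lib.SmD.chi (RatFunc k) (algebraMap k[X] (RatFunc k) (α - β)) s :=
    ⟨_, rfl⟩
  obtain ⟨X, hX⟩ : ∃ c : (Ω ≃ₐ[RatFunc k] Ω) → ZMod 2, c = chP Ω D := ⟨_, rfl⟩
  have hone : ∀ s : Ω ≃ₐ[RatFunc k] Ω,
      Pool.Agent.Lib.SmD.chi (RatFunc k) (-1 : RatFunc k) s = 0 := by
    intro s
    obtain ⟨r, hr⟩ := hneg
    have hr0 : r ≠ 0 := by
      rintro rfl
      rw [mul_zero] at hr
      exact neg_ne_zero.2 one_ne_zero hr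
    have e : (-1 : RatFunc k) = (algebraMap k (RatFunc k) r) ^ 2 := by
      rw [← map_pow, sq, ← hr, map_neg, map_one]
    rw [e, SmF.chi_sq h2K (SmF.algC_ne hr0)]
  have hnegα : ∀ s : Ω ≃ₐ[RatFunc k] Ω,
      Pool.Agent.Lib.SmD.chi (RatFunc k) (0 - algebraMap k[X] (RatFunc k) α) s = a s := by
    intro s
    have e : (0 - algebraMap k[X] (RatFunc k) α) = -1 * algebraMap k[X] (RatFunc k) α := by ring
    rw [e, SmF.chi_mul_elt h2K (neg_ne_zero.2 one_ne_zero) hfα, hone, zero_add, ha]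
  have hαβ' : ∀ s : Ω ≃ₐ[RatFunc k] Ω,
      Pool.Agent.Lib.SmD.chi (RatFunc k) ((0 - algebraMap k[X] (RatFunc k) α) *
        (0 - algebraMap k[X] (RatFunc k) β)) s = a s + b s := by
    intro s
    have e : (0 - algebraMap k[X] (RatFunc k) α) * (0 - algebraMap k[X] (RatFunc k) β) =
        algebraMap k[X] (RatFunc k) α * algebraMap k[X] (RatFunc k) β := by ring
    rw [e, SmF.chi_mul_elt h2K hfα hfβ, ha, hb]
  have hαγ : ∀ s : Ω ≃ₐ[RatFunc k] Ω,
      Pool.Agent.Lib.SmD.chi (RatFunc k) ((algebraMap k[X] (RatFunc k) α - 0) *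
        (algebraMap k[X] (RatFunc k) α - algebraMap k[X] (RatFunc k) β)) s = a s + c s := by
    intro s
    have e : (algebraMap k[X] (RatFunc k) α - 0) *
        (algebraMap k[X] (RatFunc k) α - algebraMap k[X] (RatFunc k) β) =
        algebraMap k[X] (RatFunc k) α * algebraMap k[X] (RatFunc k) (α - β) := by
      rw [map_sub]
      ring
    rw [e, SmF.chi_mul_elt h2K hfα hfγ, ha, hc]
  have hα0 : ∀ s : Ω ≃ₐ[RatFunc k] Ω,
      Pool.Agent.Lib.SmD.chi (RatFunc k) (algebraMap k[X] (RatFunc k) α - 0) s = a s := by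
    intro s
    rw [sub_zero, ha]
  have hm : ∀ s, mF Ω α β s = (a s + c s, a s + b s) := by
    intro s
    rw [mF, hαγ, hαβ']
  have hk0 : ∀ s (w : V1), kap0 (0 : RatFunc k) (algebraMap k[X] (RatFunc k) α)
      (algebraMap k[X] (RatFunc k) β) s w =
      (w.1 * a s + w.2 * (a s + c s), w.1 * (a s + b s) + w.2 * a s) := by
    intro s w
    rw [kap0, hnegα, hαγ, hαβ', hα0]
  have hhomX : (sysOf Ω h2 hα hβ hαβ).HomG (chP Ω D) := SmF.chi_homG h2K hfD
  -- the alternative in case of two equal values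
  have key : ∀ s p : Ω ≃ₐ[RatFunc k] Ω, ((a s = 1 + X s ∧ b s = 1 + X s) ∨
      (a s = 1 + X s ∧ c s = 1 + X s) ∨ (b s = 1 + X s ∧ c s = 1 + X s)) →
      ((∀ w : V1, X s • w + kap0 (0 : RatFunc k) (algebraMap k[X] (RatFunc k) α)
        (algebraMap k[X] (RatFunc k) β) s w = 0 → w = 0) ∧
      X s • mF Ω α β s + kap0 (0 : RatFunc k) (algebraMap k[X] (RatFunc k) α)
        (algebraMap k[X] (RatFunc k) β) s (mF Ω α β s) = mF Ω α β s ∧
      ee (X p • mF Ω α β s + kap0 (0 : RatFunc k) (algebraMap k[X] (RatFunc k) α)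
        (algebraMap k[X] (RatFunc k) β) p (mF Ω α β s)) (mF Ω α β s) =
        ee (mF Ω α β s) (mF Ω α β p)) := by
    intro s p hs
    simp only [hm, hk0]
    obtain ⟨k1, k2⟩ := EvenInst_key _ _ _ _ hs
    exact ⟨k1, k2, EvenInst_ee _ _ _ _ _ _⟩
  refine Sys.even_of_kap h (qOk h2 hα hβ hαβ) hhomX
    (fun s w => X s • w + kap0 (0 : RatFunc k) (algebraMap k[X] (RatFunc k) α)
      (algebraMap k[X] (RatFunc k) β) s w) ?_ ?_ ?_ ?_
  · intro z w hz s
    rw [hX]
    exact kappa_tw h2K h12 h13 h23 (chP Ω D) z w hz s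
  · intro v
    rcases place_cases v with rfl | ⟨P, hP, hPm, rfl⟩
    · right
      refine key (sg Ω (placeInfty k)) (ph Ω (placeInfty k)) ?_
      have e1 : X (sg Ω (placeInfty k)) = D.natDegree := by
        rw [hX]
        exact H.sg_infty' h2 hD
      have e2 : (1 : ZMod 2) + X (sg Ω (placeInfty k)) =
          ((max α.natDegree β.natDegree : ℕ) : ZMod 2) := by
        have h3 : (((max α.natDegree β.natDegree + D.natDegree : ℕ)) : ZMod 2) = 1 := by
          rw [ZMod.natCast_eq_one_iff_odd]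
          exact hdeg
        rw [Nat.cast_add] at h3
        rw [e1]
        have h4 : ∀ x y : ZMod 2, x + y = 1 → 1 + y = x := by decide
        exact h4 _ _ h3
      refine EvenInst_inf H h2 hα hβ hαβ ?_ ?_ ?_ e2.symm
      · rw [ha]
      · rw [hb]
      · rw [hc]
    · by_cases hPb : P ∣ α * β * (α - β)
      · right
        refine key (sg Ω (placeOf P hP)) (ph Ω (placeOf P hP)) ?_
        obtain ⟨m, h3, h4, h5⟩ := hbad P hP hPb
        have hPD : ¬ P ∣ D := fun hd => hcop P hP hd hPb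
        have e1 : X (sg Ω (placeOf P hP)) = 0 := by
          rw [hX]
          exact H.sg_of_not_dvd hP hPD
        rw [e1, add_zero]
        refine EvenInst_two H h2 hα hβ hαβ hP h3 h4 h5 ?_ ?_ ?_
        · rw [ha]
        · rw [hb]
        · rw [hc]
      · have d1 : ¬ P ∣ α := fun h => hPb (Dvd.dvd.mul_right (Dvd.dvd.mul_right h _) _)
        have d2 : ¬ P ∣ β := fun h => hPb (Dvd.dvd.mul_right (Dvd.dvd.mul_left h _) _)
        have d3 : ¬ P ∣ α - β := fun h => hPb (Dvd.dvd.mul_left h _)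
        have ea : a (sg Ω (placeOf P hP)) = 0 := by
          rw [ha]
          exact H.sg_of_not_dvd hP d1
        have eb : b (sg Ω (placeOf P hP)) = 0 := by
          rw [hb]
          exact H.sg_of_not_dvd hP d2
        have ec : c (sg Ω (placeOf P hP)) = 0 := by
          rw [hc]
          exact H.sg_of_not_dvd hP d3
        by_cases hPD : P ∣ D
        · right
          refine key (sg Ω (placeOf P hP)) (ph Ω (placeOf P hP)) ?_
          have e1 : X (sg Ω (placeOf P hP)) = 1 := by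
            rw [hX]
            obtain ⟨D1, rfl⟩ := hPD
            have hD1 : D1 ≠ 0 := right_ne_zero_of_mul hD
            have h4 : ¬ P ∣ D1 := by
              rintro ⟨D2, rfl⟩
              refine hP.not_isUnit (hsq P ⟨D2, by ring⟩)
            change Pool.Agent.Lib.SmD.chi (RatFunc k)
              (algebraMap k[X] (RatFunc k) (P * D1)) (sg Ω (placeOf P hP)) = 1
            rw [map_mul, SmF.chi_mul_elt h2K (SmF.alg_ne hP.ne_zero) (SmF.alg_ne hD1)]
            have e3 := H.sg_self hP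
            have e4 := H.sg_of_not_dvd hP h4
            change Pool.Agent.Lib.SmD.chi (RatFunc k) _ (sg Ω (placeOf P hP)) = 1 at e3
            change Pool.Agent.Lib.SmD.chi (RatFunc k) _ (sg Ω (placeOf P hP)) = 0 at e4
            rw [e3, e4, add_zero]
          rw [e1, ea, eb, ec]
          left
          exact ⟨rfl, rfl⟩
        · left
          refine ⟨⟨P, hP, hPm, rfl, hPb⟩, ?_, ?_⟩
          · exact H.sg_of_not_dvd hP hPD
          · change mF Ω α β (sg Ω (placeOf P hP)) = 0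
            rw [hm, ea, eb, ec, add_zero]
            rfl
  · rw [card_unr_sysOf h2 hα hβ hαβ h]
    exact ⟨2, rfl⟩
  · rw [card_unr_sysOf h2 hα hβ hαβ h]
    norm_num

end

/-- The condition at the bad primes for `(e α, e β)`: `α`, `β` coprime, `e` squarefree and divisible by
all the bad primes of `(α, β)`. -/
theorem bad_of_twist {α β e : k[X]} (hcop : IsCoprime α β) (he : Squarefree e)
    (hdvd : ∀ P : k[X], Irreducible P → P ∣ α * β * (α - β) → P ∣ e) (P : k[X])
    (hP : Irreducible P) (hPd : P ∣ e * α * (e * β) * (e * α - e * β)) :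
    ∃ m : ℕ, P ^ (2 * m + 1) ∣ e * α ∧ P ^ (2 * m + 1) ∣ e * β ∧
      ¬ (P ^ (2 * m + 2) ∣ e * α ∧ P ^ (2 * m + 2) ∣ e * β) := by
  have hPe : P ∣ e := by
    have h1 : e * α * (e * β) * (e * α - e * β) = e ^ 3 * (α * β * (α - β)) := by ring
    rw [h1] at hPd
    rcases hP.prime.dvd_or_dvd hPd with h2 | h2
    · exact hP.prime.dvd_of_dvd_pow h2
    · exact hdvd P hP h2
  refine ⟨0, ?_, ?_, ?_⟩
  · rw [mul_zero, zero_add, pow_one]
    exact hPe.mul_right _
  · rw [mul_zero, zero_add, pow_one]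
    exact hPe.mul_right _
  · rw [mul_zero, zero_add]
    rintro ⟨h1, h2⟩
    obtain ⟨e1, rfl⟩ := hPe
    have h3 : ¬ P ∣ e1 := by
      rintro ⟨e2, rfl⟩
      exact hP.not_isUnit (he P ⟨e2, by ring⟩)
    have key : ∀ f : k[X], P ^ 2 ∣ P * e1 * f → P ∣ f := by
      intro f hf
      rw [sq, mul_assoc] at hf
      have h4 := (mul_dvd_mul_iff_left hP.ne_zero).1 hf
      exact (hP.prime.dvd_or_dvd h4).resolve_left h3
    exact hP.not_isUnit (hcop.isUnit_of_dvd' (key _ h1) (key _ h2))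

end Pool.Agent.Sm.Inst
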