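import Mathlib
import Pool.Agent.Lib.SmD.NN

/-!
SMITH, block P6a: the cyclotomic character modulo `2 ^ m` on `Gal(Ω/K)`, `Ω` separably closed of
characteristic `≠ 2`.
-/

set_option autoImplicit false

namespace Pool.Agent.SmP

variable {K Ω : Type} [Field K] [Field Ω] [Algebra K Ω]

/-- The cyclotomic character modulo `2 ^ m`. -/
noncomputable def cyc (m : ℕ) (s : Ω ≃ₐ[K] Ω) : ZMod (2 ^ m) :=
  open Classical in
  if h : ∃ ζ : Ω, IsPrimitiveRoot ζ (2 ^ m) then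
    ((h.choose_spec.autToPow K s : (ZMod (2 ^ m))ˣ) : ZMod (2 ^ m))
  else 1

theorem exists_prim_root [IsSepClosed Ω] (h2 : (2 : Ω) ≠ 0) (m : ℕ) :
    ∃ ζ : Ω, IsPrimitiveRoot ζ (2 ^ m) := by
  have : NeZero ((2 : ℕ) : Ω) := ⟨by rw [Nat.cast_ofNat]; exact h2⟩
  exact HasEnoughRootsOfUnity.exists_primitiveRoot Ω (2 ^ m)

/-- two integers with the same power of a primitive root -/
theorem pow_eq_iff_cast {ζ : Ω} {m : ℕ} (hζ : IsPrimitiveRoot ζ (2 ^ m)) (a b : ℕ) :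
    ζ ^ a = ζ ^ b ↔ (a : ZMod (2 ^ m)) = (b : ZMod (2 ^ m)) := by
  rw [← (hζ.isUnit (by positivity)).unit_spec, ← Units.val_pow_eq_pow_val,
    ← Units.val_pow_eq_pow_val, Units.val_inj, pow_eq_pow_iff_modEq, ZMod.natCast_eq_natCast_iff]
  have h : orderOf (hζ.isUnit (by positivity)).unit = 2 ^ m := by
    rw [← orderOf_units, (hζ.isUnit (by positivity)).unit_spec, ← hζ.eq_orderOf]
  rw [h]

theorem pow_val_cast {ζ : Ω} {m : ℕ} (hζ : ζ ^ 2 ^ m = 1) (a : ℕ) :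
    ζ ^ (a : ZMod (2 ^ m)).val = ζ ^ a := by
  rw [ZMod.val_natCast]
  conv_rhs => rw [← Nat.mod_add_div a (2 ^ m), pow_add, pow_mul, hζ, one_pow, mul_one]

variable [IsSepClosed Ω] (h2 : (2 : Ω) ≠ 0)

include h2

theorem cyc_spec (m : ℕ) (s : Ω ≃ₐ[K] Ω) {ζ : Ω} (hζ : ζ ^ 2 ^ m = 1) :
    s ζ = ζ ^ (cyc m s).val := by
  have h := exists_prim_root h2 m
  rw [cyc, dif_pos h]
  obtain ⟨i, -, rfl⟩ := h.choose_spec.eq_pow_of_pow_eq_one hζ
  rw [map_pow, ← IsPrimitiveRoot.autToPow_spec K h.choose_spec s]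
  rw [← pow_mul, ← pow_mul, mul_comm]

theorem cyc_unique (m : ℕ) (s : Ω ≃ₐ[K] Ω) {ζ : Ω} (hζ : IsPrimitiveRoot ζ (2 ^ m)) {n : ℕ}
    (h : s ζ = ζ ^ n) : cyc m s = (n : ZMod (2 ^ m)) := by
  have h1 := cyc_spec h2 m s hζ.pow_eq_one
  rw [h, pow_eq_iff_cast hζ, ZMod.natCast_val, ZMod.cast_id', id] at h1
  exact h1.symm

theorem cyc_mul (m : ℕ) (s t : Ω ≃ₐ[K] Ω) : cyc m (s * t) = cyc m s * cyc m t := by
  have h := exists_prim_root h2 m
  rw [cyc, cyc, cyc, dif_pos h, dif_pos h, dif_pos h, map_mul, Units.val_mul]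

theorem cyc_one (m : ℕ) : cyc m (1 : Ω ≃ₐ[K] Ω) = 1 := by
  have h := exists_prim_root h2 m
  rw [cyc, dif_pos h, map_one, Units.val_one]

theorem cyc_mul_inv (m : ℕ) (s : Ω ≃ₐ[K] Ω) : cyc m s * cyc m s⁻¹ = 1 := by
  rw [← cyc_mul h2, mul_inv_cancel, cyc_one h2]

theorem cyc_cast (m : ℕ) (s : Ω ≃ₐ[K] Ω) :
    ZMod.castHom (pow_dvd_pow 2 (Nat.le_succ m)) (ZMod (2 ^ m)) (cyc (m + 1) s) = cyc m s := by
  obtain ⟨ζ, hζ⟩ := exists_prim_root h2 (m + 1)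
  have h1 : IsPrimitiveRoot (ζ ^ 2) (2 ^ m) := hζ.pow (by positivity) (by rw [pow_succ']) 
  have h3 : s (ζ ^ 2) = (ζ ^ 2) ^ (cyc (m + 1) s).val := by
    rw [map_pow, cyc_spec h2 (m + 1) s hζ.pow_eq_one, ← pow_mul, ← pow_mul, mul_comm]
  rw [cyc_unique h2 m s h1 h3]
  conv_lhs => rw [← ZMod.natCast_zmod_val (cyc (m + 1) s)]
  rw [map_natCast]

/-- the cyclotomic character is 2-finite -/
theorem cyc_fin [IsGalois K Ω] (m : ℕ) :
    ∃ N ∈ Pool.Agent.SmD.NN K Ω, ∀ s ∈ N, cyc m s = 1 := by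
  obtain ⟨ζ, hζ⟩ := exists_prim_root h2 m
  refine ⟨MulAction.stabilizer (Ω ≃ₐ[K] Ω) ζ, Pool.Agent.SmD.mem_NN_of_pow ?_ ?_ ?_, ?_⟩
  · refine ⟨fun n hn g => ?_⟩
    rw [MulAction.mem_stabilizer_iff] at hn ⊢
    have h1 : g⁻¹ ζ = ζ ^ (cyc m g⁻¹).val := cyc_spec h2 m g⁻¹ hζ.pow_eq_one
    change g (n (g⁻¹ ζ)) = ζ
    have h3 : n ζ = ζ := hn
    rw [h1, map_pow, h3, ← h1, ← AlgEquiv.mul_apply, mul_inv_cancel, AlgEquiv.one_apply]
  · have hint : IsIntegral K ζ := (Algebra.IsAlgebraic.isAlgebraic (R := K) ζ).isIntegral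
    have hfd : FiniteDimensional K (IntermediateField.adjoin K {ζ}) :=
      IntermediateField.adjoin.finiteDimensional hint
    have h1 := IntermediateField.fixingSubgroup_isOpen (IntermediateField.adjoin K {ζ})
    refine Subgroup.isOpen_mono (H₁ := (IntermediateField.adjoin K {ζ}).fixingSubgroup) ?_ h1
    intro s hs
    rw [MulAction.mem_stabilizer_iff]
    exact (IntermediateField.mem_fixingSubgroup_iff _ _).1 hs ζ
      (IntermediateField.mem_adjoin_simple_self K ζ)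
  · intro σ
    refine ⟨m, ?_⟩
    rw [MulAction.mem_stabilizer_iff]
    have h1 : ∀ n : ℕ, cyc m (σ ^ n) = cyc m σ ^ n := by
      intro n
      induction n with
      | zero => rw [pow_zero, pow_zero, cyc_one h2]
      | succ n ih => rw [pow_succ, cyc_mul h2, ih, pow_succ]
    have h3 : cyc m (σ ^ 2 ^ m) = 1 := by
      rw [h1]
      have hu : IsUnit (cyc m σ) := IsUnit.of_mul_eq_one _ (cyc_mul_inv h2 m σ)
      obtain ⟨u, hu⟩ := hu
      rw [← hu, ← Units.val_pow_eq_pow_val]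
      rcases Nat.eq_zero_or_pos m with rfl | hm
      · exact Subsingleton.elim (α := ZMod 1) _ _
      · have h4 : u ^ (2 ^ m).totient = 1 := ZMod.pow_totient u
        have h5 : 2 ^ m = (2 ^ m).totient * 2 := by
          rw [Nat.totient_prime_pow Nat.prime_two hm]
          obtain ⟨j, rfl⟩ : ∃ j, m = j + 1 := ⟨m - 1, by omega⟩
          simp [pow_succ]
        have h6 : u ^ 2 ^ m = 1 := by
          calc u ^ 2 ^ m = u ^ ((2 ^ m).totient * 2) := congrArg (fun j => u ^ j) h5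
            _ = 1 := by rw [pow_mul, h4, one_pow]
        rw [h6, Units.val_one]
    change (σ ^ 2 ^ m) ζ = ζ
    rw [cyc_spec h2 m _ hζ.pow_eq_one, h3]
    rcases Nat.eq_zero_or_pos m with rfl | hm
    · have h6 : ζ = 1 := by simpa using hζ.pow_eq_one
      rw [h6, one_pow]
    · have : Fact (1 < 2 ^ m) := ⟨Nat.one_lt_two_pow (by omega)⟩
      rw [ZMod.val_one, pow_one]
  · intro s hs
    rw [MulAction.mem_stabilizer_iff] at hs
    have h3 : s ζ = ζ ^ 1 := by rw [pow_one]; exact hs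
    rw [cyc_unique h2 m s hζ h3, Nat.cast_one]

end Pool.Agent.SmP
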