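import Pool.Agent.Lib.Sm.P.DTNum

/-!
# SMITH, block P: characters with values in `ZMod (2 ^ L)`, one level

`single`: two characters `D`, `C` of a group with values in `ZMod (2 ^ L)`, `D ≡ 1 mod 2 ^ a`,
`C ≡ 1 + 2 ^ a chi mod 2 ^ (a + 1)`, such that every quadratic character factoring through
`(D, C)` is `0` or `chi` (if it vanishes on a given set where `D`, `C` are trivial): then `D` is a
power of `C`.
-/

set_option autoImplicit false

namespace Pool.Agent.SmP

/-- reduction modulo `2 ^ M` -/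
noncomputable def rho {L M : ℕ} (h : M ≤ L) : ZMod (2 ^ L) →+* ZMod (2 ^ M) :=
  ZMod.castHom (pow_dvd_pow 2 h) (ZMod (2 ^ M))

theorem rho_intCast {L M : ℕ} (h : M ≤ L) (c : ℤ) : rho h (c : ZMod (2 ^ L)) = c := by
  unfold rho
  simp

theorem exists_intCast {L : ℕ} (x : ZMod (2 ^ L)) : ∃ c : ℤ, (c : ZMod (2 ^ L)) = x :=
  ZMod.intCast_surjective x

theorem rho_rho {L M N : ℕ} (h : M ≤ L) (h' : N ≤ M) (x : ZMod (2 ^ L)) :
    rho h' (rho h x) = rho (h'.trans h) x := by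
  obtain ⟨c, rfl⟩ := exists_intCast x
  rw [rho_intCast, rho_intCast, rho_intCast]

theorem rho_self {L : ℕ} (x : ZMod (2 ^ L)) : rho le_rfl x = x := by
  obtain ⟨c, rfl⟩ := exists_intCast x
  rw [rho_intCast]

theorem intCast_eq_one_iff {L : ℕ} (c : ℤ) : (c : ZMod (2 ^ L)) = 1 ↔ (2 : ℤ) ^ L ∣ c - 1 := by
  have h := ZMod.intCast_zmod_eq_zero_iff_dvd (c - 1) (2 ^ L)
  push_cast at h
  rw [← h, sub_eq_zero]

theorem intCast_eq_iff {L : ℕ} (c d : ℤ) : (c : ZMod (2 ^ L)) = d ↔ (2 : ℤ) ^ L ∣ c - d := by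
  have h := ZMod.intCast_zmod_eq_zero_iff_dvd (c - d) (2 ^ L)
  push_cast at h
  rw [← h, sub_eq_zero]

theorem one_or (M : ℕ) (y : ZMod (2 ^ (M + 1))) (h : rho (Nat.le_succ M) y = 1) :
    y = 1 ∨ y = 1 + 2 ^ M := by
  obtain ⟨c, rfl⟩ := exists_intCast y
  rw [rho_intCast, intCast_eq_one_iff] at h
  obtain ⟨t, ht⟩ := h
  rcases Int.even_or_odd' t with ⟨r, hr | hr⟩
  · left
    rw [intCast_eq_one_iff]
    exact ⟨r, by rw [ht, hr, pow_succ]; ring⟩
  · right
    have e : (1 + 2 ^ M : ZMod (2 ^ (M + 1))) = ((1 + 2 ^ M : ℤ) : ZMod (2 ^ (M + 1))) := by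
      push_cast; ring
    rw [e, intCast_eq_iff]
    refine ⟨r, ?_⟩
    have : c = 1 + 2 ^ M * (2 * r + 1) := by rw [← hr, ← ht]; ring
    rw [this, pow_succ]; ring

theorem one_ne (M : ℕ) : (1 : ZMod (2 ^ (M + 1))) + 2 ^ M ≠ 1 := by
  intro h
  have e : (1 + 2 ^ M : ZMod (2 ^ (M + 1))) = ((1 + 2 ^ M : ℤ) : ZMod (2 ^ (M + 1))) := by
    push_cast; ring
  rw [e, intCast_eq_one_iff] at h
  have h2 : (2 : ℤ) ^ (M + 1) ∣ 2 ^ M := by
    have : (1 + 2 ^ M : ℤ) - 1 = 2 ^ M := by ring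
    rwa [this] at h
  have h3 := Int.le_of_dvd (by positivity) h2
  rw [pow_succ] at h3
  have h4 : (0 : ℤ) < 2 ^ M := by positivity
  linarith

theorem mul_self_one (M : ℕ) (hM : 1 ≤ M) :
    ((1 : ZMod (2 ^ (M + 1))) + 2 ^ M) * (1 + 2 ^ M) = 1 := by
  have e : ((1 : ZMod (2 ^ (M + 1))) + 2 ^ M) * (1 + 2 ^ M) =
      (((1 + 2 ^ M) * (1 + 2 ^ M) : ℤ) : ZMod (2 ^ (M + 1))) := by
    push_cast; ring
  rw [e, intCast_eq_one_iff]
  refine ⟨1 + 2 ^ (M - 1), ?_⟩
  have h1 : (2 : ℤ) ^ M = 2 * 2 ^ (M - 1) := by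
    rw [← pow_succ']; congr 1; omega
  have h2 : (2 : ℤ) ^ (M + 1) = 2 * 2 ^ M := pow_succ' _ _
  rw [h2]
  linear_combination (2 : ℤ) ^ M * h1

/-- `c ≡ 1 + 2 ^ a ε mod 2 ^ (a + 1)` implies `c ^ (2 ^ j) ≡ 1 + 2 ^ (a + j) ε` -/
theorem pow_lift (a : ℕ) (ha : 2 ≤ a) (c ε : ℤ) (h : (2 : ℤ) ^ (a + 1) ∣ c - (1 + 2 ^ a * ε)) (j : ℕ) :
    (2 : ℤ) ^ (a + j + 1) ∣ c ^ (2 ^ j) - (1 + 2 ^ (a + j) * ε) := by
  induction j with
  | zero => simpa using h
  | succ j ih =>
    obtain ⟨t, ht⟩ := ih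
    have h1 : c ^ (2 ^ j) = 1 + 2 ^ (a + j) * ε + 2 ^ (a + j + 1) * t := by linarith
    have e1 : c ^ (2 ^ (j + 1)) = (c ^ (2 ^ j)) ^ 2 := by rw [pow_succ, pow_mul]
    have e2 : (2 : ℤ) ^ (a + j) = 4 * 2 ^ (a + j - 2) := by
      have : a + j = (a + j - 2) + 2 := by omega
      conv_lhs => rw [this]
      rw [pow_add]; ring
    set B : ℤ := 2 ^ (a + j) with hB
    have e3 : (2 : ℤ) ^ (a + j + 1) = 2 * B := pow_succ' _ _
    have e4 : (2 : ℤ) ^ (a + (j + 1)) = 2 * B := by rw [← e3]; congr 1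
    have e5 : (2 : ℤ) ^ (a + (j + 1) + 1) = 4 * B := by rw [pow_succ, e4]; ring
    rw [e1, h1, e3, e4, e5]
    refine ⟨t + 2 ^ (a + j - 2) * (ε + 2 * t) ^ 2, ?_⟩
    linear_combination B * (ε + 2 * t) ^ 2 * e2

theorem single {G : Type*} [Group G] {L : ℕ} (D C : G →* ZMod (2 ^ L)) (chi : G → ZMod 2)
    (T : Set G) (a : ℕ) (ha : 2 ≤ a) (haL : a + 1 ≤ L)
    (hD : ∀ s, rho (by omega : a ≤ L) (D s) = 1)
    (hC : ∀ s, rho haL (C s) = 1 + 2 ^ a * ((chi s).val : ZMod (2 ^ (a + 1))))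
    (hDT : ∀ s ∈ T, D s = 1) (hCT : ∀ s ∈ T, C s = 1)
    (K1 : ∀ b : G → ZMod 2, (∀ s t, b (s * t) = b s + b t) →
      (∀ s, D s = 1 → C s = 1 → b s = 0) → (∀ s ∈ T, b s = 0) →
      (∀ s, b s = 0) ∨ ∀ s, b s = chi s) :
    ∃ X : ℕ, ∀ s, D s = C s ^ X := by
  classical
  have key : ∀ M, ∀ hM : a ≤ M, ∀ hML : M ≤ L, ∃ X : ℕ, ∀ s, rho hML (D s) = rho hML (C s ^ X) := by
    intro M hM
    induction M, hM using Nat.le_induction with
    | base =>
      intro hML
      refine ⟨0, fun s => ?_⟩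
      rw [hD, pow_zero, map_one]
    | succ M hM ih =>
      intro hML
      obtain ⟨X, hX⟩ := ih (by omega)
      -- the quotient
      set e : G → ZMod (2 ^ (M + 1)) := fun s => rho hML (D s * C s⁻¹ ^ X) with he
      have hCinv : ∀ s, C s * C s⁻¹ = 1 := fun s => by rw [← map_mul, mul_inv_cancel, map_one]
      have hemul : ∀ s t, e (s * t) = e s * e t := by
        intro s t
        simp only [he]
        have h1 : C (s * t)⁻¹ = C s⁻¹ * C t⁻¹ := by rw [mul_inv_rev, map_mul, mul_comm]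
        rw [map_mul D s t, h1, ← map_mul (rho hML)]
        congr 1
        rw [mul_pow]; ring
      have he1 : ∀ s, rho (Nat.le_succ M) (e s) = 1 := by
        intro s
        simp only [he]
        rw [rho_rho, map_mul, hX s, ← map_mul, ← mul_pow, hCinv, one_pow, map_one]
      have hor := fun s => one_or M (e s) (he1 s)
      set b : G → ZMod 2 := fun s => if e s = 1 then 0 else 1 with hb
      have hbv : ∀ s, e s = 1 + 2 ^ M * ((b s).val : ZMod (2 ^ (M + 1))) := by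
        intro s
        rcases hor s with h | h
        · simp [hb, h]
        · have h1 : ¬ e s = 1 := by rw [h]; exact one_ne M
          simp only [hb, if_neg h1]
          rw [h, ZMod.val_one]
          simp
      have hbadd : ∀ s t, b (s * t) = b s + b t := by
        intro s t
        simp only [hb, hemul]
        rcases hor s with h | h <;> rcases hor t with h' | h'
        · simp [h, h']
        · simp [h, h', one_ne M]
        · simp [h, h', one_ne M]
        · rw [h, h', if_pos (mul_self_one M (by omega)), if_neg (one_ne M)]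
          decide
      have hb0 : ∀ s, D s = 1 → C s = 1 → b s = 0 := by
        intro s h1 h3
        have h4 : C s⁻¹ = 1 := by
          have := hCinv s
          rwa [h3, one_mul] at this
        have h5 : e s = 1 := by simp only [he]; rw [h1, h4, one_pow, one_mul, map_one]
        simp [hb, h5]
      have hbT : ∀ s ∈ T, b s = 0 := fun s hs => hb0 s (hDT s hs) (hCT s hs)
      -- the power of `C`
      have hCpow : ∀ s, rho hML (C s) ^ (2 ^ (M - a)) =
          1 + 2 ^ M * ((chi s).val : ZMod (2 ^ (M + 1))) := by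
        intro s
        obtain ⟨c, hc⟩ := exists_intCast (C s)
        have h1 := hC s
        rw [← hc, rho_intCast] at h1
        have h3 : (1 + 2 ^ a * ((chi s).val : ZMod (2 ^ (a + 1)))) =
            ((1 + 2 ^ a * ((chi s).val : ℤ) : ℤ) : ZMod (2 ^ (a + 1))) := by
          push_cast; ring
        rw [h3, intCast_eq_iff] at h1
        have h4 := pow_lift a ha c _ h1 (M - a)
        have h5 : a + (M - a) = M := by omega
        rw [h5] at h4
        rw [← hc, rho_intCast]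
        have h6 : (1 + 2 ^ M * ((chi s).val : ZMod (2 ^ (M + 1)))) =
            ((1 + 2 ^ M * ((chi s).val : ℤ) : ℤ) : ZMod (2 ^ (M + 1))) := by
          push_cast; ring
        rw [h6, ← Int.cast_pow, intCast_eq_iff]
        exact h4
      have hDe : ∀ s, rho hML (D s) = rho hML (C s ^ X) * e s := by
        intro s
        simp only [he]
        rw [← map_mul]
        congr 1
        calc D s = (C s * C s⁻¹) ^ X * D s := by rw [hCinv, one_pow, one_mul]
          _ = C s ^ X * (D s * C s⁻¹ ^ X) := by rw [mul_pow]; ring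
      rcases K1 b hbadd hb0 hbT with hall | hall
      · refine ⟨X, fun s => ?_⟩
        rw [hDe, hbv, hall s]
        simp
      · refine ⟨X + 2 ^ (M - a), fun s => ?_⟩
        have h1 : C s ^ (X + 2 ^ (M - a)) = C s ^ X * C s ^ (2 ^ (M - a)) := pow_add _ _ _
        rw [hDe, hbv, hall s, ← hCpow s, h1, map_mul (rho hML),
          map_pow (rho hML) (C s) (2 ^ (M - a))]
  obtain ⟨X, hX⟩ := key L (by omega) le_rfl
  refine ⟨X, fun s => ?_⟩
  have := hX s
  rwa [rho_self, rho_self] at this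

end Pool.Agent.SmP
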