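import Pool.Agent.Lib.Sm.P.DTame
import Pool.Agent.Lib.Sm.P.DTSingle
import Pool.Agent.Lib.SmF.Base
import Pool.Agent.Lib.Sm.JDefs

/-!
# SMITH, block P: the cyclotomic characters modulo powers of `2`

`cycD K Ω h2 M s : ZMod (2 ^ M)`: `s z = z ^ (cycD M s)` for all `z` with `z ^ (2 ^ M) = 1`.
Over `K = k(t)`, `k` finite with `q` elements, `q ^ 2 = 1 + 2 ^ a (odd)`, `u` a non-square of `k`:
`cycD (a + 1) s ^ 2 = 1 + 2 ^ a chi_u(s)`.
-/

set_option autoImplicit false

namespace Pool.Agent.SmP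

open Pool.Agent.Lib.SmD Pool.Agent.SmD

section general

variable {K Om : Type*} [Field K] [Field Om] [Algebra K Om]

theorem exists_primRoot [IsSepClosed Om] (h2 : (2 : Om) ≠ 0) (M : ℕ) :
    ∃ z : Om, IsPrimitiveRoot z (2 ^ M) := by
  rcases M with _ | M
  · exact ⟨1, by simp⟩
  · obtain ⟨z, hz⟩ := exists_root2 h2 (-1 : Om) M
    refine ⟨z, ?_⟩
    have hne : ¬ z ^ (2 ^ M) = 1 := by
      rw [hz]
      intro h
      apply h2
      linear_combination -h
    have h3 : z ^ (2 ^ (M + 1)) = 1 := by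
      rw [pow_succ, pow_mul, hz]; norm_num
    rw [← orderOf_eq_prime_pow hne h3]
    exact IsPrimitiveRoot.orderOf z

/-- the cyclotomic character modulo `2 ^ M` -/
noncomputable def cycD (K : Type*) {Om : Type*} [Field K] [Field Om] [Algebra K Om]
    [IsSepClosed Om] (h2 : (2 : Om) ≠ 0) (M : ℕ) : (Om ≃ₐ[K] Om) →* ZMod (2 ^ M) :=
  (Units.coeHom _).comp ((exists_primRoot h2 M).choose_spec.autToPow K)

theorem cycD_spec [IsSepClosed Om] (h2 : (2 : Om) ≠ 0) (M : ℕ) (s : Om ≃ₐ[K] Om) {z : Om}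
    (hz : z ^ (2 ^ M) = 1) : s z = z ^ (cycD K h2 M s).val := by
  have h := (exists_primRoot h2 M).choose_spec
  obtain ⟨i, -, rfl⟩ := h.eq_pow_of_pow_eq_one hz
  have h3 := h.autToPow_spec K s
  rw [map_pow, ← h3, ← pow_mul, ← pow_mul, mul_comm]
  rfl

/-- characterisation -/
theorem cycD_eq_of [IsSepClosed Om] (h2 : (2 : Om) ≠ 0) (M : ℕ) (s : Om ≃ₐ[K] Om) (n : ℕ)
    (h : ∀ z : Om, z ^ (2 ^ M) = 1 → s z = z ^ n) : cycD K h2 M s = n := by
  obtain ⟨z, hz⟩ := exists_primRoot (Om := Om) h2 M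
  have h3 := cycD_spec h2 M s hz.pow_eq_one
  rw [h z hz.pow_eq_one, ← pow_mod_orderOf, ← hz.eq_orderOf] at h3
  have h4 := hz.pow_inj (Nat.mod_lt _ (by positivity)) (ZMod.val_lt _) h3
  rw [← ZMod.natCast_zmod_val (cycD K h2 M s), ← h4, ZMod.natCast_mod]

theorem rho_cycD [IsSepClosed Om] (h2 : (2 : Om) ≠ 0) {L M : ℕ} (h : M ≤ L) (s : Om ≃ₐ[K] Om) :
    rho h (cycD K h2 L s) = cycD K h2 M s := by
  have h3 : cycD K h2 M s = ((cycD K h2 L s).val : ℕ) := by
    apply cycD_eq_of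
    intro z hz
    apply cycD_spec
    obtain ⟨j, rfl⟩ := Nat.exists_eq_add_of_le h
    rw [pow_add, pow_mul, hz, one_pow]
  rw [h3]
  conv_lhs => rw [← ZMod.natCast_zmod_val (cycD K h2 L s)]
  rw [map_natCast]

theorem cycD_eq_one_of_mem [IsSepClosed Om] (h2 : (2 : Om) ≠ 0) (M : ℕ) {s : Om ≃ₐ[K] Om}
    (hs : s ∈ fixRoots Om (1 : K) M) : cycD K h2 M s = 1 := by
  have := cycD_eq_of h2 M s 1 (fun z hz => by rw [pow_one]; exact hs z (by rw [hz, map_one]))
  rw [this, Nat.cast_one]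

theorem cycD_iner [IsSepClosed Om] {w : ValuationSubring Om} (h2 : w.valuation 2 = 1) (M : ℕ)
    {s : Om ≃ₐ[K] Om} (hs : s ∈ iner K w) : cycD K (two_ne_zero_Om h2) M s = 1 := by
  have := cycD_eq_of (two_ne_zero_Om h2) M s 1
    (fun z hz => by rw [pow_one]; exact iner_root h2 hs M z hz)
  rw [this, Nat.cast_one]

theorem cycD_frob [IsSepClosed Om] {w : ValuationSubring Om} (h2 : w.valuation 2 = 1) (M : ℕ)
    {s : Om ≃ₐ[K] Om} (hs : IsFrob K w s) :
    cycD K (two_ne_zero_Om h2) M s = resCard (below K w) :=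
  cycD_eq_of (two_ne_zero_Om h2) M s _ (fun _ hz => frob_root h2 hs M hz)

end general

private theorem DTCyc_pow {F κ : Type*} [Field F] [Finite F] [Field κ] [Algebra F κ]
    (s : κ ≃+* κ) (hs : ∀ a : F, s (algebraMap F κ a) = algebraMap F κ a) (m : ℕ) (hm : 0 < m) :
    ∃ n : ℕ, ∀ y : κ, y ^ (Nat.card F) ^ m = y → s y = y ^ (Nat.card F) ^ n := by
  classical
  let ft : Fintype F := Fintype.ofFinite F
  have hq : Nat.card F = Fintype.card F := Nat.card_eq_fintype_card
  rw [hq]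
  have hΦ : ∀ (L : Type _) [Field L] [Algebra F L] (n : ℕ) (y : L),
      ((FiniteField.frobeniusAlgHom F L) ^ n) y = y ^ (Fintype.card F) ^ n := by
    intro L _ _ n y
    rw [AlgHom.coe_pow, FiniteField.coe_frobeniusAlgHom, pow_iterate]
  let Φ : κ →ₐ[F] κ := (FiniteField.frobeniusAlgHom F κ) ^ m
  let E : IntermediateField F κ :=
    { carrier := {y | Φ y = y}
      mul_mem' := fun {a b} ha hb => by
        change Φ (a * b) = a * b
        rw [map_mul, show Φ a = a from ha, show Φ b = b from hb]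
      add_mem' := fun {a b} ha hb => by
        change Φ (a + b) = a + b
        rw [map_add, show Φ a = a from ha, show Φ b = b from hb]
      algebraMap_mem' := fun a => Φ.commutes a
      inv_mem' := fun a ha => by
        change Φ a⁻¹ = a⁻¹
        rw [map_inv₀, show Φ a = a from ha] }
  have hE : ∀ y, y ∈ E ↔ y ^ (Fintype.card F) ^ m = y := by
    intro y
    rw [← hΦ κ m y]
    exact Iff.rfl
  have hfin : Finite E := by
    have h1 : (Polynomial.X ^ (Fintype.card F) ^ m - Polynomial.X : Polynomial κ) ≠ 0 :=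
      FiniteField.X_pow_card_sub_X_ne_zero κ (Nat.one_lt_pow hm.ne' Fintype.one_lt_card)
    have h2 : {y : κ | y ∈ E} ⊆
        {y : κ | (Polynomial.X ^ (Fintype.card F) ^ m - Polynomial.X : Polynomial κ).IsRoot y} := by
      intro y hy
      have h3 := (hE y).1 hy
      simp only [Set.mem_ofPred_eq, Polynomial.IsRoot.def, Polynomial.eval_sub,
        Polynomial.eval_pow, Polynomial.eval_X]
      rw [h3, sub_self]
    exact ((Polynomial.finite_setOfPred_isRoot h1).subset h2).to_subtype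
  let f : E →ₐ[F] E :=
    { toFun := fun y => ⟨s y, by
        rw [hE, ← map_pow, (hE _).1 y.2]⟩
      map_one' := by
        apply Subtype.ext
        exact map_one s
      map_mul' := fun a b => by
        apply Subtype.ext
        exact map_mul s _ _
      map_zero' := by
        apply Subtype.ext
        exact map_zero s
      map_add' := fun a b => by
        apply Subtype.ext
        exact map_add s _ _
      commutes' := fun a => by
        apply Subtype.ext
        exact hs a }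
  obtain ⟨n, hn⟩ := (FiniteField.bijective_frobeniusAlgHom_pow F E).2 f
  refine ⟨n, fun y hy => ?_⟩
  have h1 : ((FiniteField.frobeniusAlgHom F E) ^ (n : ℕ)) ⟨y, (hE y).2 hy⟩ =
      f ⟨y, (hE y).2 hy⟩ := by rw [← hn]
  rw [hΦ] at h1
  exact (congrArg Subtype.val h1).symm

theorem DTCyc_ringChar {k : Type} [Field k] (h2 : (2 : k) ≠ 0) : ringChar k ≠ 2 := by
  intro h
  apply h2
  have := ringChar.Nat.cast_ringChar (R := k)
  rw [h] at this
  exact_mod_cast this

section ratfunc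

variable {k Om : Type} [Field k] [Finite k] [Field Om] [Algebra (RatFunc k) Om]

/-- the action on the quadratic extension of the constants -/
theorem quad_act [IsSepClosed Om] (h2 : (2 : k) ≠ 0) {u : k} (hu : ¬ IsSquare u) (s : Om ≃ₐ[RatFunc k] Om) :
    (chi (RatFunc k) (algebraMap k (RatFunc k) u) s = 0 →
      ∀ y : Om, y ^ (Nat.card k ^ 2) = y → s y = y) ∧
    (chi (RatFunc k) (algebraMap k (RatFunc k) u) s = 1 →
      ∀ y : Om, y ^ (Nat.card k ^ 2) = y → s y = y ^ Nat.card k) := by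
  classical
  let _ : Algebra k Om := ((algebraMap (RatFunc k) Om).comp (algebraMap k (RatFunc k))).toAlgebra
  have halg : ∀ c : k, algebraMap k Om c = algebraMap (RatFunc k) Om (algebraMap k (RatFunc k) c) :=
    fun _ => rfl
  have hOm2 : (2 : Om) ≠ 0 := by
    intro h
    apply h2
    apply (algebraMap k Om).injective
    rw [map_ofNat, h, map_zero]
  obtain ⟨n, hn⟩ := DTCyc_pow (F := k) s.toRingEquiv (fun a => s.commutes _) 2 (by norm_num)
  have hn' : ∀ y : Om, y ^ (Nat.card k ^ 2) = y → s y = y ^ (Nat.card k ^ n) := hn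
  have hft : Fintype k := Fintype.ofFinite k
  have hF := Pool.Agent.SmP.DTCyc_ringChar h2
  have hodd := FiniteField.odd_card_of_char_ne_two hF
  have hcard : Nat.card k = Fintype.card k := Nat.card_eq_fintype_card
  rw [← hcard] at hodd
  set q := Nat.card k with hq
  have hu0 : u ≠ 0 := by
    rintro rfl
    exact hu ⟨0, by simp⟩
  have hpow : u ^ (q / 2) = -1 := by
    rw [hcard]
    exact (FiniteField.pow_dichotomy hF hu0).resolve_left
      (fun h => hu ((FiniteField.isSquare_iff hF hu0).2 h))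
  obtain ⟨r, hr⟩ := Pool.Agent.Lib.SmD.exists_sqrt hOm2 (algebraMap k Om u)
  have hr0 : r ≠ 0 := by
    rintro rfl
    rw [zero_pow two_ne_zero] at hr
    exact (map_ne_zero_iff _ (algebraMap k Om).injective).2 hu0 hr.symm
  have hrq : r ^ q = -r := by
    have h3 : q = 2 * (q / 2) + 1 := by omega
    rw [h3, pow_succ, pow_mul, hr, ← map_pow, hpow, map_neg, map_one]
    ring
  have hqodd : Odd q := Nat.odd_iff.2 hodd
  have hrn : ∀ n : ℕ, r ^ (q ^ n) = (-1) ^ n * r := by
    intro n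
    induction n with
    | zero => simp
    | succ n ih =>
      rw [pow_succ q n, pow_mul, ih, mul_pow, hrq, ← pow_mul, mul_comm n q, pow_mul,
        hqodd.neg_one_pow, pow_succ]
      ring
  have hr2 : r ^ (q ^ 2) = r := by rw [hrn 2]; norm_num
  have hsr : s r = (-1) ^ n * r := by rw [hn' r hr2, hrn]
  have heven : ∀ (y : Om), y ^ (q ^ 2) = y → ∀ j : ℕ, y ^ (q ^ (2 * j)) = y := by
    intro y hy j
    induction j with
    | zero => simp
    | succ j ih =>
      rw [Nat.mul_succ, pow_add, pow_mul, ih, hy]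
  constructor
  · intro hchi y hy
    have h3 : s r = r := (chi_eq_zero_iff _ s hr).1 hchi
    rw [hn' y hy]
    rcases Nat.even_or_odd' n with ⟨j, hj | hj⟩
    · rw [hj, heven y hy]
    · exfalso
      rw [hsr, hj, pow_succ, pow_mul] at h3
      have h4 : (2 : Om) * r = 0 := by
        have : ((-1 : Om) ^ 2) ^ j = 1 := by norm_num
        rw [this] at h3
        linear_combination -h3
      exact (mul_ne_zero hOm2 hr0) h4
  · intro hchi y hy
    have hu0' : (algebraMap k (RatFunc k) u) ≠ 0 :=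
      (map_ne_zero_iff _ (algebraMap k (RatFunc k)).injective).2 hu0
    have h3 : s r = -r := (chi_eq_one_iff hOm2 hu0' s hr).1 hchi
    rw [hn' y hy]
    rcases Nat.even_or_odd' n with ⟨j, hj | hj⟩
    · exfalso
      rw [hsr, hj, pow_mul] at h3
      have h4 : (2 : Om) * r = 0 := by
        have : ((-1 : Om) ^ 2) ^ j = 1 := by norm_num
        rw [this] at h3
        linear_combination h3
      exact (mul_ne_zero hOm2 hr0) h4
    · rw [hj, pow_succ q (2 * j), pow_mul, heven y hy]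

/-- `cycD ^ 2` modulo `2 ^ (a + 1)` -/
theorem cycD_sq [IsSepClosed Om] (h2 : (2 : k) ≠ 0) (hOm : (2 : Om) ≠ 0) {u : k}
    (hu : ¬ IsSquare u) (a : ℕ) (ha : (2 : ℤ) ^ a ∣ (Nat.card k : ℤ) ^ 2 - 1)
    (ha' : ¬ (2 : ℤ) ^ (a + 1) ∣ (Nat.card k : ℤ) ^ 2 - 1) (s : Om ≃ₐ[RatFunc k] Om) :
    cycD (RatFunc k) hOm (a + 1) s ^ 2 = 1 + 2 ^ a *
      ((chi (RatFunc k) (algebraMap k (RatFunc k) u) s).val : ZMod (2 ^ (a + 1))) := by
  set q := Nat.card k with hq
  obtain ⟨t, ht⟩ := ha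
  -- roots of unity of order `2 ^ a` are in the quadratic extension of `k`
  have hz : ∀ z : Om, z ^ (2 ^ a) = 1 → z ^ (q ^ 2) = z := by
    intro z hz
    have hq1 : 1 ≤ q ^ 2 := Nat.one_le_pow _ _ (Nat.pos_of_ne_zero (by
      rw [hq]; exact Nat.card_ne_zero.2 ⟨⟨0⟩, inferInstance⟩))
    have h3 : (2 ^ a : ℕ) ∣ q ^ 2 - 1 := by
      have : ((2 ^ a : ℕ) : ℤ) ∣ ((q ^ 2 - 1 : ℕ) : ℤ) := by
        rw [Nat.cast_sub hq1]
        push_cast
        exact ⟨t, ht⟩
      exact_mod_cast this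
    obtain ⟨j, hj⟩ := h3
    have h4 : q ^ 2 = 2 ^ a * j + 1 := by omega
    rw [h4, pow_succ, pow_mul, hz, one_pow, one_mul]
  have hodd : Odd t := by
    rw [← Int.not_even_iff_odd]
    rintro ⟨r, hr⟩
    exact ha' ⟨r, by rw [ht, hr, pow_succ]; ring⟩
  obtain ⟨c, hc⟩ := exists_intCast (cycD (RatFunc k) hOm (a + 1) s)
  have hcr : ((c : ℤ) : ZMod (2 ^ a)) = cycD (RatFunc k) hOm a s := by
    rw [← rho_cycD hOm (Nat.le_succ a) s, ← hc, rho_intCast]
  rw [← hc]
  have hgen : ∀ d ε : ℤ, (2 : ℤ) ^ a ∣ c - d → (2 : ℤ) ^ (a + 1) ∣ d ^ 2 - (1 + 2 ^ a * ε) → 1 ≤ a →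
      ((c : ℤ) : ZMod (2 ^ (a + 1))) ^ 2 = ((1 + 2 ^ a * ε : ℤ) : ZMod (2 ^ (a + 1))) := by
    intro d ε h3 h4 h1
    rw [← Int.cast_pow, intCast_eq_iff]
    obtain ⟨x, hx⟩ := h3
    obtain ⟨y, hy⟩ := h4
    have e1 : (2 : ℤ) ^ a = 2 * 2 ^ (a - 1) := by rw [← pow_succ']; congr 1; omega
    have e2 : (2 : ℤ) ^ (a + 1) = 2 * 2 ^ a := pow_succ' _ _
    refine ⟨d * x + 2 ^ (a - 1) * x ^ 2 + y, ?_⟩
    have e3 : c = d + 2 ^ a * x := by linarith
    rw [e3, e2]
    rw [e2] at hy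
    linear_combination hy + (2 : ℤ) ^ a * x ^ 2 * e1
  have ha1 : 1 ≤ a := by
    rcases Nat.eq_zero_or_pos a with h0 | h0
    · exfalso
      apply ha'
      rw [h0, zero_add, pow_one]
      have hq3 : q % 2 = 1 := by
        have hft : Fintype k := Fintype.ofFinite k
        rw [hq, Nat.card_eq_fintype_card]
        exact FiniteField.odd_card_of_char_ne_two (Pool.Agent.SmP.DTCyc_ringChar h2)
      obtain ⟨j, hj⟩ : ∃ j, q = 2 * j + 1 := ⟨q / 2, by omega⟩
      rw [hj]
      exact ⟨2 * j ^ 2 + 2 * j, by push_cast; ring⟩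
    · exact h0
  have h01 : chi (RatFunc k) (algebraMap k (RatFunc k) u) s = 0 ∨
      chi (RatFunc k) (algebraMap k (RatFunc k) u) s = 1 := by
    have : ∀ x : ZMod 2, x = 0 ∨ x = 1 := by decide
    exact this _
  obtain ⟨hA, hB⟩ := quad_act h2 hu s
  rcases h01 with h | h
  · rw [h]
    have h3 : cycD (RatFunc k) hOm a s = 1 := by
      have := cycD_eq_of hOm a s 1 (fun z hz' => by rw [pow_one]; exact hA h z (hz z hz'))
      rw [this, Nat.cast_one]
    rw [h3, intCast_eq_one_iff] at hcr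
    have := hgen 1 0 hcr (by norm_num) ha1
    simpa using this
  · rw [h]
    have h3 : cycD (RatFunc k) hOm a s = ((q : ℤ) : ZMod (2 ^ a)) := by
      have := cycD_eq_of hOm a s q (fun z hz' => hB h z (hz z hz'))
      rw [this, Int.cast_natCast]
    rw [h3, intCast_eq_iff] at hcr
    have := hgen q 1 hcr (by
      obtain ⟨r, hr⟩ := hodd
      refine ⟨r, ?_⟩
      have : (q : ℤ) ^ 2 = 1 + 2 ^ a * t := by linarith
      rw [this, hr, pow_succ (2 : ℤ) a]; ring) ha1
    rw [this, ZMod.val_one]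
    push_cast
    ring

end ratfunc

end Pool.Agent.SmP
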