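import Mathlib

/-!
# SMITH, block P: elementary number theory for the torsion freeness of `1 + 4 Z_2`
-/

set_option autoImplicit false

namespace Pool.Agent.SmP

/-- the power of two part: `c ≡ 1 mod 4`, `c ^ (2 ^ j) ≡ 1 mod 2 ^ (m + j)` implies
`c ≡ 1 mod 2 ^ m` -/
theorem pow2_dvd (c : ℤ) (hc : 4 ∣ c - 1) (j : ℕ) : ∀ m : ℕ, (2 : ℤ) ^ (m + j) ∣ c ^ (2 ^ j) - 1 →
    (2 : ℤ) ^ m ∣ c - 1 := by
  induction j with
  | zero => intro m h; simpa using h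
  | succ j ih =>
    intro m h
    apply ih
    obtain ⟨a, ha⟩ : ∃ a : ℤ, c ^ (2 ^ j) = 1 + 4 * a := by
      have h1 : (4 : ℤ) ∣ c ^ (2 ^ j) - 1 := by
        have := sub_dvd_pow_sub_pow c 1 (2 ^ j)
        rw [one_pow] at this
        exact hc.trans this
      obtain ⟨a, ha⟩ := h1
      exact ⟨a, by linarith⟩
    have e1 : c ^ (2 ^ (j + 1)) - 1 = 2 * ((c ^ (2 ^ j) - 1) * (1 + 2 * a)) := by
      rw [pow_succ, pow_mul, ha]
      ring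
    rw [e1, ← add_assoc, pow_succ', mul_dvd_mul_iff_left two_ne_zero] at h
    refine IsCoprime.dvd_of_dvd_mul_right ?_ h
    apply IsCoprime.pow_left
    exact ⟨-a, 1, by ring⟩

/-- the odd part -/
theorem odd_dvd (c : ℤ) (hc : 2 ∣ c - 1) (u M : ℕ) (hu : Odd u) (h : (2 : ℤ) ^ M ∣ c ^ u - 1) :
    (2 : ℤ) ^ M ∣ c - 1 := by
  have e1 : (∑ i ∈ Finset.range u, c ^ i) * (c - 1) = c ^ u - 1 := geom_sum_mul c u
  rw [← e1] at h
  refine IsCoprime.dvd_of_dvd_mul_left ?_ h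
  apply IsCoprime.pow_left
  have hsum : ∀ u : ℕ, ∃ b : ℤ, ∑ i ∈ Finset.range u, c ^ i = u + 2 * b := by
    intro u
    induction u with
    | zero => exact ⟨0, by simp⟩
    | succ u ih =>
      obtain ⟨b, hb⟩ := ih
      have h1 : (2 : ℤ) ∣ c ^ u - 1 := by
        have := sub_dvd_pow_sub_pow c 1 u
        rw [one_pow] at this
        exact hc.trans this
      obtain ⟨a, ha⟩ := h1
      refine ⟨b + a, ?_⟩
      rw [Finset.sum_range_succ, hb]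
      push_cast
      linarith
  obtain ⟨b, hb⟩ := hsum u
  obtain ⟨v, hv⟩ := hu
  rw [hb, hv]
  exact ⟨-(v + b), 1, by push_cast; ring⟩

/-- `c ≡ 1 mod 4`, `c ^ d ≡ 1 mod 2 ^ (m + j)`, `d = 2 ^ j u`, `u` odd, imply `c ≡ 1 mod 2 ^ m` -/
theorem pow_dvd_sub_one (c : ℤ) (hc : 4 ∣ c - 1) (d : ℕ) (hd : 0 < d) :
    ∃ j : ℕ, ∀ m : ℕ, (2 : ℤ) ^ (m + j) ∣ c ^ d - 1 → (2 : ℤ) ^ m ∣ c - 1 := by
  obtain ⟨j, u, hu, rfl⟩ := Nat.exists_eq_two_pow_mul_odd hd.ne'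
  refine ⟨j, fun m h => ?_⟩
  apply pow2_dvd c hc j m
  rw [pow_mul] at h
  refine odd_dvd _ ?_ u _ hu h
  have := sub_dvd_pow_sub_pow c 1 (2 ^ j)
  rw [one_pow] at this
  exact (Dvd.dvd.trans (by norm_num) hc).trans this

/-- uniform form: the loss depends only on the exponent -/
theorem exists_loss (d : ℕ) (hd : 0 < d) :
    ∃ j : ℕ, ∀ c : ℤ, 4 ∣ c - 1 → ∀ m : ℕ, (2 : ℤ) ^ (m + j) ∣ c ^ d - 1 → (2 : ℤ) ^ m ∣ c - 1 := by
  obtain ⟨j, u, hu, rfl⟩ := Nat.exists_eq_two_pow_mul_odd hd.ne'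
  refine ⟨j, fun c hc m h => ?_⟩
  apply pow2_dvd c hc j m
  rw [pow_mul] at h
  refine odd_dvd _ ?_ u _ hu h
  have := sub_dvd_pow_sub_pow c 1 (2 ^ j)
  rw [one_pow] at this
  exact (Dvd.dvd.trans (by norm_num) hc).trans this

/-- the order of `c ≡ 1 mod 4` modulo `2 ^ M` is a power of `2` dividing `2 ^ M` -/
theorem pow_two_pow (c : ℤ) (hc : 2 ∣ c - 1) (M : ℕ) : (2 : ℤ) ^ M ∣ c ^ (2 ^ M) - 1 := by
  induction M with
  | zero => simp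
  | succ M ih =>
    obtain ⟨a, ha⟩ := ih
    have h1 : (2 : ℤ) ∣ c ^ (2 ^ M) + 1 := by
      have := sub_dvd_pow_sub_pow c 1 (2 ^ M)
      rw [one_pow] at this
      obtain ⟨b, hb⟩ := hc.trans this
      exact ⟨b + 1, by linarith⟩
    obtain ⟨b, hb⟩ := h1
    refine ⟨a * b, ?_⟩
    have e1 : c ^ (2 ^ (M + 1)) - 1 = (c ^ (2 ^ M) - 1) * (c ^ (2 ^ M) + 1) := by
      rw [pow_succ, pow_mul]; ring
    rw [e1, ha, hb, pow_succ]
    ring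

end Pool.Agent.SmP
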