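import Pool.Agent.Lib.Sm.P.DTUnr
import Pool.Agent.Lib.SmD.ChiFrob

/-!
# SMITH, block P: a compatible family of characters which is trivial at one Frobenius element

`psi_trivial`: `K = k(t)`, `k` finite, `2 ≠ 0`. A compatible family of `2`-finite characters
`psi m : Gal(Ω/K) → ZMod (2 ^ m)`, trivial modulo `4`, with `psi m φ = 1` for a Frobenius element
`φ` at one place, is trivial.
-/

set_option autoImplicit false

namespace Pool.Agent.SmP

open Polynomial Pool.Agent.Lib.SmD Pool.Agent.SmD Pool.Agent.SmF Pool.Agent.BSDFF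

/-- lower bound for the exponent -/
theorem exists_B (c : ℤ) (hc : 4 ∣ c - 1) (hc1 : c ≠ 1) :
    ∃ B : ℕ, ∀ X M : ℕ, (2 : ℤ) ^ (M + B) ∣ c ^ X - 1 → 2 ^ M ∣ X := by
  refine ⟨(c - 1).natAbs, fun X M h => ?_⟩
  set B := (c - 1).natAbs with hB
  rcases Nat.eq_zero_or_pos X with rfl | hX
  · exact dvd_zero _
  obtain ⟨i, u, hu, rfl⟩ := Nat.exists_eq_two_pow_mul_odd hX.ne'
  by_contra hcon
  have hi : i < M := by
    by_contra hi
    exact hcon ((pow_dvd_pow 2 (not_lt.1 hi)).trans (dvd_mul_right _ _))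
  have h1 : (2 : ℤ) ^ (M + B) ∣ c ^ (2 ^ i) - 1 := by
    rw [pow_mul] at h
    refine odd_dvd _ ?_ u _ hu h
    have := sub_dvd_pow_sub_pow c 1 (2 ^ i)
    rw [one_pow] at this
    exact (Dvd.dvd.trans (by norm_num) hc).trans this
  have h3 : M + B = (M - i + B) + i := by omega
  rw [h3] at h1
  have h4 := pow2_dvd c hc i _ h1
  have h5 : (2 : ℤ) ^ (M - i + B) ≤ |c - 1| := by
    have h6 : c - 1 ≠ 0 := sub_ne_zero.2 hc1
    exact Int.le_of_dvd (abs_pos.2 h6) ((dvd_abs _ _).2 h4)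
  rw [Int.abs_eq_natAbs] at h5
  have h7 : (B : ℤ) < 2 ^ (M - i + B) := by
    have h8 : B < 2 ^ B := Nat.lt_two_pow_self
    have h9 : 2 ^ B ≤ 2 ^ (M - i + B) := Nat.pow_le_pow_right (by norm_num) (by omega)
    exact_mod_cast lt_of_lt_of_le h8 h9
  rw [← hB] at h5
  linarith

variable {k Om : Type} [Field k] [Finite k] [Field Om] [Algebra (RatFunc k) Om]
  [IsSepClosure (RatFunc k) Om]

omit [Finite k] [IsSepClosure (RatFunc k) Om] in
theorem rho_psi (psi : (m : ℕ) → (Om ≃ₐ[RatFunc k] Om) →* ZMod (2 ^ m))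
    (hcomp : ∀ m s, rho (Nat.le_succ m) (psi (m + 1) s) = psi m s) {m L : ℕ} (h : m ≤ L)
    (s : Om ≃ₐ[RatFunc k] Om) : rho h (psi L s) = psi m s := by
  induction L, h using Nat.le_induction with
  | base => rw [rho_self]
  | succ L h ih => rw [← ih, ← hcomp L s, rho_rho]

theorem psi_TT (h2 : (2 : k) ≠ 0) (psi : (m : ℕ) → (Om ≃ₐ[RatFunc k] Om) →* ZMod (2 ^ m))
    (htf : ∀ m, TF (fun s => psi m s))
    (hcomp : ∀ m s, rho (Nat.le_succ m) (psi (m + 1) s) = psi m s) (h4 : ∀ s, psi 2 s = 1)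
    {τ : Om ≃ₐ[RatFunc k] Om} (hτ : τ ∈ TT k Om) (M : ℕ) : psi M τ = 1 := by
  have hsc : IsSepClosed Om := IsSepClosure.sep_closed (RatFunc k)
  obtain ⟨P, hP, hs⟩ := hτ
  have h := locHyp_P (Om := Om) h2 hP
  set w := ab Om (placeOf P hP) with hw
  have hfin := h.fin
  obtain ⟨φ, hφ⟩ := exists_frob (K := RatFunc k) w
  set q := resCard (below (RatFunc k) w) with hq
  have hq2 : 1 < q := Finite.one_lt_card
  obtain ⟨j, hj⟩ := exists_loss (q - 1) (by omega)
  set M' := M + j + 2 with hM'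
  obtain ⟨N, hN, hNf⟩ := htf M'
  have h5 := tame h hs hφ hN
  have h6 : psi M' (φ * τ * φ⁻¹ * (τ ^ q)⁻¹) = 1 := by
    have := hNf 1 _ h5
    simp only [one_mul, map_one] at this
    exact this
  have hinv : psi M' φ * psi M' φ⁻¹ = 1 := by rw [← map_mul, mul_inv_cancel, map_one]
  have hx : psi M' τ * psi M' τ⁻¹ = 1 := by rw [← map_mul, mul_inv_cancel, map_one]
  have hy : psi M' τ = psi M' τ ^ q := by
    rw [map_mul, map_mul, map_mul, ← inv_pow, map_pow] at h6
    calc psi M' τ = psi M' τ * (psi M' τ * psi M' τ⁻¹) ^ q := by rw [hx, one_pow, mul_one]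
      _ = (psi M' φ * psi M' φ⁻¹) * psi M' τ * (psi M' τ * psi M' τ⁻¹) ^ q := by
          rw [hinv, one_mul]
      _ = (psi M' φ * psi M' τ * psi M' φ⁻¹ * psi M' τ⁻¹ ^ q) * psi M' τ ^ q := by
          rw [mul_pow]; ring
      _ = psi M' τ ^ q := by rw [h6, one_mul]
  have hpow : psi M' τ ^ (q - 1) = 1 := by
    have e : psi M' τ ^ q = psi M' τ ^ (q - 1) * psi M' τ := by
      rw [← pow_succ]; congr 1; omega
    rw [e] at hy
    calc psi M' τ ^ (q - 1) = psi M' τ ^ (q - 1) * (psi M' τ * psi M' τ⁻¹) := by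
          rw [hx, mul_one]
      _ = (psi M' τ ^ (q - 1) * psi M' τ) * psi M' τ⁻¹ := by ring
      _ = 1 := by rw [← hy, hx]
  obtain ⟨c, hc⟩ := exists_intCast (psi M' τ)
  have hc4 : 4 ∣ c - 1 := by
    have h7 := rho_psi psi hcomp (by omega : 2 ≤ M') τ
    rw [← hc, rho_intCast, h4, intCast_eq_one_iff] at h7
    exact h7
  rw [← hc, ← Int.cast_pow, intCast_eq_one_iff] at hpow
  have h8 := hj c hc4 M ((pow_dvd_pow 2 (by omega)).trans hpow)
  have h9 := rho_psi psi hcomp (by omega : M ≤ M') τ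
  rw [← hc, rho_intCast] at h9
  rw [← h9, intCast_eq_one_iff]
  exact h8

theorem psi_trivial (h2 : (2 : k) ≠ 0)
    (psi : (m : ℕ) → (Om ≃ₐ[RatFunc k] Om) →* ZMod (2 ^ m))
    (htf : ∀ m, TF (fun s => psi m s))
    (hcomp : ∀ m s, rho (Nat.le_succ m) (psi (m + 1) s) = psi m s) (h4 : ∀ s, psi 2 s = 1)
    {w : ValuationSubring Om} {π : RatFunc k} (hw : LocHyp (RatFunc k) w π)
    {φ : Om ≃ₐ[RatFunc k] Om} (hφ : IsFrob (RatFunc k) w φ) (hφ1 : ∀ m, psi m φ = 1)
    (m : ℕ) (s : Om ≃ₐ[RatFunc k] Om) : psi m s = 1 := by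
  classical
  have hsc : IsSepClosed Om := IsSepClosure.sep_closed (RatFunc k)
  have hOm : (2 : Om) ≠ 0 := hw.two_ne
  -- the number `a`
  have hqodd : Nat.card k % 2 = 1 := by
    have hft : Fintype k := Fintype.ofFinite k
    rw [Nat.card_eq_fintype_card]
    exact FiniteField.odd_card_of_char_ne_two (DTCyc_ringChar h2)
  have hq1 : 1 < Nat.card k := Finite.one_lt_card
  obtain ⟨r, hr⟩ : ∃ r, Nat.card k = 2 * r + 1 := ⟨Nat.card k / 2, by omega⟩
  have hr0 : 0 < r := by omega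
  obtain ⟨a, t, htodd, hat⟩ := Nat.exists_eq_two_pow_mul_odd (n := 4 * (r * (r + 1)))
    (by positivity)
  have hqa : ((Nat.card k : ℕ) : ℤ) ^ 2 - 1 = 2 ^ a * t := by
    have : ((4 * (r * (r + 1)) : ℕ) : ℤ) = ((2 ^ a * t : ℕ) : ℤ) := by rw [hat]
    push_cast at this
    rw [hr]
    push_cast
    linear_combination this
  have ha2 : 2 ≤ a := by
    by_contra hcon
    have h3 : a = 0 ∨ a = 1 := by omega
    obtain ⟨v, hv⟩ := htodd
    rcases h3 with h3 | h3
    · rw [h3, pow_zero, one_mul, hv] at hat; omega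
    · rw [h3, pow_one, hv] at hat; omega
  have hdvd : (2 : ℤ) ^ a ∣ ((Nat.card k : ℕ) : ℤ) ^ 2 - 1 := ⟨t, hqa⟩
  have hndvd : ¬ (2 : ℤ) ^ (a + 1) ∣ ((Nat.card k : ℕ) : ℤ) ^ 2 - 1 := by
    rintro ⟨y, hy⟩
    rw [hqa, pow_succ, mul_assoc] at hy
    have h3 := mul_left_cancel₀ (pow_ne_zero a two_ne_zero) hy
    obtain ⟨v, hv⟩ := htodd
    omega
  obtain ⟨u, hu⟩ := FiniteField.exists_nonsquare (F := k) (DTCyc_ringChar h2)
  -- one level
  have hlev : ∀ L, a + 1 ≤ L → ∃ X : ℕ, ∀ s : Om ≃ₐ[RatFunc k] Om,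
      psi L s ^ (2 ^ a) = (cycD (RatFunc k) hOm L s ^ 2) ^ X := by
    intro L hL
    have hpm : ∀ s : Om ≃ₐ[RatFunc k] Om, ∃ c : ℤ, (c : ZMod (2 ^ L)) = psi L s ∧ 4 ∣ c - 1 := by
      intro s
      obtain ⟨c, hc⟩ := exists_intCast (psi L s)
      refine ⟨c, hc, ?_⟩
      have h7 := rho_psi psi hcomp (by omega : 2 ≤ L) s
      rw [← hc, rho_intCast, h4, intCast_eq_one_iff] at h7
      exact h7
    have hcycT : ∀ s ∈ TT k Om, cycD (RatFunc k) hOm L s = 1 := by
      rintro s ⟨P, hP, hs⟩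
      exact cycD_iner (locHyp_P (Om := Om) h2 hP).two L hs.1
    obtain ⟨X, hX⟩ := single ((powMonoidHom (2 ^ a)).comp (psi L))
      ((powMonoidHom 2).comp (cycD (RatFunc k) hOm L))
      (fun s => chi (RatFunc k) (algebraMap k (RatFunc k) u) s) (TT k Om) a ha2 hL
      (by
        intro s
        obtain ⟨c, hc, hc4⟩ := hpm s
        change rho _ (psi L s ^ (2 ^ a)) = 1
        rw [← hc, ← Int.cast_pow, rho_intCast, intCast_eq_one_iff]
        exact pow_two_pow c (Dvd.dvd.trans (by norm_num) hc4) a)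
      (by
        intro s
        change rho _ (cycD (RatFunc k) hOm L s ^ 2) = _
        rw [map_pow, rho_cycD]
        exact cycD_sq h2 hOm hu a hdvd hndvd s)
      (by
        intro s hs
        change psi L s ^ (2 ^ a) = 1
        rw [psi_TT h2 psi htf hcomp h4 hs, one_pow])
      (by
        intro s hs
        change cycD (RatFunc k) hOm L s ^ 2 = 1
        rw [hcycT s hs, one_pow])
      (by
        intro b hb hb0 hbT
        apply unr_char h2 hu _ hbT
        refine ⟨?_, hb⟩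
        obtain ⟨N, hN, hNf⟩ := htf L
        refine ⟨N ⊓ fixRoots Om (1 : RatFunc k) L, inf_mem_NN hN (fixRoots_mem_NN 1 L),
          fun s n hn => ?_⟩
        rw [hb, hb0 n, add_zero]
        · change psi L n ^ (2 ^ a) = 1
          have := hNf 1 n hn.1
          simp only [one_mul, map_one] at this
          rw [this, one_pow]
        · change cycD (RatFunc k) hOm L n ^ 2 = 1
          rw [cycD_eq_one_of_mem hOm L hn.2, one_pow])
    exact ⟨X, hX⟩
  -- the place `w`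
  have hfin := hw.fin
  set q := resCard (below (RatFunc k) w) with hq
  have hqw1 : 1 < q := Finite.one_lt_card
  have hqwodd : q % 2 = 1 := by
    have hft : Fintype (IsLocalRing.ResidueField (below (RatFunc k) w)) := Fintype.ofFinite _
    rw [hq, resCard, Nat.card_eq_fintype_card]
    exact FiniteField.odd_card_of_char_ne_two (ringChar_residue hw.two)
  obtain ⟨v, hv⟩ : ∃ v, q = 2 * v + 1 := ⟨q / 2, by omega⟩
  obtain ⟨B, hB⟩ := exists_B (((q : ℤ)) ^ 2) ⟨v ^ 2 + v, by rw [hv]; push_cast; ring⟩ (by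
    have : (1 : ℤ) < q := by exact_mod_cast hqw1
    nlinarith)
  -- all levels
  have hall : ∀ M, ∀ s : Om ≃ₐ[RatFunc k] Om, psi M s ^ (2 ^ a) = 1 := by
    intro M s
    obtain ⟨X, hX⟩ := hlev (M + B + a + 1) (by omega)
    have h3 := hX φ
    rw [hφ1, one_pow, cycD_frob hw.two _ hφ, ← hq] at h3
    have h5 : (((((q : ℤ)) ^ 2) ^ X : ℤ) : ZMod (2 ^ (M + B + a + 1))) = 1 := by
      rw [h3]; push_cast; rfl
    rw [intCast_eq_one_iff] at h5
    obtain ⟨y, hy⟩ := hB X M ((pow_dvd_pow 2 (by omega)).trans h5)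
    have h6 := congrArg (rho (by omega : M ≤ M + B + a + 1)) (hX s)
    rw [map_pow, rho_psi psi hcomp, map_pow, map_pow, rho_cycD] at h6
    rw [h6]
    rcases Nat.eq_zero_or_pos M with h0 | hpos
    · subst h0
      exact Subsingleton.elim (α := ZMod 1) _ _
    · obtain ⟨c, hc⟩ := exists_intCast (cycD (RatFunc k) hOm M s)
      have h7 : (2 : ℤ) ∣ c - 1 := by
        have h8 := rho_cycD (K := RatFunc k) hOm (by omega : 1 ≤ M) s
        rw [← hc, rho_intCast] at h8
        have h9 : cycD (RatFunc k) hOm 1 s * cycD (RatFunc k) hOm 1 s⁻¹ = 1 := by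
          rw [← map_mul, mul_inv_cancel, map_one]
        have h10 : ∀ x y : ZMod (2 ^ 1), x * y = 1 → x = 1 := by decide
        rw [h10 _ _ h9, intCast_eq_one_iff, pow_one] at h8
        exact h8
      rw [← hc, hy, ← pow_mul, ← mul_assoc, mul_comm 2, mul_assoc, pow_mul]
      have h11 : ((c : ℤ) : ZMod (2 ^ M)) ^ (2 ^ M) = 1 := by
        rw [← Int.cast_pow, intCast_eq_one_iff]
        exact pow_two_pow c h7 M
      rw [h11, one_pow]
  -- conclusion
  obtain ⟨j, hj⟩ := exists_loss (2 ^ a) (by positivity)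
  obtain ⟨c, hc⟩ := exists_intCast (psi (m + j + 2) s)
  have hc4 : 4 ∣ c - 1 := by
    have h7 := rho_psi psi hcomp (by omega : 2 ≤ m + j + 2) s
    rw [← hc, rho_intCast, h4, intCast_eq_one_iff] at h7
    exact h7
  have h5 := hall (m + j + 2) s
  rw [← hc, ← Int.cast_pow, intCast_eq_one_iff] at h5
  have h8 := hj c hc4 m ((pow_dvd_pow 2 (by omega)).trans h5)
  have h9 := rho_psi psi hcomp (by omega : m ≤ m + j + 2) s
  rw [← hc, rho_intCast] at h9
  rw [← h9, intCast_eq_one_iff]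
  exact h8

end Pool.Agent.SmP
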