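import Pool.Agent.Lib.Sm.P.DTCyc
import Pool.Agent.Lib.SmF.Vals
import Pool.Agent.Lib.SmD.Plc
import Pool.Agent.Lib.SmD.ChiLoc
import Pool.Agent.Lib.SmD.ValIner

/-!
# SMITH, block P: unramified quadratic characters of `k(t)`

A `2`-finite quadratic character of `Gal(Ω / k(t))` which vanishes at the tame inertia elements of
all finite places is `0` or the character of the quadratic extension of the constants.
-/

set_option autoImplicit false

namespace Pool.Agent.SmP

open Polynomial Pool.Agent.Lib.SmD Pool.Agent.SmD Pool.Agent.SmF Pool.Agent.BSDFF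

variable {k Om : Type} [Field k] [Finite k] [Field Om] [Algebra (RatFunc k) Om]

/-- the tame inertia elements of the chosen places above the finite places -/
def TT (k Om : Type) [Field k] [Field Om] [Algebra (RatFunc k) Om] :
    Set (Om ≃ₐ[RatFunc k] Om) :=
  {s | ∃ (P : k[X]) (hP : Irreducible P),
    IsSg (RatFunc k) (ab Om (placeOf P hP)) (algebraMap k[X] (RatFunc k) P) s}

theorem locHyp_P (h2 : (2 : k) ≠ 0) {P : k[X]} (hP : Irreducible P) :
    LocHyp (RatFunc k) (ab Om (placeOf P hP)) (algebraMap k[X] (RatFunc k) P) :=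
  locHyp_ab h2 (placeOf P hP) (unif_placeOf hP)

omit [Finite k] in
theorem val_not_dvd {P : k[X]} (hP : Irreducible P) {g : k[X]} (hg : ¬ P ∣ g) :
    (ab Om (placeOf P hP)).valuation (algebraMap (RatFunc k) Om (algebraMap k[X] (RatFunc k) g)) =
      1 := by
  have h1 := (polyHom_unit_iff _ (X_mem_placeOf P hP) hP (nonunit_placeOf P hP) _).2 hg
  obtain ⟨h3, h4⟩ := unit_mem h1
  refine val_unit_below ?_ ?_ h3
  · rw [below_ab]; exact (polyHom (placeOf P hP) (X_mem_placeOf P hP) g).2
  · rw [below_ab]; exact h4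

variable [IsSepClosure (RatFunc k) Om]

theorem chi_TT (h2 : (2 : k) ≠ 0) {P : k[X]} (hP : Irreducible P) {s : Om ≃ₐ[RatFunc k] Om}
    (hs : IsSg (RatFunc k) (ab Om (placeOf P hP)) (algebraMap k[X] (RatFunc k) P) s) {g : k[X]}
    (hg : ¬ P ∣ g) : chi (RatFunc k) (algebraMap k[X] (RatFunc k) g) s = 0 := by
  have hsc : IsSepClosed Om := IsSepClosure.sep_closed (RatFunc k)
  have h3 := chi_sg (locHyp_P h2 hP) hs (f := algebraMap k[X] (RatFunc k) g) (n := 0)
    (by rw [zpow_zero]; exact val_not_dvd hP hg)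
  rw [h3]
  simp

theorem chi_poly_const (h2 : (2 : k) ≠ 0) (n : ℕ) : ∀ g : k[X], g ≠ 0 → g.natDegree = n →
    (∀ s ∈ TT k Om, chi (RatFunc k) (algebraMap k[X] (RatFunc k) g) s = 0) →
    ∃ c : k, c ≠ 0 ∧ ∀ s : Om ≃ₐ[RatFunc k] Om,
      chi (RatFunc k) (algebraMap k[X] (RatFunc k) g) s =
        chi (RatFunc k) (algebraMap k (RatFunc k) c) s := by
  have hsc : IsSepClosed Om := IsSepClosure.sep_closed (RatFunc k)
  have h2' : (2 : RatFunc k) ≠ 0 := two_ratFunc h2
  have hne : ∀ f : k[X], f ≠ 0 → algebraMap k[X] (RatFunc k) f ≠ 0 := fun f hf => by simpa using hf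
  induction n using Nat.strong_induction_on with
  | _ n ih =>
    intro g hg hn hT
    rcases Nat.eq_zero_or_pos n with h0 | hpos
    · rw [h0] at hn
      obtain ⟨c, rfl⟩ := natDegree_eq_zero.1 hn
      refine ⟨c, fun h => hg (by rw [h, C_0]), fun s => ?_⟩
      rw [polyC]
    · obtain ⟨P, hP, ⟨g', hg'⟩⟩ := exists_irreducible_of_natDegree_pos (f := g) (by omega)
      have hg'0 : g' ≠ 0 := by rintro rfl; exact hg (by rw [hg', mul_zero])
      by_cases hd : P ∣ g'
      · obtain ⟨g'', hg''⟩ := hd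
        have hg''0 : g'' ≠ 0 := by rintro rfl; exact hg'0 (by rw [hg'', mul_zero])
        have e1 : g = P ^ 2 * g'' := by rw [hg', hg'']; ring
        have hchi : ∀ s : Om ≃ₐ[RatFunc k] Om,
            chi (RatFunc k) (algebraMap k[X] (RatFunc k) g) s =
              chi (RatFunc k) (algebraMap k[X] (RatFunc k) g'') s := by
          intro s
          rw [e1, map_mul, map_pow, chi_mul_elt h2' (pow_ne_zero 2 (hne P hP.ne_zero))
            (hne g'' hg''0), Pool.Agent.SmF.chi_sq h2' (hne P hP.ne_zero), zero_add]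
        have hlt : g''.natDegree < n := by
          rw [← hn, e1, natDegree_mul (pow_ne_zero 2 hP.ne_zero) hg''0, natDegree_pow]
          have := hP.natDegree_pos
          omega
        obtain ⟨c, hc, h4⟩ := ih _ hlt g'' hg''0 rfl (fun s hs => by rw [← hchi]; exact hT s hs)
        exact ⟨c, hc, fun s => by rw [hchi, h4]⟩
      · exfalso
        obtain ⟨s, hs⟩ := exists_sg (locHyp_P (Om := Om) h2 hP)
        have h3 := hT s ⟨P, hP, hs⟩
        rw [hg', map_mul, chi_mul_elt h2' (hne P hP.ne_zero) (hne g' hg'0), hs.2,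
          chi_TT h2 hP hs hd, add_zero] at h3
        exact one_ne_zero h3

theorem unr_char (h2 : (2 : k) ≠ 0) {u : k} (hu : ¬ IsSquare u) {b : (Om ≃ₐ[RatFunc k] Om) → ZMod 2}
    (hb : HomG b) (hT : ∀ s ∈ TT k Om, b s = 0) :
    (∀ s, b s = 0) ∨ ∀ s, b s = chi (RatFunc k) (algebraMap k (RatFunc k) u) s := by
  classical
  have h2' : (2 : RatFunc k) ≠ 0 := two_ratFunc h2
  have hne : ∀ f : k[X], f ≠ 0 → algebraMap k[X] (RatFunc k) f ≠ 0 := fun f hf => by simpa using hf
  obtain ⟨f, hf, hbf⟩ := kummer h2' hb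
  have hnum : f.num ≠ 0 := RatFunc.num_ne_zero hf
  have hden : f.denom ≠ 0 := RatFunc.denom_ne_zero f
  have hchi : ∀ s : Om ≃ₐ[RatFunc k] Om, chi (RatFunc k) f s =
      chi (RatFunc k) (algebraMap k[X] (RatFunc k) (f.num * f.denom)) s := by
    intro s
    have e1 : algebraMap k[X] (RatFunc k) (f.num * f.denom) =
        f * (algebraMap k[X] (RatFunc k) f.denom) ^ 2 := by
      conv_rhs => rw [← RatFunc.num_div_denom f]
      rw [map_mul, div_mul_eq_mul_div, eq_div_iff (hne _ hden)]
      simp only [RatFunc.num_div_denom]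
      ring
    rw [e1, chi_mul_elt h2' hf (pow_ne_zero 2 (hne _ hden)),
      Pool.Agent.SmF.chi_sq h2' (hne _ hden), add_zero]
  obtain ⟨c, hc, h4⟩ := chi_poly_const (Om := Om) h2 _ (f.num * f.denom) (mul_ne_zero hnum hden) rfl
    (fun s hs => by rw [← hchi, ← hbf]; exact hT s hs)
  have hcne : algebraMap k (RatFunc k) c ≠ 0 :=
    (map_ne_zero_iff _ (algebraMap k (RatFunc k)).injective).2 hc
  by_cases hsq : IsSquare c
  · left
    intro s
    obtain ⟨y, rfl⟩ := hsq
    have hy : y ≠ 0 := by rintro rfl; simp at hc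
    rw [hbf, hchi, h4, ← sq, map_pow]
    exact Pool.Agent.SmF.chi_sq h2' ((map_ne_zero_iff _ (algebraMap k (RatFunc k)).injective).2 hy) s
  · right
    intro s
    have hu0 : u ≠ 0 := by
      rintro rfl
      exact hu ⟨0, by simp⟩
    have hft : Fintype k := Fintype.ofFinite k
    have hF := DTCyc_ringChar h2
    have hcu : IsSquare (c * u) := by
      rw [FiniteField.isSquare_iff hF (mul_ne_zero hc hu0), mul_pow,
        (FiniteField.pow_dichotomy hF hc).resolve_left
          (fun h => hsq ((FiniteField.isSquare_iff hF hc).2 h)),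
        (FiniteField.pow_dichotomy hF hu0).resolve_left
          (fun h => hu ((FiniteField.isSquare_iff hF hu0).2 h))]
      norm_num
    obtain ⟨y, hy⟩ := hcu
    have hy0 : y ≠ 0 := by
      rintro rfl
      rw [mul_zero] at hy
      exact (mul_ne_zero hc hu0) hy
    have hune : algebraMap k (RatFunc k) u ≠ 0 :=
      (map_ne_zero_iff _ (algebraMap k (RatFunc k)).injective).2 hu0
    have h5 := chi_mul_elt (Ω := Om) h2' hcne hune s
    rw [← map_mul, hy, ← sq, map_pow,
      Pool.Agent.SmF.chi_sq h2' ((map_ne_zero_iff _ (algebraMap k (RatFunc k)).injective).2 hy0)] at h5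
    have h6 : ∀ x y : ZMod 2, 0 = x + y → x = y := by decide
    rw [hbf, hchi, h4]
    exact h6 _ _ h5

end Pool.Agent.SmP
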