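import Mathlib
import Pool.Agent.Lib.SmD.Near

/-!
SMITH, block P6a: a finite place of `k(t)` where the values of `α` and `β` are different, if `β` is not
a constant multiple of `α`.
-/

set_option autoImplicit false

open Polynomial

namespace Pool.Agent.SmP

open Pool.Agent.BSDFF Pool.Agent.Lib.SmD

variable {k : Type} [Field k]

/-- An irreducible polynomial which divides `α` and `β` with different multiplicities. -/
theorem exists_mult_ne {α β : k[X]} (hα : α ≠ 0) (hβ : β ≠ 0)
    (h : ∀ c : k, β ≠ C c * α) : ∃ P : k[X], Irreducible P ∧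
      emultiplicity P α ≠ emultiplicity P β := by
  by_contra hcon
  push Not at hcon
  have h1 : α ∣ β := by
    rw [UniqueFactorizationMonoid.dvd_iff_emultiplicity_le hα]
    intro p hp
    exact (hcon p hp.irreducible).le
  have h2 : β ∣ α := by
    rw [UniqueFactorizationMonoid.dvd_iff_emultiplicity_le hβ]
    intro p hp
    exact (hcon p hp.irreducible).ge
  obtain ⟨u, hu⟩ := associated_of_dvd_dvd h1 h2
  obtain ⟨c, -, hc⟩ := Polynomial.isUnit_iff.1 u.isUnit
  exact h c (by rw [← hu, ← hc, mul_comm])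

/-- A finite place where the values are different. -/
theorem exists_place_ne (Om : Type) [Field Om] [Algebra (RatFunc k) Om] {α β : k[X]} (hα : α ≠ 0)
    (hβ : β ≠ 0) (h : ∀ c : k, β ≠ C c * α) : ∃ (P : k[X]) (hP : Irreducible P),
      (ab Om (placeOf P hP)).valuation
        (algebraMap (RatFunc k) Om (algebraMap k[X] (RatFunc k) α)) ≠
      (ab Om (placeOf P hP)).valuation
        (algebraMap (RatFunc k) Om (algebraMap k[X] (RatFunc k) β)) := by
  obtain ⟨P, hP, hne⟩ := exists_mult_ne hα hβ h
  refine ⟨P, hP, ?_⟩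
  set w := (ab Om (placeOf P hP)).valuation with hw
  have hP1 : w (algebraMap (RatFunc k) Om (algebraMap k[X] (RatFunc k) P)) < 1 :=
    (val_poly_lt_iff hP P).2 dvd_rfl
  have hP0 : w (algebraMap (RatFunc k) Om (algebraMap k[X] (RatFunc k) P)) ≠ 0 := by
    rw [Valuation.ne_zero_iff]
    simpa using hP.ne_zero
  have key : ∀ f : k[X], f ≠ 0 → ∃ n : ℕ, emultiplicity P f = n ∧
      w (algebraMap (RatFunc k) Om (algebraMap k[X] (RatFunc k) f)) =
        w (algebraMap (RatFunc k) Om (algebraMap k[X] (RatFunc k) P)) ^ n := by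
    intro f hf
    have hfin : FiniteMultiplicity P f := FiniteMultiplicity.of_not_isUnit hP.not_isUnit hf
    obtain ⟨c, hc, hc1⟩ := hfin.exists_eq_pow_mul_and_not_dvd
    refine ⟨multiplicity P f, hfin.emultiplicity_eq_multiplicity, ?_⟩
    conv_lhs => rw [hc]
    rw [map_mul, map_mul, map_mul, map_pow, map_pow, map_pow, val_poly_eq_one hP hc1, mul_one]
  obtain ⟨a, ha, ha'⟩ := key α hα
  obtain ⟨b, hb, hb'⟩ := key β hβ
  rw [ha', hb']
  intro hab
  apply hne
  rw [ha, hb]
  have hpos : 0 < w (algebraMap (RatFunc k) Om (algebraMap k[X] (RatFunc k) P)) :=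
    zero_lt_iff.2 hP0
  have h3 : a = b := (pow_right_injective₀ hpos hP1.ne) hab
  rw [h3]

end Pool.Agent.SmP
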