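import Pool.Agent.Lib.Sm.P.LMMain
import Pool.Agent.Lib.Sm.P.Place
import Pool.Agent.Lib.Sm.P.DTPsi
import Pool.Agent.Lib.SmD.Main

/-!
SMITH, block P6a: **the determinant of the Galois action on `E[2 ^ m]` is the cyclotomic
character**, for `E : y ^ 2 = x (x - α) (x - β)` over `k(t)`, `k` finite of characteristic `≠ 2`,
`β` not a constant multiple of `α`.
-/

set_option autoImplicit false

open Polynomial

namespace Pool.Agent.SmP

open Pool.Agent.SmithE Pool.Agent.Lib.SmD Pool.Agent.BSDFF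

/-- the two definitions of the cyclotomic character agree -/
theorem cyc_eq_cycD {K Ω : Type} [Field K] [Field Ω] [Algebra K Ω] [IsSepClosed Ω]
    (h2 : (2 : Ω) ≠ 0) (m : ℕ) (s : Ω ≃ₐ[K] Ω) : cyc m s = cycD K h2 m s := by
  obtain ⟨ζ, hζ⟩ := exists_prim_root h2 m
  rw [cyc_unique h2 m s hζ (cycD_spec h2 m s hζ.pow_eq_one), ZMod.natCast_zmod_val]

section

variable {K Ω : Type} [Field K] [Field Ω] [Algebra K Ω] [DecidableEq Ω] {e₁ e₂ e₃ : K}

/-- `psi` as a homomorphism -/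
noncomputable def psiHom [IsSepClosed Ω] (h2 : (2 : Ω) ≠ 0) (B : CB (VV Ω e₁ e₂ e₃)) (m : ℕ) :
    (Ω ≃ₐ[K] Ω) →* ZMod (2 ^ m) where
  toFun := psi B m
  map_one' := by rw [psi, dt_one, inv_one, cyc_one h2, mul_one]
  map_mul' := psi_mul h2 B m

theorem psiHom_apply [IsSepClosed Ω] (h2 : (2 : Ω) ≠ 0) (B : CB (VV Ω e₁ e₂ e₃)) (m : ℕ)
    (s : Ω ≃ₐ[K] Ω) : psiHom h2 B m s = psi B m s := rfl

end

section

variable {k Ω : Type} [Field k] [Finite k] [Field Ω] [Algebra (RatFunc k) Ω]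
  [IsSepClosure (RatFunc k) Ω] [DecidableEq Ω]

/-- the determinant is the cyclotomic character, from a place where the values are different -/
theorem dt_eq_cyc_of_place (h2 : (2 : k) ≠ 0) {e₁ e₂ e₃ : RatFunc k} (h12 : e₁ ≠ e₂)
    (h13 : e₁ ≠ e₃) (h23 : e₂ ≠ e₃) (v : Place k (RatFunc k))
    (hv : (ab Ω v).valuation (algebraMap (RatFunc k) Ω (e₁ - e₂)) ≠
      (ab Ω v).valuation (algebraMap (RatFunc k) Ω (e₁ - e₃)))
    (B : CB (VV Ω e₁ e₂ e₃)) (m : ℕ) (s : Ω ≃ₐ[RatFunc k] Ω) : dt B m s = cyc m s := by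
  have hsc : IsSepClosed Ω := IsSepClosure.sep_closed (RatFunc k)
  have hg : IsGalois (RatFunc k) Ω := inferInstance
  have h2K : (2 : RatFunc k) ≠ 0 := SmF.two_ratFunc h2
  have h2Ω : (2 : Ω) ≠ 0 := two_ne_zero_of_algebraMap h2K
  obtain ⟨π, -, hL⟩ := exists_locHyp (Om := Ω) h2 v
  rw [← psi_eq_one_iff h2Ω B m s, ← psiHom_apply h2Ω]
  refine psi_trivial h2 (psiHom h2Ω B) ?_ ?_ ?_ hL (ph_frob v) ?_ m s
  · intro m
    obtain ⟨N, hN, hN'⟩ := psi_fin h2K h12 h13 h23 B m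
    refine ⟨N, hN, fun s n hn => ?_⟩
    change psi B m (s * n) = psi B m s
    rw [psi_mul h2Ω, hN' n hn, mul_one]
  · intro m s
    exact psi_cast h2Ω B m s
  · intro s
    change psi B 2 s = 1
    rw [psi_eq_one_iff h2Ω]
    exact dt_eq_cyc_two h2Ω h12 h13 h23 B s
  · intro m
    change psi B m _ = 1
    rw [psi_eq_one_iff h2Ω]
    exact dt_eq_cyc_local h12 h13 (ab Ω v).valuation (val_two h2 v) hv B _
      (fun z => dec_val_inv (ph_mem v) z) m

/-- **The determinant is the cyclotomic character.** -/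
theorem dt_eq_cyc (h2 : (2 : k) ≠ 0) {α β : k[X]} (hα : α ≠ 0) (hβ : β ≠ 0) (hαβ : α ≠ β)
    (hc : ∀ c : k, β ≠ C c * α)
    (B : CB (VV Ω (0 : RatFunc k) (algebraMap k[X] (RatFunc k) α)
      (algebraMap k[X] (RatFunc k) β))) (m : ℕ) (s : Ω ≃ₐ[RatFunc k] Ω) :
    dt B m s = cyc m s := by
  have hinj := IsFractionRing.injective k[X] (RatFunc k)
  obtain ⟨P, hP, hne⟩ := exists_place_ne Ω hα hβ hc
  refine dt_eq_cyc_of_place h2 ?_ ?_ (fun h => hαβ (hinj h)) (placeOf P hP) ?_ B m s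
  · intro h
    exact hα (hinj (by rw [← h, map_zero]))
  · intro h
    exact hβ (hinj (by rw [← h, map_zero]))
  · rw [zero_sub, zero_sub, map_neg (algebraMap (RatFunc k) Ω), map_neg (algebraMap (RatFunc k) Ω),
      Valuation.map_neg, Valuation.map_neg]
    exact hne

end

/-- the condition of `dt_eq_cyc` follows from `α β ≠ c f ^ 2` -/
theorem ne_const_mul {k : Type} [Field k] {α β : k[X]} (h : ∀ (c : k) (f : k[X]), α * β ≠ C c * f ^ 2) (c : k) :
    β ≠ C c * α := by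
  intro hc
  refine h c α ?_
  rw [hc]
  ring

end Pool.Agent.SmP
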