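import Pool.Agent.Lib.SmK.Mom
import Pool.Agent.Lib.SmK.DD
import Pool.Agent.Lib.Sm.JDefs
import Pool.Agent.Lib.Sm.Q.NUStep

/-!
SMITH over `F_q(t)` (MP_48b749_nt), block P (P5): the vectors of the Legendre symbols of `D` modulo
finitely many primes are equidistributed for `D` in `DD B n`, `n → ∞`.

`equi` : any two vectors occur equally often up to `ε #DD`; `equi_card` : each occurs for
`(2 ^ (- #ι) + o(1)) #DD` of the `D`; `half_of_flip` : if a property `E` changes whenever exactly the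
symbol at `i0` changes, then it holds for `(1/2 + o(1)) #DD` of the `D`.
-/

set_option autoImplicit false

open Polynomial Finset Pool.Agent.BSDP.R Pool.Agent.Sm Pool.Agent.SmK

namespace Pool.Agent.SmP

variable {k : Type} [Field k]

theorem leg_congr {P f g : k[X]} (h : P ∣ f - g) : leg P f = leg P g := by
  have h1 : P ∣ f ↔ P ∣ g := by
    constructor
    · intro hf
      have := dvd_sub hf h
      rwa [sub_sub_cancel] at this
    · intro hg
      have := dvd_add h hg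
      rwa [sub_add_cancel] at this
  have h2 : AdjoinRoot.mk P f = AdjoinRoot.mk P g := AdjoinRoot.mk_eq_mk.2 h
  unfold leg chiP
  by_cases hf : P ∣ f
  · rw [if_pos hf, if_pos (h1.1 hf)]
  · rw [if_neg hf, if_neg (fun hg => hf (h1.2 hg)), h2]

theorem chiP_leg {P f : k[X]} (hf : ¬ P ∣ f) : chiP P f = Q.sg (leg P f) := by
  unfold leg Q.sg chiP
  rw [if_neg hf]
  by_cases hs : IsSquare (AdjoinRoot.mk P f)
  · rw [if_pos hs]
    norm_num
  · rw [if_neg hs]
    norm_num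

theorem leg_mul [Finite k] {P f g : k[X]} (hP : Irreducible P) (hf : ¬ P ∣ f) (hg : ¬ P ∣ g) :
    leg P (f * g) = leg P f + leg P g := by
  have h1 := chiP_mul hP f g
  have h2 : ¬ P ∣ f * g := fun h => (hP.prime.dvd_or_dvd h).elim hf hg
  rw [chiP_leg hf, chiP_leg hg, chiP_leg h2] at h1
  have key : ∀ a b c : ZMod 2, Q.sg a = Q.sg b * Q.sg c → a = b + c := by
    intro a b c
    have h01 : ∀ x : ZMod 2, x = 0 ∨ x = 1 := by decide
    rcases h01 a with rfl | rfl <;> rcases h01 b with rfl | rfl <;> rcases h01 c with rfl | rfl <;>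
      simp [Q.sg]
    all_goals decide
  exact key _ _ _ h1

theorem exists_leg [Finite k] (h2 : (2 : k) ≠ 0) {P : k[X]} (hP : Irreducible P) (x : ZMod 2) :
    ∃ g : k[X], ¬ P ∣ g ∧ leg P g = x := by
  have h01 : ∀ x : ZMod 2, x = 0 ∨ x = 1 := by decide
  rcases h01 x with rfl | rfl
  · refine ⟨1, fun h => hP.not_isUnit (isUnit_of_dvd_one h), ?_⟩
    unfold leg
    rw [Q.chiP_one P hP, if_neg (by norm_num)]
  · have : Fact (Irreducible P) := ⟨hP⟩
    have hfin : Finite (AdjoinRoot P) := by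
      have : Module.Finite k (AdjoinRoot P) := (AdjoinRoot.powerBasis hP.ne_zero).finite
      exact Module.finite_of_finite k
    have h2' : (2 : AdjoinRoot P) ≠ 0 := by
      rw [← map_ofNat (algebraMap k (AdjoinRoot P)) 2]
      exact (map_ne_zero_iff _ (algebraMap k (AdjoinRoot P)).injective).mpr h2
    have : Fintype (AdjoinRoot P) := Fintype.ofFinite _
    obtain ⟨a, ha⟩ := FiniteField.exists_nonsquare (Q.ringChar_ne_two h2')
    obtain ⟨g, rfl⟩ := AdjoinRoot.mk_surjective a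
    have hg : ¬ P ∣ g := by
      intro h
      rw [AdjoinRoot.mk_eq_zero.2 h] at ha
      exact ha IsSquare.zero
    refine ⟨g, hg, ?_⟩
    unfold leg chiP
    rw [if_neg hg, if_neg ha, if_pos rfl]

section unit

variable {ι : Type} (ell : ι → k[X])

/-- the square-root-free modulus -/
private theorem Equi_exists_unit [Finite k] (h2 : (2 : k) ≠ 0) (hm : ∀ i, (ell i).Monic)
    (hi : ∀ i, Irreducible (ell i)) (hinj : Function.Injective ell) [Finite ι] (S : Finset k[X])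
    (hS : ∀ P ∈ S, P.Monic ∧ Irreducible P ∧ ∀ i, ell i ≠ P) (δ : ι → ZMod 2) :
    ∃ g : k[X], (∀ i, ¬ ell i ∣ g ∧ leg (ell i) g = δ i) ∧ ∀ P ∈ S, P ^ 2 ∣ g - 1 := by
  classical
  choose y hy1 hy2 using fun i => exists_leg h2 (hi i) (δ i)
  let I : ι ⊕ S → Ideal k[X] := Sum.elim (fun i => Ideal.span {ell i})
    fun P => Ideal.span {P.1 ^ 2}
  have cop : ∀ {P Q : k[X]}, P.Monic → Irreducible P → Q.Monic → Irreducible Q → P ≠ Q →
      IsCoprime P Q := by
    intro P Q hP hP' hQ hQ' hne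
    exact coprime_of_ne ⟨hP, hP'⟩ ⟨hQ, hQ'⟩ hne
  have hcop : Pairwise (Function.onFun IsCoprime I) := by
    rintro (a | a) (b | b) hab
    · show IsCoprime (Ideal.span {ell a}) (Ideal.span {ell b})
      rw [Ideal.isCoprime_span_singleton_iff]
      exact cop (hm a) (hi a) (hm b) (hi b) fun h => hab (congrArg Sum.inl (hinj h))
    · show IsCoprime (Ideal.span {ell a}) (Ideal.span {b.1 ^ 2})
      rw [Ideal.isCoprime_span_singleton_iff]
      obtain ⟨h3, h4, h5⟩ := hS b.1 b.2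
      exact (cop (hm a) (hi a) h3 h4 (h5 a)).pow_right
    · show IsCoprime (Ideal.span {a.1 ^ 2}) (Ideal.span {ell b})
      rw [Ideal.isCoprime_span_singleton_iff]
      obtain ⟨h3, h4, h5⟩ := hS a.1 a.2
      exact (cop (hm b) (hi b) h3 h4 (h5 b)).symm.pow_left
    · show IsCoprime (Ideal.span {a.1 ^ 2}) (Ideal.span {b.1 ^ 2})
      rw [Ideal.isCoprime_span_singleton_iff]
      obtain ⟨h3, h4, -⟩ := hS a.1 a.2
      obtain ⟨h6, h7, -⟩ := hS b.1 b.2
      exact (cop h3 h4 h6 h7 fun h => hab (congrArg Sum.inr (Subtype.ext h))).pow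
  obtain ⟨g, hg⟩ := Ideal.exists_forall_sub_mem_ideal hcop (Sum.elim y fun _ => 1)
  refine ⟨g, fun i => ?_, fun P hP => ?_⟩
  · have h3 : ell i ∣ g - y i := Ideal.mem_span_singleton.1 (hg (Sum.inl i))
    refine ⟨fun h => hy1 i ?_, ?_⟩
    · have := dvd_sub h h3
      rwa [sub_sub_cancel] at this
    · rw [leg_congr h3, hy2]
  · exact Ideal.mem_span_singleton.1 (hg (Sum.inr ⟨P, hP⟩))

end unit

section inj

variable [Finite k]

/-- multiplication by `g` modulo `G` on the remainders -/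
private noncomputable def Equi_mv (G g f : k[X]) : k[X] := f - f %ₘ G + (g * f) %ₘ G

omit [Finite k] in
private theorem Equi_mv_dvd (G g f : k[X]) : G ∣ Equi_mv G g f - g * f := by
  have h1 : G ∣ f - f %ₘ G := by
    rw [sub_eq_of_eq_add' (modByMonic_add_div f G).symm]
    exact dvd_mul_right _ _
  have h3 : G ∣ (g * f) %ₘ G - g * f := by
    rw [← dvd_neg, neg_sub, sub_eq_of_eq_add' (modByMonic_add_div (g * f) G).symm]
    exact dvd_mul_right _ _
  have e : Equi_mv G g f - g * f = (f - f %ₘ G) + ((g * f) %ₘ G - g * f) := by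
    unfold Equi_mv
    ring
  rw [e]
  exact dvd_add h1 h3

private theorem Equi_mv_mem {G g f : k[X]} (hG : G.Monic) {n : ℕ} (hn : G.natDegree ≤ n)
    (hf : f ∈ Mon k n) : Equi_mv G g f ∈ Mon k n := by
  rw [mem_Mon] at hf ⊢
  have h1 : (g * f) %ₘ G - f %ₘ G = 0 ∨ ((g * f) %ₘ G - f %ₘ G).degree < f.degree := by
    right
    refine lt_of_le_of_lt (degree_sub_le _ _) (max_lt ?_ ?_) <;>
    · refine lt_of_lt_of_le (degree_modByMonic_lt _ hG) ?_
      rw [degree_eq_natDegree hG.ne_zero, degree_eq_natDegree hf.1.ne_zero, hf.2]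
      exact_mod_cast hn
  have e : Equi_mv G g f = f + ((g * f) %ₘ G - f %ₘ G) := by
    unfold Equi_mv
    ring
  have h3 : ((g * f) %ₘ G - f %ₘ G).degree < f.degree := by
    rcases h1 with h1 | h1
    · rw [h1, degree_zero, bot_lt_iff_ne_bot]
      exact degree_ne_bot.2 hf.1.ne_zero
    · exact h1
  rw [e]
  exact ⟨hf.1.add_of_left h3, (natDegree_add_eq_left_of_degree_lt h3).trans hf.2⟩

omit [Finite k] in
private theorem Equi_mv_inj {G g f f' : k[X]} (hG : G.Monic) (hg : IsCoprime G g)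
    (h : Equi_mv G g f = Equi_mv G g f') : f = f' := by
  have h1 : G ∣ g * (f - f') := by
    have h3 := dvd_sub (Equi_mv_dvd G g f') (Equi_mv_dvd G g f)
    rw [h] at h3
    have e : Equi_mv G g f' - g * f' - (Equi_mv G g f' - g * f) = g * (f - f') := by ring
    rwa [e] at h3
  have h3 : G ∣ f - f' := hg.dvd_of_dvd_mul_left h1
  have h4 : f %ₘ G = f' %ₘ G := by
    rw [← sub_eq_zero, ← sub_modByMonic]
    exact (modByMonic_eq_zero_iff_dvd hG).2 h3
  have h5 : (g * f) %ₘ G = (g * f') %ₘ G := by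
    rw [← sub_eq_zero, ← sub_modByMonic, modByMonic_eq_zero_iff_dvd hG, ← mul_sub]
    exact h1
  unfold Equi_mv at h
  rw [h4, h5] at h
  simpa using h

open Classical in
/-- the polynomials with prescribed symbols and without small square factors -/
private noncomputable def Equi_A {ι : Type} (ell : ι → k[X]) (S : Finset k[X]) (n : ℕ)
    (ξ : ι → ZMod 2) : Finset k[X] :=
  {f ∈ Mon k n | (∀ i, ¬ ell i ∣ f ∧ leg (ell i) f = ξ i) ∧ ∀ P ∈ S, ¬ P ^ 2 ∣ f}

private theorem Equi_mem_A {ι : Type} (ell : ι → k[X]) (S : Finset k[X]) (n : ℕ)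
    (ξ : ι → ZMod 2) (f : k[X]) : f ∈ Equi_A ell S n ξ ↔
    f ∈ Mon k n ∧ (∀ i, ¬ ell i ∣ f ∧ leg (ell i) f = ξ i) ∧ ∀ P ∈ S, ¬ P ^ 2 ∣ f := by
  classical
  simp only [Equi_A, mem_filter]

private theorem Equi_card_A_le (h2 : (2 : k) ≠ 0) {ι : Type} [Fintype ι] (ell : ι → k[X])
    (hm : ∀ i, (ell i).Monic) (hi : ∀ i, Irreducible (ell i)) (hinj : Function.Injective ell)
    (S : Finset k[X]) (hS : ∀ P ∈ S, P.Monic ∧ Irreducible P ∧ ∀ i, ell i ≠ P) (n : ℕ)
    (hn : ((∏ i, ell i) * ∏ P ∈ S, P ^ 2).natDegree ≤ n) (ξ ξ' : ι → ZMod 2) :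
    #(Equi_A ell S n ξ) ≤ #(Equi_A ell S n ξ') := by
  classical
  obtain ⟨g, hg1, hg2⟩ := Equi_exists_unit ell h2 hm hi hinj S hS fun i => ξ' i - ξ i
  set G : k[X] := (∏ i, ell i) * ∏ P ∈ S, P ^ 2 with hG
  have hGm : G.Monic := (monic_prod_of_monic _ _ fun i _ => hm i).mul
    (monic_prod_of_monic _ _ fun P hP => (hS P hP).1.pow 2)
  have hGi : ∀ i, ell i ∣ G := fun i =>
    (dvd_prod_of_mem ell (mem_univ i)).mul_right _
  have hGP : ∀ P ∈ S, P ^ 2 ∣ G := fun P hP =>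
    (dvd_prod_of_mem (fun P : k[X] => P ^ 2) hP).mul_left _
  have hPg : ∀ P ∈ S, IsCoprime (P ^ 2) g := by
    intro P hP
    obtain ⟨e, he⟩ := hg2 P hP
    exact ⟨-e, 1, by linear_combination he⟩
  have hGg : IsCoprime G g := by
    rw [hG]
    refine IsCoprime.mul_left (IsCoprime.prod_left fun i _ => ?_)
      (IsCoprime.prod_left fun P hP => hPg P hP)
    exact (hi i).coprime_iff_not_dvd.2 (hg1 i).1
  refine card_le_card_of_injOn (Equi_mv G g) ?_ ?_
  · intro f hf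
    rw [mem_coe, Equi_mem_A] at hf ⊢
    refine ⟨Equi_mv_mem hGm hn hf.1, fun i => ?_, fun P hP => ?_⟩
    · have h3 : ell i ∣ Equi_mv G g f - g * f := (hGi i).trans (Equi_mv_dvd G g f)
      obtain ⟨h4, h5⟩ := hf.2.1 i
      have h6 : ¬ ell i ∣ g * f := fun h => ((hi i).prime.dvd_or_dvd h).elim (hg1 i).1 h4
      refine ⟨fun h => h6 ?_, ?_⟩
      · have := dvd_sub h h3
        rwa [sub_sub_cancel] at this
      · rw [leg_congr h3, leg_mul (hi i) (hg1 i).1 h4, (hg1 i).2, h5]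
        ring
    · intro h
      have h3 : P ^ 2 ∣ g * f := by
        have := dvd_sub h ((hGP P hP).trans (Equi_mv_dvd G g f))
        rwa [sub_sub_cancel] at this
      exact hf.2.2 P hP ((hPg P hP).dvd_of_dvd_mul_left h3)
  · intro f _ f' _ h
    exact Equi_mv_inj hGm hGg h

end inj

section tail

variable [Finite k]

private theorem Equi_geom (q : ℕ) (hq : 2 ≤ q) (n K N : ℕ) (hK : K ≤ N) (hN : N ≤ n) :
    ∑ j ∈ Ioc K N, q ^ (n - j) + q ^ (n - N) ≤ q ^ (n - K) := by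
  induction N, hK using Nat.le_induction with
  | base => simp
  | succ N hKN ih =>
    have h1 := ih (by omega)
    rw [← Finset.insert_Ioc_right_eq_Ioc_add_one hKN, sum_insert (by simp)]
    have h3 : q ^ (n - N) = q ^ (n - (N + 1)) * q := by
      rw [← pow_succ]
      congr 1
      omega
    have h4 : 2 * q ^ (n - (N + 1)) ≤ q ^ (n - (N + 1)) * q := by
      rw [mul_comm 2]
      exact Nat.mul_le_mul_left _ hq
    omega

open Classical in
private theorem Equi_tail (h3 : 3 ≤ Nat.card k) (n K : ℕ) :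
    #{f ∈ Mon k n | ∃ P : k[X], P.Monic ∧ Irreducible P ∧ K < P.natDegree ∧ P ^ 2 ∣ f} ≤
      Nat.card k ^ (n - K) := by
  set q := Nat.card k with hq
  by_cases hKn : K ≤ n / 2
  swap
  · have h1 : {f ∈ Mon k n | ∃ P : k[X], P.Monic ∧ Irreducible P ∧ K < P.natDegree ∧
        P ^ 2 ∣ f} = ∅ := by
      rw [filter_eq_empty_iff]
      rintro f hf ⟨P, hP1, hP2, hP3, hP4⟩
      rw [mem_Mon] at hf
      have h4 := natDegree_le_of_dvd hP4 hf.1.ne_zero
      rw [natDegree_pow, hf.2] at h4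
      omega
    rw [h1, card_empty]
    exact Nat.zero_le _
  have h1 : {f ∈ Mon k n | ∃ P : k[X], P.Monic ∧ Irreducible P ∧ K < P.natDegree ∧ P ^ 2 ∣ f} ⊆
      (Ioc K (n / 2)).biUnion fun e => (SmK.Irr k e).biUnion fun P => {f ∈ Mon k n | P ^ 2 ∣ f} := by
    intro f hf
    rw [mem_filter] at hf
    obtain ⟨hf, P, hP1, hP2, hP3, hP4⟩ := hf
    have hf' := mem_Mon.1 hf
    have h4 := natDegree_le_of_dvd hP4 hf'.1.ne_zero
    rw [natDegree_pow, hf'.2] at h4
    rw [mem_biUnion]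
    refine ⟨P.natDegree, mem_Ioc.2 ⟨hP3, by omega⟩, ?_⟩
    rw [mem_biUnion]
    exact ⟨P, mem_Irr.2 ⟨hP1, rfl, hP2⟩, mem_filter.2 ⟨hf, hP4⟩⟩
  refine (card_le_card h1).trans ?_
  refine card_biUnion_le.trans (le_trans (sum_le_sum (g := fun e => q ^ (n - e)) ?_) ?_)
  · intro e he
    rw [mem_Ioc] at he
    have h4 : ∀ P ∈ SmK.Irr k e, #{f ∈ Mon k n | P ^ 2 ∣ f} ≤ q ^ (n - 2 * e) := by
      intro P hP
      rw [mem_Irr] at hP
      rw [card_dvd k (hP.1.pow 2) n, natDegree_pow, hP.2.1]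
      split_ifs
      · exact le_rfl
      · exact Nat.zero_le _
    refine card_biUnion_le.trans ((sum_le_sum h4).trans ?_)
    rw [sum_const, smul_eq_mul]
    have h5 := mul_card_Irr_le k e
    have h6 : #(SmK.Irr k e) ≤ q ^ e := by
      calc #(SmK.Irr k e) = 1 * #(SmK.Irr k e) := (one_mul _).symm
        _ ≤ e * #(SmK.Irr k e) := Nat.mul_le_mul_right _ (by omega)
        _ ≤ _ := h5
    calc #(SmK.Irr k e) * q ^ (n - 2 * e) ≤ q ^ e * q ^ (n - 2 * e) := Nat.mul_le_mul_right _ h6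
      _ = q ^ (n - e) := by
        rw [← pow_add]
        congr 1
        omega
  · have h4 := Equi_geom q (by omega) n K (n / 2) hKn (by omega)
    omega

end tail

section main

variable [Finite k]

open Classical in
/-- the `D` with the symbols `ξ` -/
noncomputable def DDs {ι : Type} (ell : ι → k[X]) (B : Finset k[X]) (n : ℕ) (ξ : ι → ZMod 2) :
    Finset k[X] :=
  {D ∈ DD B n | ∀ i, leg (ell i) D = ξ i}

theorem mem_DDs {ι : Type} {ell : ι → k[X]} {B : Finset k[X]} {n : ℕ} {ξ : ι → ZMod 2}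
    {D : k[X]} : D ∈ DDs ell B n ξ ↔ D ∈ DD B n ∧ ∀ i, leg (ell i) D = ξ i := by
  classical
  rw [DDs, mem_filter]

variable {ι : Type} [Fintype ι] (ell : ι → k[X]) (B : Finset k[X])

private theorem Equi_le (h2 : (2 : k) ≠ 0) (hm : ∀ i, (ell i).Monic)
    (hi : ∀ i, Irreducible (ell i)) (hinj : Function.Injective ell)
    (hB : ∀ P, P ∈ B ↔ ∃ i, ell i = P) (K : ℕ) : ∃ n0 : ℕ, ∀ n : ℕ, n0 ≤ n →
    ∀ ξ ξ' : ι → ZMod 2, #(DDs ell B n ξ) ≤ #(DDs ell B n ξ') + Nat.card k ^ (n - K) := by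
  classical
  set S : Finset k[X] := ((Icc 1 K).biUnion fun e => SmK.Irr k e).filter fun P => P ∉ B with hS
  have hS' : ∀ P ∈ S, P.Monic ∧ Irreducible P ∧ ∀ i, ell i ≠ P := by
    intro P hP
    rw [hS, mem_filter, mem_biUnion] at hP
    obtain ⟨⟨e, -, he⟩, hPB⟩ := hP
    rw [mem_Irr] at he
    exact ⟨he.1, he.2.2, fun i hh => hPB ((hB P).2 ⟨i, hh⟩)⟩
  refine ⟨((∏ i, ell i) * ∏ P ∈ S, P ^ 2).natDegree, fun n hn ξ ξ' => ?_⟩
  have h1 : DDs ell B n ξ ⊆ Equi_A ell S n ξ := by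
    intro D hD
    rw [mem_DDs, mem_DD] at hD
    rw [Equi_mem_A, mem_Mon]
    refine ⟨⟨hD.1.1, hD.1.2.1⟩, fun i => ⟨hD.1.2.2.2 _ ((hB _).2 ⟨i, rfl⟩), hD.2 i⟩, ?_⟩
    intro P hP h
    rw [sq] at h
    exact (hS' P hP).2.1.not_isUnit (hD.1.2.2.1 P h)
  have h3 := Equi_card_A_le h2 ell hm hi hinj S hS' n hn ξ ξ'
  have h4 : Equi_A ell S n ξ' ⊆ DDs ell B n ξ' ∪ {f ∈ Mon k n | ∃ P : k[X], P.Monic ∧
      Irreducible P ∧ K < P.natDegree ∧ P ^ 2 ∣ f} := by
    intro f hf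
    rw [Equi_mem_A] at hf
    rw [mem_union, mem_filter]
    by_cases h5 : ∃ P : k[X], P.Monic ∧ Irreducible P ∧ K < P.natDegree ∧ P ^ 2 ∣ f
    · exact Or.inr ⟨hf.1, h5⟩
    · left
      have hf' := mem_Mon.1 hf.1
      rw [mem_DDs, mem_DD]
      refine ⟨⟨hf'.1, hf'.2, ?_, ?_⟩, fun i => (hf.2.1 i).2⟩
      · by_contra h6
        obtain ⟨P, hP1, hP2, hP3⟩ := exists_sq_dvd hf'.1.ne_zero h6
        by_cases h7 : K < P.natDegree
        · exact h5 ⟨P, hP1, hP2, h7, hP3⟩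
        · by_cases h8 : P ∈ B
          · obtain ⟨i, rfl⟩ := (hB P).1 h8
            exact (hf.2.1 i).1 ((dvd_pow_self _ two_ne_zero).trans hP3)
          · refine hf.2.2 P ?_ hP3
            rw [hS, mem_filter, mem_biUnion]
            exact ⟨⟨P.natDegree, mem_Icc.2 ⟨hP2.natDegree_pos, by omega⟩,
              mem_Irr.2 ⟨hP1, rfl, hP2⟩⟩, h8⟩
      · intro P hP
        obtain ⟨i, rfl⟩ := (hB P).1 hP
        exact (hf.2.1 i).1
  have h5 := Equi_tail (k := k) (Q.card_ge_three h2) n K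
  calc #(DDs ell B n ξ) ≤ #(Equi_A ell S n ξ) := card_le_card h1
    _ ≤ #(Equi_A ell S n ξ') := h3
    _ ≤ _ := (card_le_card h4).trans (card_union_le _ _)
    _ ≤ _ := Nat.add_le_add_left h5 _

/-- Any two vectors of symbols occur almost equally often. -/
theorem equi (h2 : (2 : k) ≠ 0) (hm : ∀ i, (ell i).Monic) (hi : ∀ i, Irreducible (ell i))
    (hinj : Function.Injective ell) (hB : ∀ P, P ∈ B ↔ ∃ i, ell i = P) (ε : ℝ) (hε : 0 < ε) :
    ∃ n0 : ℕ, ∀ n : ℕ, n0 ≤ n → ∀ ξ ξ' : ι → ZMod 2,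
    |(#(DDs ell B n ξ) : ℝ) - #(DDs ell B n ξ')| ≤ ε * #(DD B n) := by
  have hq3 := Q.card_ge_three h2
  have hq3' : (3 : ℝ) ≤ Nat.card k := by exact_mod_cast hq3
  obtain ⟨c, hc, n1, hn1⟩ := card_DD_ge B (fun P hP => by
    obtain ⟨i, rfl⟩ := (hB P).1 hP
    exact ⟨hm i, hi i⟩) hq3
  obtain ⟨K, hK⟩ := exists_pow_lt_of_lt_one (show (0 : ℝ) < ε * c by positivity)
    (show (1 / 3 : ℝ) < 1 by norm_num)
  obtain ⟨n2, hn2⟩ := Equi_le ell B h2 hm hi hinj hB K
  refine ⟨n1 + n2 + K, fun n hn => ?_⟩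
  have key : ∀ ξ ξ' : ι → ZMod 2, (#(DDs ell B n ξ) : ℝ) - #(DDs ell B n ξ') ≤
      ε * #(DD B n) := by
    intro ξ ξ'
    have h4 := hn2 n (by omega) ξ ξ'
    have h5 := hn1 n (by omega)
    have h6 : (#(DDs ell B n ξ) : ℝ) ≤ #(DDs ell B n ξ') + (Nat.card k : ℝ) ^ (n - K) := by
      exact_mod_cast h4
    have h7 : (Nat.card k : ℝ) ^ (n - K) ≤ ε * c * (Nat.card k : ℝ) ^ n := by
      have e1 : (Nat.card k : ℝ) ^ n = (Nat.card k : ℝ) ^ (n - K) * (Nat.card k : ℝ) ^ K := by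
        rw [← pow_add]
        congr 1
        omega
      have e2 : (1 : ℝ) ≤ ε * c * (Nat.card k : ℝ) ^ K := by
        have e3 : (1 / 3 : ℝ) ^ K * 3 ^ K = 1 := by
          rw [← mul_pow]
          norm_num
        calc (1 : ℝ) = (1 / 3 : ℝ) ^ K * 3 ^ K := e3.symm
          _ ≤ (ε * c) * 3 ^ K := mul_le_mul_of_nonneg_right hK.le (by positivity)
          _ ≤ (ε * c) * (Nat.card k : ℝ) ^ K :=
            mul_le_mul_of_nonneg_left (pow_le_pow_left₀ (by norm_num) hq3' K) (by positivity)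
      have e4 : (0 : ℝ) ≤ (Nat.card k : ℝ) ^ (n - K) := by positivity
      rw [e1]
      nlinarith
    have h8 : ε * c * (Nat.card k : ℝ) ^ n ≤ ε * #(DD B n) := by
      rw [mul_assoc]
      exact mul_le_mul_of_nonneg_left h5 hε.le
    linarith
  intro ξ ξ'
  rw [abs_le]
  exact ⟨by linarith [key ξ' ξ], key ξ ξ'⟩

open Classical in
/-- sums over `DD` by the vector of symbols -/
theorem sum_DDs {M : Type*} [AddCommMonoid M] (n : ℕ) (F : k[X] → M) :
    ∑ ξ : ι → ZMod 2, ∑ D ∈ DDs ell B n ξ, F D = ∑ D ∈ DD B n, F D := by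
  rw [← sum_fiberwise_of_maps_to (s := DD B n) (t := univ) (g := fun D i => leg (ell i) D)
    (fun _ _ => mem_univ _)]
  refine sum_congr rfl fun ξ _ => sum_congr ?_ fun _ _ => rfl
  ext D
  rw [mem_DDs, mem_filter, funext_iff]

/-- Every vector of symbols occurs for the expected number of `D`. -/
theorem equi_card (h2 : (2 : k) ≠ 0) (hm : ∀ i, (ell i).Monic) (hi : ∀ i, Irreducible (ell i))
    (hinj : Function.Injective ell) (hB : ∀ P, P ∈ B ↔ ∃ i, ell i = P) (ε : ℝ) (hε : 0 < ε) :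
    ∃ n0 : ℕ, ∀ n : ℕ, n0 ≤ n → ∀ ξ : ι → ZMod 2,
    |(#(DDs ell B n ξ) : ℝ) - #(DD B n) / 2 ^ Fintype.card ι| ≤ ε * #(DD B n) := by
  classical
  obtain ⟨n0, hn0⟩ := equi ell B h2 hm hi hinj hB ε hε
  refine ⟨n0, fun n hn ξ => ?_⟩
  have h1 : (#(DD B n) : ℝ) = ∑ ξ' : ι → ZMod 2, (#(DDs ell B n ξ') : ℝ) := by
    have h3 := sum_DDs ell B n fun _ => (1 : ℝ)
    simp only [sum_const, nsmul_eq_mul, mul_one] at h3
    exact h3.symm
  have hc : Fintype.card (ι → ZMod 2) = 2 ^ Fintype.card ι := by simp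
  have h4 : (#(DDs ell B n ξ) : ℝ) * 2 ^ Fintype.card ι - #(DD B n) =
      ∑ ξ' : ι → ZMod 2, ((#(DDs ell B n ξ) : ℝ) - #(DDs ell B n ξ')) := by
    rw [sum_sub_distrib, ← h1, sum_const, card_univ, hc, nsmul_eq_mul]
    push_cast
    ring
  have h5 : |(#(DDs ell B n ξ) : ℝ) * 2 ^ Fintype.card ι - #(DD B n)| ≤
      2 ^ Fintype.card ι * (ε * #(DD B n)) := by
    rw [h4]
    refine (abs_sum_le_sum_abs _ _).trans ((sum_le_sum fun ξ' _ => hn0 n hn ξ ξ').trans ?_)
    rw [sum_const, card_univ, hc, nsmul_eq_mul]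
    push_cast
    exact le_rfl
  have hp : (0 : ℝ) < 2 ^ Fintype.card ι := by positivity
  have h6 : (#(DDs ell B n ξ) : ℝ) - #(DD B n) / 2 ^ Fintype.card ι =
      ((#(DDs ell B n ξ) : ℝ) * 2 ^ Fintype.card ι - #(DD B n)) / 2 ^ Fintype.card ι := by
    field_simp
  rw [h6, abs_div, abs_of_pos hp, div_le_iff₀ hp]
  linarith

open Classical in
/-- A property which changes whenever exactly the symbol at `i0` changes holds for half of the
`D`. -/
theorem half_of_flip (h2 : (2 : k) ≠ 0) (hm : ∀ i, (ell i).Monic) (hi : ∀ i, Irreducible (ell i))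
    (hinj : Function.Injective ell) (hB : ∀ P, P ∈ B ↔ ∃ i, ell i = P) (i0 : ι) (E : k[X] → Prop)
    (hE : ∀ n : ℕ, ∀ D ∈ DD B n, ∀ D' ∈ DD B n, (∀ i, i ≠ i0 → leg (ell i) D = leg (ell i) D') →
      leg (ell i0) D ≠ leg (ell i0) D' → (E D ↔ ¬ E D')) (ε : ℝ) (hε : 0 < ε) :
    ∃ n0 : ℕ, ∀ n : ℕ, n0 ≤ n →
    |(#{D ∈ DD B n | E D} : ℝ) - #(DD B n) / 2| ≤ ε * #(DD B n) := by
  set h := Fintype.card ι with hh
  obtain ⟨n0, hn0⟩ := equi ell B h2 hm hi hinj hB (ε / 2 ^ h) (by positivity)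
  refine ⟨n0, fun n hn => ?_⟩
  set s : k[X] → ℝ := fun D => if E D then 1 else -1 with hs
  set fl : (ι → ZMod 2) → ι → ZMod 2 := fun ξ => Function.update ξ i0 (ξ i0 + 1) with hfl
  have hflfl : ∀ ξ, fl (fl ξ) = ξ := by
    intro ξ
    funext i
    rw [hfl]
    by_cases hii : i = i0
    · subst hii
      simp only [Function.update_self]
      have : ∀ x : ZMod 2, x + 1 + 1 = x := by decide
      exact this _
    · simp [Function.update_of_ne hii]
  have hbij : Function.Bijective fl := ⟨Function.LeftInverse.injective hflfl,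
    Function.RightInverse.surjective hflfl⟩
  set T : (ι → ZMod 2) → ℝ := fun ξ => ∑ D ∈ DDs ell B n ξ, s D with hT
  have habs : ∀ D, |s D| = 1 := by
    intro D
    rw [hs]
    by_cases hD : E D
    · simp [hD]
    · simp [hD]
  have hTb : ∀ ξ, |T ξ| ≤ #(DDs ell B n ξ) := by
    intro ξ
    refine (abs_sum_le_sum_abs _ _).trans ?_
    rw [sum_congr rfl fun D _ => habs D]
    simp
  have hcross : ∀ ξ, ∀ D ∈ DDs ell B n ξ, ∀ D' ∈ DDs ell B n (fl ξ), s D' = - s D := by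
    intro ξ D hD D' hD'
    rw [mem_DDs] at hD hD'
    have h3 := hE n D hD.1 D' hD'.1 (by
      intro i hii
      rw [hD.2 i, hD'.2 i, hfl]
      simp [Function.update_of_ne hii]) (by
      rw [hD.2 i0, hD'.2 i0, hfl]
      simp only [Function.update_self]
      have : ∀ x : ZMod 2, x ≠ x + 1 := by decide
      exact this _)
    rw [hs]
    by_cases hD3 : E D
    · have h4 : ¬ E D' := h3.1 hD3
      simp [hD3, h4]
    · have h4 : E D' := by
        by_contra h5
        exact hD3 (h3.2 h5)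
      simp [hD3, h4]
  have hpair : ∀ ξ, |T ξ + T (fl ξ)| ≤ ε / 2 ^ h * #(DD B n) := by
    intro ξ
    have hd := hn0 n hn ξ (fl ξ)
    rcases (DDs ell B n ξ).eq_empty_or_nonempty with he | ⟨D, hD⟩
    · have h3 : T ξ = 0 := by rw [hT]; simp [he]
      rw [h3, zero_add]
      refine (hTb _).trans ?_
      rw [he, card_empty, Nat.cast_zero, zero_sub, abs_neg, abs_of_nonneg (Nat.cast_nonneg _)] at hd
      exact hd
    rcases (DDs ell B n (fl ξ)).eq_empty_or_nonempty with he | ⟨D', hD'⟩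
    · have h3 : T (fl ξ) = 0 := by rw [hT]; simp [he]
      rw [h3, add_zero]
      refine (hTb _).trans ?_
      rw [he, card_empty, Nat.cast_zero, sub_zero, abs_of_nonneg (Nat.cast_nonneg _)] at hd
      exact hd
    have h3 : T (fl ξ) = #(DDs ell B n (fl ξ)) * (- s D) := by
      rw [hT]
      simp only
      rw [sum_congr rfl fun D' hD' => hcross ξ D hD D' hD', sum_const, nsmul_eq_mul]
    have h4 : T ξ = #(DDs ell B n ξ) * s D := by
      rw [hT]
      simp only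
      have h5 : ∀ D₁ ∈ DDs ell B n ξ, s D₁ = s D := by
        intro D₁ hD₁
        have e1 := hcross ξ D₁ hD₁ D' hD'
        have e2 := hcross ξ D hD D' hD'
        linarith
      rw [sum_congr rfl h5, sum_const, nsmul_eq_mul]
    rw [h3, h4]
    have h5 : (#(DDs ell B n ξ) : ℝ) * s D + #(DDs ell B n (fl ξ)) * (- s D) =
        (#(DDs ell B n ξ) - #(DDs ell B n (fl ξ))) * s D := by ring
    rw [h5, abs_mul, habs, mul_one]
    exact hd
  have hsum : 2 * ∑ D ∈ DD B n, s D = ∑ ξ, (T ξ + T (fl ξ)) := by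
    rw [sum_add_distrib, hbij.sum_comp T, ← two_mul, hT]
    simp only
    rw [sum_DDs]
  have hmain : |2 * ∑ D ∈ DD B n, s D| ≤ ε * #(DD B n) := by
    rw [hsum]
    refine (abs_sum_le_sum_abs _ _).trans ((sum_le_sum fun ξ _ => hpair ξ).trans ?_)
    rw [sum_const, card_univ, nsmul_eq_mul]
    have hc : Fintype.card (ι → ZMod 2) = 2 ^ h := by simp [hh]
    rw [hc]
    push_cast
    have hp : (0 : ℝ) < 2 ^ h := by positivity
    have : (2 : ℝ) ^ h * (ε / 2 ^ h * #(DD B n)) = ε * #(DD B n) := by field_simp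
    exact this.le
  have hcount : ∑ D ∈ DD B n, s D = 2 * #{D ∈ DD B n | E D} - #(DD B n) := by
    have h3 := sum_filter_add_sum_filter_not (DD B n) E s
    have h4 : ∑ D ∈ DD B n with E D, s D = #{D ∈ DD B n | E D} := by
      rw [sum_congr rfl fun D hD => (show s D = 1 by rw [hs]; simp [(mem_filter.1 hD).2])]
      simp
    have h5 : ∑ D ∈ DD B n with ¬ E D, s D = - #{D ∈ DD B n | ¬ E D} := by
      rw [sum_congr rfl fun D hD => (show s D = -1 by rw [hs]; simp [(mem_filter.1 hD).2])]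
      simp
    have h6 : (#{D ∈ DD B n | E D} : ℝ) + #{D ∈ DD B n | ¬ E D} = #(DD B n) := by
      exact_mod_cast card_filter_add_card_filter_not (s := DD B n) E
    linarith
  rw [hcount] at hmain
  have e : |(#{D ∈ DD B n | E D} : ℝ) - #(DD B n) / 2| ≤
      |2 * (2 * (#{D ∈ DD B n | E D} : ℝ) - #(DD B n))| := by
    have e1 : 2 * (2 * (#{D ∈ DD B n | E D} : ℝ) - #(DD B n)) =
        4 * ((#{D ∈ DD B n | E D} : ℝ) - #(DD B n) / 2) := by ring
    rw [e1, abs_mul, abs_of_pos (by norm_num : (0 : ℝ) < 4)]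
    nlinarith [abs_nonneg ((#{D ∈ DD B n | E D} : ℝ) - #(DD B n) / 2)]
  exact e.trans hmain

end main

end Pool.Agent.SmP
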