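import Pool.Agent.Lib.Sm.P.EvenPar

/-!
# SMITH block P, module EvenKap: the absolute parity from the action on the halves of the 2-torsion

`even_of_kap`: `kt s w` is the value `dl chi z s` for `2 z = w`. If at every place either the curve and
the twist are good and `m` is unramified, or `kt (sg v)` is injective, fixes `m (sg v)`, and
`<kt (phi v) μ, μ> = <μ, m (phi v)>` for `μ = m (sg v)`, then the order of the 2-Selmer group of the
twist is a square.
-/

set_option autoImplicit false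

namespace Pool.Agent.Sm

open Module

namespace Sys

variable {G V Pl : Type*} [Group G] [AddCommGroup V] [DistribMulAction G V] {S : Sys G V Pl}

/-- A point whose twisted coboundary vanishes at `sg` is killed by 2. -/
private theorem EvenKap_two (h : S.Ok) {chi : G → ZMod 2} {kt : V1 → V1} {s : G}
    (hk : ∀ (z : V) (w : V1), (2 : ℕ) • z = S.iota w → dl chi z s = S.iota (kt w))
    (hinj : ∀ w, kt w = 0 → w = 0) {Q : V} (hQ : dl chi Q s = 0) : (2 : ℕ) • Q = 0 := by
  obtain ⟨j, hj⟩ := h.tors Q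
  induction j with
  | zero =>
    rw [pow_zero, one_smul] at hj
    rw [hj, smul_zero]
  | succ j ih =>
    rcases Nat.eq_zero_or_pos j with rfl | hj0
    · rwa [zero_add, pow_one] at hj
    · refine ih ?_
      obtain ⟨i, rfl⟩ := Nat.exists_eq_add_of_lt hj0
      rw [zero_add] at hj ⊢
      -- `Q' = 2 ^ i Q` is a half of a point of order 2
      set Q' : V := (2 : ℕ) ^ i • Q with hQ'
      have h4 : (2 : ℕ) • ((2 : ℕ) • Q') = 0 := by
        rw [hQ', smul_smul, smul_smul, ← hj]
        congr 1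
        ring
      obtain ⟨w, hw⟩ := h.iota_range _ h4
      have h5 : dl chi Q' s = 0 := by rw [hQ', dl_nsmul, hQ, smul_zero]
      rw [hk Q' w hw.symm] at h5
      have h6 : kt w = 0 := h.iota_inj (by rw [h5, map_zero])
      have h7 := hinj w h6
      rw [pow_succ', mul_smul, ← hQ', ← hw, h7, map_zero]

theorem even_of_kap (h : S.Ok) {m : G → V1} (hm : S.QOk m) {chi : G → ZMod 2} (hchi : S.HomG chi)
    (kt : G → V1 → V1)
    (hk : ∀ (z : V) (w : V1), (2 : ℕ) • z = S.iota w → ∀ s, dl chi z s = S.iota (kt s w))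
    (hv : ∀ v, (v ∈ S.good ∧ chi (S.sg v) = 0 ∧ m (S.sg v) = 0) ∨
      ((∀ w, kt (S.sg v) w = 0 → w = 0) ∧ kt (S.sg v) (m (S.sg v)) = m (S.sg v) ∧
        ee (kt (S.phi v) (m (S.sg v))) (m (S.sg v)) = ee (m (S.sg v)) (m (S.phi v))))
    (hN : IsSquare (Nat.card (S.Unr h))) (hN0 : Nat.card (S.Unr h) ≠ 0) :
    IsSquare (Nat.card (S.Sel1 h chi)) := by
  classical
  have ee_comm : ∀ x y : V1, ee x y = ee y x := by decide
  -- no nonzero unramified elements
  have L1 : ∀ v, (∀ w, kt (S.sg v) w = 0 → w = 0) → ∀ x ∈ S.W chi v, x.1 = 0 → x = 0 := by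
    rintro v hi x ⟨Q, hQ, h1, h2⟩ h0
    rw [h0, map_zero] at h1
    have h3 := EvenKap_two h (fun z w hz => hk z w hz (S.sg v)) hi h1
    rw [dl_of_two h chi _ h3] at h2
    refine Prod.ext h0 (h.iota_inj ?_)
    rw [← h2]
    exact (map_zero _).symm
  have hg : ∀ v, v ∈ S.good → chi (S.sg v) = 0 → ∀ x ∈ S.W chi v, x.1 = 0 := by
    intro v h1 h2 x hx
    exact (mem_Wl_good h hchi h1 h2 x).1 hx
  refine even_sel h hm hchi ?_ ?_ ?_ hN hN0
  · rintro v ⟨x, hx, hx0⟩
    rcases hv v with ⟨h1, h2, -⟩ | ⟨h1, -, -⟩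
    · exact absurd (hg v h1 h2 x hx) hx0
    · exact L1 v h1
  · intro v hall
    rcases hv v with ⟨-, -, h3⟩ | ⟨h1, -, -⟩
    · exact h3
    · exfalso
      have h4 := card_W h hchi v
      have h5 : S.W chi v = ⊥ := by
        rw [eq_bot_iff]
        intro x hx
        exact L1 v h1 x hx (hall x hx)
      rw [h5, AddSubgroup.card_bot] at h4
      omega
  · rintro v ⟨x0, hx0, hx0'⟩ x hx hxm
    rcases hv v with ⟨h1, h2, -⟩ | ⟨h1, h2, h3⟩
    · exact absurd (hg v h1 h2 x0 hx0) hx0'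
    · set μ := m (S.sg v) with hμ
      obtain ⟨z, hz⟩ := h.half (S.iota μ)
      have hy : ((kt (S.sg v) μ, kt (S.phi v) μ) : V1 × V1) ∈ S.W chi v :=
        ⟨z, fun s _ => by rw [← dl_nsmul, hz, dl_iota h], hk z μ hz _, hk z μ hz _⟩
      have h4 : x - (kt (S.sg v) μ, kt (S.phi v) μ) = 0 := by
        refine L1 v h1 _ ((S.W chi v).sub_mem hx hy) ?_
        rw [Prod.fst_sub, hxm, h2, sub_self]
      have h5 : x = (μ, kt (S.phi v) μ) := by
        rw [sub_eq_zero.1 h4, h2]
      have h6 : S.loc v m = (μ, m (S.phi v)) := rfl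
      rw [h5, h6, Prod.mk_sub_mk, sub_self]
      have key : ∀ (ep : ZMod 2) (a p q : V1), ee p a = ee a q → sym ep (0, q - p) (a, q) = 0 := by
        decide +kernel
      exact key _ _ _ _ h3

end Sys

end Pool.Agent.Sm
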