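import Pool.Agent.Lib.Sm.P.Kramer
import Pool.Agent.Lib.Sm.P.EvenLag

/-!
# SMITH block P, module EvenPar: an absolute parity

`even_sel`: if at every place the local Kummer group of the twist is either the unramified group or
meets it trivially, if `m` (from `QOk`) is unramified at the places of the first kind and is
orthogonal to the element of the local Kummer group with the same ramification at the places of the
second kind, then the order of the 2-Selmer group is a square.
-/

set_option autoImplicit false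

namespace Pool.Agent.Sm

open Module

namespace Sys

variable {G V Pl : Type*} [Group G] [AddCommGroup V] [DistribMulAction G V] {S : Sys G V Pl}

/-- The homomorphisms which are unramified everywhere. -/
def Unr (S : Sys G V Pl) (h : S.Ok) : AddSubgroup (G → V1) where
  carrier := {c | S.HomG c ∧ ∀ v, c (S.sg v) = 0}
  zero_mem' := ⟨HomG.zero h, fun _ => rfl⟩
  add_mem' := by
    rintro c d ⟨h1, h2⟩ ⟨h3, h4⟩
    exact ⟨h1.add h h3, fun v => by rw [Pi.add_apply, h2, h4, add_zero]⟩
  neg_mem' := by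
    rintro c ⟨h1, h2⟩
    have hx : -c = c := funext fun s => by
      have : ∀ a : V1, -a = a := by decide
      exact this _
    rw [hx]
    exact ⟨h1, h2⟩

/-- The unramified elements of the product over `U`. -/
def RU (U : Finset Pl) : Submodule (ZMod 2) (U → V1 × V1) where
  carrier := {x | ∀ v, (x v).1 = 0}
  zero_mem' := fun _ => rfl
  add_mem' := by
    intro x y hx hy v
    rw [Pi.add_apply, Prod.fst_add, hx, hy, add_zero]
  smul_mem' := by
    intro c x hx v
    rw [Pi.smul_apply, Prod.smul_fst, hx, smul_zero]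

theorem mem_RU {U : Finset Pl} {x : U → V1 × V1} : x ∈ RU U ↔ ∀ v, (x v).1 = 0 := Iff.rfl

private theorem EvenPar_card {E : Type*} [AddCommGroup E] [Module (ZMod 2) E]
    [Module.Finite (ZMod 2) E] : Nat.card E = 2 ^ finrank (ZMod 2) E := by
  rw [Module.natCard_eq_pow_finrank (K := ZMod 2), Nat.card_eq_fintype_card, ZMod.card]

theorem finrank_RU (U : Finset Pl) : finrank (ZMod 2) (RU U) = 2 * U.card := by
  have h1 : Nat.card (RU U) = 4 ^ U.card := by
    have e : RU U ≃ (U → V1) :=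
      ⟨fun x v => (x.1 v).2, fun y => ⟨fun v => (0, y v), fun _ => rfl⟩,
        fun x => Subtype.ext (funext fun v => Prod.ext (x.2 v).symm rfl), fun _ => rfl⟩
    rw [Nat.card_congr e, Nat.card_fun, card_V1, Nat.card_eq_fintype_card, Fintype.card_coe]
  rw [EvenPar_card] at h1
  have h2 : (2 : ℕ) ^ finrank (ZMod 2) (RU U) = 2 ^ (2 * U.card) := by
    rw [h1, pow_mul]
    norm_num
  exact Nat.pow_right_injective le_rfl h2

/-- Restriction of the everywhere unramified homomorphisms to `U`. -/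
private noncomputable def resN (h : S.Ok) (U : Finset Pl) : S.Unr h →+ (U → V1 × V1) where
  toFun c v := S.loc v.1 c.1
  map_zero' := rfl
  map_add' _ _ := rfl

/-- **The absolute parity.** -/
theorem even_sel (h : S.Ok) {m : G → V1} (hm : S.QOk m) {chi : G → ZMod 2} (hchi : S.HomG chi)
    (hT : ∀ v, (∃ x ∈ S.W chi v, x.1 ≠ 0) → ∀ x ∈ S.W chi v, x.1 = 0 → x = 0)
    (hmU : ∀ v, (∀ x ∈ S.W chi v, x.1 = 0) → m (S.sg v) = 0)
    (hmW : ∀ v, (∃ x ∈ S.W chi v, x.1 ≠ 0) → ∀ x ∈ S.W chi v, x.1 = m (S.sg v) →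
      S.sy v (S.loc v m - x) (S.loc v m) = 0)
    (hN : IsSquare (Nat.card (S.Unr h))) (hN0 : Nat.card (S.Unr h) ≠ 0) :
    IsSquare (Nat.card (S.Sel1 h chi)) := by
  classical
  have hfin := exc_fin h hchi
  set U : Finset Pl := hfin.toFinset with hUdef
  have hU : ∀ v, v ∉ U → ∀ x : V1 × V1, x ∈ S.W chi v ↔ x.1 = 0 := fun v hv => by
    by_contra hcon
    exact hv (hfin.mem_toFinset.mpr hcon)
  have hcardR : Nat.card {x : V1 × V1 // x.1 = 0} = 4 := by
    rw [Nat.card_eq_fintype_card]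
    rfl
  have hU' : ∀ v, v ∈ U → ∃ x ∈ S.W chi v, x.1 ≠ 0 := by
    intro v hv
    by_contra hcon
    push Not at hcon
    refine (hfin.mem_toFinset.mp hv) fun x => ⟨hcon x, fun hx => ?_⟩
    -- the inclusion of `W` into the unramified group is an equality by counting
    have hinj : Function.Injective
        (fun x : S.W chi v => (⟨x.1, hcon x.1 x.2⟩ : {x : V1 × V1 // x.1 = 0})) :=
      fun a b hab => Subtype.ext (congrArg (fun z : {x : V1 × V1 // x.1 = 0} => z.1) hab)
    have hfW : Finite (S.W chi v) := Subtype.finite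
    have hbij := (Nat.bijective_iff_injective_and_card _).mpr
      ⟨hinj, by rw [card_W h hchi v, hcardR]⟩
    obtain ⟨y, hy⟩ := hbij.2 ⟨x, hx⟩
    have : y.1 = x := congrArg (fun z : {x : V1 × V1 // x.1 = 0} => z.1) hy
    rw [← this]
    exact y.2
  have hθ : (fun v : U => S.loc v.1 m) ∈ S.GU U chi h :=
    ⟨m, hm.hom, fun _ => rfl, fun v hv => (hU v hv _).2 (hmU v fun x hx => (hU v hv x).1 hx)⟩
  have hWR : S.PW U chi ⊓ RU U = ⊥ := by
    rw [eq_bot_iff]
    rintro x ⟨hx, hx'⟩
    rw [Submodule.mem_bot]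
    funext v
    exact hT v.1 (hU' v.1 v.2) (x v) ((S.mem_PW U).mp hx v) (hx' v)
  have hev := even_lagr (S.bU U) (S.bU_nondeg U) (S.bU_comm U) (S.qU U m) (S.qU_add U m)
    (finrank_XU U) (S.GU U chi h) (S.PW U chi) (RU U) (qU_GU h hm hchi U) (qU_PW hm hchi U)
    (fun x hx y hy => by
      rw [bU_apply]
      exact Finset.sum_eq_zero fun v _ => sym_unr _ (hx v) (hy v))
    (finrank_GU h hm hchi U) (finrank_PW h hchi U) (finrank_RU U) hWR hθ
    (fun r hr => by
      rw [bU_apply]
      refine Finset.sum_congr rfl fun v _ => ?_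
      rw [qv]
      have h1 : hyp (S.eps v.1) (r v) = 0 := by
        rw [hyp, hr v]
        simp
      rw [h1, zero_add])
    (fun r hr hrW => by
      rw [bU_apply]
      refine Finset.sum_eq_zero fun v _ => ?_
      have h1 : S.loc v.1 m - r v ∈ S.W chi v.1 := (S.mem_PW U).mp hrW v
      have h2 : (S.loc v.1 m - r v).1 = m (S.sg v.1) := by
        rw [Prod.fst_sub, hr v, sub_zero]
        rfl
      have h3 := hmW v.1 (hU' v.1 v.2) _ h1 h2
      rwa [sub_sub_cancel] at h3)
  -- the two restriction maps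
  have e1 := card_Sel1_resU h chi U
  have e2 : Nat.card (S.Unr h) = Nat.card (resN h U).ker *
      Nat.card (S.GU U chi h ⊓ RU U : Submodule (ZMod 2) (U → V1 × V1)) := by
    have hr : ((resN h U).range : Set (U → V1 × V1)) =
        ((S.GU U chi h ⊓ RU U : Submodule (ZMod 2) (U → V1 × V1)) : Set _) := by
      ext x
      constructor
      · rintro ⟨c, rfl⟩
        exact ⟨⟨c.1, c.2.1, fun _ => rfl, fun v hv => (hU v hv _).2 (c.2.2 v)⟩,
          fun v => c.2.2 v.1⟩
      · rintro ⟨⟨c, h1, h2, h3⟩, h4⟩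
        refine ⟨⟨c, h1, fun v => ?_⟩, funext fun v => h2 v⟩
        by_cases hv : v ∈ U
        · have h5 := h4 ⟨v, hv⟩
          rw [← h2] at h5
          exact h5
        · exact (hU v hv _).1 (h3 v hv)
    rw [← card_hom (resN h U)]
    congr 1
    exact Nat.card_congr (Equiv.setCongr hr)
  have e3 : Nat.card (resN h U).ker = Nat.card (resU h chi U).ker := by
    have k1 : ∀ c : (resN h U).ker, ∀ v, S.loc v c.1.1 ∈ S.W chi v := by
      intro c v
      by_cases hv : v ∈ U
      · have h1 : S.loc v c.1.1 = 0 := congrFun c.2 ⟨v, hv⟩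
        rw [h1]
        exact (S.W chi v).zero_mem
      · exact (hU v hv _).2 (c.1.2.2 v)
    have k2 : ∀ c : (resU h chi U).ker, ∀ v, c.1.1 (S.sg v) = 0 := by
      intro c v
      by_cases hv : v ∈ U
      · have h1 : S.loc v c.1.1 = 0 := congrFun c.2 ⟨v, hv⟩
        exact congrArg Prod.fst h1
      · exact (hU v hv _).1 (c.1.2.2 v)
    exact Nat.card_congr ⟨fun c => ⟨⟨c.1.1, c.1.2.1, k1 c⟩, c.2⟩,
      fun c => ⟨⟨c.1.1, c.1.2.1, k2 c⟩, c.2⟩, fun _ => rfl, fun _ => rfl⟩
  rw [e3] at e2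
  set K := Nat.card (resU h chi U).ker with hK
  rw [EvenPar_card (E := (S.GU U chi h ⊓ S.PW U chi : Submodule _ _))] at e1
  rw [EvenPar_card (E := (S.GU U chi h ⊓ RU U : Submodule _ _))] at e2
  set a := finrank (ZMod 2) (S.GU U chi h ⊓ S.PW U chi : Submodule (ZMod 2) (U → V1 × V1))
  set b := finrank (ZMod 2) (S.GU U chi h ⊓ RU U : Submodule (ZMod 2) (U → V1 × V1))
  have hab : Even (a + b) := by
    rw [Nat.even_iff] at hev ⊢
    omega
  obtain ⟨r, hr⟩ := hab
  obtain ⟨s, hs⟩ := hN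
  have hprod : Nat.card (S.Sel1 h chi) * (s * s) = (K * 2 ^ r) * (K * 2 ^ r) := by
    rw [← hs, e1, e2]
    calc K * 2 ^ a * (K * 2 ^ b) = K * K * 2 ^ (a + b) := by rw [pow_add]; ring
      _ = K * 2 ^ r * (K * 2 ^ r) := by rw [hr, pow_add]; ring
  have hs0 : s ≠ 0 := by
    rintro rfl
    exact hN0 (by rw [hs])
  have hdvd : s ∣ K * 2 ^ r := by
    rw [← Nat.pow_dvd_pow_iff (n := 2) (by norm_num), sq, sq]
    exact ⟨Nat.card (S.Sel1 h chi), by rw [← hprod]; ring⟩
  obtain ⟨t, ht⟩ := hdvd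
  refine ⟨t, ?_⟩
  have hpos : 0 < s * s := Nat.mul_pos (Nat.pos_of_ne_zero hs0) (Nat.pos_of_ne_zero hs0)
  refine Nat.eq_of_mul_eq_mul_right hpos ?_
  rw [hprod, ht]
  ring

end Sys

end Pool.Agent.Sm
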