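import Pool.Agent.Lib.Sm.P.LMReg

/-!
SMITH, block P6a, local part: an automorphism `s` preserving the valuation acts on the 2-power
torsion of `E0` by `±` the cyclotomic character, and the 2-power torsion of `E0` is
a chain of cyclic groups.
-/

set_option autoImplicit false

namespace Pool.Agent.SmP

open WeierstrassCurve WeierstrassCurve.Affine Pool.Agent.SmithE

variable {F : Type} [Field F] {W : WeierstrassCurve F} {a b c κ : F}
  {Γ₀ : Type} [LinearOrderedCommGroupWithZero Γ₀] {v : Valuation F Γ₀}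

lemma v_root {m : ℕ} {z : F} (hz : z ^ (2 ^ m) = 1) : v z = 1 := by
  have h := congrArg v hz
  rw [map_pow, map_one] at h
  exact (pow_eq_one_iff_of_nonneg zero_le (pow_ne_zero m two_ne_zero)).mp h

lemma root_near [IsSepClosed F] (h2 : v 2 = 1) (m : ℕ) (z : F)
    (hz : v (z ^ (2 ^ m) - 1) < 1) : ∃ ζ : F, ζ ^ (2 ^ m) = 1 ∧ v (z - ζ) < 1 := by
  have h2' : (2 : F) ≠ 0 := (v.ne_zero_iff).mp (by rw [h2]; exact one_ne_zero)
  have : NeZero (2 : F) := ⟨h2'⟩
  induction m generalizing z with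
  | zero => exact ⟨1, one_pow _, by rwa [pow_zero, pow_one] at hz⟩
  | succ m ih =>
    obtain ⟨η, hη, h1⟩ := ih (z ^ 2) (by rwa [← pow_mul, ← pow_succ'])
    obtain ⟨r, hr⟩ := IsSepClosed.exists_eq_mul_self η
    have hroot : ∀ ζ : F, ζ ^ 2 = η → ζ ^ (2 ^ (m + 1)) = 1 := by
      intro ζ hζ
      rw [pow_succ', pow_mul, hζ, hη]
    have h3 : v (z - r) * v (z + r) < 1 := by
      rw [← map_mul]
      have : (z - r) * (z + r) = z ^ 2 - η := by rw [hr]; ring
      rw [this]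
      exact h1
    rcases lt_or_ge (v (z - r)) 1 with h4 | h4
    · exact ⟨r, hroot r (by rw [hr]; ring), h4⟩
    · refine ⟨-r, hroot (-r) (by rw [hr]; ring), ?_⟩
      rw [sub_neg_eq_add]
      by_contra h5
      exact absurd h3 (not_lt.mpr (one_le_mul h4 (not_lt.mp h5)))

section

variable [DecidableEq F]

theorem e0_eq_of_close (hW : W = crv a b c) (hd : v (a - b) < v (a - c)) (h2 : v 2 = 1)
    (hκ : κ ^ 2 = a - c) {P Q : W.toAffine.Point} (hP : InE0 v a c P) (hQ : InE0 v a c Q)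
    {m : ℕ} (hPm : (2 ^ m) • P = 0) (hQm : (2 ^ m) • Q = 0)
    (hu : v (uf κ a P - uf κ a Q) < 1) : P = Q := by
  rw [← sub_eq_zero]
  have hQ0 := inE0_neg hW hQ
  refine e0_inj hW hd h2 hκ (inE0_sub hW hd hκ hP hQ) (m := m)
    (by rw [smul_sub, hPm, hQm, sub_zero]) ?_
  have h1 := (e0_add_hom hW hd hκ hP hQ0).2
  rw [uf_neg hW] at h1
  have hvQ := v_uf hW hd hκ hQ
  have hne : uf κ a Q ≠ 0 := (v.ne_zero_iff).mp (by rw [hvQ]; exact one_ne_zero)
  have e : uf κ a (P - Q) - 1 = (uf κ a (P + -Q) - uf κ a P * (uf κ a Q)⁻¹) +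
      (uf κ a P - uf κ a Q) * (uf κ a Q)⁻¹ := by
    rw [sub_mul, mul_inv_cancel₀ hne, sub_eq_add_neg P Q]
    ring
  rw [e]
  refine v.map_add_lt h1 ?_
  rw [map_mul, map_inv₀, hvQ, inv_one, mul_one]
  exact hu

omit [DecidableEq F] in
lemma v_pow_sub_lt {z ζ : F} (hz : v z = 1) (hζ : v ζ = 1) (h : v (z - ζ) < 1) (n : ℕ) :
    v (z ^ n - ζ ^ n) < 1 := by
  induction n with
  | zero =>
    rw [pow_zero, pow_zero, sub_self, map_zero]
    exact zero_lt_one
  | succ n ih =>
    have e : z ^ (n + 1) - ζ ^ (n + 1) = (z ^ n - ζ ^ n) * z + ζ ^ n * (z - ζ) := by ring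
    rw [e]
    refine v.map_add_lt ?_ ?_
    · rw [map_mul, hz, mul_one]
      exact ih
    · rw [map_mul, map_pow, hζ, one_pow, one_mul]
      exact h

/-- the action on the torsion of `E0` -/
theorem e0_action [IsSepClosed F] (hW : W = crv a b c) (hd : v (a - b) < v (a - c))
    (h2 : v 2 = 1) (hκ : κ ^ 2 = a - c) (s : F ≃+* F) (hs : ∀ z, v (s z) = v z) (hsa : s a = a)
    (hsc : s c = c) (S : W.toAffine.Point →+ W.toAffine.Point)
    (hS : ∀ (x y : F) (h : W.toAffine.Nonsingular x y),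
      ∃ h' : W.toAffine.Nonsingular (s x) (s y), S (.some x y h) = .some (s x) (s y) h')
    {m n : ℕ} (hn : ∀ ζ : F, ζ ^ (2 ^ m) = 1 → s ζ = ζ ^ n) :
    ∃ e : ℤ, (e = 1 ∨ e = -1) ∧ ∀ P : W.toAffine.Point, InE0 v a c P → (2 ^ m) • P = 0 →
      S P = e • ((n : ℤ) • P) := by
  have hκs : s κ = κ ∨ s κ = -κ := by
    have : s κ ^ 2 = κ ^ 2 := by rw [← map_pow, hκ, map_sub, hsa, hsc]
    exact sq_eq_sq_iff_eq_or_eq_neg.mp this
  -- `s (u P)` is close to `u (n P)`
  have hclose : ∀ P : W.toAffine.Point, InE0 v a c P → (2 ^ m) • P = 0 →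
      v (s (uf κ a P) - uf κ a (n • P)) < 1 := by
    intro P hP hPm
    have h1 := (e0_nsmul hW hd hκ hP (2 ^ m)).2
    rw [hPm, uf_zero, ← Valuation.map_neg, neg_sub] at h1
    obtain ⟨ζ, hζ, hζ1⟩ := root_near h2 m _ h1
    have hvu := v_uf hW hd hκ hP
    have h3 : v (s (uf κ a P) - ζ ^ n) < 1 := by
      rw [← hn ζ hζ, ← map_sub, hs]
      exact hζ1
    have h4 := v_pow_sub_lt hvu (v_root hζ) hζ1 n
    have h5 := (e0_nsmul hW hd hκ hP n).2
    have e : s (uf κ a P) - uf κ a (n • P) = (s (uf κ a P) - ζ ^ n) -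
        (uf κ a P ^ n - ζ ^ n) - (uf κ a (n • P) - uf κ a P ^ n) := by ring
    rw [e]
    exact v.map_sub_lt (v.map_sub_lt h3 h4) h5
  -- the conjugate point is in `E0`
  have hSE : ∀ P : W.toAffine.Point, InE0 v a c P → InE0 v a c (S P) := by
    intro P hP
    rcases P with _ | ⟨x, y, h⟩
    · have : S (0 : W.toAffine.Point) = 0 := map_zero S
      change InE0 v a c (S 0)
      rw [this]
      exact inE0_zero
    · obtain ⟨h', e⟩ := hS x y h
      rw [e, inE0_some]
      have : s x - a = s (x - a) := by rw [map_sub, hsa]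
      rw [this, hs]
      exact (inE0_some h).mp hP
  have hSm : ∀ P : W.toAffine.Point, (2 ^ m) • P = 0 → (2 ^ m) • S P = 0 := by
    intro P hP
    rw [← map_nsmul, hP, map_zero]
  have hnm : ∀ P : W.toAffine.Point, (2 ^ m) • P = 0 → (2 ^ m) • (n • P) = 0 := by
    intro P hP
    rw [← mul_smul, mul_comm, mul_smul, hP, smul_zero]
  rcases hκs with hκs | hκs
  · refine ⟨1, Or.inl rfl, fun P hP hPm => ?_⟩
    rw [one_smul, natCast_zsmul]
    refine e0_eq_of_close hW hd h2 hκ (hSE P hP) (e0_nsmul hW hd hκ hP n).1 (hSm P hPm)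
      (hnm P hPm) ?_
    have e : uf κ a (S P) = s (uf κ a P) := by
      rcases P with _ | ⟨x, y, h⟩
      · have : S (0 : W.toAffine.Point) = 0 := map_zero S
        change uf κ a (S 0) = s (1 : F)
        rw [this, uf_zero, map_one]
      · obtain ⟨h', e⟩ := hS x y h
        rw [e, uf_some, uf_some, map_div₀, map_add, map_sub, map_div₀, map_sub, hsa, hκs]
    rw [e]
    exact hclose P hP hPm
  · refine ⟨-1, Or.inr rfl, fun P hP hPm => ?_⟩
    have e1 : -S P = n • P := by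
      refine e0_eq_of_close hW hd h2 hκ (inE0_neg hW (hSE P hP)) (e0_nsmul hW hd hκ hP n).1
        (by rw [smul_neg, hSm P hPm, neg_zero]) (hnm P hPm) ?_
      have e : uf κ a (-S P) = s (uf κ a P) := by
        rw [uf_neg hW]
        rcases P with _ | ⟨x, y, h⟩
        · have : S (0 : W.toAffine.Point) = 0 := map_zero S
          change (uf κ a (S 0))⁻¹ = s (1 : F)
          rw [this, uf_zero, map_one, inv_one]
        · obtain ⟨h', e⟩ := hS x y h
          rw [e, uf_some, uf_some, map_div₀, map_add, map_sub, map_div₀, map_sub, hsa, hκs,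
            inv_div]
          congr 1 <;> ring
      rw [e]
      exact hclose P hP hPm
    rw [natCast_zsmul, neg_smul, one_smul, ← e1, neg_neg]

/-- the chain of generators of the 2-power torsion of `E0` -/
theorem e0_chain [IsSepClosed F] (hW : W = crv a b c) (hd : v (a - b) < v (a - c))
    (h2 : v 2 = 1) (hκ : κ ^ 2 = a - c) (hab : a ≠ b) (hTc : W.toAffine.Nonsingular c 0) :
    ∃ R : ℕ → W.toAffine.Point, R 0 = .some c 0 hTc ∧ (∀ m, R (m + 1) + R (m + 1) = R m) ∧
      ∀ m, InE0 v a c (R m) := by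
  have h2' : (2 : F) ≠ 0 := (v.ne_zero_iff).mp (by rw [h2]; exact one_ne_zero)
  have hg0 : 0 < v (a - c) := lt_of_le_of_lt zero_le hd
  have hac : a ≠ c := sub_ne_zero.mp ((v.ne_zero_iff).mp hg0.ne')
  have hbc : b ≠ c := by
    rintro rfl
    exact lt_irrefl _ hd
  have hT : W.toAffine.Nonsingular a 0 := by
    subst hW
    exact nonsingular_T1 hab hac
  have hTT : (.some a 0 hT : W.toAffine.Point) + .some a 0 hT = 0 := by
    rw [add_eq_zero_iff_eq_neg, WeierstrassCurve.Affine.Point.neg_some,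
      WeierstrassCurve.Affine.Point.some.injEq, negY_eq hW, neg_zero]
    exact ⟨rfl, rfl⟩
  have hstep : ∀ P : {P : W.toAffine.Point // InE0 v a c P},
      ∃ Q : {P : W.toAffine.Point // InE0 v a c P}, Q.1 + Q.1 = P.1 := by
    rintro ⟨P, hP⟩
    obtain ⟨Q, hQ⟩ : ∃ Q, P = Q + Q := by
      subst hW
      exact exists_half_sepClosed h2' hab hac hbc P
    rcases e0_half hW hd h2 hκ hT (P := Q) (by rw [← hQ]; exact hP) with h | h
    · exact ⟨⟨Q, h⟩, hQ.symm⟩
    · refine ⟨⟨Q + .some a 0 hT, h⟩, ?_⟩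
      change Q + .some a 0 hT + (Q + .some a 0 hT) = P
      rw [add_add_add_comm, hTT, add_zero, hQ]
  choose f hf using hstep
  have hc0 : InE0 v a c (.some c 0 hTc : W.toAffine.Point) := by
    rw [inE0_some, Valuation.map_sub_swap]
  let R : ℕ → {P : W.toAffine.Point // InE0 v a c P} :=
    fun m => Nat.rec ⟨.some c 0 hTc, hc0⟩ (fun _ P => f P) m
  exact ⟨fun m => (R m).1, rfl, fun m => hf (R m), fun m => (R m).2⟩

theorem chain_smul {A : Type} [AddCommGroup A] {R : ℕ → A} (hR : ∀ m, R (m + 1) + R (m + 1) = R m)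
    (m : ℕ) : (2 ^ m) • R m = R 0 := by
  induction m with
  | zero => rw [pow_zero, one_smul]
  | succ m ih => rw [pow_succ, mul_smul, two_smul, hR, ih]

theorem e0_gen (hW : W = crv a b c) (hd : v (a - b) < v (a - c))
    (h2 : v 2 = 1) (hκ : κ ^ 2 = a - c) (hTc : W.toAffine.Nonsingular c 0)
    {R : ℕ → W.toAffine.Point} (hR0 : R 0 = .some c 0 hTc)
    (hR : ∀ m, R (m + 1) + R (m + 1) = R m) (hRE : ∀ m, InE0 v a c (R m)) (m : ℕ)
    (P : W.toAffine.Point) (hP : InE0 v a c P) (hPm : (2 ^ (m + 1)) • P = 0) :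
    ∃ k : ℤ, P = k • R m := by
  induction m generalizing P with
  | zero =>
    rw [zero_add, pow_one, two_smul] at hPm
    by_cases h0 : P = 0
    · exact ⟨0, by rw [h0, zero_smul]⟩
    · obtain ⟨h, e⟩ := e0_two hW hd h2 hP h0 hPm
      exact ⟨1, by rw [one_smul, hR0, e]⟩
  | succ m ih =>
    obtain ⟨k, hk⟩ := ih (P + P) (e0_add_hom hW hd hκ hP hP).1
      (by rw [← two_smul ℕ P, ← mul_smul, ← pow_succ]; exact hPm)
    have hQ0 : InE0 v a c (P - k • R (m + 1)) :=
      inE0_sub hW hd hκ hP (inE0_zsmul hW hd hκ (hRE (m + 1)) k)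
    have hQQ : (P - k • R (m + 1)) + (P - k • R (m + 1)) = 0 := by
      rw [sub_add_sub_comm, hk, ← smul_add, hR, sub_self]
    by_cases h0 : P - k • R (m + 1) = 0
    · exact ⟨k, sub_eq_zero.mp h0⟩
    · obtain ⟨h, e⟩ := e0_two hW hd h2 hQ0 h0 hQQ
      refine ⟨k + (2 ^ (m + 1) : ℕ), ?_⟩
      have e2 := chain_smul hR (m + 1)
      rw [add_smul, natCast_zsmul, e2, hR0]
      rw [← e]
      abel

end

end Pool.Agent.SmP
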