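import Pool.Agent.Lib.Sm.P.LMRel

/-!
SMITH, block P6a, local part: the chord relations in terms of `t = y / X`, and the estimates with a
valuation `v` with `v d < v g` (`d = a - b`, `g = a - c`).
-/

set_option autoImplicit false

namespace Pool.Agent.SmP

section alg

variable {F : Type} [Field F] {X X' X'' l n p d g : F}

theorem chord_S1 (hX : X ≠ 0) (hX' : X' ≠ 0) (e3 : X * X' * X'' = n ^ 2)
    (e2 : X * X' + X * X'' + X' * X'' = p - 2 * l * n) :
    n * ((l * X + n) / X + (l * X' + n) / X') = p - X * X' := by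
  field_simp
  linear_combination (-(X + X')) * e3 + X * X' * e2

theorem chord_S2 (hX : X ≠ 0) (hX' : X' ≠ 0) (e3 : X * X' * X'' = n ^ 2)
    (e2 : X * X' + X * X'' + X' * X'' = p - 2 * l * n) :
    X'' * ((l * X + n) / X + (l * X' + n) / X') ^ 2 * (X * X') = (X * X' - p) ^ 2 := by
  have h := chord_S1 hX hX' e3 e2
  calc X'' * ((l * X + n) / X + (l * X' + n) / X') ^ 2 * (X * X')
      = (X * X' * X'') * ((l * X + n) / X + (l * X' + n) / X') ^ 2 := by ring
    _ = (n * ((l * X + n) / X + (l * X' + n) / X')) ^ 2 := by rw [e3]; ring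
    _ = (X * X' - p) ^ 2 := by rw [h]; ring

theorem chord_S3 (hX : X ≠ 0) (hX' : X' ≠ 0) (e3 : X * X' * X'' = n ^ 2) :
    X'' * (X - X') ^ 2 = X * X' * ((l * X + n) / X - (l * X' + n) / X') ^ 2 := by
  field_simp
  linear_combination (X - X') ^ 2 * e3

theorem chord_S4 (hX : X ≠ 0) (hX' : X' ≠ 0) (hX'' : X'' ≠ 0)
    (e3 : X * X' * X'' = n ^ 2)
    (e2 : X * X' + X * X'' + X' * X'' = p - 2 * l * n)
    (e1 : X + X' + X'' = l ^ 2 - d - g) :
    (-(l * X'' + n)) / X'' * ((l * X + n) / X + (l * X' + n) / X') -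
      (l * X + n) / X * ((l * X' + n) / X') - g =
      d + (p / X + p / X' + p / X'') - p / X * (p / X') / X'' := by
  have hn : n ≠ 0 := by
    intro h0
    rw [h0] at e3
    have : X * X' * X'' ≠ 0 := mul_ne_zero (mul_ne_zero hX hX') hX''
    exact this (by rw [e3]; ring)
  have h1 : (l * X + n) / X + (l * X' + n) / X' = (p - X * X') / n := by
    rw [eq_div_iff hn, ← chord_S1 hX hX' e3 e2]
    ring
  have h2 : (l * X + n) / X * ((l * X' + n) / X') =
      l * ((l * X + n) / X + (l * X' + n) / X') - l ^ 2 + X'' := by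
    field_simp
    linear_combination -e3
  have h3 : p / X + p / X' + p / X'' - p / X * (p / X') / X'' = -(2 * l * p / n) := by
    have h4 : p / X + p / X' + p / X'' - p / X * (p / X') / X'' =
        (p * (X * X' + X * X'' + X' * X'') - p ^ 2) / (X * X' * X'') := by
      field_simp
      ring
    rw [h4, e2, e3]
    field_simp
    ring
  have h5 : d + (p / X + p / X' + p / X'') - p / X * (p / X') / X'' = d - 2 * l * p / n := by
    linear_combination h3
  rw [h5, h2, h1]
  field_simp
  linear_combination (-X'' * n) * e1 + n * e2 + 2 * l * e3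

end alg

end Pool.Agent.SmP
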