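import Pool.Agent.Lib.Sm.P.LMAct

/-!
SMITH, block P6a, local part: `det (s | E[2 ^ m]) = ± cyc (s)` for an automorphism `s` preserving a
valuation `v` with `v 2 = 1`, `v (a - b) < v (a - c)`.
-/

set_option autoImplicit false

namespace Pool.Agent.SmP

open WeierstrassCurve WeierstrassCurve.Affine Pool.Agent.SmithE

/-- the linear algebra: `S R = e n R`, `S X ∈ ± X + ℤ R` -/
theorem det_abs {A : Type} [AddCommGroup A] {m : ℕ} {P Q R : A}
    (hPm : (2 ^ (m + 1)) • P = 0) (hQm : (2 ^ (m + 1)) • Q = 0)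
    (hind : ∀ i j : ℤ, i • P + j • Q = 0 → (2 : ℤ) ^ (m + 1) ∣ i ∧ (2 : ℤ) ^ (m + 1) ∣ j)
    (hR : ∃ i j : ℤ, R = i • P + j • Q) (hRm : (2 ^ m) • R ≠ 0) (S : A →+ A)
    {a b c d n e : ℤ} (hSP : S P = a • P + b • Q) (hSQ : S Q = c • P + d • Q)
    (he : e = 1 ∨ e = -1) (hSR : S R = e • (n • R))
    (hq : ∀ X : A, X = P ∨ X = Q → ∃ e' : ℤ, (e' = 1 ∨ e' = -1) ∧ ∃ k : ℤ, S X = e' • X + k • R) :
    (2 : ℤ) ^ (m + 1) ∣ a * d - b * c - n ∨ (2 : ℤ) ^ (m + 1) ∣ a * d - b * c + n := by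
  obtain ⟨i, j, hij⟩ := hR
  have hodd : ∀ i : ℤ, ¬ Even i → IsCoprime ((2 : ℤ) ^ (m + 1)) i := by
    intro i hi
    rw [Int.not_even_iff_odd] at hi
    obtain ⟨k, hk⟩ := hi
    exact IsCoprime.pow_left ⟨-k, 1, by rw [hk]; ring⟩
  have hpar : ¬ (Even i ∧ Even j) := by
    rintro ⟨⟨i', hi'⟩, ⟨j', hj'⟩⟩
    apply hRm
    rw [hij, hi', hj', smul_add, ← two_mul, ← two_mul, mul_comm (2 : ℤ) i', mul_comm (2 : ℤ) j',
      mul_smul, mul_smul]
    have h1 : (2 ^ m) • (i' • ((2 : ℤ) • P)) = 0 := by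
      have : (2 ^ m) • (i' • ((2 : ℤ) • P)) = i' • ((2 ^ (m + 1)) • P) := by
        rw [← natCast_zsmul, ← natCast_zsmul, ← mul_smul, ← mul_smul, ← mul_smul]
        congr 1
        push_cast
        ring
      rw [this, hPm, smul_zero]
    have h2 : (2 ^ m) • (j' • ((2 : ℤ) • Q)) = 0 := by
      have : (2 ^ m) • (j' • ((2 : ℤ) • Q)) = j' • ((2 ^ (m + 1)) • Q) := by
        rw [← natCast_zsmul, ← natCast_zsmul, ← mul_smul, ← mul_smul, ← mul_smul]
        congr 1
        push_cast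
        ring
      rw [this, hQm, smul_zero]
    rw [h1, h2, add_zero]
  -- the action on `R`
  have hR2 : (i * a + j * c - e * n * i) • P + (i * b + j * d - e * n * j) • Q = 0 := by
    have h1 : S R = (i * a + j * c) • P + (i * b + j * d) • Q := by
      rw [hij, map_add, map_zsmul, map_zsmul, hSP, hSQ]
      module
    have h2 : S R = (e * n * i) • P + (e * n * j) • Q := by
      rw [hSR, hij]
      module
    have h3 := sub_eq_zero.mpr (h1.symm.trans h2)
    rw [← h3]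
    module
  obtain ⟨⟨u, hu⟩, ⟨w, hw⟩⟩ := hind _ _ hR2
  have hfin : ∀ e' : ℤ, (e' = 1 ∨ e' = -1) → (2 : ℤ) ^ (m + 1) ∣ a * d - b * c - e * e' * n →
      (2 : ℤ) ^ (m + 1) ∣ a * d - b * c - n ∨ (2 : ℤ) ^ (m + 1) ∣ a * d - b * c + n := by
    intro e' he' h
    rcases he with rfl | rfl <;> rcases he' with rfl | rfl
    · left; simpa using h
    · right; simpa using h
    · right; simpa using h
    · left; simpa using h
  by_cases hi : Even i
  · have hj : ¬ Even j := fun h => hpar ⟨hi, h⟩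
    obtain ⟨e', he', k, hk⟩ := hq P (Or.inl rfl)
    refine hfin e' he' ?_
    have h1 : (a - e' - k * i) • P + (b - k * j) • Q = 0 := by
      have h2 : a • P + b • Q = e' • P + k • (i • P + j • Q) := by rw [← hSP, hk, hij]
      have h3 := sub_eq_zero.mpr h2
      rw [← h3]
      module
    obtain ⟨⟨u', hu'⟩, ⟨w', hw'⟩⟩ := hind _ _ h1
    refine (hodd j hj).dvd_of_dvd_mul_left ?_
    refine ⟨a * w - b * u + e * n * (j * u' - i * w'), ?_⟩
    linear_combination a * hw - b * hu + e * n * j * hu' - e * n * i * hw'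
  · obtain ⟨e', he', k, hk⟩ := hq Q (Or.inr rfl)
    refine hfin e' he' ?_
    have h1 : (c - k * i) • P + (d - e' - k * j) • Q = 0 := by
      have h2 : c • P + d • Q = e' • Q + k • (i • P + j • Q) := by rw [← hSQ, hk, hij]
      have h3 := sub_eq_zero.mpr h2
      rw [← h3]
      module
    obtain ⟨⟨u', hu'⟩, ⟨w', hw'⟩⟩ := hind _ _ h1
    refine (hodd i hi).dvd_of_dvd_mul_left ?_
    refine ⟨d * u - c * w + e * n * (i * w' - j * u'), ?_⟩
    linear_combination d * hu - c * hw + e * n * i * hw' - e * n * j * hu'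

variable {F : Type} [Field F] [DecidableEq F] {W : WeierstrassCurve F} {a b c : F}
  {Γ₀ : Type} [LinearOrderedCommGroupWithZero Γ₀] {v : Valuation F Γ₀}

/-- `det (s | E[2 ^ m]) = ± n` if `s` acts on the roots of unity of order dividing `2 ^ m` by the
`n`-th power -/
theorem local_det_pm [IsSepClosed F] (hW : W = crv a b c) (hd : v (a - b) < v (a - c))
    (h2 : v 2 = 1) (hab : a ≠ b) (s : F ≃+* F) (hs : ∀ z, v (s z) = v z) (hsa : s a = a)
    (hsc : s c = c) (S : W.toAffine.Point →+ W.toAffine.Point)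
    (hS : ∀ (x y : F) (h : W.toAffine.Nonsingular x y),
      ∃ h' : W.toAffine.Nonsingular (s x) (s y), S (.some x y h) = .some (s x) (s y) h')
    {m n : ℕ} (hn : ∀ ζ : F, ζ ^ (2 ^ m) = 1 → s ζ = ζ ^ n) {P Q : W.toAffine.Point}
    (hPm : (2 ^ m) • P = 0) (hQm : (2 ^ m) • Q = 0)
    (hgen : ∀ R : W.toAffine.Point, (2 ^ m) • R = 0 → ∃ i j : ℤ, R = i • P + j • Q)
    (hind : ∀ i j : ℤ, i • P + j • Q = 0 → (2 : ℤ) ^ m ∣ i ∧ (2 : ℤ) ^ m ∣ j)
    {A B C D : ℤ} (hSP : S P = A • P + B • Q) (hSQ : S Q = C • P + D • Q) :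
    (2 : ℤ) ^ m ∣ A * D - B * C - n ∨ (2 : ℤ) ^ m ∣ A * D - B * C + n := by
  have h2' : (2 : F) ≠ 0 := (v.ne_zero_iff).mp (by rw [h2]; exact one_ne_zero)
  have : NeZero (2 : F) := ⟨h2'⟩
  have hg0 : 0 < v (a - c) := lt_of_le_of_lt zero_le hd
  have hac : a ≠ c := sub_ne_zero.mp ((v.ne_zero_iff).mp hg0.ne')
  have hbc : b ≠ c := by
    rintro rfl
    exact lt_irrefl _ hd
  have hT : W.toAffine.Nonsingular a 0 := by
    subst hW
    exact nonsingular_T1 hab hac
  have hTc : W.toAffine.Nonsingular c 0 := by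
    subst hW
    exact nonsingular_T3 hac hbc
  obtain ⟨κ, hκ⟩ := IsSepClosed.exists_eq_mul_self (a - c)
  rw [← pow_two] at hκ
  rcases m with _ | m
  · left
    rw [pow_zero]
    exact one_dvd _
  obtain ⟨R, hR0, hR, hRE⟩ := e0_chain hW hd h2 hκ.symm hab hTc
  have hRm : (2 ^ m) • R m = .some c 0 hTc := by rw [chain_smul hR, hR0]
  have hRm' : (2 ^ (m + 1)) • R m = 0 := by
    rw [pow_succ', mul_smul, hRm, two_smul, add_eq_zero_iff_eq_neg,
      WeierstrassCurve.Affine.Point.neg_some, WeierstrassCurve.Affine.Point.some.injEq,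
      negY_eq hW, neg_zero]
    exact ⟨rfl, rfl⟩
  obtain ⟨e, he, hact⟩ := e0_action hW hd h2 hκ.symm s hs hsa hsc S hS hn
  refine det_abs hPm hQm hind (hgen _ hRm') ?_ S hSP hSQ he (hact _ (hRE m) hRm') ?_
  · rw [hRm]
    exact WeierstrassCurve.Affine.Point.some_ne_zero _
  · intro X hX
    have hXm : (2 ^ (m + 1)) • X = 0 := by
      rcases hX with rfl | rfl
      · exact hPm
      · exact hQm
    have hSX : (2 ^ (m + 1)) • S X = 0 := by rw [← map_nsmul, hXm, map_zero]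
    rcases X with _ | ⟨x, y, h⟩
    · refine ⟨1, Or.inl rfl, 0, ?_⟩
      have : S (0 : W.toAffine.Point) = 0 := map_zero S
      change S 0 = (1 : ℤ) • (0 : W.toAffine.Point) + (0 : ℤ) • R m
      rw [this, smul_zero, zero_smul, add_zero]
    · obtain ⟨h', e1⟩ := hS x y h
      rcases quot_sign hW hd h2 hκ.symm hT s hs hsa hsc h h' with h3 | h3
      · rw [← e1] at h3
        obtain ⟨k, hk⟩ := e0_gen hW hd h2 hκ.symm hTc hR0 hR hRE m _ h3
          (by rw [smul_sub, hSX, hXm, sub_zero])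
        refine ⟨1, Or.inl rfl, k, ?_⟩
        rw [← hk, one_smul]
        abel
      · rw [← e1] at h3
        obtain ⟨k, hk⟩ := e0_gen hW hd h2 hκ.symm hTc hR0 hR hRE m _ h3
          (by rw [smul_add, hSX, hXm, add_zero])
        refine ⟨-1, Or.inr rfl, k, ?_⟩
        rw [← hk, neg_smul, one_smul]
        abel

end Pool.Agent.SmP
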