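import Pool.Agent.Lib.Sm.P.LMDet

/-!
SMITH, block P6a: `det (s | E[2 ^ m]) ≡ cyc (s)` modulo 4, for every automorphism `s` fixing
`a`, `b`, `c`.
-/

set_option autoImplicit false

namespace Pool.Agent.SmP

open WeierstrassCurve WeierstrassCurve.Affine Pool.Agent.SmithE

lemma zsmul_two_tors {A : Type} [AddCommGroup A] {T : A} (hT : T + T = 0) (i : ℤ) :
    (Even i ∧ i • T = 0) ∨ (Odd i ∧ i • T = T) := by
  have h2 : (2 : ℤ) • T = 0 := by rw [two_zsmul, hT]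
  rcases Int.even_or_odd' i with ⟨k, hk | hk⟩
  · left
    refine ⟨⟨k, by rw [hk]; ring⟩, ?_⟩
    rw [hk, mul_comm, mul_smul, h2, smul_zero]
  · right
    refine ⟨⟨k, hk⟩, ?_⟩
    rw [hk, add_smul, mul_comm, mul_smul, h2, smul_zero, zero_add, one_smul]

variable {F : Type} [Field F] {W : WeierstrassCurve F} {a b c : F}

lemma T_add_T [DecidableEq F] (hW : W = crv a b c) {x : F} (h : W.toAffine.Nonsingular x 0) :
    (.some x 0 h : W.toAffine.Point) + .some x 0 h = 0 := by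
  rw [add_eq_zero_iff_eq_neg, WeierstrassCurve.Affine.Point.neg_some,
    WeierstrassCurve.Affine.Point.some.injEq, negY_eq hW, neg_zero]
  exact ⟨rfl, rfl⟩

lemma Rf_S [DecidableEq F] (s : F ≃+* F) (hsa : s a = a) (hsb : s b = b) (hsc : s c = c)
    (S : W.toAffine.Point →+ W.toAffine.Point)
    (hS : ∀ (x y : F) (h : W.toAffine.Nonsingular x y),
      ∃ h' : W.toAffine.Nonsingular (s x) (s y), S (.some x y h) = .some (s x) (s y) h')
    (P : W.toAffine.Point) : Rf a b c (S P) = s (Rf a b c P) := by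
  rcases P with _ | ⟨x, y, h⟩
  · have : S (0 : W.toAffine.Point) = 0 := map_zero S
    change Rf a b c (S 0) = s (0 : F)
    rw [this, map_zero, Rf_zero]
  · obtain ⟨h', e⟩ := hS x y h
    rw [e, Rf_some, Rf_some]
    simp only [map_div₀, map_sub, map_pow, map_mul, map_ofNat, hsa, hsb, hsc]

lemma Rf_shift_same [DecidableEq F] (hW : W = crv a b c) (h2 : (2 : F) ≠ 0) (hab : a ≠ b)
    (hac : a ≠ c) {P : W.toAffine.Point} (hP : P + P ≠ 0) (hT : W.toAffine.Nonsingular a 0)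
    (i : ℤ) : Rf a b c (P + i • .some a 0 hT) = Rf a b c P := by
  rcases zsmul_two_tors (T_add_T hW hT) i with ⟨-, h⟩ | ⟨-, h⟩
  · rw [h, add_zero]
  · rw [h]
    exact Rf_add_same hW h2 hab hac hP hT

lemma Rf_shift_other [DecidableEq F] (hW : W = crv a b c) (h2 : (2 : F) ≠ 0) (hab : a ≠ b)
    (hbc : b ≠ c) {P : W.toAffine.Point} (hP : P + P ≠ 0) (hT : W.toAffine.Nonsingular b 0)
    (i : ℤ) : Rf a b c (P + i • .some b 0 hT) = (-1) ^ i * Rf a b c P := by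
  rcases zsmul_two_tors (T_add_T hW hT) i with ⟨hi, h⟩ | ⟨hi, h⟩
  · rw [h, add_zero, hi.neg_one_zpow, one_mul]
  · rw [h, hi.neg_one_zpow, neg_one_mul]
    exact Rf_add_other hW h2 hab hbc hP hT

lemma n_odd (h2 : (2 : F) ≠ 0) (s : F ≃+* F) {n : ℕ} (hn : s (-1) = (-1) ^ n) : Odd n := by
  rw [map_neg, map_one] at hn
  by_contra h
  rw [Nat.not_odd_iff_even] at h
  rw [h.neg_one_pow] at hn
  exact h2 (by linear_combination -hn)

theorem four_core [DecidableEq F] (hW : W = crv a b c) (h2 : (2 : F) ≠ 0) (hab : a ≠ b)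
    (hac : a ≠ c) (hbc : b ≠ c) (s : F ≃+* F) (hsa : s a = a) (hsb : s b = b) (hsc : s c = c)
    (S : W.toAffine.Point →+ W.toAffine.Point)
    (hS : ∀ (x y : F) (h : W.toAffine.Nonsingular x y),
      ∃ h' : W.toAffine.Nonsingular (s x) (s y), S (.some x y h) = .some (s x) (s y) h')
    {P Q : W.toAffine.Point} {hTa : W.toAffine.Nonsingular a 0} {hTb : W.toAffine.Nonsingular b 0}
    (hP : P + P = .some a 0 hTa) (hQ : Q + Q = .some b 0 hTb)
    {n : ℕ} (hn : ∀ ζ : F, ζ ^ 4 = 1 → s ζ = ζ ^ n) {i j k l : ℤ}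
    (hSP : S P = P + i • (P + P) + j • (Q + Q)) (hSQ : S Q = Q + k • (P + P) + l • (Q + Q)) :
    (4 : ℤ) ∣ (1 + 2 * (i + l)) - n := by
  have hW' : W = crv b a c := hW.trans (crv_swap12 a b c)
  have hP0 : P + P ≠ 0 := by
    rw [hP]
    exact WeierstrassCurve.Affine.Point.some_ne_zero _
  have hQ0 : Q + Q ≠ 0 := by
    rw [hQ]
    exact WeierstrassCurve.Affine.Point.some_ne_zero _
  -- the squares
  obtain ⟨X, Y, h, h1, -, hb, -⟩ := Rf_sq hW h2 hP0
  rw [hP, WeierstrassCurve.Affine.Point.some.injEq] at h1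
  obtain ⟨X', Y', h', h1', ha', -, -⟩ := Rf_sq hW h2 hQ0
  rw [hQ, WeierstrassCurve.Affine.Point.some.injEq] at h1'
  rw [← h1.1] at hb
  rw [← h1'.1] at ha'
  set r := Rf b a c P with hr
  set r' := Rf a b c Q with hr'
  have hr0' : r' ≠ 0 := by
    intro h0
    rw [h0, zero_pow two_ne_zero] at ha'
    exact hab (sub_eq_zero.mp ha').symm
  have hr0 : r ≠ 0 := by
    intro h0
    rw [h0, zero_pow two_ne_zero] at hb
    exact hab (sub_eq_zero.mp hb)
  -- the action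
  have hPa : (P + i • (P + P)) + (P + i • (P + P)) ≠ 0 := by
    have : (P + i • (P + P)) + (P + i • (P + P)) = P + P := by
      rw [add_add_add_comm, ← smul_add, hP, T_add_T hW, smul_zero, add_zero]
    rw [this]
    exact hP0
  have hQa : (Q + k • (P + P)) + (Q + k • (P + P)) ≠ 0 := by
    have : (Q + k • (P + P)) + (Q + k • (P + P)) = Q + Q := by
      rw [add_add_add_comm, ← smul_add, hP, T_add_T hW, smul_zero, add_zero]
    rw [this]
    exact hQ0
  have hsr : s r = (-1) ^ i * r := by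
    rw [hr, ← Rf_S s hsb hsa hsc S hS, hSP, hQ,
      Rf_shift_same hW' h2 hab.symm hbc hPa hTb, hP,
      Rf_shift_other hW' h2 hab.symm hac hP0 hTa]
  have hsr' : s r' = (-1) ^ l * r' := by
    rw [hr', ← Rf_S s hsa hsb hsc S hS, hSQ, hQ,
      Rf_shift_other hW h2 hab hbc hQa hTb, hP,
      Rf_shift_same hW h2 hab hac hQ0 hTa]
  -- the fourth root of unity
  set z := r / r' with hz
  have hz2 : z ^ 2 = -1 := by
    rw [hz, div_pow, ← hb, ← ha', ← neg_sub b a, neg_div, div_self (sub_ne_zero.mpr hab.symm)]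
  have hz0 : z ≠ 0 := div_ne_zero hr0 hr0'
  have hz4 : z ^ 4 = 1 := by
    have : z ^ 4 = (z ^ 2) ^ 2 := by ring
    rw [this, hz2]
    ring
  have hsz : s z * (-1) ^ l = (-1) ^ i * z := by
    have hl0 : ((-1 : F)) ^ l ≠ 0 := zpow_ne_zero _ (by norm_num)
    rw [hz, map_div₀, hsr, hsr']
    field_simp
  obtain ⟨k', hk'⟩ := n_odd h2 s (hn (-1) (by norm_num))
  have hzn : z ^ n = (-1) ^ k' * z := by
    rw [hk', pow_succ, pow_mul, hz2]
  rw [hn z hz4, hzn] at hsz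
  have hkey : ((-1 : F)) ^ k' * (-1) ^ l = (-1) ^ i := by
    refine mul_right_cancel₀ hz0 ?_
    linear_combination hsz
  have hne : (-1 : F) ≠ 1 := fun h0 => h2 (by linear_combination -h0)
  rcases Nat.even_or_odd k' with h3 | h3 <;> rcases Int.even_or_odd i with h4 | h4 <;>
    rcases Int.even_or_odd l with h5 | h5 <;>
    rw [h3.neg_one_pow, h4.neg_one_zpow, h5.neg_one_zpow] at hkey
  · obtain ⟨x, hx⟩ := h3
    obtain ⟨y, hy⟩ := h4
    obtain ⟨w, hw⟩ := h5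
    omega
  · exact absurd (by linear_combination hkey) hne
  · exact absurd (by linear_combination -hkey) hne
  · obtain ⟨x, hx⟩ := h3
    obtain ⟨y, hy⟩ := h4
    obtain ⟨w, hw⟩ := h5
    omega
  · exact absurd (by linear_combination hkey) hne
  · obtain ⟨x, hx⟩ := h3
    obtain ⟨y, hy⟩ := h4
    obtain ⟨w, hw⟩ := h5
    omega
  · obtain ⟨x, hx⟩ := h3
    obtain ⟨y, hy⟩ := h4
    obtain ⟨w, hw⟩ := h5
    omega
  · exact absurd (by linear_combination -hkey) hne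

lemma two_tors_cases [DecidableEq F] (hW : W = crv a b c) (h2 : (2 : F) ≠ 0) (hab : a ≠ b)
    (hac : a ≠ c) (hbc : b ≠ c) {P : W.toAffine.Point} (hP : P + P = 0) (hP0 : P ≠ 0) :
    ∃ (x : F) (h : W.toAffine.Nonsingular x 0), P = .some x 0 h ∧ (x = a ∨ x = b ∨ x = c) := by
  subst hW
  rcases (add_self_eq_zero_iff h2 hab hac hbc P).mp hP with h | h | h | h
  · exact absurd h hP0
  · exact ⟨a, _, h, Or.inl rfl⟩
  · exact ⟨b, _, h, Or.inr (Or.inl rfl)⟩
  · exact ⟨c, _, h, Or.inr (Or.inr rfl)⟩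

lemma perm_crv (hab : a ≠ b) (hac : a ≠ c) (hbc : b ≠ c) (s : F ≃+* F) (hsa : s a = a)
    (hsb : s b = b) (hsc : s c = c) {x x' : F} (hx : x = a ∨ x = b ∨ x = c)
    (hx' : x' = a ∨ x' = b ∨ x' = c) (hne : x ≠ x') :
    ∃ z : F, crv a b c = crv x x' z ∧ x ≠ z ∧ x' ≠ z ∧ s x = x ∧ s x' = x' ∧ s z = z := by
  rcases hx with rfl | rfl | rfl <;> rcases hx' with rfl | rfl | rfl
  · exact absurd rfl hne
  · exact ⟨c, rfl, hac, hbc, hsa, hsb, hsc⟩
  · exact ⟨b, crv_swap23 _ _ _, hab, hbc.symm, hsa, hsc, hsb⟩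
  · exact ⟨c, crv_swap12 _ _ _, hbc, hac, hsb, hsa, hsc⟩
  · exact absurd rfl hne
  · exact ⟨a, (crv_swap12 _ _ _).trans (crv_swap23 _ _ _), hab.symm, hac.symm, hsb, hsc, hsa⟩
  · exact ⟨b, (crv_swap23 _ _ _).trans (crv_swap12 _ _ _), hbc.symm, hab, hsc, hsa, hsb⟩
  · exact ⟨a, (crv_swap23 _ _ _).trans ((crv_swap12 _ _ _).trans (crv_swap23 _ _ _)), hac.symm,
      hab.symm, hsc, hsb, hsa⟩
  · exact absurd rfl hne

lemma S_two_tors [DecidableEq F] (s : F ≃+* F) (S : W.toAffine.Point →+ W.toAffine.Point)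
    (hS : ∀ (x y : F) (h : W.toAffine.Nonsingular x y),
      ∃ h' : W.toAffine.Nonsingular (s x) (s y), S (.some x y h) = .some (s x) (s y) h')
    {x : F} (hx : s x = x) (h : W.toAffine.Nonsingular x 0) :
    S (.some x 0 h) = .some x 0 h := by
  obtain ⟨h', e⟩ := hS x 0 h
  rw [e, WeierstrassCurve.Affine.Point.some.injEq]
  exact ⟨hx, map_zero s⟩

/-- the parity of the coefficients -/
theorem coeff_even [DecidableEq F] (hW : W = crv a b c) (h2 : (2 : F) ≠ 0) (hab : a ≠ b)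
    (hac : a ≠ c) (hbc : b ≠ c) (s : F ≃+* F) (hsa : s a = a) (hsb : s b = b) (hsc : s c = c)
    (S : W.toAffine.Point →+ W.toAffine.Point)
    (hS : ∀ (x y : F) (h : W.toAffine.Nonsingular x y),
      ∃ h' : W.toAffine.Nonsingular (s x) (s y), S (.some x y h) = .some (s x) (s y) h')
    {m : ℕ} {P Q : W.toAffine.Point} (hPm : (2 ^ (m + 1)) • P = 0)
    (hind : ∀ i j : ℤ, i • P + j • Q = 0 → (2 : ℤ) ^ (m + 1) ∣ i ∧ (2 : ℤ) ^ (m + 1) ∣ j)
    {A B : ℤ} (hSP : S P = A • P + B • Q) : (2 : ℤ) ∣ A - 1 ∧ (2 : ℤ) ∣ B := by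
  have hTT : (2 ^ m) • P + (2 ^ m) • P = 0 := by
    rw [← add_smul, ← two_mul, ← pow_succ', hPm]
  have hT0 : (2 ^ m) • P ≠ 0 := by
    intro h0
    have h1 := hind ((2 ^ m : ℕ) : ℤ) 0 (by rw [natCast_zsmul, h0, zero_smul, add_zero])
    have h3 := h1.1
    push_cast at h3
    have h4 := Int.le_of_dvd (by positivity) h3
    rw [pow_succ] at h4
    have h5 : (0 : ℤ) < 2 ^ m := by positivity
    linarith
  obtain ⟨x, h, hT, hx⟩ := two_tors_cases hW h2 hab hac hbc hTT hT0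
  have hsx : s x = x := by rcases hx with rfl | rfl | rfl <;> assumption
  have h1 : S ((2 ^ m) • P) = (2 ^ m) • P := by
    rw [hT]
    exact S_two_tors s S hS hsx h
  rw [map_nsmul, hSP] at h1
  have h3 : ((2 ^ m : ℕ) * (A - 1) : ℤ) • P + ((2 ^ m : ℕ) * B : ℤ) • Q = 0 := by
    rw [← sub_eq_zero] at h1
    rw [← h1, ← natCast_zsmul, ← natCast_zsmul]
    module
  obtain ⟨⟨u, hu⟩, ⟨w, hw⟩⟩ := hind _ _ h3
  have h5 : (2 : ℤ) ^ m ≠ 0 := by positivity
  push_cast at hu hw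
  exact ⟨⟨u, mul_left_cancel₀ h5 (by rw [hu]; ring)⟩, ⟨w, mul_left_cancel₀ h5 (by rw [hw]; ring)⟩⟩

/-- the determinant modulo 4 -/
theorem det_mod_four [DecidableEq F] (hW : W = crv a b c) (h2 : (2 : F) ≠ 0) (hab : a ≠ b)
    (hac : a ≠ c) (hbc : b ≠ c) (s : F ≃+* F) (hsa : s a = a) (hsb : s b = b) (hsc : s c = c)
    (S : W.toAffine.Point →+ W.toAffine.Point)
    (hS : ∀ (x y : F) (h : W.toAffine.Nonsingular x y),
      ∃ h' : W.toAffine.Nonsingular (s x) (s y), S (.some x y h) = .some (s x) (s y) h')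
    {m n : ℕ} (hn : ∀ ζ : F, ζ ^ 4 = 1 → s ζ = ζ ^ n) {P Q : W.toAffine.Point}
    (hPm : (2 ^ (m + 2)) • P = 0) (hQm : (2 ^ (m + 2)) • Q = 0)
    (hind : ∀ i j : ℤ, i • P + j • Q = 0 → (2 : ℤ) ^ (m + 2) ∣ i ∧ (2 : ℤ) ^ (m + 2) ∣ j)
    {A B C D : ℤ} (hSP : S P = A • P + B • Q) (hSQ : S Q = C • P + D • Q) :
    (4 : ℤ) ∣ A * D - B * C - n := by
  obtain ⟨⟨i, hi⟩, ⟨j, hj⟩⟩ := coeff_even hW h2 hab hac hbc s hsa hsb hsc S hS hPm hind hSP
  obtain ⟨⟨l, hl⟩, ⟨k, hk⟩⟩ := coeff_even hW h2 hab hac hbc s hsa hsb hsc S hS hQm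
    (fun i j h => (hind j i (by rw [add_comm]; exact h)).symm)
    (by rw [hSQ, add_comm] : S Q = D • Q + C • P)
  have h1 : ∀ X : W.toAffine.Point, (2 ^ m) • X + (2 ^ m) • X = (2 ^ (m + 1)) • X := by
    intro X
    rw [← add_smul, ← two_mul, ← pow_succ']
  have h3 : ∀ X : W.toAffine.Point, (2 ^ (m + 1)) • X + (2 ^ (m + 1)) • X = (2 ^ (m + 2)) • X := by
    intro X
    rw [← add_smul, ← two_mul, ← pow_succ']
  have hpos : (0 : ℤ) < 2 ^ (m + 1) := by positivity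
  have hnd : ¬ (2 : ℤ) ^ (m + 2) ∣ 2 ^ (m + 1) := by
    intro h4
    have h5 := Int.le_of_dvd hpos h4
    rw [pow_succ] at h5
    linarith
  have hT0 : (2 ^ (m + 1)) • P ≠ 0 := by
    intro h0
    have h4 := (hind ((2 ^ (m + 1) : ℕ) : ℤ) 0 (by
      rw [natCast_zsmul, h0, zero_smul, add_zero])).1
    push_cast at h4
    exact hnd h4
  have hT0' : (2 ^ (m + 1)) • Q ≠ 0 := by
    intro h0
    have h4 := (hind 0 ((2 ^ (m + 1) : ℕ) : ℤ) (by
      rw [natCast_zsmul, h0, zero_smul, add_zero])).2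
    push_cast at h4
    exact hnd h4
  have hTne : (2 ^ (m + 1)) • P ≠ (2 ^ (m + 1)) • Q := by
    intro h0
    have h4 := (hind ((2 ^ (m + 1) : ℕ) : ℤ) (-((2 ^ (m + 1) : ℕ) : ℤ)) (by
      rw [neg_smul, natCast_zsmul, natCast_zsmul, h0, add_neg_cancel])).1
    push_cast at h4
    exact hnd h4
  obtain ⟨x, h, hT, hx⟩ := two_tors_cases hW h2 hab hac hbc ((h3 P).trans hPm) hT0
  obtain ⟨x', h', hT', hx'⟩ := two_tors_cases hW h2 hab hac hbc ((h3 Q).trans hQm) hT0'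
  have hxx : x ≠ x' := by
    rintro rfl
    exact hTne (by rw [hT, hT'])
  obtain ⟨z, hz, hxz, hxz', hsx, hsx', hsz⟩ :=
    perm_crv hab hac hbc s hsa hsb hsc hx hx' hxx
  have hA : A = 1 + 2 * i := by linarith
  have hD : D = 1 + 2 * l := by linarith
  have h6 := four_core (hW.trans hz) h2 hxx hxz hxz' s hsx hsx' hsz S hS
    ((h1 P).trans hT) ((h1 Q).trans hT') hn (i := i) (j := j) (k := k) (l := l)
    (by
      rw [map_nsmul, hSP, hA, hj, ← natCast_zsmul, ← natCast_zsmul]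
      module)
    (by
      rw [map_nsmul, hSQ, hD, hk, ← natCast_zsmul, ← natCast_zsmul]
      module)
  obtain ⟨u, hu⟩ := h6
  refine ⟨u + i * l - j * k, ?_⟩
  rw [hA, hD, hj, hk]
  linear_combination hu

end Pool.Agent.SmP
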