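import Pool.Agent.Lib.Sm.P.MatCB

/-!
SMITH, block P6a: matrices modulo `2 ^ m` of the endomorphisms of `V` with respect to a compatible
basis; the determinant.

* `mf B m f`: the matrix of `f : AddMonoid.End V` modulo `2 ^ m`; `mf_mul`, `mf_one`, `mf_cast`
  (compatibility), `mf_one_level` (`f = 1` on `V[2 ^ m]`), `det_mf_indep` (independence of the basis);
* `gm B m s`: the matrix of a group element, `dt B m s` its determinant, `dt_mul`, `dt_cast`,
  `gm_spec`: `s • (a P m + b Q m)`; `dt_sign`: `det` of `± s`.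
-/

set_option autoImplicit false

open Matrix

namespace Pool.Agent.SmP

variable {V : Type*} [AddCommGroup V] (B : CB V)

/-- The matrix of the endomorphism `f` modulo `2 ^ m`. -/
noncomputable def mf (m : ℕ) (f : AddMonoid.End V) : Matrix (Fin 2) (Fin 2) (ZMod (2 ^ m)) :=
  !![(B.co m (f (B.P m))).1, (B.co m (f (B.Q m))).1;
    (B.co m (f (B.P m))).2, (B.co m (f (B.Q m))).2]

/-- `ev` on vectors -/
noncomputable def evv (m : ℕ) (x : Fin 2 → ZMod (2 ^ m)) : V := B.ev m (x 0, x 1)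

theorem evv_inj (m : ℕ) : Function.Injective (evv B m) := by
  intro x y h
  have h1 := B.ev_inj m h
  have h2 := congrArg Prod.fst h1
  have h3 := congrArg Prod.snd h1
  ext i
  fin_cases i
  · exact h2
  · exact h3

theorem tors_map (m : ℕ) (f : AddMonoid.End V) {x : V} (hx : (2 : ℕ) ^ m • x = 0) :
    (2 : ℕ) ^ m • f x = 0 := by rw [← map_nsmul, hx, map_zero]

theorem map_evv (m : ℕ) (f : AddMonoid.End V) (x : Fin 2 → ZMod (2 ^ m)) :
    f (evv B m x) = evv B m (mf B m f *ᵥ x) := by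
  obtain ⟨a, ha⟩ := CB.exists_int m (x 0)
  obtain ⟨b, hb⟩ := CB.exists_int m (x 1)
  have h1 : evv B m x = a • B.P m + b • B.Q m := by
    rw [evv, ← ha, ← hb, B.ev_int]
  have h2 : ∀ c : ℤ, ∀ y : ZMod (2 ^ m) × ZMod (2 ^ m), c • B.ev m y =
      B.ev m ((c : ZMod (2 ^ m)) * y.1, (c : ZMod (2 ^ m)) * y.2) := by
    intro c y
    rw [← map_zsmul]
    congr 1
    exact Prod.ext (zsmul_eq_mul _ _) (zsmul_eq_mul _ _)
  rw [h1, map_add, map_zsmul, map_zsmul, evv]
  rw [← B.ev_co m (tors_map m f (B.tors_P m)), ← B.ev_co m (tors_map m f (B.tors_Q m)), h2, h2,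
    ← map_add]
  congr 1
  refine Prod.ext ?_ ?_
  · rw [mf]
    simp only [mulVec, dotProduct, Fin.sum_univ_two, of_apply, cons_val', cons_val_zero,
      cons_val_one, Prod.fst_add, ← ha, ← hb]
    ring
  · rw [mf]
    simp only [mulVec, dotProduct, Fin.sum_univ_two, of_apply, cons_val', cons_val_zero,
      cons_val_one, Prod.snd_add, ← ha, ← hb]
    ring

theorem mf_unique (m : ℕ) (f : AddMonoid.End V) (A : Matrix (Fin 2) (Fin 2) (ZMod (2 ^ m)))
    (h : ∀ x, f (evv B m x) = evv B m (A *ᵥ x)) : mf B m f = A := by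
  apply Matrix.ext_of_mulVec_single
  intro i
  apply evv_inj B m
  rw [← map_evv, h]

theorem mf_one (m : ℕ) : mf B m 1 = 1 :=
  mf_unique B m 1 1 fun x => by rw [one_mulVec]; rfl

theorem mf_mul (m : ℕ) (f g : AddMonoid.End V) : mf B m (f * g) = mf B m f * mf B m g :=
  mf_unique B m _ _ fun x => by
    rw [← mulVec_mulVec, ← map_evv, ← map_evv]
    rfl

/-- an endomorphism which is the identity on `V[2 ^ m]` -/
theorem mf_congr (m : ℕ) {f g : AddMonoid.End V} (h : ∀ x, (2 : ℕ) ^ m • x = 0 → f x = g x) :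
    mf B m f = mf B m g := by
  unfold mf
  rw [h _ (B.tors_P m), h _ (B.tors_Q m)]

theorem mf_neg (m : ℕ) (f : AddMonoid.End V) : mf B m (-f) = -mf B m f :=
  mf_unique B m _ _ fun x => by
    have h1 : (-f) (evv B m x) = -(f (evv B m x)) := rfl
    have h2 : ∀ y : Fin 2 → ZMod (2 ^ m), evv B m (-y) = -evv B m y := fun y => by
      rw [evv, evv, ← map_neg]
      rfl
    rw [h1, map_evv, neg_mulVec, h2]

theorem det_mf_neg (m : ℕ) (f : AddMonoid.End V) : (mf B m (-f)).det = (mf B m f).det := by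
  rw [mf_neg, Matrix.det_neg]
  simp

/-- compatibility -/
theorem mf_cast (m : ℕ) (f : AddMonoid.End V) :
    (mf B (m + 1) f).map (ZMod.castHom (pow_dvd_pow 2 (Nat.le_succ m)) (ZMod (2 ^ m))) =
      mf B m f := by
  symm
  apply mf_unique
  intro x
  obtain ⟨a, ha⟩ := CB.exists_int m (x 0)
  obtain ⟨b, hb⟩ := CB.exists_int m (x 1)
  set φ := ZMod.castHom (pow_dvd_pow 2 (Nat.le_succ m)) (ZMod (2 ^ m)) with hφ
  have key : ∀ y : Fin 2 → ZMod (2 ^ (m + 1)), (2 : ℕ) • evv B (m + 1) y =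
      evv B m (fun i => φ (y i)) := fun y => B.two_ev m (y 0, y 1)
  obtain ⟨y, hy⟩ : ∃ y : Fin 2 → ZMod (2 ^ (m + 1)), (fun i => φ (y i)) = x := by
    refine ⟨![(a : ZMod (2 ^ (m + 1))), (b : ZMod (2 ^ (m + 1)))], ?_⟩
    ext i
    fin_cases i
    · change φ (a : ZMod (2 ^ (m + 1))) = x 0
      rw [map_intCast, ha]
    · change φ (b : ZMod (2 ^ (m + 1))) = x 1
      rw [map_intCast, hb]
  rw [← hy, ← key, map_nsmul, map_evv, key]
  congr 1
  have h1 := RingHom.map_mulVec φ (mf B (m + 1) f) y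
  funext i
  exact h1 i

theorem det_mf_cast (m : ℕ) (f : AddMonoid.End V) :
    ZMod.castHom (pow_dvd_pow 2 (Nat.le_succ m)) (ZMod (2 ^ m)) (mf B (m + 1) f).det =
      (mf B m f).det := by
  rw [RingHom.map_det, ← mf_cast B m f]
  rfl

/-- independence of the basis -/
theorem det_mf_indep (B' : CB V) (m : ℕ) (f : AddMonoid.End V) :
    (mf B m f).det = (mf B' m f).det := by
  -- change of basis
  have key : ∀ C C' : CB V, ∃ A : Matrix (Fin 2) (Fin 2) (ZMod (2 ^ m)),
      ∀ x, evv C' m x = evv C m (A *ᵥ x) := by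
    intro C C'
    refine ⟨!![(C.co m (C'.P m)).1, (C.co m (C'.Q m)).1;
      (C.co m (C'.P m)).2, (C.co m (C'.Q m)).2], fun x => ?_⟩
    obtain ⟨a, ha⟩ := CB.exists_int m (x 0)
    obtain ⟨b, hb⟩ := CB.exists_int m (x 1)
    have h1 : evv C' m x = a • C'.P m + b • C'.Q m := by
      rw [evv, ← ha, ← hb, C'.ev_int]
    have h2 : ∀ c : ℤ, ∀ y : ZMod (2 ^ m) × ZMod (2 ^ m), c • C.ev m y =
        C.ev m ((c : ZMod (2 ^ m)) * y.1, (c : ZMod (2 ^ m)) * y.2) := by
      intro c y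
      rw [← map_zsmul]
      congr 1
      exact Prod.ext (zsmul_eq_mul _ _) (zsmul_eq_mul _ _)
    rw [h1, evv]
    conv_lhs => rw [← C.ev_co m (C'.tors_P m), ← C.ev_co m (C'.tors_Q m), h2, h2, ← map_add]
    congr 1
    refine Prod.ext ?_ ?_
    · simp only [mulVec, dotProduct, Fin.sum_univ_two, of_apply, cons_val', cons_val_zero,
        cons_val_one, Prod.fst_add, ← ha, ← hb]
      ring
    · simp only [mulVec, dotProduct, Fin.sum_univ_two, of_apply, cons_val', cons_val_zero,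
        cons_val_one, Prod.snd_add, ← ha, ← hb]
      ring
  obtain ⟨A, hA⟩ := key B B'
  obtain ⟨A', hA'⟩ := key B' B
  have h1 : A * A' = 1 := by
    apply Matrix.ext_of_mulVec_single
    intro i
    apply evv_inj B m
    rw [← mulVec_mulVec, ← hA, ← hA', one_mulVec]
  have h2 : mf B m f = A * mf B' m f * A' := by
    apply mf_unique
    intro x
    rw [← mulVec_mulVec, ← mulVec_mulVec, ← hA, ← map_evv, ← hA']
  have h3 : A.det * A'.det = 1 := by rw [← Matrix.det_mul, h1, Matrix.det_one]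
  rw [h2, Matrix.det_mul, Matrix.det_mul]
  linear_combination (mf B' m f).det * h3

section group

variable {G : Type*} [Group G] [DistribMulAction G V]

/-- The matrix of a group element. -/
noncomputable def gm (m : ℕ) (s : G) : Matrix (Fin 2) (Fin 2) (ZMod (2 ^ m)) :=
  mf B m (DistribMulAction.toAddMonoidEnd G V s)

/-- The determinant modulo `2 ^ m`. -/
noncomputable def dt (m : ℕ) (s : G) : ZMod (2 ^ m) := (gm B m s).det

theorem gm_spec (m : ℕ) (s : G) (x : Fin 2 → ZMod (2 ^ m)) :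
    s • evv B m x = evv B m (gm B m s *ᵥ x) :=
  map_evv B m (DistribMulAction.toAddMonoidEnd G V s) x

theorem gm_mul (m : ℕ) (s t : G) : gm B m (s * t) = gm B m s * gm B m t := by
  rw [gm, map_mul, mf_mul]
  rfl

theorem gm_one (m : ℕ) : gm B m (1 : G) = 1 := by
  rw [gm, map_one, mf_one]

theorem gm_congr (m : ℕ) {s t : G} (h : ∀ x : V, (2 : ℕ) ^ m • x = 0 → s • x = t • x) :
    gm B m s = gm B m t := mf_congr B m h

theorem dt_mul (m : ℕ) (s t : G) : dt B m (s * t) = dt B m s * dt B m t := by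
  rw [dt, gm_mul, Matrix.det_mul]
  rfl

theorem dt_one (m : ℕ) : dt B m (1 : G) = 1 := by
  rw [dt, gm_one, Matrix.det_one]

theorem dt_congr (m : ℕ) {s t : G} (h : ∀ x : V, (2 : ℕ) ^ m • x = 0 → s • x = t • x) :
    dt B m s = dt B m t := by rw [dt, gm_congr B m h, dt]

theorem gm_cast (m : ℕ) (s : G) :
    (gm B (m + 1) s).map (ZMod.castHom (pow_dvd_pow 2 (Nat.le_succ m)) (ZMod (2 ^ m))) =
      gm B m s := mf_cast B m _

theorem dt_cast (m : ℕ) (s : G) :
    ZMod.castHom (pow_dvd_pow 2 (Nat.le_succ m)) (ZMod (2 ^ m)) (dt B (m + 1) s) = dt B m s :=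
  det_mf_cast B m _

theorem dt_indep (B' : CB V) (m : ℕ) (s : G) : dt B m s = dt B' m s := det_mf_indep B B' m _

/-- The action in coordinates, over the integers. -/
theorem dt_int (m : ℕ) (s : G) : ∃ a b c d : ℤ,
    s • B.P m = a • B.P m + b • B.Q m ∧ s • B.Q m = c • B.P m + d • B.Q m ∧
      dt B m s = ((a * d - b * c : ℤ) : ZMod (2 ^ m)) := by
  obtain ⟨a, ha⟩ := CB.exists_int m (gm B m s 0 0)
  obtain ⟨b, hb⟩ := CB.exists_int m (gm B m s 1 0)
  obtain ⟨c, hc⟩ := CB.exists_int m (gm B m s 0 1)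
  obtain ⟨d, hd⟩ := CB.exists_int m (gm B m s 1 1)
  refine ⟨a, b, c, d, ?_, ?_, ?_⟩
  · have h := gm_spec B m s ![1, 0]
    have h1 : evv B m ![1, 0] = B.P m := B.ev_P m
    rw [h1] at h
    rw [h, evv, ← B.ev_int, ha, hb]
    congr 1
    refine Prod.ext ?_ ?_ <;> simp [mulVec, dotProduct, Fin.sum_univ_two]
  · have h := gm_spec B m s ![0, 1]
    have h1 : evv B m ![0, 1] = B.Q m := B.ev_Q m
    rw [h1] at h
    rw [h, evv, ← B.ev_int, hc, hd]
    congr 1
    refine Prod.ext ?_ ?_ <;> simp [mulVec, dotProduct, Fin.sum_univ_two]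
  · rw [dt, Matrix.det_fin_two, ← ha, ← hb, ← hc, ← hd]
    push_cast
    ring

/-- If `s` acts as the identity on `V[2]` then its matrix is the identity modulo `2`. -/
theorem gm_one_eq {s : G} (h : ∀ x : V, (2 : ℕ) • x = 0 → s • x = x) : gm B 1 s = 1 := by
  rw [← gm_one (G := G) B 1]
  apply gm_congr
  intro x hx
  rw [pow_one] at hx
  rw [h x hx, one_smul]

end group

end Pool.Agent.SmP
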