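import Pool.Agent.Lib.SM.E.Act
import Pool.Agent.Lib.Sm.P.Mat
import Pool.Agent.Lib.Sm.P.Cyc

/-!
SMITH, block P6a: the character `psi m s = det (s on V[2 ^ m]) * cyc m s⁻¹` of `Gal(Ω/K)`, `V` the
2-power torsion of `E(Ω)`, `E : y ^ 2 = (x - e₁) (x - e₂) (x - e₃)`.

* `exists_CB_VV`: a compatible basis with `P 1 = T₁`, `Q 1 = T₂`;
* `psi_mul`, `psi_cast`, `psi_fin`, `psi_eq_one_iff`;
* `dt_eq_cyc_of_int`: `det = cyc` from the divisibility `2 ^ m ∣ A D - B C - n`.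
-/

set_option autoImplicit false

namespace Pool.Agent.SmP

open Pool.Agent.SmithE

variable {K Ω : Type} [Field K] [Field Ω] [Algebra K Ω] [DecidableEq Ω] {e₁ e₂ e₃ : K}

/-- A compatible basis of `V` above `T₁, T₂`. -/
theorem exists_CB_VV [IsSepClosed Ω] (h2 : (2 : K) ≠ 0) (h12 : e₁ ≠ e₂) (h13 : e₁ ≠ e₃)
    (h23 : e₂ ≠ e₃) : ∃ B : CB (VV Ω e₁ e₂ e₃),
      B.P 1 = T1 h2 h12 h13 h23 Ω ∧ B.Q 1 = T2 h2 h12 h13 h23 Ω := by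
  obtain ⟨B, h1, h3⟩ := exists_CB (half_VV (Ω := Ω) h2 h12 h13 h23) (iota h2 h12 h13 h23 Ω)
    (iota_injective h2 h12 h13 h23) (iota_range h2 h12 h13 h23)
  exact ⟨B, by rw [h1, iota_one_zero], by rw [h3, iota_zero_one]⟩

/-- The quotient of the determinant and the cyclotomic character. -/
noncomputable def psi (B : CB (VV Ω e₁ e₂ e₃)) (m : ℕ) (s : Ω ≃ₐ[K] Ω) : ZMod (2 ^ m) :=
  dt B m s * cyc m s⁻¹

section

variable [IsSepClosed Ω] (h2 : (2 : Ω) ≠ 0) (B : CB (VV Ω e₁ e₂ e₃))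

include h2

theorem psi_mul (m : ℕ) (s t : Ω ≃ₐ[K] Ω) : psi B m (s * t) = psi B m s * psi B m t := by
  rw [psi, psi, psi, dt_mul, mul_inv_rev, cyc_mul h2]
  ring

theorem psi_cast (m : ℕ) (s : Ω ≃ₐ[K] Ω) :
    ZMod.castHom (pow_dvd_pow 2 (Nat.le_succ m)) (ZMod (2 ^ m)) (psi B (m + 1) s) =
      psi B m s := by
  rw [psi, psi, map_mul, dt_cast, cyc_cast h2]

theorem psi_eq_one_iff (m : ℕ) (s : Ω ≃ₐ[K] Ω) : psi B m s = 1 ↔ dt B m s = cyc m s := by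
  have h := cyc_mul_inv h2 m s
  rw [psi]
  constructor
  · intro h1
    calc dt B m s = dt B m s * (cyc m s * cyc m s⁻¹) := by rw [h, mul_one]
      _ = cyc m s * (dt B m s * cyc m s⁻¹) := by ring
      _ = cyc m s := by rw [h1, mul_one]
  · intro h1
    rw [h1, h]

end

theorem psi_fin [IsGalois K Ω] [IsSepClosed Ω] (h2 : (2 : K) ≠ 0) (h12 : e₁ ≠ e₂) (h13 : e₁ ≠ e₃)
    (h23 : e₂ ≠ e₃) (B : CB (VV Ω e₁ e₂ e₃)) (m : ℕ) :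
    ∃ N ∈ Pool.Agent.SmD.NN K Ω, ∀ s ∈ N, psi B m s = 1 := by
  have h2' : (2 : Ω) ≠ 0 := two_ne_zero_of_algebraMap h2
  obtain ⟨N, hN, hN'⟩ := act_fin (Ω := Ω) h2 h12 h13 h23 m
  obtain ⟨M, hM, hM'⟩ := cyc_fin (K := K) h2' m
  refine ⟨N ⊓ M, Pool.Agent.SmD.inf_mem_NN hN hM, fun s hs => ?_⟩
  have h1 : dt B m s = 1 := by
    rw [← dt_one (G := Ω ≃ₐ[K] Ω) B m]
    exact dt_congr B m fun x hx => by rw [hN' s hs.1 x hx, one_smul]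
  rw [psi, h1, one_mul]
  exact hM' _ (M.inv_mem hs.2)

omit [DecidableEq Ω] in
/-- A natural number representing an element of `ZMod (2 ^ m)`, as a power. -/
theorem cyc_pow [IsSepClosed Ω] (h2 : (2 : Ω) ≠ 0) (m : ℕ) (s : Ω ≃ₐ[K] Ω) :
    ∀ ζ : Ω, ζ ^ 2 ^ m = 1 → s ζ = ζ ^ (cyc m s).val := fun _ hζ => cyc_spec h2 m s hζ

/-- `det = cyc` from the divisibility statement about integers. -/
theorem dt_eq_cyc_of_int [IsSepClosed Ω] (h2 : (2 : Ω) ≠ 0) (B : CB (VV Ω e₁ e₂ e₃)) (m : ℕ)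
    (s : Ω ≃ₐ[K] Ω)
    (H : ∀ P Q : Pt Ω e₁ e₂ e₃, (2 : ℕ) ^ m • P = 0 → (2 : ℕ) ^ m • Q = 0 →
      (∀ R : Pt Ω e₁ e₂ e₃, (2 : ℕ) ^ m • R = 0 → ∃ a b : ℤ, R = a • P + b • Q) →
      (∀ i j : ℤ, i • P + j • Q = 0 → (2 : ℤ) ^ m ∣ i ∧ (2 : ℤ) ^ m ∣ j) →
      ∀ A C D E : ℤ, s • P = A • P + C • Q → s • Q = D • P + E • Q →
      ∀ n : ℕ, (∀ ζ : Ω, ζ ^ 2 ^ m = 1 → s ζ = ζ ^ n) → (2 : ℤ) ^ m ∣ A * E - C * D - n) :
    dt B m s = cyc m s := by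
  obtain ⟨a, b, c, d, h1, h3, h4⟩ := dt_int B m s
  have h5 := H (B.P m).1 (B.Q m).1 (congrArg Subtype.val (B.tors_P m))
    (congrArg Subtype.val (B.tors_Q m)) (fun R hR => ?_) (fun i j hij => ?_) a b c d
    (congrArg Subtype.val h1) (congrArg Subtype.val h3) (cyc m s).val (cyc_pow h2 m s)
  · rw [h4]
    have h6 : ((a * d - b * c - ((cyc m s).val : ℤ) : ℤ) : ZMod (2 ^ m)) = 0 := by
      rw [ZMod.intCast_zmod_eq_zero_iff_dvd]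
      push_cast
      exact h5
    have h7 : (((cyc m s).val : ℤ) : ZMod (2 ^ m)) = cyc m s := by
      rw [Int.cast_natCast, ZMod.natCast_zmod_val]
    rw [Int.cast_sub, h7, sub_eq_zero] at h6
    exact h6
  · obtain ⟨x, y, hxy⟩ := B.exists_coord m ⟨R, m, hR⟩ (Subtype.ext hR)
    exact ⟨x, y, congrArg Subtype.val hxy⟩
  · exact (B.coord_zero m i j).1 (Subtype.ext hij)

end Pool.Agent.SmP
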