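import Pool.Agent.Lib.Sm.P.LMFour
import Pool.Agent.Lib.Sm.P.Psi

/-!
SMITH, block P6a: the local theorem. If `v 2 = 1` and `v (e₁ - e₂) ≠ v (e₁ - e₃)`, then
`det (s | E[2 ^ m]) = cyc (s)` for every `s` preserving `v`; and for all `s` this holds
modulo 4.
-/

set_option autoImplicit false

namespace Pool.Agent.SmP

open WeierstrassCurve WeierstrassCurve.Affine Pool.Agent.SmithE

section

variable {F : Type} [Field F] [DecidableEq F] {W : WeierstrassCurve F} {a b c : F}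
  {Γ₀ : Type} [LinearOrderedCommGroupWithZero Γ₀] {v : Valuation F Γ₀}

theorem det_cyc [IsSepClosed F] (hW : W = crv a b c) (hd : v (a - b) < v (a - c))
    (h2 : v 2 = 1) (hab : a ≠ b) (s : F ≃+* F) (hs : ∀ z, v (s z) = v z) (hsa : s a = a)
    (hsb : s b = b) (hsc : s c = c) (S : W.toAffine.Point →+ W.toAffine.Point)
    (hS : ∀ (x y : F) (h : W.toAffine.Nonsingular x y),
      ∃ h' : W.toAffine.Nonsingular (s x) (s y), S (.some x y h) = .some (s x) (s y) h')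
    {m n : ℕ} (hn : ∀ ζ : F, ζ ^ (2 ^ m) = 1 → s ζ = ζ ^ n) {P Q : W.toAffine.Point}
    (hPm : (2 ^ m) • P = 0) (hQm : (2 ^ m) • Q = 0)
    (hgen : ∀ R : W.toAffine.Point, (2 ^ m) • R = 0 → ∃ i j : ℤ, R = i • P + j • Q)
    (hind : ∀ i j : ℤ, i • P + j • Q = 0 → (2 : ℤ) ^ m ∣ i ∧ (2 : ℤ) ^ m ∣ j)
    {A B C D : ℤ} (hSP : S P = A • P + B • Q) (hSQ : S Q = C • P + D • Q) :
    (2 : ℤ) ^ m ∣ A * D - B * C - n := by
  have h2' : (2 : F) ≠ 0 := (v.ne_zero_iff).mp (by rw [h2]; exact one_ne_zero)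
  have hg0 : 0 < v (a - c) := lt_of_le_of_lt zero_le hd
  have hac : a ≠ c := sub_ne_zero.mp ((v.ne_zero_iff).mp hg0.ne')
  have hbc : b ≠ c := by
    rintro rfl
    exact lt_irrefl _ hd
  rcases m with _ | m
  · rw [pow_zero]
    exact one_dvd _
  have hodd : Odd n := by
    refine n_odd h2' s (hn (-1) ?_)
    rw [pow_succ', pow_mul, neg_one_sq, one_pow]
  obtain ⟨q, hq⟩ := hodd
  rcases m with _ | m
  · obtain ⟨⟨i, hi⟩, ⟨j, hj⟩⟩ := coeff_even hW h2' hab hac hbc s hsa hsb hsc S hS hPm hind hSP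
    obtain ⟨⟨l, hl⟩, ⟨k, hk⟩⟩ := coeff_even hW h2' hab hac hbc s hsa hsb hsc S hS hQm
      (fun i j h => (hind j i (by rw [add_comm]; exact h)).symm)
      (by rw [hSQ, add_comm] : S Q = D • Q + C • P)
    have hA : A = 1 + 2 * i := by linarith
    have hD : D = 1 + 2 * l := by linarith
    refine ⟨i + l + 2 * i * l - 2 * j * k - q, ?_⟩
    rw [hA, hD, hj, hk, hq]
    push_cast
    ring
  · have h4 : (4 : ℤ) ∣ A * D - B * C - n := by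
      refine det_mod_four hW h2' hab hac hbc s hsa hsb hsc S hS (m := m)
        (fun ζ hζ => hn ζ ?_) hPm hQm hind hSP hSQ
      have e : 2 ^ (m + 1 + 1) = 4 * 2 ^ m := by ring
      rw [e, pow_mul, hζ, one_pow]
    rcases local_det_pm hW hd h2 hab s hs hsa hsc S hS hn hPm hQm hgen hind hSP hSQ with h | h
    · exact h
    · exfalso
      have h5 : (4 : ℤ) ∣ A * D - B * C + n := by
        refine dvd_trans ⟨2 ^ m, ?_⟩ h
        ring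
      obtain ⟨u, hu⟩ := h4
      obtain ⟨w, hw⟩ := h5
      rw [hq] at hu hw
      push_cast at hu hw
      omega

end

section

variable {K Ω : Type} [Field K] [Field Ω] [Algebra K Ω] [DecidableEq Ω] {e₁ e₂ e₃ : K}

/-- the local theorem, on `E(Ω)` -/
theorem local_int [IsSepClosed Ω] (h12 : e₁ ≠ e₂) (h13 : e₁ ≠ e₃)
    {Γ₀ : Type} [LinearOrderedCommGroupWithZero Γ₀] (v : Valuation Ω Γ₀) (hv2 : v 2 = 1)
    (hv : v (algebraMap K Ω (e₁ - e₂)) ≠ v (algebraMap K Ω (e₁ - e₃)))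
    (s : Ω ≃ₐ[K] Ω) (hs : ∀ z, v (s z) = v z) (m : ℕ) :
    ∀ P Q : Pt Ω e₁ e₂ e₃, (2 : ℕ) ^ m • P = 0 → (2 : ℕ) ^ m • Q = 0 →
      (∀ R : Pt Ω e₁ e₂ e₃, (2 : ℕ) ^ m • R = 0 → ∃ a b : ℤ, R = a • P + b • Q) →
      (∀ i j : ℤ, i • P + j • Q = 0 → (2 : ℤ) ^ m ∣ i ∧ (2 : ℤ) ^ m ∣ j) →
      ∀ A C D E : ℤ, s • P = A • P + C • Q → s • Q = D • P + E • Q →
      ∀ n : ℕ, (∀ ζ : Ω, ζ ^ 2 ^ m = 1 → s ζ = ζ ^ n) → (2 : ℤ) ^ m ∣ A * E - C * D - n := by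
  intro P Q hPm hQm hgen hind A C D E hSP hSQ n hn
  rw [map_sub (algebraMap K Ω), map_sub (algebraMap K Ω)] at hv
  have i12 : algebraMap K Ω e₁ ≠ algebraMap K Ω e₂ := fun h => h12 ((algebraMap K Ω).injective h)
  have i13 : algebraMap K Ω e₁ ≠ algebraMap K Ω e₃ := fun h => h13 ((algebraMap K Ω).injective h)
  rcases lt_or_gt_of_ne hv with h | h
  · exact det_cyc (W := (crv e₁ e₂ e₃).baseChange Ω) (v := v) baseChange_crv h hv2 i12
      s.toRingEquiv hs (s.commutes e₁) (s.commutes e₂) (s.commutes e₃)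
      (DistribSMul.toAddMonoidHom (Pt Ω e₁ e₂ e₃) s) (fun x y h => smul_some s h)
      hn hPm hQm hgen hind hSP hSQ
  · exact det_cyc (W := (crv e₁ e₂ e₃).baseChange Ω) (v := v)
      (baseChange_crv.trans (crv_swap23 _ _ _)) h hv2 i13
      s.toRingEquiv hs (s.commutes e₁) (s.commutes e₃) (s.commutes e₂)
      (DistribSMul.toAddMonoidHom (Pt Ω e₁ e₂ e₃) s) (fun x y h => smul_some s h)
      hn hPm hQm hgen hind hSP hSQ

/-- modulo 4, for every `s` -/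
theorem four_int (h2 : (2 : Ω) ≠ 0) (h12 : e₁ ≠ e₂) (h13 : e₁ ≠ e₃) (h23 : e₂ ≠ e₃)
    (s : Ω ≃ₐ[K] Ω) {m n : ℕ} (hn : ∀ ζ : Ω, ζ ^ 4 = 1 → s ζ = ζ ^ n) {P Q : Pt Ω e₁ e₂ e₃}
    (hPm : (2 : ℕ) ^ (m + 2) • P = 0) (hQm : (2 : ℕ) ^ (m + 2) • Q = 0)
    (hind : ∀ i j : ℤ, i • P + j • Q = 0 → (2 : ℤ) ^ (m + 2) ∣ i ∧ (2 : ℤ) ^ (m + 2) ∣ j)
    {A B C D : ℤ} (hSP : s • P = A • P + B • Q) (hSQ : s • Q = C • P + D • Q) :
    (4 : ℤ) ∣ A * D - B * C - n :=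
  det_mod_four (W := (crv e₁ e₂ e₃).baseChange Ω) baseChange_crv h2
    (fun h => h12 ((algebraMap K Ω).injective h)) (fun h => h13 ((algebraMap K Ω).injective h))
    (fun h => h23 ((algebraMap K Ω).injective h)) s.toRingEquiv
    (s.commutes e₁) (s.commutes e₂) (s.commutes e₃)
    (DistribSMul.toAddMonoidHom (Pt Ω e₁ e₂ e₃) s) (fun x y h => smul_some s h)
    hn hPm hQm hind hSP hSQ

/-- `det = cyc` for the automorphisms preserving `v` -/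
theorem dt_eq_cyc_local [IsSepClosed Ω] (h12 : e₁ ≠ e₂) (h13 : e₁ ≠ e₃)
    {Γ₀ : Type} [LinearOrderedCommGroupWithZero Γ₀] (v : Valuation Ω Γ₀) (hv2 : v 2 = 1)
    (hv : v (algebraMap K Ω (e₁ - e₂)) ≠ v (algebraMap K Ω (e₁ - e₃)))
    (B : CB (VV Ω e₁ e₂ e₃)) (s : Ω ≃ₐ[K] Ω) (hs : ∀ z, v (s z) = v z) (m : ℕ) :
    dt B m s = cyc m s :=
  dt_eq_cyc_of_int ((v.ne_zero_iff).mp (by rw [hv2]; exact one_ne_zero)) B m s
    (local_int h12 h13 v hv2 hv s hs m)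

/-- `det = cyc` modulo 4, for every automorphism -/
theorem dt_eq_cyc_two [IsSepClosed Ω] (h2 : (2 : Ω) ≠ 0) (h12 : e₁ ≠ e₂) (h13 : e₁ ≠ e₃)
    (h23 : e₂ ≠ e₃) (B : CB (VV Ω e₁ e₂ e₃)) (s : Ω ≃ₐ[K] Ω) : dt B 2 s = cyc 2 s := by
  refine dt_eq_cyc_of_int h2 B 2 s ?_
  intro P Q hPm hQm _ hind A C D E hSP hSQ n hn
  have e : ((2 : ℕ) ^ 2) = 4 := by norm_num
  have h := four_int h2 h12 h13 h23 s (m := 0) (n := n) (fun ζ hζ => hn ζ (by rw [e]; exact hζ))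
    hPm hQm hind hSP hSQ
  have e2 : ((2 : ℤ) ^ 2) = 4 := by norm_num
  rw [e2]
  exact h

end

end Pool.Agent.SmP
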