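import Pool.Agent.Lib.Sm.P.LMVal

/-!
SMITH, block P6a, local part: the subgroup `E0 = {O} ∪ {P : v (x - a) ≥ v (a - c)}` (points with
non-singular reduction) of `y ^ 2 = (x - a) (x - b) (x - c)`, `v (a - b) < v (a - c)`, and the
homomorphism `P ↦ (t + κ) / (t - κ)`, `t = y / (x - a)`, `κ ^ 2 = a - c`, modulo the maximal ideal.
-/

set_option autoImplicit false

namespace Pool.Agent.SmP

open WeierstrassCurve WeierstrassCurve.Affine Pool.Agent.SmithE

variable {F : Type} [Field F] {W : WeierstrassCurve F} {a b c κ : F}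
  {Γ₀ : Type} [LinearOrderedCommGroupWithZero Γ₀] {v : Valuation F Γ₀}

/-- the points with non-singular reduction -/
def InE0 (v : Valuation F Γ₀) (a c : F) (P : W.toAffine.Point) : Prop :=
  ∀ (x y : F) (h : W.toAffine.Nonsingular x y), P = .some x y h → v (a - c) ≤ v (x - a)

/-- `(t + κ) / (t - κ)` -/
noncomputable def uf (κ a : F) : W.toAffine.Point → F
  | .zero => 1
  | .some x y _ => (y / (x - a) + κ) / (y / (x - a) - κ)

lemma uf_zero : uf κ a (0 : W.toAffine.Point) = 1 := rfl

lemma uf_some {x y : F} (h : W.toAffine.Nonsingular x y) :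
    uf κ a (.some x y h : W.toAffine.Point) = (y / (x - a) + κ) / (y / (x - a) - κ) := rfl

lemma inE0_zero : InE0 v a c (0 : W.toAffine.Point) := fun _ _ _ h => by cases h

lemma inE0_some {x y : F} (h : W.toAffine.Nonsingular x y) :
    InE0 v a c (.some x y h : W.toAffine.Point) ↔ v (a - c) ≤ v (x - a) := by
  constructor
  · intro h1
    exact h1 x y h rfl
  · intro h1 x' y' h' e
    rw [WeierstrassCurve.Affine.Point.some.injEq] at e
    rw [← e.1]
    exact h1

lemma eqn' (hW : W = crv a b c) {x y : F} (h : W.toAffine.Nonsingular x y) :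
    y ^ 2 = (x - a) * ((x - a) + (a - b)) * ((x - a) + (a - c)) := by
  rw [eqn hW h]
  ring

lemma inE0_neg (hW : W = crv a b c) {P : W.toAffine.Point} (hP : InE0 v a c P) :
    InE0 v a c (-P) := by
  rcases P with _ | ⟨x, y, h⟩
  · exact hP
  · rw [WeierstrassCurve.Affine.Point.neg_some, inE0_some]
    exact (inE0_some h).mp hP

lemma uf_neg (hW : W = crv a b c) (P : W.toAffine.Point) : uf κ a (-P) = (uf κ a P)⁻¹ := by
  rcases P with _ | ⟨x, y, h⟩
  · change (1 : F) = 1⁻¹
    rw [inv_one]
  · rw [WeierstrassCurve.Affine.Point.neg_some, uf_some, uf_some, negY_eq hW, inv_div, neg_div]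
    rw [← neg_div_neg_eq]
    congr 1 <;> ring

lemma v_uf (hW : W = crv a b c) (hd : v (a - b) < v (a - c)) (hκ : κ ^ 2 = a - c)
    {P : W.toAffine.Point} (hP : InE0 v a c P) : v (uf κ a P) = 1 := by
  rcases P with _ | ⟨x, y, h⟩
  · exact map_one v
  · rw [inE0_some] at hP
    obtain ⟨h1, h2, -⟩ := e0_t hd hκ hP (eqn' hW h)
    have hg0 : 0 < v (x - a) := lt_of_lt_of_le (lt_of_le_of_lt zero_le hd) hP
    have h3 : v (y / (x - a) + κ) = v (y / (x - a) - κ) :=
      le_antisymm (le_of_sq_le (by rw [h1, h2])) (le_of_sq_le (by rw [h1, h2]))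
    have h4 : v (y / (x - a) - κ) ≠ 0 := by
      intro h0
      rw [h0, zero_pow two_ne_zero] at h2
      exact hg0.ne h2
    rw [uf_some, map_div₀, h3, div_self h4]

section add

variable [DecidableEq F]

lemma e0_add_hom (hW : W = crv a b c) (hd : v (a - b) < v (a - c)) (hκ : κ ^ 2 = a - c)
    {P Q : W.toAffine.Point} (hP : InE0 v a c P) (hQ : InE0 v a c Q) :
    InE0 v a c (P + Q) ∧ v (uf κ a (P + Q) - uf κ a P * uf κ a Q) < 1 := by
  have hone : v (0 : F) < 1 := by rw [map_zero]; exact zero_lt_one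
  rcases P with _ | ⟨x, y, h⟩
  · change InE0 v a c (0 + Q) ∧ v (uf κ a (0 + Q) - 1 * uf κ a Q) < 1
    rw [zero_add, one_mul, sub_self]
    exact ⟨hQ, hone⟩
  · rcases Q with _ | ⟨x', y', h'⟩
    · change InE0 v a c (.some x y h + 0) ∧
        v (uf κ a (.some x y h + 0) - uf κ a (.some x y h) * 1) < 1
      rw [add_zero, mul_one, sub_self]
      exact ⟨hP, hone⟩
    · by_cases hxy : x = x' ∧ y = -y'
      · have hneg : (.some x y h : W.toAffine.Point) = -.some x' y' h' := by
          rw [WeierstrassCurve.Affine.Point.neg_some, WeierstrassCurve.Affine.Point.some.injEq,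
            negY_eq hW]
          exact hxy
        have hne : uf κ a (.some x' y' h' : W.toAffine.Point) ≠ 0 := by
          intro h0
          have := v_uf hW hd hκ hQ
          rw [h0, map_zero] at this
          exact zero_ne_one this
        rw [hneg, uf_neg hW, inv_mul_cancel₀ hne, neg_add_cancel, uf_zero, sub_self]
        exact ⟨inE0_zero, hone⟩
      · obtain ⟨x'', y'', h'', l, n, hadd, hl, hl', hl'', e3, e2, e1⟩ := line_rel hW h h' hxy
        rw [inE0_some] at hP hQ
        rw [hadd, inE0_some]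
        exact ⟨(e0_add hd hκ hP hQ (eqn' hW h) (eqn' hW h') hl hl' e3 e2).1,
          e0_hom hd hκ hP hQ (eqn' hW h) (eqn' hW h') hl hl' hl'' e3 e2 e1⟩

lemma e0_nsmul (hW : W = crv a b c) (hd : v (a - b) < v (a - c)) (hκ : κ ^ 2 = a - c)
    {P : W.toAffine.Point} (hP : InE0 v a c P) (n : ℕ) :
    InE0 v a c (n • P) ∧ v (uf κ a (n • P) - uf κ a P ^ n) < 1 := by
  induction n with
  | zero =>
    rw [zero_smul, pow_zero, uf_zero, sub_self, map_zero]
    exact ⟨inE0_zero, zero_lt_one⟩
  | succ n ih =>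
    obtain ⟨h1, h2⟩ := e0_add_hom hW hd hκ ih.1 hP
    rw [succ_nsmul]
    refine ⟨h1, ?_⟩
    have h3 : uf κ a (n • P + P) - uf κ a P ^ (n + 1) =
        (uf κ a (n • P + P) - uf κ a (n • P) * uf κ a P) +
          (uf κ a (n • P) - uf κ a P ^ n) * uf κ a P := by ring
    rw [h3]
    refine v.map_add_lt h2 ?_
    rw [map_mul, v_uf hW hd hκ hP, mul_one]
    exact ih.2

lemma inE0_sub (hW : W = crv a b c) (hd : v (a - b) < v (a - c)) (hκ : κ ^ 2 = a - c)
    {P Q : W.toAffine.Point} (hP : InE0 v a c P) (hQ : InE0 v a c Q) : InE0 v a c (P - Q) := by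
  rw [sub_eq_add_neg]
  exact (e0_add_hom hW hd hκ hP (inE0_neg hW hQ)).1

lemma inE0_zsmul (hW : W = crv a b c) (hd : v (a - b) < v (a - c)) (hκ : κ ^ 2 = a - c)
    {P : W.toAffine.Point} (hP : InE0 v a c P) (n : ℤ) : InE0 v a c (n • P) := by
  rcases Int.eq_nat_or_neg n with ⟨k, rfl | rfl⟩
  · rw [natCast_zsmul]
    exact (e0_nsmul hW hd hκ hP k).1
  · rw [neg_smul, natCast_zsmul]
    exact inE0_neg hW (e0_nsmul hW hd hκ hP k).1

/-- the only point of order 2 in `E0` is `(c, 0)` -/
lemma e0_two (hW : W = crv a b c) (hd : v (a - b) < v (a - c)) (h2 : v 2 = 1)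
    {P : W.toAffine.Point} (hP : InE0 v a c P) (h0 : P ≠ 0) (hPP : P + P = 0) :
    ∃ h : W.toAffine.Nonsingular c 0, P = .some c 0 h := by
  have h2' : (2 : F) ≠ 0 := by
    intro h
    rw [h, map_zero] at h2
    exact zero_ne_one h2
  have hg0 : 0 < v (a - c) := lt_of_le_of_lt zero_le hd
  have hac : a ≠ c := by
    rintro rfl
    rw [sub_self, map_zero] at hg0
    exact lt_irrefl _ hg0
  rcases P with _ | ⟨x, y, h⟩
  · exact absurd rfl h0
  · have hP' := (inE0_some h).mp hP
    have hy : y = 0 := by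
      by_contra hy
      have h5 := add_eq_zero_iff_eq_neg.mp hPP
      rw [WeierstrassCurve.Affine.Point.neg_some, WeierstrassCurve.Affine.Point.some.injEq,
        negY_eq hW] at h5
      have h6 : 2 * y = 0 := by linear_combination h5.2
      exact hy ((mul_eq_zero.mp h6).resolve_left h2')
    subst hy
    have he := eqn hW h
    have h7 : (x - a) * (x - b) * (x - c) = 0 := by rw [← he]; ring
    rcases mul_eq_zero.mp h7 with h8 | h8
    · exfalso
      rcases mul_eq_zero.mp h8 with h9 | h9
      · rw [h9, map_zero] at hP'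
        exact absurd hP' (not_le.mpr hg0)
      · have : x - a = -(a - b) := by linear_combination h9
        rw [this, Valuation.map_neg] at hP'
        exact absurd hP' (not_le.mpr hd)
    · have hx : x = c := sub_eq_zero.mp h8
      subst hx
      exact ⟨h, rfl⟩

/-- `u` is injective on the 2-power torsion of `E0` -/
theorem e0_inj (hW : W = crv a b c) (hd : v (a - b) < v (a - c)) (h2 : v 2 = 1)
    (hκ : κ ^ 2 = a - c) {P : W.toAffine.Point} (hP : InE0 v a c P) {m : ℕ}
    (hm : (2 ^ m) • P = 0) (hu : v (uf κ a P - 1) < 1) : P = 0 := by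
  induction m generalizing P with
  | zero => rwa [pow_zero, one_smul] at hm
  | succ m ih =>
    have h1 : P + P = 0 := by
      have hPP := e0_add_hom hW hd hκ hP hP
      refine ih hPP.1 ?_ ?_
      · rw [← two_smul ℕ P, ← mul_smul, ← pow_succ]
        exact hm
      · have e1 : uf κ a (P + P) - 1 = (uf κ a (P + P) - uf κ a P * uf κ a P) +
            (uf κ a P - 1) * (uf κ a P + 1) := by ring
        rw [e1]
        refine v.map_add_lt hPP.2 ?_
        rw [map_mul]
        have e2 : v (uf κ a P + 1) ≤ 1 := v.map_add_le (v_uf hW hd hκ hP).le (map_one v).le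
        calc v (uf κ a P - 1) * v (uf κ a P + 1) ≤ v (uf κ a P - 1) :=
              mul_le_of_le_one_right' e2
          _ < 1 := hu
    by_contra h0
    obtain ⟨h, rfl⟩ := e0_two hW hd h2 hP h0 h1
    have hg0 : 0 < v (a - c) := lt_of_le_of_lt zero_le hd
    have hκ0 : κ ≠ 0 := by
      rintro rfl
      rw [← hκ, zero_pow two_ne_zero, map_zero] at hg0
      exact lt_irrefl _ hg0
    have e3 : uf κ a (.some c 0 h : W.toAffine.Point) - 1 = -2 := by
      rw [uf_some, zero_div, zero_add, zero_sub, div_neg, div_self hκ0]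
      ring
    rw [e3, Valuation.map_neg, h2] at hu
    exact lt_irrefl _ hu

end add

end Pool.Agent.SmP
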