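import Pool.Agent.Lib.Sm.P.LMPt

/-!
SMITH, block P6a, local part: the points outside `E0`. If `v (x - a) ≤ v (a - b)` then
`P + T_a ∈ E0`; if `v (a - b) < v (x - a) < v (a - c)` then `t = y / (x - a)` is congruent to
`κ` or to `- κ`, and two such points with the same `v (x - a)` and opposite signs have their sum
in `E0`.
-/

set_option autoImplicit false

namespace Pool.Agent.SmP

open WeierstrassCurve WeierstrassCurve.Affine Pool.Agent.SmithE

variable {F : Type} [Field F] {W : WeierstrassCurve F} {a b c κ : F}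
  {Γ₀ : Type} [LinearOrderedCommGroupWithZero Γ₀] {v : Valuation F Γ₀}

/-- low points -/
lemma low_add_T [DecidableEq F] (hW : W = crv a b c) (hd : v (a - b) < v (a - c)) {x y : F}
    (h : W.toAffine.Nonsingular x y) (hT : W.toAffine.Nonsingular a 0)
    (hx : v (x - a) ≤ v (a - b)) :
    InE0 v a c ((.some x y h : W.toAffine.Point) + .some a 0 hT) := by
  by_cases hxa : x = a
  · subst hxa
    have hy : y = 0 := by
      have he := eqn hW h
      rw [sub_self, zero_mul, zero_mul] at he
      exact pow_eq_zero_iff (two_ne_zero) |>.mp he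
    subst hy
    have h0 : (.some x 0 h : W.toAffine.Point) + .some x 0 hT = 0 := by
      rw [add_eq_zero_iff_eq_neg, WeierstrassCurve.Affine.Point.neg_some,
        WeierstrassCurve.Affine.Point.some.injEq, negY_eq hW, neg_zero]
      exact ⟨rfl, rfl⟩
    rw [h0]
    exact inE0_zero
  · obtain ⟨X, Y, h', hadd, hX, -⟩ := add_T hW h hxa hT
    rw [hadd, inE0_some, hX, add_sub_cancel_left, map_div₀, map_mul]
    have hx0 : 0 < v (x - a) := by
      rw [zero_lt_iff]
      exact (v.ne_zero_iff).mpr (sub_ne_zero.mpr hxa)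
    rw [le_div_iff₀ hx0, mul_comm]
    exact mul_le_mul_left hx _

lemma mid_t {x y : F} (hW : W = crv a b c) (hκ : κ ^ 2 = a - c)
    (h : W.toAffine.Nonsingular x y) (h1 : v (a - b) < v (x - a)) (h3 : v (x - a) < v (a - c)) :
    v (y / (x - a)) = v κ ∧
      (v (y / (x - a) - κ) < v κ ∨ v (y / (x - a) + κ) < v κ) := by
  have hx0 : 0 < v (x - a) := lt_of_le_of_lt zero_le h1
  have hxn : x - a ≠ 0 := (v.ne_zero_iff).mp hx0.ne'
  have ht := tsq hxn (eqn' hW h)
  have hκv : v κ ^ 2 = v (a - c) := by rw [← map_pow, hκ]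
  have h4 : v ((a - b) * (a - c) / (x - a)) < v (a - c) := by
    rw [map_div₀, map_mul, div_lt_iff₀ hx0, mul_comm (v (a - c))]
    exact mul_lt_mul_of_pos_right h1 (hx0.trans h3)
  have h5 : v ((y / (x - a) - κ) * (y / (x - a) + κ)) < v (a - c) := by
    have e : (y / (x - a) - κ) * (y / (x - a) + κ) =
        (x - a) + (a - b) + (a - b) * (a - c) / (x - a) := by
      linear_combination ht - hκ
    rw [e]
    exact v.map_add_lt (v.map_add_lt h3 (h1.trans h3)) h4
  have h6 : v (y / (x - a)) ^ 2 = v κ ^ 2 := by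
    have e : (y / (x - a)) ^ 2 = (y / (x - a) - κ) * (y / (x - a) + κ) + (a - c) := by
      linear_combination hκ
    rw [← map_pow, e, hκv]
    exact v.map_add_eq_of_lt_right h5
  refine ⟨le_antisymm (le_of_sq_le h6.le) (le_of_sq_le h6.ge), ?_⟩
  by_contra hcon
  rw [not_or, not_lt, not_lt] at hcon
  rw [map_mul, ← hκv, pow_two] at h5
  have h7 : v κ * v κ ≤ v (y / (x - a) - κ) * v (y / (x - a) + κ) := by
    refine (mul_le_mul_left hcon.1 _).trans ?_
    rw [mul_comm _ (v κ), mul_comm (v (y / (x - a) - κ))]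
    exact mul_le_mul_left hcon.2 _
  exact absurd h5 (not_lt.mpr h7)

/-- middle points of opposite signs -/
lemma mid_add [DecidableEq F] (hW : W = crv a b c) (h2 : v 2 = 1)
    (hκ : κ ^ 2 = a - c) {x y x' y' : F} (h : W.toAffine.Nonsingular x y)
    (h' : W.toAffine.Nonsingular x' y') (hx0 : x - a ≠ 0) (hxx : v (x' - a) = v (x - a))
    (ht : v (y / (x - a) - κ) < v κ) (ht' : v (y' / (x' - a) + κ) < v κ) :
    InE0 v a c ((.some x y h : W.toAffine.Point) + .some x' y' h') := by
  have hx0' : x' - a ≠ 0 := by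
    intro h0
    rw [h0, map_zero] at hxx
    exact hx0 ((v.zero_iff).mp hxx.symm)
  have hκ0 : 0 < v κ := lt_of_le_of_lt zero_le ht
  by_cases hxy : x = x' ∧ y = -y'
  · have hneg : (.some x y h : W.toAffine.Point) = -.some x' y' h' := by
      rw [WeierstrassCurve.Affine.Point.neg_some, WeierstrassCurve.Affine.Point.some.injEq,
        negY_eq hW]
      exact hxy
    rw [hneg, neg_add_cancel]
    exact inE0_zero
  · obtain ⟨x'', y'', h'', l, n, hadd, hl, hl', hl'', e3, e2, e1⟩ := line_rel hW h h' hxy
    rw [hadd, inE0_some]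
    have hS3 := chord_S3 (l := l) hx0 hx0' e3
    rw [← hl, ← hl'] at hS3
    have htt : v (y / (x - a) - y' / (x' - a)) = v κ := by
      have e : y / (x - a) - y' / (x' - a) =
          ((y / (x - a) - κ) - (y' / (x' - a) + κ)) + 2 * κ := by ring
      have h3 : v (2 * κ) = v κ := by rw [map_mul, h2, one_mul]
      rw [e, ← h3]
      refine v.map_add_eq_of_lt_right ?_
      rw [h3]
      exact v.map_sub_lt ht ht'
    have hxne : (x - a) - (x' - a) ≠ 0 := by
      intro h0
      rw [h0, zero_pow two_ne_zero, mul_zero] at hS3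
      have h4 : y / (x - a) - y' / (x' - a) ≠ 0 := (v.ne_zero_iff).mp (by rw [htt]; exact hκ0.ne')
      exact (mul_ne_zero (mul_ne_zero hx0 hx0') (pow_ne_zero 2 h4)) hS3.symm
    have h5 : v (x'' - a) * v ((x - a) - (x' - a)) ^ 2 = v (x - a) ^ 2 * v (a - c) := by
      have h6 := congrArg v hS3
      rw [map_mul, map_pow, map_mul, map_mul, map_pow, htt, hxx] at h6
      rw [h6, ← hκ, map_pow, pow_two (v (x - a))]
    have h7 : v ((x - a) - (x' - a)) ^ 2 ≤ v (x - a) ^ 2 :=
      pow_le_pow_left₀ zero_le (v.map_sub_le le_rfl hxx.le) 2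
    have h8 : 0 < v (x - a) ^ 2 := by
      have : 0 < v (x - a) := zero_lt_iff.mpr ((v.ne_zero_iff).mpr hx0)
      exact pow_pos this 2
    refine le_of_mul_le_mul_right ?_ h8
    calc v (a - c) * v (x - a) ^ 2 = v (x'' - a) * v ((x - a) - (x' - a)) ^ 2 := by
          rw [h5, mul_comm]
      _ ≤ v (x'' - a) * v (x - a) ^ 2 := by
          rw [mul_comm (v (x'' - a)), mul_comm (v (x'' - a))]
          exact mul_le_mul_left h7 _

/-- the double of a middle point is not in `E0` -/
lemma mid_double [DecidableEq F] (hW : W = crv a b c) (h2 : v 2 = 1)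
    (hκ : κ ^ 2 = a - c) {x y : F} (h : W.toAffine.Nonsingular x y)
    (h1 : v (a - b) < v (x - a)) (h3 : v (x - a) < v (a - c)) :
    ¬ InE0 v a c ((.some x y h : W.toAffine.Point) + .some x y h) := by
  have hx0 : 0 < v (x - a) := lt_of_le_of_lt zero_le h1
  have hxn : x - a ≠ 0 := (v.ne_zero_iff).mp hx0.ne'
  obtain ⟨ht, -⟩ := mid_t hW hκ h h1 h3
  have hκv : v κ ^ 2 = v (a - c) := by rw [← map_pow, hκ]
  have hg0 : 0 < v (a - c) := hx0.trans h3
  have h2' : (2 : F) ≠ 0 := (v.ne_zero_iff).mp (by rw [h2]; exact one_ne_zero)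
  have hy : y ≠ 0 := by
    rintro rfl
    rw [zero_div, map_zero] at ht
    rw [← ht, zero_pow two_ne_zero] at hκv
    exact hg0.ne hκv
  have hxy : ¬(x = x ∧ y = -y) := by
    rintro ⟨-, h5⟩
    have h6 : 2 * y = 0 := by linear_combination h5
    exact hy ((mul_eq_zero.mp h6).resolve_left h2')
  obtain ⟨x'', y'', h'', l, n, hadd, hl, hl', hl'', e3, e2, e1⟩ := line_rel hW h h hxy
  rw [hadd, inE0_some, not_le]
  have hS2 := chord_S2 hxn hxn e3 e2
  rw [← hl] at hS2
  have hsum : v (y / (x - a) + y / (x - a)) = v κ := by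
    rw [← two_mul, map_mul, h2, one_mul, ht]
  have h5 := congrArg v hS2
  rw [map_mul, map_mul, map_pow, hsum, hκv, map_mul, map_pow] at h5
  have h6 : v ((x - a) * (x - a) - (a - b) * (a - c)) < v (a - c) * v (x - a) := by
    refine v.map_sub_lt ?_ ?_
    · rw [map_mul]
      exact mul_lt_mul_of_pos_right h3 hx0
    · rw [map_mul, mul_comm (v (a - c))]
      exact mul_lt_mul_of_pos_right h1 hg0
  have h7 : v (x'' - a) * v (a - c) * (v (x - a) * v (x - a)) <
      v (a - c) * v (a - c) * (v (x - a) * v (x - a)) := by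
    rw [h5]
    calc v ((x - a) * (x - a) - (a - b) * (a - c)) ^ 2 < (v (a - c) * v (x - a)) ^ 2 :=
          pow_lt_pow_left₀ h6 zero_le two_ne_zero
      _ = v (a - c) * v (a - c) * (v (x - a) * v (x - a)) := by
          rw [mul_pow, pow_two, pow_two]
  have h8 := lt_of_mul_lt_mul_right h7 zero_le
  exact lt_of_mul_lt_mul_right h8 zero_le

/-- halving in `E0` -/
theorem e0_half [DecidableEq F] (hW : W = crv a b c) (hd : v (a - b) < v (a - c)) (h2 : v 2 = 1)
    (hκ : κ ^ 2 = a - c) (hT : W.toAffine.Nonsingular a 0) {P : W.toAffine.Point}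
    (hP : InE0 v a c (P + P)) : InE0 v a c P ∨ InE0 v a c (P + .some a 0 hT) := by
  rcases P with _ | ⟨x, y, h⟩
  · exact Or.inl inE0_zero
  · rcases le_or_gt (v (a - c)) (v (x - a)) with h1 | h1
    · exact Or.inl ((inE0_some h).mpr h1)
    · rcases le_or_gt (v (x - a)) (v (a - b)) with h3 | h3
      · exact Or.inr (low_add_T hW hd h hT h3)
      · exact absurd hP (mid_double hW h2 hκ h h3 h1)

/-- for two points with conjugate coordinates (`v (x' - a) = v (x - a)`, ...) -/
theorem quot_sign [DecidableEq F] (hW : W = crv a b c) (hd : v (a - b) < v (a - c))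
    (h2 : v 2 = 1) (hκ : κ ^ 2 = a - c) (hT : W.toAffine.Nonsingular a 0) (s : F ≃+* F)
    (hs : ∀ z, v (s z) = v z) (hsa : s a = a) (hsc : s c = c) {x y : F}
    (h : W.toAffine.Nonsingular x y) (h' : W.toAffine.Nonsingular (s x) (s y)) :
    InE0 v a c ((.some (s x) (s y) h' : W.toAffine.Point) - .some x y h) ∨
      InE0 v a c ((.some (s x) (s y) h' : W.toAffine.Point) + .some x y h) := by
  have hxx : v (s x - a) = v (x - a) := by
    have : s x - a = s (x - a) := by rw [map_sub, hsa]
    rw [this, hs]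
  rcases le_or_gt (v (a - c)) (v (x - a)) with h1 | h1
  · left
    exact inE0_sub hW hd hκ ((inE0_some h').mpr (by rw [hxx]; exact h1)) ((inE0_some h).mpr h1)
  · rcases le_or_gt (v (x - a)) (v (a - b)) with h3 | h3
    · left
      have e1 := low_add_T hW hd h hT h3
      have e2 := low_add_T hW hd h' hT (by rw [hxx]; exact h3)
      have e3 := inE0_sub hW hd hκ e2 e1
      rwa [add_sub_add_right_eq_sub] at e3
    · have hx0 : 0 < v (x - a) := lt_of_le_of_lt zero_le h3
      have hxn : x - a ≠ 0 := (v.ne_zero_iff).mp hx0.ne'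
      have hxn' : s x - a ≠ 0 := (v.ne_zero_iff).mp (by rw [hxx]; exact hx0.ne')
      have hκs : s κ = κ ∨ s κ = -κ := by
        have : s κ ^ 2 = κ ^ 2 := by rw [← map_pow, hκ, map_sub, hsa, hsc]
        exact sq_eq_sq_iff_eq_or_eq_neg.mp this
      have hts : s (y / (x - a)) = s y / (s x - a) := by rw [map_div₀, map_sub, hsa]
      have hvκ : v (-κ) = v κ := Valuation.map_neg v κ
      -- sign of the conjugate point
      have key : ∀ e : F, (e = κ ∨ e = -κ) → v (y / (x - a) - e) < v κ →
          v (s y / (s x - a) - s e) < v κ := by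
        intro e he hlt
        rw [← hts, ← map_sub, hs]
        exact hlt
      have hn : ∀ {x y : F} (h : W.toAffine.Nonsingular x y),
          ∃ h'' : W.toAffine.Nonsingular x (-y),
            -(.some x y h : W.toAffine.Point) = .some x (-y) h'' := by
        intro x y h
        have h5 : W.toAffine.Nonsingular x (W.toAffine.negY x y) :=
          (WeierstrassCurve.Affine.nonsingular_neg x y).mpr h
        rw [negY_eq hW] at h5
        refine ⟨h5, ?_⟩
        rw [WeierstrassCurve.Affine.Point.neg_some, WeierstrassCurve.Affine.Point.some.injEq,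
          negY_eq hW]
        exact ⟨rfl, rfl⟩
      obtain ⟨-, ht⟩ := mid_t hW hκ h h3 h1
      -- same sign / opposite sign
      have same : ∀ {x y x' y' : F} (h : W.toAffine.Nonsingular x y)
          (h' : W.toAffine.Nonsingular x' y'), x - a ≠ 0 → v (x' - a) = v (x - a) →
          (v (y / (x - a) - κ) < v κ → v (y' / (x' - a) + κ) < v κ →
            InE0 v a c ((.some x y h : W.toAffine.Point) + .some x' y' h')) ∧
          (v (y / (x - a) - κ) < v κ → v (y' / (x' - a) - κ) < v κ →
            InE0 v a c ((.some x y h : W.toAffine.Point) - .some x' y' h')) := by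
        intro x y x' y' h h' hx hx'
        refine ⟨fun q1 q2 => mid_add hW h2 hκ h h' hx hx' q1 q2, fun q1 q2 => ?_⟩
        obtain ⟨h'', e⟩ := hn h'
        rw [sub_eq_add_neg, e]
        refine mid_add hW h2 hκ h h'' hx hx' q1 ?_
        have : -y' / (x' - a) + κ = -(y' / (x' - a) - κ) := by ring
        rw [this, Valuation.map_neg]
        exact q2
      have hflip : ∀ z : F, v (-z / (x - a) - κ) = v (z / (x - a) + κ) := by
        intro z
        have : -z / (x - a) - κ = -(z / (x - a) + κ) := by ring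
        rw [this, Valuation.map_neg]
      have hflip' : ∀ z : F, v (-z / (s x - a) - κ) = v (z / (s x - a) + κ) := by
        intro z
        have : -z / (s x - a) - κ = -(z / (s x - a) + κ) := by ring
        rw [this, Valuation.map_neg]
      have hts' : v (s y / (s x - a) - κ) < v κ ∨ v (s y / (s x - a) + κ) < v κ :=
        (mid_t hW hκ h' (by rw [hxx]; exact h3) (by rw [hxx]; exact h1)).2
      rcases ht with ht | ht
      · rcases hts' with hts' | hts'
        · left
          exact (same h' h hxn' hxx.symm).2 hts' ht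
        · right
          rw [add_comm]
          exact (same h h' hxn hxx).1 ht hts'
      · rcases hts' with hts' | hts'
        · right
          exact (same h' h hxn' hxx.symm).1 hts' ht
        · left
          obtain ⟨h1', e1⟩ := hn h'
          obtain ⟨h1'', e1'⟩ := hn h
          have h9 := (same h1' h1'' hxn' hxx.symm).2 (by rw [hflip']; exact hts')
            (by rw [hflip]; exact ht)
          rw [← e1, ← e1'] at h9
          have h10 := inE0_neg hW h9
          have e3 : -(-(.some (s x) (s y) h' : W.toAffine.Point) - -(.some x y h)) =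
              (.some (s x) (s y) h' : W.toAffine.Point) - .some x y h := by abel
          rwa [e3] at h10

end Pool.Agent.SmP
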