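import Pool.Agent.Lib.SM.E.RFun

/-!
SMITH, block P6a (determinant of the Galois action = cyclotomic character), local part.
Algebra of the chord through two points of `y ^ 2 = (x - a) (x - b) (x - c)`:
with `X = x - a`, `d = a - b`, `g = a - c` the chord is `y = l X + n` and
`X X' X'' = n ^ 2`, `X X' + X X'' + X' X'' = d g - 2 l n`, `X + X' + X'' = l ^ 2 - d - g`.
-/

set_option autoImplicit false

namespace Pool.Agent.SmP

open WeierstrassCurve WeierstrassCurve.Affine Pool.Agent.SmithE

variable {F : Type} [Field F] [DecidableEq F] {W : WeierstrassCurve F} {a b c : F}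

theorem line_rel (hW : W = crv a b c) {x y x' y' : F} (h : W.toAffine.Nonsingular x y)
    (h' : W.toAffine.Nonsingular x' y') (hxy : ¬(x = x' ∧ y = -y')) :
    ∃ (x'' y'' : F) (h'' : W.toAffine.Nonsingular x'' y'') (l n : F),
      (.some x y h : W.toAffine.Point) + .some x' y' h' = .some x'' y'' h'' ∧
      y = l * (x - a) + n ∧ y' = l * (x' - a) + n ∧ y'' = -(l * (x'' - a) + n) ∧
      (x - a) * (x' - a) * (x'' - a) = n ^ 2 ∧
      (x - a) * (x' - a) + (x - a) * (x'' - a) + (x' - a) * (x'' - a) =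
        (a - b) * (a - c) - 2 * l * n ∧
      (x - a) + (x' - a) + (x'' - a) = l ^ 2 - (a - b) - (a - c) := by
  subst hW
  have hneg : (crv a b c).toAffine.negY x' y' = -y' := negY_crv x' y'
  have hxy' : ¬(x = x' ∧ y = (crv a b c).toAffine.negY x' y') := by rwa [hneg]
  have hadd := WeierstrassCurve.Affine.Point.add_some hxy' (h₁ := h) (h₂ := h')
  have hpol := WeierstrassCurve.Affine.addPolynomial_slope h.1 h'.1 hxy'
  rw [WeierstrassCurve.Affine.addPolynomial_eq, neg_inj, Cubic.prod_X_sub_C_eq,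
    Cubic.toPoly_injective, Cubic.mk.injEq] at hpol
  obtain ⟨-, e1, e2, e3⟩ := hpol
  set ℓ := (crv a b c).toAffine.slope x x' y y' with hℓ
  set x'' := (crv a b c).toAffine.addX x x' ℓ with hx''
  rw [crv_a₁, crv_a₂] at e1
  rw [crv_a₁, crv_a₃, crv_a₄] at e2
  rw [crv_a₃, crv_a₆] at e3
  have hy' : y' = ℓ * (x' - x) + y := by
    by_cases hx : x = x'
    · have hne : y ≠ (crv a b c).toAffine.negY x' y' := fun h => hxy' ⟨hx, h⟩
      have := WeierstrassCurve.Affine.Y_eq_of_Y_ne h.1 h'.1 hx hne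
      rw [← this, hx]
      ring
    · rw [hℓ, WeierstrassCurve.Affine.slope_of_X_ne hx]
      have : x - x' ≠ 0 := sub_ne_zero.mpr hx
      field_simp
      ring
  refine ⟨x'', _, _, ℓ, y - ℓ * (x - a), hadd, by ring, ?_, ?_, ?_, ?_, ?_⟩
  · rw [hy']; ring
  · rw [WeierstrassCurve.Affine.addY, WeierstrassCurve.Affine.negAddY, negY_crv, ← hx'']
    ring
  · linear_combination e3 + a * e2 + a ^ 2 * e1
  · linear_combination -e2 - 2 * a * e1
  · linear_combination e1

end Pool.Agent.SmP
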