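import Pool.Agent.Lib.Sm.P.LMAlg

/-!
SMITH, block P6a, local part: estimates with a valuation `v` with `v d < v g` (`d = a - b`,
`g = a - c = κ ^ 2`) for the points of `y ^ 2 = X (X + d) (X + g)`.
-/

set_option autoImplicit false

namespace Pool.Agent.SmP

section grp

variable {Γ₀ : Type} [LinearOrderedCommGroupWithZero Γ₀]

lemma le_of_sq_le {A B : Γ₀} (h : A ^ 2 ≤ B ^ 2) : A ≤ B :=
  (pow_le_pow_iff_left₀ zero_le zero_le two_ne_zero).mp h

lemma lt_of_sq_lt {A B : Γ₀} (h : A ^ 2 < B ^ 2) : A < B := by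
  by_contra h1
  exact absurd (pow_le_pow_left₀ zero_le (not_lt.mp h1) 2) (not_le.mpr h)

lemma both_eq {A B C : Γ₀} (hA : A ≤ C) (hB : B ≤ C) (h : A * B = C * C) : A = C ∧ B = C := by
  rcases eq_or_ne C 0 with hC | hC
  · subst hC
    exact ⟨le_antisymm hA zero_le, le_antisymm hB zero_le⟩
  · have hC0 : 0 < C := zero_lt_iff.mpr hC
    have h1 : ¬ A < C := by
      intro hlt
      have h2 : A * B ≤ A * C := by
        rw [mul_comm A, mul_comm A]
        exact mul_le_mul_left hB A
      have h3 : A * C < C * C := mul_lt_mul_of_pos_right hlt hC0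
      exact absurd h (ne_of_lt (lt_of_le_of_lt h2 h3))
    have h2 : ¬ B < C := by
      intro hlt
      have h2 : A * B ≤ C * B := mul_le_mul_left hA B
      have h3 : B * C < C * C := mul_lt_mul_of_pos_right hlt hC0
      rw [mul_comm B C] at h3
      exact absurd h (ne_of_lt (lt_of_le_of_lt h2 h3))
    exact ⟨le_antisymm hA (not_lt.mp h1), le_antisymm hB (not_lt.mp h2)⟩

end grp

section val

variable {F : Type} [Field F] {Γ₀ : Type} [LinearOrderedCommGroupWithZero Γ₀] {v : Valuation F Γ₀}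

lemma quot_close {A B E : F} (hAB : v A = v B) (hE : v E < v B) :
    v ((A + E) / (B + E) - A / B) < 1 := by
  have hB0 : 0 < v B := lt_of_le_of_lt zero_le hE
  have hB : B ≠ 0 := by
    intro h
    rw [h, map_zero] at hB0
    exact lt_irrefl _ hB0
  have h1 : v (B + E) = v B := v.map_add_eq_of_lt_left hE
  have hBE : B + E ≠ 0 := by
    intro h
    rw [h, map_zero] at h1
    rw [← h1] at hB0
    exact lt_irrefl _ hB0
  have h2 : (A + E) / (B + E) - A / B = E * (B - A) / (B * (B + E)) := by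
    field_simp
    ring
  have h3 : v (B - A) ≤ v B := v.map_sub_le le_rfl hAB.le
  have hBB : 0 < v B * v B := mul_pos hB0 hB0
  rw [h2, map_div₀, map_mul, map_mul, h1, div_lt_one₀ hBB]
  calc v E * v (B - A) ≤ v E * v B := by
        rw [mul_comm (v E), mul_comm (v E)]
        exact mul_le_mul_left h3 _
    _ < v B * v B := mul_lt_mul_of_pos_right hE hB0

lemma v_div_le {p X D G : F} (hp : p = D * G) (hX : v G ≤ v X) (hG : 0 < v G) :
    v (p / X) ≤ v D := by
  have hX0 : 0 < v X := lt_of_lt_of_le hG hX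
  rw [hp, map_div₀, map_mul, mul_div_assoc]
  exact mul_le_of_le_one_right' ((div_le_one₀ hX0).mpr hX)

lemma tsq {X y d g : F} (hX : X ≠ 0) (hy : y ^ 2 = X * (X + d) * (X + g)) :
    (y / X) ^ 2 = X + d + g + d * g / X := by
  rw [div_pow, hy]
  field_simp
  ring

/-- for a point with `v X ≥ v g`: `v (t ± κ) ^ 2 = v X` -/
theorem e0_t {X y d g κ : F} (hd : v d < v g) (hκ : κ ^ 2 = g) (hX : v g ≤ v X)
    (hy : y ^ 2 = X * (X + d) * (X + g)) :
    v (y / X + κ) ^ 2 = v X ∧ v (y / X - κ) ^ 2 = v X ∧ v (y / X) ^ 2 ≤ v X := by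
  have hg0 : 0 < v g := lt_of_le_of_lt zero_le hd
  have hX0 : 0 < v X := lt_of_lt_of_le hg0 hX
  have hXn : X ≠ 0 := by
    intro h
    rw [h, map_zero] at hX0
    exact lt_irrefl _ hX0
  have ht := tsq hXn hy
  have h1 : v (d * g / X) ≤ v d := v_div_le rfl hX hg0
  have h2 : v (d + d * g / X) < v X := lt_of_lt_of_le (v.map_add_lt hd (lt_of_le_of_lt h1 hd)) hX
  have h3 : v ((y / X + κ) * (y / X - κ)) = v X := by
    have : (y / X + κ) * (y / X - κ) = X + (d + d * g / X) := by
      linear_combination ht - hκ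
    rw [this]
    exact v.map_add_eq_of_lt_left h2
  have h4 : v (y / X) ^ 2 ≤ v X := by
    rw [← map_pow, ht]
    refine v.map_add_le (v.map_add_le (v.map_add_le le_rfl (hd.le.trans hX)) hX) ?_
    exact h1.trans (hd.le.trans hX)
  have h5 : v κ ^ 2 ≤ v X := by
    rw [← map_pow, hκ]
    exact hX
  have h6 : ∀ z : F, v z ≤ max (v (y / X)) (v κ) → v z ^ 2 ≤ v X := by
    intro z hz
    rcases le_total (v (y / X)) (v κ) with h | h
    · rw [max_eq_right h] at hz
      exact (pow_le_pow_left₀ zero_le hz 2).trans h5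
    · rw [max_eq_left h] at hz
      exact (pow_le_pow_left₀ zero_le hz 2).trans h4
  have h7 := h6 _ (v.map_add (y / X) κ)
  have h8 := h6 _ (v.map_sub (y / X) κ)
  have h9 : v (y / X + κ) ^ 2 * v (y / X - κ) ^ 2 = v X * v X := by
    rw [← mul_pow, ← map_mul, h3, pow_two]
  obtain ⟨h10, h11⟩ := both_eq h7 h8 h9
  exact ⟨h10, h11, h4⟩

/-- the sum of two points with `v X ≥ v g` has `v X'' ≥ v g` -/
theorem e0_add {X X' X'' y y' l n d g κ : F} (hd : v d < v g) (hκ : κ ^ 2 = g)
    (hX : v g ≤ v X) (hX' : v g ≤ v X') (hy : y ^ 2 = X * (X + d) * (X + g))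
    (hy' : y' ^ 2 = X' * (X' + d) * (X' + g)) (hl : y = l * X + n) (hl' : y' = l * X' + n)
    (e3 : X * X' * X'' = n ^ 2) (e2 : X * X' + X * X'' + X' * X'' = d * g - 2 * l * n) :
    v g ≤ v X'' ∧ y / X + y' / X' ≠ 0 := by
  have hg0 : 0 < v g := lt_of_le_of_lt zero_le hd
  have hX0 : 0 < v X := lt_of_lt_of_le hg0 hX
  have hX0' : 0 < v X' := lt_of_lt_of_le hg0 hX'
  have hXn : X ≠ 0 := fun h => by rw [h, map_zero] at hX0; exact lt_irrefl _ hX0
  have hXn' : X' ≠ 0 := fun h => by rw [h, map_zero] at hX0'; exact lt_irrefl _ hX0'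
  have hS2 := chord_S2 hXn hXn' e3 e2
  rw [← hl, ← hl'] at hS2
  have h1 : v (d * g) < v (X * X') := by
    rw [map_mul, map_mul]
    calc v d * v g < v g * v g := mul_lt_mul_of_pos_right hd hg0
      _ ≤ v X * v g := mul_le_mul_left hX _
      _ ≤ v X * v X' := by
          rw [mul_comm (v X), mul_comm (v X)]
          exact mul_le_mul_left hX' _
  have h2 : v (X * X' - d * g) = v (X * X') := v.map_sub_eq_of_lt_left h1
  have hXX : 0 < v (X * X') := by rw [map_mul]; exact mul_pos hX0 hX0'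
  have h3 : v X'' * v (y / X + y' / X') ^ 2 = v X * v X' := by
    have h4 := congrArg v hS2
    rw [map_mul, map_pow, h2, map_mul, map_pow, pow_two (v (X * X'))] at h4
    have h5 := mul_right_cancel₀ hXX.ne' h4
    rw [h5, map_mul]
  have hne : v (y / X + y' / X') ≠ 0 := by
    intro h0
    rw [h0, zero_pow two_ne_zero, mul_zero] at h3
    exact (mul_pos hX0 hX0').ne h3
  refine ⟨?_, fun h0 => hne (by rw [h0, map_zero])⟩
  obtain ⟨-, -, ht⟩ := e0_t hd hκ hX hy
  obtain ⟨-, -, ht'⟩ := e0_t hd hκ hX' hy'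
  have h6 := v.map_add (y / X) (y' / X')
  rcases le_total (v X) (v X') with h | h
  · refine hX.trans (le_of_mul_le_mul_right ?_ hX0')
    rw [← h3]
    have h7 : v (y / X + y' / X') ^ 2 ≤ v X' := by
      rcases le_total (v (y / X)) (v (y' / X')) with h8 | h8
      · rw [max_eq_right h8] at h6
        exact (pow_le_pow_left₀ zero_le h6 2).trans ht'
      · rw [max_eq_left h8] at h6
        exact (pow_le_pow_left₀ zero_le h6 2).trans (ht.trans h)
    rw [mul_comm (v X''), mul_comm (v X'')]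
    exact mul_le_mul_left h7 _
  · refine hX'.trans (le_of_mul_le_mul_right ?_ hX0)
    rw [mul_comm (v X') (v X), ← h3]
    have h7 : v (y / X + y' / X') ^ 2 ≤ v X := by
      rcases le_total (v (y / X)) (v (y' / X')) with h8 | h8
      · rw [max_eq_right h8] at h6
        exact (pow_le_pow_left₀ zero_le h6 2).trans (ht'.trans h)
      · rw [max_eq_left h8] at h6
        exact (pow_le_pow_left₀ zero_le h6 2).trans ht
    rw [mul_comm (v X''), mul_comm (v X'')]
    exact mul_le_mul_left h7 _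

/-- `u (P + P') = u (P) u (P')` up to the maximal ideal, `u = (t + κ) / (t - κ)` -/
theorem e0_hom {X X' X'' y y' y'' l n d g κ : F} (hd : v d < v g) (hκ : κ ^ 2 = g)
    (hX : v g ≤ v X) (hX' : v g ≤ v X') (hy : y ^ 2 = X * (X + d) * (X + g))
    (hy' : y' ^ 2 = X' * (X' + d) * (X' + g)) (hl : y = l * X + n) (hl' : y' = l * X' + n)
    (hl'' : y'' = -(l * X'' + n))
    (e3 : X * X' * X'' = n ^ 2) (e2 : X * X' + X * X'' + X' * X'' = d * g - 2 * l * n)
    (e1 : X + X' + X'' = l ^ 2 - d - g) :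
    v ((y'' / X'' + κ) / (y'' / X'' - κ) -
      (y / X + κ) / (y / X - κ) * ((y' / X' + κ) / (y' / X' - κ))) < 1 := by
  have hg0 : 0 < v g := lt_of_le_of_lt zero_le hd
  obtain ⟨hX'', hne⟩ := e0_add hd hκ hX hX' hy hy' hl hl' e3 e2
  have hX0 : 0 < v X := lt_of_lt_of_le hg0 hX
  have hX0' : 0 < v X' := lt_of_lt_of_le hg0 hX'
  have hX0'' : 0 < v X'' := lt_of_lt_of_le hg0 hX''
  have hXn : X ≠ 0 := fun h => by rw [h, map_zero] at hX0; exact lt_irrefl _ hX0
  have hXn' : X' ≠ 0 := fun h => by rw [h, map_zero] at hX0'; exact lt_irrefl _ hX0'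
  have hXn'' : X'' ≠ 0 := fun h => by rw [h, map_zero] at hX0''; exact lt_irrefl _ hX0''
  have hS4 := chord_S4 hXn hXn' hXn'' e3 e2 e1
  rw [← hl, ← hl', ← hl''] at hS4
  set E : F := d + (d * g / X + d * g / X' + d * g / X'') - d * g / X * (d * g / X') / X'' with hE
  have hEv : v E < v g := by
    refine lt_of_le_of_lt ?_ hd
    have b1 : v (d * g / X) ≤ v d := v_div_le rfl hX hg0
    have b2 : v (d * g / X') ≤ v d := v_div_le rfl hX' hg0
    have b3 : v (d * g / X'') ≤ v d := v_div_le rfl hX'' hg0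
    refine v.map_sub_le (v.map_add_le le_rfl (v.map_add_le (v.map_add_le b1 b2) b3)) ?_
    rw [map_div₀, map_mul]
    calc v (d * g / X) * v (d * g / X') / v X'' ≤ v d * v d / v X'' := by
          have b4 : v (d * g / X) * v (d * g / X') ≤ v d * v d :=
            (mul_le_mul_left b1 _).trans (by
              rw [mul_comm (v d) (v (d * g / X'))]
              exact mul_le_mul_left b2 _)
          rw [div_eq_mul_inv (v (d * g / X) * v (d * g / X')), div_eq_mul_inv (v d * v d)]
          exact mul_le_mul_left b4 _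
      _ = v d * (v d / v X'') := mul_div_assoc _ _ _
      _ ≤ v d := mul_le_of_le_one_right' ((div_le_one₀ hX0'').mpr (hd.le.trans hX''))
  obtain ⟨p1, p2, -⟩ := e0_t hd hκ hX hy
  obtain ⟨p1', p2', -⟩ := e0_t hd hκ hX' hy'
  set t := y / X with ht
  set t' := y' / X' with ht'
  set t'' := y'' / X'' with ht''
  have hA : v ((t + κ) * (t' + κ)) ^ 2 = v X * v X' := by rw [map_mul, mul_pow, p1, p1']
  have hB : v ((t - κ) * (t' - κ)) ^ 2 = v X * v X' := by rw [map_mul, mul_pow, p2, p2']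
  have hAB : v ((t + κ) * (t' + κ)) = v ((t - κ) * (t' - κ)) :=
    le_antisymm (le_of_sq_le (by rw [hA, hB])) (le_of_sq_le (by rw [hA, hB]))
  have hgB : v g ≤ v ((t - κ) * (t' - κ)) := by
    refine le_of_sq_le ?_
    rw [hB, pow_two]
    calc v g * v g ≤ v X * v g := mul_le_mul_left hX _
      _ ≤ v X * v X' := by
          rw [mul_comm (v X), mul_comm (v X)]
          exact mul_le_mul_left hX' _
  have hq := quot_close hAB (lt_of_lt_of_le hEv hgB)
  have r1 : (t'' + κ) / (t'' - κ) =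
      ((t + κ) * (t' + κ) + E) / ((t - κ) * (t' - κ) + E) := by
    have q1 : (t'' + κ) * (t + t') = (t + κ) * (t' + κ) + E := by
      rw [← hS4]
      linear_combination -hκ
    have q2 : (t'' - κ) * (t + t') = (t - κ) * (t' - κ) + E := by
      rw [← hS4]
      linear_combination -hκ
    rw [← q1, ← q2, mul_div_mul_right _ _ hne]
  have r2 : (t + κ) / (t - κ) * ((t' + κ) / (t' - κ)) =
      (t + κ) * (t' + κ) / ((t - κ) * (t' - κ)) := by
    rw [div_mul_div_comm]
  rw [r1, r2]
  exact hq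

end val

end Pool.Agent.SmP
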