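import Pool.Agent.Lib.Sm.P.Par

/-!
# SMITH block P5, module Lagr: three Lagrangians

`three_lagr`: `A`, `B`, `C` subspaces of dimension `n` of a nondegenerate quadratic space of dimension
`2 n` on which the quadratic form vanishes; then
`dim A ∩ B + dim B ∩ C + dim A ∩ C + n` is even.
`finrank_of_dual`: if `A` is isotropic, `B` is a Lagrangian and `(A ∩ B)^⊥ ≤ A + B`, then `dim A = n`.
-/

set_option autoImplicit false

namespace Pool.Agent.Sm

open Module

section

variable {k X : Type*} [Field k] [AddCommGroup X] [Module k X] [FiniteDimensional k X]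

omit [FiniteDimensional k X] in
private theorem Lagr_iso {b : LinearMap.BilinForm k X} {q : X → k}
    (hq : ∀ x y, q (x + y) = q x + q y + b x y) {A : Submodule k X} (hA : ∀ x ∈ A, q x = 0) :
    ∀ x ∈ A, ∀ y ∈ A, b x y = 0 := by
  intro x hx y hy
  have h := hq x y
  rw [hA _ (A.add_mem hx hy), hA x hx, hA y hy, zero_add, zero_add] at h
  exact h.symm

/-- An isotropic subspace of half dimension is its own orthogonal. -/
theorem Lagr_self {b : LinearMap.BilinForm k X} (hnd : b.Nondegenerate) {n : ℕ}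
    (hX : finrank k X = 2 * n) {A : Submodule k X} (hA : ∀ x ∈ A, ∀ y ∈ A, b x y = 0)
    (hdA : finrank k A = n) : b.orthogonal A = A := by
  have hle : A ≤ b.orthogonal A := fun x hx y hy => hA y hy x hx
  refine (Submodule.eq_of_le_of_finrank_eq hle ?_).symm
  have := LinearMap.BilinForm.finrank_orthogonal hnd A
  omega

/-- The orthogonal of the intersection of two Lagrangians is their sum. -/
theorem Lagr_inf {b : LinearMap.BilinForm k X} (hnd : b.Nondegenerate) {n : ℕ}
    (hX : finrank k X = 2 * n) {A B : Submodule k X} (hA : ∀ x ∈ A, ∀ y ∈ A, b x y = 0)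
    (hB : ∀ x ∈ B, ∀ y ∈ B, b x y = 0) (hdA : finrank k A = n) (hdB : finrank k B = n) :
    b.orthogonal (A ⊓ B) = A ⊔ B := by
  have hle : A ⊔ B ≤ b.orthogonal (A ⊓ B) := by
    refine sup_le (fun x hx y hy => ?_) (fun x hx y hy => ?_)
    · exact hA y hy.1 x hx
    · exact hB y hy.2 x hx
  refine (Submodule.eq_of_le_of_finrank_eq hle ?_).symm
  have h1 := LinearMap.BilinForm.finrank_orthogonal hnd (A ⊓ B)
  have h2 := Submodule.finrank_sup_add_finrank_inf_eq A B
  have h3 := Submodule.finrank_mono (inf_le_left : A ⊓ B ≤ A)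
  omega

/-- Three Lagrangians. -/
theorem three_lagr (b : LinearMap.BilinForm k X) (hnd : b.Nondegenerate)
    (hsym : ∀ x y, b x y = b y x) (q : X → k) (hq : ∀ x y, q (x + y) = q x + q y + b x y) {n : ℕ}
    (hX : finrank k X = 2 * n) (A B C : Submodule k X) (hA : ∀ x ∈ A, q x = 0)
    (hB : ∀ x ∈ B, q x = 0) (hC : ∀ x ∈ C, q x = 0) (hdA : finrank k A = n)
    (hdB : finrank k B = n) (hdC : finrank k C = n) :
    Even (finrank k (A ⊓ B : Submodule k X) + finrank k (B ⊓ C : Submodule k X) +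
      finrank k (A ⊓ C : Submodule k X) + n) := by
  have iA := Lagr_iso hq hA
  have iB := Lagr_iso hq hB
  have iC := Lagr_iso hq hC
  have hAB := Lagr_inf hnd hX iA iB hdA hdB
  have hCC := Lagr_self hnd hX iC hdC
  have hrefl : b.IsRefl := fun x y hxy => by rw [hsym, hxy]
  -- `D = C ∩ (A + B)` and its orthogonal
  set D : Submodule k X := C ⊓ (A ⊔ B) with hD
  have hDo : b.orthogonal (C ⊔ (A ⊓ B)) = D := by
    rw [hD, ← hAB]
    ext x
    rw [Submodule.mem_inf]
    constructor
    · intro hx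
      constructor
      · rw [← hCC]
        exact fun y hy => hx y (Submodule.mem_sup_left hy)
      · exact fun y hy => hx y (Submodule.mem_sup_right hy)
    · rintro ⟨h1, h2⟩ y hy
      obtain ⟨c, hc, d, hd, rfl⟩ := Submodule.mem_sup.mp hy
      change b (c + d) x = 0
      rw [map_add, LinearMap.add_apply, iC c hc x h1, h2 d hd, add_zero]
  have hDo' : b.orthogonal D = C ⊔ (A ⊓ B) := by
    rw [← hDo]
    exact LinearMap.BilinForm.orthogonal_orthogonal hnd hrefl _
  -- a linear section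
  let sm : (A × B) →ₗ[k] (A ⊔ B : Submodule k X) :=
    (Submodule.inclusion le_sup_left).coprod (Submodule.inclusion le_sup_right)
  have hsm : ∀ p : A × B, ((sm p : (A ⊔ B : Submodule k X)) : X) = (p.1 : X) + (p.2 : X) := by
    intro p
    change ((Submodule.inclusion le_sup_left p.1 + Submodule.inclusion le_sup_right p.2 :
      (A ⊔ B : Submodule k X)) : X) = _
    rfl
  have hsurj : Function.Surjective sm := by
    rintro ⟨x, hx⟩
    obtain ⟨a, ha, c, hc, rfl⟩ := Submodule.mem_sup.mp hx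
    exact ⟨(⟨a, ha⟩, ⟨c, hc⟩), Subtype.ext (hsm _)⟩
  obtain ⟨σ, hσ⟩ := LinearMap.exists_rightInverse_of_surjective sm (LinearMap.range_eq_top.mpr hsurj)
  let al : D →ₗ[k] X := A.subtype.comp ((LinearMap.fst k A B).comp
    (σ.comp (Submodule.inclusion (inf_le_right : D ≤ A ⊔ B))))
  have hal : ∀ c : D, al c ∈ A ∧ (c : X) - al c ∈ B := by
    intro c
    refine ⟨(σ (Submodule.inclusion (inf_le_right : D ≤ A ⊔ B) c)).1.2, ?_⟩
    have h1 := congrArg Subtype.val
      (LinearMap.congr_fun hσ (Submodule.inclusion (inf_le_right : D ≤ A ⊔ B) c))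
    have h2 : (c : X) = al c + ((σ (Submodule.inclusion (inf_le_right : D ≤ A ⊔ B) c)).2 : X) := by
      have h3 : ((sm (σ (Submodule.inclusion (inf_le_right : D ≤ A ⊔ B) c)) :
          (A ⊔ B : Submodule k X)) : X) = (c : X) := h1
      rw [hsm] at h3
      exact h3.symm
    rw [h2, add_sub_cancel_left]
    exact (σ (Submodule.inclusion (inf_le_right : D ≤ A ⊔ B) c)).2.2
  let ω : D →ₗ[k] D →ₗ[k] k := LinearMap.compl₁₂ (b : X →ₗ[k] X →ₗ[k] k) al D.subtype
  have hω : ∀ c c' : D, ω c c' = b (al c) (c' : X) := fun _ _ => rfl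
  have halt : ∀ c : D, ω c c = 0 := by
    intro c
    obtain ⟨h1, h2⟩ := hal c
    have h3 : (c : X) = al c + ((c : X) - al c) := by abel
    have h4 := hq (al c) ((c : X) - al c)
    rw [← h3, hC _ c.2.1, hA _ h1, hB _ h2, zero_add, zero_add] at h4
    rw [hω, h3, map_add, iA _ h1 _ h1, zero_add]
    exact h4.symm
  have hle : (A ⊓ C) ⊔ (B ⊓ C) ≤ D := by
    refine sup_le (fun x hx => ⟨hx.2, Submodule.mem_sup_left hx.1⟩)
      (fun x hx => ⟨hx.2, Submodule.mem_sup_right hx.1⟩)
  have hrad : ∀ c : D, c ∈ ((A ⊓ C) ⊔ (B ⊓ C)).submoduleOf D ↔ ∀ c', ω c c' = 0 := by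
    intro c
    obtain ⟨h1, h2⟩ := hal c
    constructor
    · intro hc c'
      obtain ⟨x, hx, y, hy, hxy⟩ := Submodule.mem_sup.mp (show (c : X) ∈ (A ⊓ C) ⊔ (B ⊓ C) from hc)
      have h3 : al c - x ∈ A ⊓ B := by
        refine ⟨A.sub_mem h1 hx.1, ?_⟩
        have h4 : al c - x = y - ((c : X) - al c) := by rw [← hxy]; abel
        rw [h4]
        exact B.sub_mem hy.1 h2
      have h4 : b (al c - x) (c' : X) = 0 := by
        have h5 : (c' : X) ∈ b.orthogonal (A ⊓ B) := by rw [hAB]; exact c'.2.2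
        exact h5 _ h3
      rw [hω, show al c = (al c - x) + x by abel, map_add, LinearMap.add_apply, h4,
        iC x hx.2 _ c'.2.1, add_zero]
    · intro h0
      have h3 : al c ∈ b.orthogonal D := by
        intro y hy
        change b y (al c) = 0
        rw [hsym]
        exact h0 ⟨y, hy⟩
      rw [hDo'] at h3
      obtain ⟨x, hx, d, hd, hxd⟩ := Submodule.mem_sup.mp h3
      change (c : X) ∈ (A ⊓ C) ⊔ (B ⊓ C)
      have h4 : x ∈ A := by
        rw [show x = al c - d by rw [← hxd]; abel]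
        exact A.sub_mem h1 hd.1
      have h5 : (c : X) - x ∈ B := by
        rw [show (c : X) - x = ((c : X) - al c) + d by rw [← hxd]; abel]
        exact B.add_mem h2 hd.2
      rw [show (c : X) = x + ((c : X) - x) by abel]
      exact Submodule.add_mem_sup ⟨h4, hx⟩ ⟨h5, C.sub_mem c.2.1 hx⟩
  obtain ⟨m, hm⟩ := Par_rad ω halt _ hrad
  rw [LinearEquiv.finrank_eq (Submodule.submoduleOfEquivOfLe hle)] at hm
  have e1 := LinearMap.BilinForm.finrank_orthogonal hnd (C ⊔ (A ⊓ B))
  rw [hDo] at e1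
  have e2 := Submodule.finrank_sup_add_finrank_inf_eq C (A ⊓ B)
  have e3 := Submodule.finrank_sup_add_finrank_inf_eq (A ⊓ C) (B ⊓ C)
  have e4 : (A ⊓ C) ⊓ (B ⊓ C) = C ⊓ (A ⊓ B) := by
    ext x
    simp only [Submodule.mem_inf]
    tauto
  rw [e4] at e3
  have e5 := Submodule.finrank_le (C ⊔ (A ⊓ B))
  have e6 := Submodule.finrank_mono (inf_le_left : A ⊓ B ≤ A)
  have e7 := Submodule.finrank_mono (inf_le_left : C ⊓ (A ⊓ B) ≤ C)
  rw [Nat.even_iff]
  omega

/-- The dimension of an isotropic subspace from a duality with one Lagrangian. -/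
theorem finrank_of_dual (b : LinearMap.BilinForm k X) (hnd : b.Nondegenerate) {n : ℕ}
    (hX : finrank k X = 2 * n) (A B : Submodule k X) (iA : ∀ x ∈ A, ∀ y ∈ A, b x y = 0)
    (hdB : finrank k B = n) (hd : b.orthogonal (A ⊓ B) ≤ A ⊔ B) : finrank k A = n := by
  have h1 := LinearMap.BilinForm.finrank_orthogonal hnd (A ⊓ B)
  have h2 := Submodule.finrank_sup_add_finrank_inf_eq A B
  have h3 := Submodule.finrank_mono hd
  have h4 : A ≤ b.orthogonal A := fun x hx y hy => iA y hy x hx
  have h5 := Submodule.finrank_mono h4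
  have h6 := LinearMap.BilinForm.finrank_orthogonal hnd A
  have h7 := Submodule.finrank_le A
  have h8 := Submodule.finrank_le (A ⊓ B : Submodule k X)
  omega

end

end Pool.Agent.Sm
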