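import Pool.Agent.Lib.Sm.P.WeilV
import Pool.Agent.Lib.Sm.P.Psi

/-!
SMITH, block P: the coefficient module `M = Additive Ωˣ`.

* `exists_rt`: roots of unity `u m` of order `2 ^ m` with `u (m + 1) ^ 2 = u m`, `u 1 = -1`;
* `zU u m : ZMod (2 ^ m) →+ Additive Ωˣ`, `a ↦ u m ^ a`; `zU_two`, `zU_smul`;
* `hfU : ZMod 2 →+ Additive Ωˣ`, `1 ↦ -1`; `hfU_inj`, `hfU_fix`, `two_smul_eq_zero_iff`,
  `exists_half_U`.
-/

set_option autoImplicit false

namespace Pool.Agent.SmP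

variable {K Ω : Type} [Field K] [Field Ω] [Algebra K Ω]

/-- the Galois action on `Additive Ωˣ` -/
noncomputable instance uAction : DistribMulAction (Ω ≃ₐ[K] Ω) (Additive Ωˣ) where
  smul s m := Additive.ofMul (s • m.toMul)
  one_smul m := congrArg Additive.ofMul (one_smul _ m.toMul)
  mul_smul s t m := congrArg Additive.ofMul (mul_smul s t m.toMul)
  smul_zero s := congrArg Additive.ofMul (smul_one s)
  smul_add s m n := congrArg Additive.ofMul (smul_mul' s m.toMul n.toMul)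

theorem smul_ofMul (s : Ω ≃ₐ[K] Ω) (u : Ωˣ) : s • Additive.ofMul u = Additive.ofMul (s • u) := rfl

theorem smul_U_val (s : Ω ≃ₐ[K] Ω) (u : Ωˣ) : ((s • u : Ωˣ) : Ω) = s (u : Ω) := rfl

private theorem MU_two {A : Type*} [AddCommGroup A] (a : ℤ) (x : A) :
    (2 : ℕ) • (a • x) = a • ((2 : ℕ) • x) := by rw [two_nsmul, two_nsmul, smul_add]

private theorem MU_cases (a : ZMod 2) : a = 0 ∨ a = 1 := by
  revert a
  decide

/-- A compatible system of roots of unity. -/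
structure RT (Ω : Type) [Field Ω] where
  u : ℕ → Ωˣ
  zero : u 0 = 1
  one : u 1 = -1
  succ : ∀ m, u (m + 1) ^ 2 = u m

theorem exists_sqrt_U [IsSepClosed Ω] (h2 : (2 : Ω) ≠ 0) (x : Ωˣ) : ∃ y : Ωˣ, y ^ 2 = x := by
  obtain ⟨y, hy⟩ := IsSepClosed.exists_pow_nat_eq (x : Ω) 2 (hn := ⟨by exact_mod_cast h2⟩)
  have hy0 : y ≠ 0 := by
    rintro rfl
    rw [zero_pow two_ne_zero] at hy
    exact x.ne_zero hy.symm
  exact ⟨Units.mk0 y hy0, Units.ext (by rw [Units.val_pow_eq_pow_val, Units.val_mk0, hy])⟩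

theorem exists_rt [IsSepClosed Ω] (h2 : (2 : Ω) ≠ 0) : Nonempty (RT Ω) := by
  choose h hh using exists_sqrt_U (Ω := Ω) h2
  refine ⟨⟨fun m => Nat.rec 1 (fun m _ => h^[m] (-1)) m, rfl, rfl, fun m => ?_⟩⟩
  cases m with
  | zero => exact neg_one_sq
  | succ m =>
    change (h^[m + 1] (-1)) ^ 2 = h^[m] (-1)
    rw [Function.iterate_succ_apply', hh]

namespace RT

variable (R : RT Ω)

theorem pow_eq_one (m : ℕ) : R.u m ^ 2 ^ m = 1 := by
  induction m with
  | zero => rw [pow_zero, pow_one, R.zero]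
  | succ m ih => rw [pow_succ', pow_mul, R.succ, ih]

/-- `a ↦ u m ^ a` -/
noncomputable def z (m : ℕ) : ZMod (2 ^ m) →+ Additive Ωˣ :=
  ZMod.lift (2 ^ m) ⟨zmultiplesHom (Additive Ωˣ) (Additive.ofMul (R.u m)), by
    rw [zmultiplesHom_apply, natCast_zsmul, ← ofMul_pow, R.pow_eq_one, ofMul_one]⟩

theorem z_int (m : ℕ) (a : ℤ) : R.z m (a : ZMod (2 ^ m)) = a • Additive.ofMul (R.u m) := by
  rw [z, ZMod.lift_coe]
  rfl

theorem z_two (m : ℕ) (a : ZMod (2 ^ (m + 1))) : (2 : ℕ) • R.z (m + 1) a =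
    R.z m (ZMod.castHom (pow_dvd_pow 2 (Nat.le_succ m)) (ZMod (2 ^ m)) a) := by
  obtain ⟨a, rfl⟩ := ZMod.intCast_surjective a
  rw [z_int, MU_two, ← ofMul_pow, R.succ, ← z_int]
  congr 1
  exact (map_intCast (ZMod.castHom (pow_dvd_pow 2 (Nat.le_succ m)) (ZMod (2 ^ m))) a).symm

theorem z_smul [IsSepClosed Ω] (h2 : (2 : Ω) ≠ 0) (m : ℕ) (s : Ω ≃ₐ[K] Ω) (a : ZMod (2 ^ m)) :
    s • R.z m a = R.z m (cyc m s * a) := by
  obtain ⟨a, rfl⟩ := ZMod.intCast_surjective a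
  have h1 : s • Additive.ofMul (R.u m) = ((cyc m s).val : ℤ) • Additive.ofMul (R.u m) := by
    rw [natCast_zsmul, ← ofMul_pow]
    rw [smul_ofMul]
    congr 1
    apply Units.ext
    rw [Units.val_pow_eq_pow_val]
    exact cyc_spec h2 m s (by rw [← Units.val_pow_eq_pow_val, R.pow_eq_one, Units.val_one])
  have h3 : cyc m s * (a : ZMod (2 ^ m)) = ((((cyc m s).val : ℤ) * a : ℤ) : ZMod (2 ^ m)) := by
    push_cast
    rw [ZMod.natCast_zmod_val]
  rw [h3, z_int, z_int, smul_comm s a, h1, ← mul_smul, mul_comm]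

/-- `1 ↦ -1` -/
noncomputable def hf (R : RT Ω) : ZMod 2 →+ Additive Ωˣ :=
  ZMod.lift 2 ⟨zmultiplesHom (Additive Ωˣ) (Additive.ofMul (R.u 1)), by
    rw [zmultiplesHom_apply, natCast_zsmul, ← ofMul_pow, R.one]
    rw [neg_one_sq, ofMul_one]⟩

theorem hf_int (a : ℤ) : R.hf (a : ZMod 2) = a • Additive.ofMul (R.u 1) := by
  rw [hf, ZMod.lift_coe]
  rfl

theorem hf_z (a : ℤ) : R.hf (a : ZMod 2) = R.z 1 a := by rw [hf_int, z_int]

theorem hf_one : R.hf 1 = Additive.ofMul (-1) := by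
  have h := R.hf_int 1
  rw [Int.cast_one, one_smul, R.one] at h
  exact h

theorem hf_inj (h2 : (2 : Ω) ≠ 0) : Function.Injective R.hf := by
  rw [injective_iff_map_eq_zero]
  intro a ha
  rcases MU_cases a with rfl | rfl
  · rfl
  · exfalso
    rw [hf_one] at ha
    have h3 : (-1 : Ωˣ) = 1 := Additive.ofMul.injective (ha.trans ofMul_one.symm)
    have h4 : (-1 : Ω) = 1 := by
      have := congrArg Units.val h3
      simpa using this
    apply h2
    linear_combination -h4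

theorem hf_fix (s : Ω ≃ₐ[K] Ω) (a : ZMod 2) : s • R.hf a = R.hf a := by
  rcases MU_cases a with rfl | rfl
  · rw [map_zero, smul_zero]
  · rw [hf_one]
    rw [smul_ofMul]
    congr 1
    apply Units.ext
    rw [smul_U_val]
    simp

theorem two_iff (m : Additive Ωˣ) : (2 : ℕ) • m = 0 ↔ ∃ a, m = R.hf a := by
  constructor
  · intro h
    have h1 : (m.toMul) ^ 2 = 1 := by
      have := congrArg Additive.toMul h
      simpa using this
    have h3 : ((m.toMul : Ωˣ) : Ω) ^ 2 = 1 := by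
      rw [← Units.val_pow_eq_pow_val, h1, Units.val_one]
    rw [sq] at h3
    rcases mul_self_eq_one_iff.1 h3 with h4 | h4
    · refine ⟨0, ?_⟩
      rw [map_zero]
      exact Additive.toMul.injective (Units.ext h4)
    · refine ⟨1, ?_⟩
      rw [hf_one]
      refine Additive.toMul.injective (Units.ext ?_)
      rw [h4]
      simp
  · rintro ⟨a, rfl⟩
    rw [← map_nsmul]
    have : (2 : ℕ) • a = 0 := by
      revert a
      decide
    rw [this, map_zero]

end RT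

theorem exists_half_U [IsSepClosed Ω] (h2 : (2 : Ω) ≠ 0) (m : Additive Ωˣ) :
    ∃ n : Additive Ωˣ, (2 : ℕ) • n = m := by
  obtain ⟨y, hy⟩ := exists_sqrt_U h2 m.toMul
  exact ⟨Additive.ofMul y, by rw [← ofMul_pow, hy]; rfl⟩

end Pool.Agent.SmP
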