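import Mathlib

/-!
SMITH, block P6a: compatible bases of a divisible 2-group of corank 2, coordinates, matrices.

`V` is an abelian group; a compatible basis consists of `P m, Q m ∈ V[2 ^ m]` with
`2 P (m + 1) = P m`, `2 Q (m + 1) = Q m`, `P 1, Q 1` a basis of `V[2]`. Then
`ev m : (ZMod (2 ^ m)) ^ 2 → V`, `(a, b) ↦ a P m + b Q m` is injective with image `V[2 ^ m]`.
-/

set_option autoImplicit false

namespace Pool.Agent.SmP

/-- A compatible basis. -/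
structure CB (V : Type*) [AddCommGroup V] where
  P : ℕ → V
  Q : ℕ → V
  P_zero : P 0 = 0
  Q_zero : Q 0 = 0
  P_succ : ∀ m, (2 : ℕ) • P (m + 1) = P m
  Q_succ : ∀ m, (2 : ℕ) • Q (m + 1) = Q m
  span : ∀ x : V, (2 : ℕ) • x = 0 → ∃ a b : ℤ, x = a • P 1 + b • Q 1
  indep : ∀ a b : ℤ, a • P 1 + b • Q 1 = 0 → (2 : ℤ) ∣ a ∧ (2 : ℤ) ∣ b

variable {V : Type*} [AddCommGroup V]

/-- Existence: `V` is 2-divisible and `V[2] = (ZMod 2) ^ 2`. -/
theorem exists_CB (half : ∀ x : V, ∃ y, (2 : ℕ) • y = x) (iota : ZMod 2 × ZMod 2 →+ V)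
    (inj : Function.Injective iota) (range : ∀ x : V, (2 : ℕ) • x = 0 → ∃ w, iota w = x) :
    ∃ B : CB V, B.P 1 = iota (1, 0) ∧ B.Q 1 = iota (0, 1) := by
  choose h hh using half
  have h2 : ∀ w, (2 : ℕ) • iota w = 0 := by
    intro w
    rw [← map_nsmul]
    have : (2 : ℕ) • w = 0 := by
      rw [two_nsmul]
      exact Prod.ext (CharTwo.add_self_eq_zero _) (CharTwo.add_self_eq_zero _)
    rw [this, map_zero]
  let S : V → ℕ → V := fun x m => Nat.rec 0 (fun m _ => h^[m] x) m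
  have hS0 : ∀ x, S x 0 = 0 := fun _ => rfl
  have hS1 : ∀ x m, S x (m + 1) = h^[m] x := fun _ _ => rfl
  have hS11 : ∀ x, S x 1 = x := fun _ => rfl
  have hS : ∀ w m, (2 : ℕ) • S (iota w) (m + 1) = S (iota w) m := by
    intro w m
    cases m with
    | zero => rw [hS1, hS0, Function.iterate_zero, id, h2]
    | succ m => rw [hS1, hS1, Function.iterate_succ_apply', hh]
  refine ⟨⟨S (iota (1, 0)), S (iota (0, 1)), rfl, rfl, hS _, hS _, ?_, ?_⟩, rfl, rfl⟩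
  · intro x hx
    obtain ⟨⟨a, b⟩, rfl⟩ := range x hx
    refine ⟨(a.val : ℤ), (b.val : ℤ), ?_⟩
    rw [hS11, hS11, ← map_zsmul, ← map_zsmul, ← map_add]
    congr 1
    refine Prod.ext ?_ ?_
    · simp
    · simp
  · intro a b hab
    rw [hS11, hS11, ← map_zsmul, ← map_zsmul, ← map_add] at hab
    have h3 := inj (hab.trans (map_zero iota).symm)
    have h4 := congrArg Prod.fst h3
    have h5 := congrArg Prod.snd h3
    simp only [Prod.smul_mk, Prod.mk_add_mk, smul_zero, add_zero, zero_add, Prod.fst_zero,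
      Prod.snd_zero, zsmul_eq_mul, mul_one] at h4 h5
    exact ⟨(ZMod.intCast_zmod_eq_zero_iff_dvd a 2).1 h4, (ZMod.intCast_zmod_eq_zero_iff_dvd b 2).1 h5⟩

namespace CB

variable (B : CB V)

theorem pow_P (m n : ℕ) : (2 : ℕ) ^ n • B.P (m + n) = B.P m := by
  induction n with
  | zero => rw [pow_zero, one_smul, add_zero]
  | succ n ih => rw [pow_succ, mul_smul, ← add_assoc, B.P_succ, ih]

theorem pow_Q (m n : ℕ) : (2 : ℕ) ^ n • B.Q (m + n) = B.Q m := by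
  induction n with
  | zero => rw [pow_zero, one_smul, add_zero]
  | succ n ih => rw [pow_succ, mul_smul, ← add_assoc, B.Q_succ, ih]

theorem tors_P (m : ℕ) : (2 : ℕ) ^ m • B.P m = 0 := by
  have h := B.pow_P 0 m
  rwa [zero_add, B.P_zero] at h

theorem tors_Q (m : ℕ) : (2 : ℕ) ^ m • B.Q m = 0 := by
  have h := B.pow_Q 0 m
  rwa [zero_add, B.Q_zero] at h

theorem exists_coord (m : ℕ) (x : V) (hx : (2 : ℕ) ^ m • x = 0) :
    ∃ a b : ℤ, x = a • B.P m + b • B.Q m := by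
  induction m generalizing x with
  | zero =>
    rw [pow_zero, one_smul] at hx
    exact ⟨0, 0, by rw [hx, zero_smul, zero_smul, add_zero]⟩
  | succ m ih =>
    obtain ⟨a, b, hab⟩ := ih ((2 : ℕ) • x) (by rw [← mul_smul, ← pow_succ, hx])
    have h1 : (2 : ℕ) • (x - (a • B.P (m + 1) + b • B.Q (m + 1))) = 0 := by
      rw [smul_sub, hab, smul_add, smul_comm (2 : ℕ) a, smul_comm (2 : ℕ) b, B.P_succ, B.Q_succ,
        sub_self]
    obtain ⟨c, d, hcd⟩ := B.span _ h1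
    have h2 : B.P 1 = ((2 : ℤ) ^ m) • B.P (m + 1) := by
      rw [← B.pow_P 1 m, add_comm 1 m, ← natCast_zsmul]
      push_cast
      rfl
    have h3 : B.Q 1 = ((2 : ℤ) ^ m) • B.Q (m + 1) := by
      rw [← B.pow_Q 1 m, add_comm 1 m, ← natCast_zsmul]
      push_cast
      rfl
    refine ⟨a + c * 2 ^ m, b + d * 2 ^ m, ?_⟩
    rw [h2, h3, sub_eq_iff_eq_add, ← mul_smul, ← mul_smul] at hcd
    rw [hcd, add_smul, add_smul]
    abel

theorem coord_zero (m : ℕ) (a b : ℤ) : a • B.P m + b • B.Q m = 0 ↔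
    (2 : ℤ) ^ m ∣ a ∧ (2 : ℤ) ^ m ∣ b := by
  constructor
  · induction m generalizing a b with
    | zero => intro _; exact ⟨by simp, by simp⟩
    | succ m ih =>
      intro h
      have h1 : a • B.P m + b • B.Q m = 0 := by
        rw [← B.P_succ, ← B.Q_succ, smul_comm a, smul_comm b, ← smul_add, h, smul_zero]
      obtain ⟨⟨a', rfl⟩, ⟨b', rfl⟩⟩ := ih a b h1
      have h2 : ∀ (c : ℤ) (x : V), ((2 : ℤ) ^ m * c) • x = c • ((2 : ℕ) ^ m • x) := by
        intro c x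
        rw [mul_comm, mul_smul, ← natCast_zsmul]
        push_cast
        rfl
      have h3 := B.pow_P 1 m
      have h4 := B.pow_Q 1 m
      rw [add_comm 1 m] at h3 h4
      rw [h2, h2, h3, h4] at h
      obtain ⟨⟨a'', rfl⟩, ⟨b'', rfl⟩⟩ := B.indep _ _ h
      exact ⟨⟨a'', by ring⟩, ⟨b'', by ring⟩⟩
  · rintro ⟨⟨a', rfl⟩, ⟨b', rfl⟩⟩
    have h2 : ∀ (c : ℤ) (x : V), ((2 : ℤ) ^ m * c) • x = c • ((2 : ℕ) ^ m • x) := by
      intro c x
      rw [mul_comm, mul_smul, ← natCast_zsmul]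
      push_cast
      rfl
    rw [h2, h2, B.tors_P, B.tors_Q, smul_zero, smul_zero, add_zero]

/-- `a ↦ a P m` -/
noncomputable def pH (m : ℕ) : ZMod (2 ^ m) →+ V :=
  ZMod.lift (2 ^ m) ⟨zmultiplesHom V (B.P m), by
    rw [zmultiplesHom_apply, natCast_zsmul]
    exact B.tors_P m⟩

/-- `a ↦ a Q m` -/
noncomputable def qH (m : ℕ) : ZMod (2 ^ m) →+ V :=
  ZMod.lift (2 ^ m) ⟨zmultiplesHom V (B.Q m), by
    rw [zmultiplesHom_apply, natCast_zsmul]
    exact B.tors_Q m⟩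

theorem pH_int (m : ℕ) (a : ℤ) : B.pH m (a : ZMod (2 ^ m)) = a • B.P m := by
  rw [pH, ZMod.lift_coe]
  rfl

theorem qH_int (m : ℕ) (a : ℤ) : B.qH m (a : ZMod (2 ^ m)) = a • B.Q m := by
  rw [qH, ZMod.lift_coe]
  rfl

/-- `(a, b) ↦ a P m + b Q m` -/
noncomputable def ev (m : ℕ) : ZMod (2 ^ m) × ZMod (2 ^ m) →+ V := (B.pH m).coprod (B.qH m)

theorem ev_int (m : ℕ) (a b : ℤ) :
    B.ev m ((a : ZMod (2 ^ m)), (b : ZMod (2 ^ m))) = a • B.P m + b • B.Q m := by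
  rw [ev, AddMonoidHom.coprod_apply, pH_int, qH_int]

theorem ev_P (m : ℕ) : B.ev m (1, 0) = B.P m := by
  have h := B.ev_int m 1 0
  rw [Int.cast_one, Int.cast_zero, one_smul, zero_smul, add_zero] at h
  exact h

theorem ev_Q (m : ℕ) : B.ev m (0, 1) = B.Q m := by
  have h := B.ev_int m 0 1
  rw [Int.cast_one, Int.cast_zero, one_smul, zero_smul, zero_add] at h
  exact h

theorem exists_int (m : ℕ) (x : ZMod (2 ^ m)) : ∃ a : ℤ, (a : ZMod (2 ^ m)) = x :=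
  ZMod.intCast_surjective x

theorem ev_inj (m : ℕ) : Function.Injective (B.ev m) := by
  rw [injective_iff_map_eq_zero]
  rintro ⟨x, y⟩ h
  obtain ⟨a, rfl⟩ := exists_int m x
  obtain ⟨b, rfl⟩ := exists_int m y
  rw [ev_int, coord_zero] at h
  have h1 : ((2 ^ m : ℕ) : ℤ) = (2 : ℤ) ^ m := by push_cast; rfl
  refine Prod.ext ?_ ?_
  · exact (ZMod.intCast_zmod_eq_zero_iff_dvd a (2 ^ m)).2 (by rw [h1]; exact h.1)
  · exact (ZMod.intCast_zmod_eq_zero_iff_dvd b (2 ^ m)).2 (by rw [h1]; exact h.2)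

theorem tors_ev (m : ℕ) (c : ZMod (2 ^ m) × ZMod (2 ^ m)) : (2 : ℕ) ^ m • B.ev m c = 0 := by
  obtain ⟨x, y⟩ := c
  obtain ⟨a, rfl⟩ := exists_int m x
  obtain ⟨b, rfl⟩ := exists_int m y
  rw [ev_int, smul_add, smul_comm _ a, smul_comm _ b, B.tors_P, B.tors_Q, smul_zero, smul_zero,
    add_zero]

theorem exists_ev (m : ℕ) (x : V) (hx : (2 : ℕ) ^ m • x = 0) : ∃ c, B.ev m c = x := by
  obtain ⟨a, b, rfl⟩ := B.exists_coord m x hx
  exact ⟨_, B.ev_int m a b⟩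

/-- the coordinates of an element of `V[2 ^ m]` -/
noncomputable def co (m : ℕ) (x : V) : ZMod (2 ^ m) × ZMod (2 ^ m) :=
  open Classical in if hx : (2 : ℕ) ^ m • x = 0 then (B.exists_ev m x hx).choose else 0

theorem ev_co (m : ℕ) {x : V} (hx : (2 : ℕ) ^ m • x = 0) : B.ev m (B.co m x) = x := by
  rw [co, dif_pos hx]
  exact (B.exists_ev m x hx).choose_spec

theorem co_ev (m : ℕ) (c : ZMod (2 ^ m) × ZMod (2 ^ m)) : B.co m (B.ev m c) = c :=
  B.ev_inj m (B.ev_co m (B.tors_ev m c))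

theorem co_add (m : ℕ) {x y : V} (hx : (2 : ℕ) ^ m • x = 0) (hy : (2 : ℕ) ^ m • y = 0) :
    B.co m (x + y) = B.co m x + B.co m y := by
  apply B.ev_inj m
  rw [map_add, B.ev_co m hx, B.ev_co m hy, B.ev_co m (by rw [smul_add, hx, hy, add_zero])]

/-- compatibility: `ev (m + 1) (2 c̃) = ev m c` -/
theorem two_ev (m : ℕ) (c : ZMod (2 ^ (m + 1)) × ZMod (2 ^ (m + 1))) :
    (2 : ℕ) • B.ev (m + 1) c =
      B.ev m (ZMod.castHom (pow_dvd_pow 2 (Nat.le_succ m)) (ZMod (2 ^ m)) c.1,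
        ZMod.castHom (pow_dvd_pow 2 (Nat.le_succ m)) (ZMod (2 ^ m)) c.2) := by
  obtain ⟨x, y⟩ := c
  obtain ⟨a, rfl⟩ := exists_int (m + 1) x
  obtain ⟨b, rfl⟩ := exists_int (m + 1) y
  rw [map_intCast, map_intCast, ev_int, ev_int, smul_add, smul_comm _ a, smul_comm _ b, B.P_succ,
    B.Q_succ]

end CB

end Pool.Agent.SmP
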