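import Pool.Agent.Lib.Sm.G.TowerB

/-!
# SMITH block P (parity), module Par: P4, the parity of the dimensions in an alternating tower

If all pairings `⟨m, 2^j m⟩`, `m ∈ Z (j+1)`, vanish, then the form `(a, b) ↦ Fab (j+1) a b` on
`L (j+1)` is alternating with radical `L (j+2)`. So the parity of `dim L j` is constant, and
`#Z k < 16 ^ k` determines the growth of `#Z i`: `4 ^ i` if `dim L 1` is even, `8 ^ i` if it is odd.
-/

set_option autoImplicit false

namespace Pool.Agent.Sm

open Module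

/-! ### Linear algebra -/

section lin

variable {k : Type*} [Field k]

private theorem Par_even_aux (n : ℕ) : ∀ (V : Type*) [AddCommGroup V] [Module k V]
    [FiniteDimensional k V] (ω : V →ₗ[k] V →ₗ[k] k), (∀ a : V, ω a a = 0) →
    (∀ a : V, (∀ b : V, ω a b = 0) → a = 0) → finrank k V = n → Even n := by
  induction n using Nat.strong_induction_on with
  | _ n ih =>
    intro V _ _ _ ω halt hnd hn
    rcases Nat.eq_zero_or_pos n with h0 | hpos
    · rw [h0]
      exact Even.zero
    · have hnt : Nontrivial V := by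
        apply Module.nontrivial_of_finrank_pos (R := k)
        omega
      obtain ⟨e, he⟩ := exists_ne (0 : V)
      obtain ⟨e', h1⟩ : ∃ e', ω e e' = 1 := by
        obtain ⟨b, hb⟩ : ∃ b, ω e b ≠ 0 := by
          by_contra hcon
          push Not at hcon
          exact he (hnd e hcon)
        exact ⟨(ω e b)⁻¹ • b, by rw [map_smul, smul_eq_mul, inv_mul_cancel₀ hb]⟩
      have hskew : ∀ a c : V, ω a c = - ω c a := by
        intro a c
        have h2 := halt (a + c)
        simp only [map_add, LinearMap.add_apply] at h2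
        rw [halt a, halt c, zero_add, add_zero] at h2
        exact eq_neg_of_add_eq_zero_right h2
      have h2 : ω e' e = -1 := by rw [hskew, h1]
      let φ : V →ₗ[k] k × k := (ω.flip e).prod (ω.flip e')
      have hφ : ∀ v, φ v = (ω v e, ω v e') := fun v => rfl
      have hsurj : LinearMap.range φ = ⊤ := by
        rw [LinearMap.range_eq_top]
        rintro ⟨x, y⟩
        refine ⟨y • e - x • e', ?_⟩
        rw [hφ]
        rw [map_sub, map_smul, map_smul, LinearMap.sub_apply, LinearMap.smul_apply,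
          LinearMap.smul_apply, LinearMap.sub_apply, LinearMap.smul_apply,
          LinearMap.smul_apply, halt, halt, h1, h2]
        simp
      have hrk := LinearMap.finrank_range_add_finrank_ker φ
      rw [hsurj, finrank_top, Module.finrank_prod, Module.finrank_self, hn] at hrk
      let ω' : LinearMap.ker φ →ₗ[k] LinearMap.ker φ →ₗ[k] k :=
        (ω.comp (LinearMap.ker φ).subtype).compl₂ (LinearMap.ker φ).subtype
      have hω' : ∀ a c : LinearMap.ker φ, ω' a c = ω (a : V) (c : V) := fun a c => rfl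
      have hev : Even (n - 2) := by
        refine ih (n - 2) (by omega) (LinearMap.ker φ) ω' ?_ ?_ (by omega)
        · intro a
          rw [hω', halt]
        · intro a ha
          have hae : ω (a : V) e = 0 ∧ ω (a : V) e' = 0 := by
            have h3 := a.2
            rw [LinearMap.mem_ker, hφ, Prod.mk_eq_zero] at h3
            exact h3
          apply Subtype.ext
          apply hnd
          intro v
          have hmem : v - (ω v e') • e + (ω v e) • e' ∈ LinearMap.ker φ := by
            rw [LinearMap.mem_ker, hφ, Prod.mk_eq_zero]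
            constructor
            · simp only [map_add, map_sub, map_smul, LinearMap.add_apply, LinearMap.sub_apply,
                LinearMap.smul_apply, halt, h2]
              simp
            · simp only [map_add, map_sub, map_smul, LinearMap.add_apply, LinearMap.sub_apply,
                LinearMap.smul_apply, halt, h1]
              simp
          have h3 := ha ⟨_, hmem⟩
          rw [hω'] at h3
          have h4 : v = (v - (ω v e') • e + (ω v e) • e') + (ω v e') • e - (ω v e) • e' := by abel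
          have h5 : ω (a : V) ((v - (ω v e') • e + (ω v e) • e') + (ω v e') • e - (ω v e) • e') = 0 := by
            rw [map_sub, map_add, h3, map_smul, map_smul, hae.1, hae.2]
            simp
          rw [← h4] at h5
          exact h5
      have h5 : n = (n - 2) + 2 := by omega
      rw [h5]
      exact hev.add (by decide)

variable {V : Type*} [AddCommGroup V] [Module k V] [FiniteDimensional k V]

/-- The rank of an alternating form is even. -/
theorem Par_rad (ω : V →ₗ[k] V →ₗ[k] k) (halt : ∀ a : V, ω a a = 0) (R : Submodule k V)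
    (hR : ∀ a, a ∈ R ↔ ∀ b, ω a b = 0) : ∃ n, finrank k V = finrank k R + 2 * n := by
  obtain ⟨C, hC⟩ := R.exists_isCompl
  have hskew : ∀ a c : V, ω a c = - ω c a := by
    intro a c
    have h2 := halt (a + c)
    simp only [map_add, LinearMap.add_apply] at h2
    rw [halt a, halt c, zero_add, add_zero] at h2
    exact eq_neg_of_add_eq_zero_right h2
  let ω' : C →ₗ[k] C →ₗ[k] k := (ω.comp C.subtype).compl₂ C.subtype
  have hω' : ∀ a c : C, ω' a c = ω (a : V) (c : V) := fun a c => rfl
  have hev : Even (finrank k C) := by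
    refine Par_even_aux _ C ω' (fun a => by rw [hω', halt]) (fun a ha => ?_) rfl
    have h1 : (a : V) ∈ R := by
      rw [hR]
      intro b
      have hb : b ∈ R ⊔ C := by rw [hC.sup_eq_top]; trivial
      obtain ⟨r, hr, c, hc, rfl⟩ := Submodule.mem_sup.mp hb
      have h2 := ha ⟨c, hc⟩
      rw [hω'] at h2
      rw [map_add, h2, hskew, (hR r).mp hr, neg_zero, add_zero]
    have h2 : (a : V) ∈ R ⊓ C := ⟨h1, a.2⟩
    rw [hC.inf_eq_bot, Submodule.mem_bot] at h2
    exact Subtype.ext h2
  obtain ⟨n, hn⟩ := hev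
  exact ⟨n, by rw [← Submodule.finrank_add_eq_of_isCompl hC, hn, two_mul]⟩

end lin

namespace Tower

variable {F M : Type*} [AddCommGroup F] [Module (ZMod 2) F] [AddCommGroup M] {W : Tower F M}

/-- The pairings of all levels are alternating. -/
def Altn (W : Tower F M) : Prop := ∀ j, ∀ m ∈ W.Z (j + 1), W.P m ((2 : ℕ) ^ j • m) = 0

theorem top_mem (h : W.Ok) {j : ℕ} {m : M} (hm : m ∈ W.Z (j + 1)) : (2 : ℕ) ^ j • m ∈ W.Z 1 :=
  pow_mem h j (by rwa [add_comm] at hm)

theorem altn_perp (h : W.Ok) (ha : W.Altn) {j : ℕ} {m n : M} (hn : n ∈ W.Z j)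
    (hm : m ∈ W.Z (j + 1)) : W.P n ((2 : ℕ) ^ j • m) = 0 := by
  have hn' : n ∈ W.Z (j + 1) := h.mono j hn
  have h1 := ha j _ (AddSubgroup.add_mem _ hm hn')
  rw [smul_add, h.lev j n hn, add_zero, h.addl (j + 1) m hm n hn' _ (top_mem h hm), ha j m hm,
    zero_add] at h1
  exact h1

theorem perp_of_mem_L (h : W.Ok) (ha : W.Altn) {j : ℕ} {b : F} (hb : b ∈ W.L (j + 1)) :
    W.Perp j b := by
  refine ⟨L_le_Fs h (Nat.succ_le_succ (Nat.zero_le j)) hb, fun n hn => ?_⟩
  obtain ⟨m, hm, e⟩ := (W.mem_L _ _).mp hb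
  rw [Nat.add_sub_cancel] at e
  rw [← e]
  exact altn_perp h ha hn hm

/-! ### The functionals of the elements of `Z j` -/

/-- The functional of an element of `Z j` on `Fs`. -/
noncomputable def evD (h : W.Ok) (j : ℕ) : W.Z j →+ Dual (ZMod 2) W.Fs where
  toFun m := AddMonoidHom.toZModLinearMap 2
    { toFun := fun b : W.Fs => W.P m.1 (W.c b.1)
      map_zero' := by
        rw [Submodule.coe_zero, map_zero]
        exact P_zero_right h m.2
      map_add' := fun b b' => by
        rw [Submodule.coe_add]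
        exact P_add_right h m.2 b.2 b'.2 }
  map_zero' := by
    apply LinearMap.ext
    intro b
    exact P_zero_left h (cmem h b.2)
  map_add' m m' := by
    apply LinearMap.ext
    intro b
    exact h.addl j _ m.2 _ m'.2 _ (cmem h b.2)

theorem evD_apply (h : W.Ok) (j : ℕ) (m : W.Z j) (b : W.Fs) :
    evD h j m b = W.P m.1 (W.c b.1) := rfl

/-- Doubling as a map `Z (j+1) → Z j`. -/
private def Par_dbl (h : W.Ok) (j : ℕ) : W.Z (j + 1) →+ W.Z j where
  toFun m := ⟨(2 : ℕ) • m.1, dbl_mem h m.2⟩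
  map_zero' := Subtype.ext (smul_zero _)
  map_add' _ _ := Subtype.ext (smul_add _ _ _)

private theorem Par_card {A B : Type*} [AddCommGroup A] [AddCommGroup B] (f : A →+ B) :
    Nat.card A = Nat.card f.range * Nat.card f.ker := by
  rw [AddSubgroup.card_eq_card_quotient_mul_card_addSubgroup f.ker,
    Nat.card_congr (QuotientAddGroup.quotientKerEquivRange f).toEquiv]

private theorem Par_card_ker (h : W.Ok) (j : ℕ) :
    Nat.card (Par_dbl h j).ker = Nat.card (W.Z 1) := by
  refine Nat.card_congr ⟨fun m => ⟨m.1.1, low_mem h m.1.2 ?_⟩, fun m => ⟨⟨m.1, Zmono h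
    (Nat.succ_le_succ (Nat.zero_le j)) m.2⟩, ?_⟩, fun _ => rfl, fun _ => rfl⟩
  · rw [pow_one]
    exact congrArg Subtype.val m.2
  · apply Subtype.ext
    have := h.lev 1 _ m.2
    rwa [pow_one] at this

private theorem Par_range_dbl (h : W.Ok) (j : ℕ) : (Par_dbl h j).range = (evD h j).ker := by
  ext m
  rw [AddMonoidHom.mem_ker]
  have h1 : evD h j m = 0 ↔ ∀ b ∈ W.Z 1, W.P m.1 b = 0 := by
    constructor
    · intro h0 b hb
      obtain ⟨a, ha, rfl⟩ := (h.crange b).1 hb
      exact LinearMap.congr_fun h0 ⟨a, ha⟩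
    · intro h0
      apply LinearMap.ext
      intro b
      exact h0 _ (cmem h b.2)
  rw [h1, h.crit j m.1 m.2]
  constructor
  · rintro ⟨x, rfl⟩
    exact ⟨x.1, x.2, rfl⟩
  · rintro ⟨x, hx, e⟩
    exact ⟨⟨x, hx⟩, Subtype.ext e⟩

/-- The functionals of the elements of `Z j` are those which vanish on `L (j+1)`. -/
theorem exists_evD (h : W.Ok) (ha : W.Altn) (j : ℕ) (f : Dual (ZMod 2) W.Fs)
    (hf : ∀ b : W.Fs, b.1 ∈ W.L (j + 1) → f b = 0) : ∃ m, evD h j m = f := by
  have hfF := h.fin
  have : Module.Finite (ZMod 2) F := Module.Finite.of_finite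
  set L' : Submodule (ZMod 2) W.Fs := (W.L (j + 1)).submoduleOf W.Fs with hL'
  have hLle : W.L (j + 1) ≤ W.Fs := L_le_Fs h (Nat.succ_le_succ (Nat.zero_le j))
  have hsub : ((evD h j).range : Set (Dual (ZMod 2) W.Fs)) ⊆ (L'.dualAnnihilator : Set _) := by
    rintro _ ⟨m, rfl⟩
    rw [SetLike.mem_coe, Submodule.mem_dualAnnihilator]
    intro b hb
    exact (perp_of_mem_L h ha hb).2 m.1 m.2
  have hc1 : Nat.card (evD h j).range * Nat.card (W.L (j + 1)) = Nat.card W.Fs := by
    have e1 := Par_card (evD h j)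
    have e2 := Par_card (Par_dbl h j)
    rw [Par_card_ker, Par_range_dbl, card_Z_succ h, e1, card_Z_one h] at e2
    have hpos : 0 < Nat.card (evD h j).ker := by
      have := finite_Z h j
      exact Nat.card_pos
    have e3 : Nat.card (evD h j).ker * (Nat.card (evD h j).range * Nat.card (W.L (j + 1))) =
        Nat.card (evD h j).ker * Nat.card W.Fs := by
      rw [← e2]
      ring
    exact Nat.eq_of_mul_eq_mul_left hpos e3
  have hc2 : Nat.card L'.dualAnnihilator * Nat.card (W.L (j + 1)) = Nat.card W.Fs := by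
    have e1 := Subspace.finrank_add_finrank_dualAnnihilator_eq (K := ZMod 2) L'
    have e2 : Nat.card L' = Nat.card (W.L (j + 1)) :=
      Nat.card_congr (Submodule.submoduleOfEquivOfLe hLle).toEquiv
    rw [← e2, Module.natCard_eq_pow_finrank (K := ZMod 2) (V := L'.dualAnnihilator),
      Module.natCard_eq_pow_finrank (K := ZMod 2) (V := L'),
      Module.natCard_eq_pow_finrank (K := ZMod 2) (V := W.Fs), ← pow_add, ← e1, add_comm]
  have hLpos : 0 < Nat.card (W.L (j + 1)) := Nat.card_pos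
  have hc3 : Nat.card (evD h j).range = Nat.card L'.dualAnnihilator :=
    Nat.eq_of_mul_eq_mul_right hLpos (hc1.trans hc2.symm)
  have hfin : Finite (Dual (ZMod 2) W.Fs) := Module.finite_of_finite (ZMod 2)
  have heq : ((evD h j).range : Set (Dual (ZMod 2) W.Fs)) = (L'.dualAnnihilator : Set _) := by
    refine Set.eq_of_subset_of_ncard_le hsub ?_ (Set.toFinite _)
    rw [← Nat.card_coe_set_eq, ← Nat.card_coe_set_eq]
    exact hc3.symm.le
  have hmem : f ∈ (L'.dualAnnihilator : Set (Dual (ZMod 2) W.Fs)) := by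
    rw [SetLike.mem_coe, Submodule.mem_dualAnnihilator]
    exact fun b hb => hf b hb
  rw [← heq] at hmem
  exact hmem

/-! ### The alternating form -/

private theorem Par_fab (h : W.Ok) (ha : W.Altn) {j : ℕ} {b : F} (hb : b ∈ W.L (j + 1)) {a : F}
    {m : M} (hm : m ∈ W.Z (j + 1)) (hma : (2 : ℕ) ^ j • m = W.c a) :
    W.Fab (j + 1) a b = W.P m (W.c b) :=
  fab_eq h (j := j + 1) (Nat.succ_le_succ (Nat.zero_le j)) (perp_of_mem_L h ha hb) hm hma

private theorem Par_rep {j : ℕ} (a : W.L (j + 1)) : ∃ m ∈ W.Z (j + 1), (2 : ℕ) ^ j • m = W.c a.1 := by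
  have := (W.mem_L _ _).mp a.2
  rwa [Nat.add_sub_cancel] at this

/-- The form on `L (j+1)`. -/
noncomputable def frm (h : W.Ok) (ha : W.Altn) (j : ℕ) :
    W.L (j + 1) →ₗ[ZMod 2] W.L (j + 1) →ₗ[ZMod 2] ZMod 2 :=
  AddMonoidHom.toZModLinearMap 2
    { toFun := fun a => AddMonoidHom.toZModLinearMap 2
        { toFun := fun b => W.Fab (j + 1) a.1 b.1
          map_zero' := by
            obtain ⟨m, hm, e⟩ := Par_rep a
            rw [Submodule.coe_zero, Par_fab h ha (Submodule.zero_mem _) hm e, map_zero,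
              P_zero_right h hm]
          map_add' := fun b b' => by
            obtain ⟨m, hm, e⟩ := Par_rep a
            have hle := L_le_Fs h (Nat.succ_le_succ (Nat.zero_le j))
            rw [Par_fab h ha (b + b').2 hm e, Par_fab h ha b.2 hm e, Par_fab h ha b'.2 hm e,
              Submodule.coe_add, P_add_right h hm (hle b.2) (hle b'.2)] }
      map_zero' := by
        apply LinearMap.ext
        intro b
        have hle := L_le_Fs h (Nat.succ_le_succ (Nat.zero_le j))
        change W.Fab (j + 1) _ b.1 = 0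
        rw [Par_fab h ha b.2 (AddSubgroup.zero_mem _) (by
          rw [smul_zero, Submodule.coe_zero, map_zero]), P_zero_left h (cmem h (hle b.2))]
      map_add' := fun a a' => by
        apply LinearMap.ext
        intro b
        have hle := L_le_Fs h (Nat.succ_le_succ (Nat.zero_le j))
        obtain ⟨m, hm, e⟩ := Par_rep a
        obtain ⟨m', hm', e'⟩ := Par_rep a'
        change W.Fab (j + 1) _ b.1 = W.Fab (j + 1) a.1 b.1 + W.Fab (j + 1) a'.1 b.1
        rw [Par_fab h ha b.2 hm e, Par_fab h ha b.2 hm' e',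
          Par_fab h ha b.2 (AddSubgroup.add_mem _ hm hm') (by
            rw [smul_add, e, e', Submodule.coe_add, map_add]),
          h.addl _ m hm m' hm' _ (cmem h (hle b.2))] }

theorem frm_apply (h : W.Ok) (ha : W.Altn) (j : ℕ) (a b : W.L (j + 1)) :
    frm h ha j a b = W.Fab (j + 1) a.1 b.1 := rfl

theorem frm_self (h : W.Ok) (ha : W.Altn) (j : ℕ) (a : W.L (j + 1)) : frm h ha j a a = 0 := by
  obtain ⟨m, hm, e⟩ := Par_rep a
  rw [frm_apply, Par_fab h ha a.2 hm e, ← e]
  exact ha j m hm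

theorem frm_rad (h : W.Ok) (ha : W.Altn) (j : ℕ) (a : W.L (j + 1)) :
    a ∈ (W.L (j + 2)).submoduleOf (W.L (j + 1)) ↔ ∀ b, frm h ha j a b = 0 := by
  have hle := L_le_Fs h (Nat.succ_le_succ (Nat.zero_le j))
  constructor
  · intro haL b
    obtain ⟨m, hm, e⟩ := (W.mem_L (j + 2) a.1).mp haL
    have e' : (2 : ℕ) ^ j • ((2 : ℕ) • m) = W.c a.1 := by
      rw [smul_smul, ← pow_succ]
      exact e
    rw [frm_apply, Par_fab h ha b.2 (dbl_mem h hm) e']
    exact P_dbl h hm (cmem h (hle b.2))
  · intro h0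
    obtain ⟨m, hm, e⟩ := Par_rep a
    obtain ⟨n, hn⟩ := exists_evD h ha j (evD h (j + 1) ⟨m, hm⟩) (fun b hb => by
      have := h0 ⟨b.1, hb⟩
      rw [frm_apply, Par_fab h ha hb hm e] at this
      exact this)
    have h1 : ∀ b ∈ W.Z 1, W.P (m - n.1) b = 0 := by
      intro b hb
      obtain ⟨d, hd, rfl⟩ := (h.crange b).1 hb
      rw [P_sub h hm (h.mono j n.2) (cmem h hd)]
      have h2 := LinearMap.congr_fun hn ⟨d, hd⟩
      rw [evD_apply, evD_apply] at h2
      rw [h2]
      exact CharTwo.add_self_eq_zero _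
    have h3 : m - n.1 ∈ W.Z (j + 1) := AddSubgroup.sub_mem _ hm (h.mono j n.2)
    obtain ⟨m', hm', e'⟩ := (h.crit (j + 1) _ h3).1 h1
    change a.1 ∈ W.L (j + 2)
    rw [W.mem_L]
    refine ⟨m', hm', ?_⟩
    change (2 : ℕ) ^ (j + 1) • m' = W.c a.1
    rw [pow_succ, mul_smul, e', smul_sub, e, h.lev j _ n.2, sub_zero]

/-- P4: the dimensions of the `L j` have the same parity. -/
theorem finrank_L_succ (h : W.Ok) (ha : W.Altn) {j : ℕ} (hj : 1 ≤ j) :
    ∃ n, finrank (ZMod 2) (W.L j) = finrank (ZMod 2) (W.L (j + 1)) + 2 * n := by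
  have hfF := h.fin
  have : Module.Finite (ZMod 2) F := Module.Finite.of_finite
  obtain ⟨i, rfl⟩ := Nat.exists_eq_add_of_le' hj
  obtain ⟨n, hn⟩ := Par_rad (frm h ha i) (frm_self h ha i) _ (frm_rad h ha i)
  refine ⟨n, ?_⟩
  rw [hn, LinearEquiv.finrank_eq (Submodule.submoduleOfEquivOfLe (L_succ_le h hj))]

theorem finrank_L (h : W.Ok) (ha : W.Altn) {j : ℕ} (hj : 1 ≤ j) :
    ∃ n, finrank (ZMod 2) W.Fs = finrank (ZMod 2) (W.L j) + 2 * n := by
  induction j, hj using Nat.le_induction with
  | base => exact ⟨0, by rw [L_one h, mul_zero, add_zero]⟩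
  | succ j hj ih =>
    obtain ⟨n, hn⟩ := ih
    obtain ⟨n', hn'⟩ := finrank_L_succ h ha hj
    exact ⟨n + n', by rw [hn, hn']; ring⟩

theorem even_L (h : W.Ok) (ha : W.Altn) {j : ℕ} (hj : 1 ≤ j) :
    Even (finrank (ZMod 2) (W.L j)) ↔ Even (finrank (ZMod 2) W.Fs) := by
  obtain ⟨n, hn⟩ := finrank_L h ha hj
  rw [hn, Nat.even_add]
  exact ⟨fun h1 => iff_of_true h1 ⟨n, two_mul n⟩, fun h1 => h1.mpr ⟨n, two_mul n⟩⟩

/-! ### Growth -/

private theorem Par_card_L (h : W.Ok) (j : ℕ) :
    Nat.card (W.L j) = 2 ^ finrank (ZMod 2) (W.L j) := by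
  have hfF := h.fin
  have : Module.Finite (ZMod 2) F := Module.Finite.of_finite
  rw [Module.natCard_eq_pow_finrank (K := ZMod 2), Nat.card_eq_fintype_card, ZMod.card]

/-- A lower bound for `#Z k`. -/
theorem pow_le_card_Z (h : W.Ok) {B : ℕ} {k : ℕ} (hB : ∀ j, 1 ≤ j → j ≤ k → B ≤ Nat.card (W.L j)) :
    B ^ k ≤ Nat.card (W.Z k) := by
  induction k with
  | zero => rw [pow_zero]; exact card_Z_pos h 0
  | succ k ih =>
    rw [pow_succ, card_Z_succ h]
    exact Nat.mul_le_mul (ih fun j h1 h2 => hB j h1 (h2.trans (Nat.le_succ k)))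
      (hB _ (Nat.succ_le_succ (Nat.zero_le k)) le_rfl)

/-- An upper bound for `#Z i`. -/
theorem card_Z_le_pow (h : W.Ok) {B j : ℕ} (hj : 1 ≤ j) (hB : Nat.card (W.L j) ≤ B) (hB1 : 1 ≤ B)
    (i : ℕ) : Nat.card (W.Z i) ≤ Nat.card (W.Z j) * B ^ i := by
  have hfF := h.fin
  induction i with
  | zero => 
    rw [pow_zero, mul_one, card_Z_zero h]
    exact card_Z_pos h j
  | succ i ih =>
    rcases le_total (i + 1) j with hij | hij
    · have hfin := finite_Z h j
      refine (Nat.card_le_card_of_injective _ (AddSubgroup.inclusion_injective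
        (Zmono h hij))).trans ?_
      exact Nat.le_mul_of_pos_right _ (by positivity)
    · rw [card_Z_succ h, pow_succ, ← mul_assoc]
      refine Nat.mul_le_mul ih (le_trans ?_ hB)
      exact Nat.card_le_card_of_injective _
        (Submodule.inclusion_injective (L_anti h hj hij))

private theorem Par_exists (h : W.Ok) {k : ℕ} (hk : Nat.card (W.Z k) < 16 ^ k) :
    ∃ j, 1 ≤ j ∧ j ≤ k ∧ finrank (ZMod 2) (W.L j) ≤ 3 := by
  by_contra hcon
  push Not at hcon
  refine absurd (pow_le_card_Z h (B := 16) fun j h1 h2 => ?_) (not_le.mpr hk)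
  rw [Par_card_L h]
  calc (16 : ℕ) = 2 ^ 4 := by norm_num
    _ ≤ 2 ^ finrank (ZMod 2) (W.L j) := Nat.pow_le_pow_right (by norm_num) (hcon j h1 h2)

private theorem Par_two_le (h : W.Ok) (hK : Nat.card W.Kp = 4) {j : ℕ} (hj : 1 ≤ j) :
    2 ≤ finrank (ZMod 2) (W.L j) := by
  have hfF := h.fin
  have h1 : Nat.card W.Kp ≤ Nat.card (W.L j) :=
    Nat.card_le_card_of_injective _ (Submodule.inclusion_injective (kp_le_L h hj))
  rw [hK, Par_card_L h] at h1
  by_contra hcon
  push Not at hcon
  have : 2 ^ finrank (ZMod 2) (W.L j) ≤ 2 ^ 1 := Nat.pow_le_pow_right (by norm_num) (by omega)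
  omega

/-- Even case: `#Z i` grows like `4 ^ i`. -/
theorem card_Z_even (h : W.Ok) (ha : W.Altn) (hK : Nat.card W.Kp = 4)
    (hev : Even (finrank (ZMod 2) W.Fs)) {k : ℕ} (hk : Nat.card (W.Z k) < 16 ^ k) :
    ∃ B : ℕ, ∀ i, Nat.card (W.Z i) ≤ B * 4 ^ i := by
  obtain ⟨j, h1, h2, h3⟩ := Par_exists h hk
  have h4 := (even_L h ha h1).mpr hev
  have h5 : finrank (ZMod 2) (W.L j) = 2 := by
    have h6 := Par_two_le h hK h1
    interval_cases hr : finrank (ZMod 2) (W.L j)
    · rfl
    · exact absurd h4 (by decide)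
  exact ⟨_, card_Z_le_pow h (B := 4) h1 (by rw [Par_card_L h, h5]; norm_num) (by norm_num)⟩

/-- Even case: `L j` is the group of the torsion codes from some level on. -/
theorem L_eq_Kp (h : W.Ok) (ha : W.Altn) (hK : Nat.card W.Kp = 4)
    (hev : Even (finrank (ZMod 2) W.Fs)) {k : ℕ} (hk : Nat.card (W.Z k) < 16 ^ k) :
    ∀ i, k ≤ i → W.L i = W.Kp := by
  intro i hi
  obtain ⟨j, h1, h2, h3⟩ := Par_exists h hk
  have hfF := h.fin
  have hi1 : 1 ≤ i := h1.trans (h2.trans hi)
  have hle : W.L i ≤ W.L j := L_anti h h1 (h2.trans hi)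
  have : Module.Finite (ZMod 2) F := Module.Finite.of_finite
  have h3' : finrank (ZMod 2) (W.L i) ≤ 3 := (Submodule.finrank_mono hle).trans h3
  have h4 := (even_L h ha hi1).mpr hev
  have h5 : finrank (ZMod 2) (W.L i) = 2 := by
    have h6 := Par_two_le h hK hi1
    interval_cases hr : finrank (ZMod 2) (W.L i)
    · rfl
    · exact absurd h4 (by decide)
  have hfK : finrank (ZMod 2) W.Kp = 2 := by
    have h6 := Module.natCard_eq_pow_finrank (K := ZMod 2) (V := W.Kp)
    rw [hK, Nat.card_eq_fintype_card, ZMod.card] at h6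
    have h7 : (2 : ℕ) ^ 2 = 2 ^ finrank (ZMod 2) W.Kp := by rw [← h6]; norm_num
    exact (Nat.pow_right_injective le_rfl h7).symm
  exact (Submodule.eq_of_le_of_finrank_eq (kp_le_L h hi1) (by rw [hfK, h5])).symm

/-- Odd case: `#Z i` grows like `8 ^ i`. -/
theorem card_Z_odd (h : W.Ok) (ha : W.Altn) (hK : Nat.card W.Kp = 4)
    (hod : ¬ Even (finrank (ZMod 2) W.Fs)) {k : ℕ} (hk : Nat.card (W.Z k) < 16 ^ k) :
    (∀ i, 8 ^ i ≤ Nat.card (W.Z i)) ∧ ∃ B : ℕ, ∀ i, Nat.card (W.Z i) ≤ B * 8 ^ i := by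
  constructor
  · intro i
    refine pow_le_card_Z h (B := 8) fun j h1 _ => ?_
    have h2 := Par_two_le h hK h1
    have h3 : ¬ Even (finrank (ZMod 2) (W.L j)) := fun h4 => hod ((even_L h ha h1).mp h4)
    have h4 : 3 ≤ finrank (ZMod 2) (W.L j) := by
      rcases Nat.lt_or_ge (finrank (ZMod 2) (W.L j)) 3 with h5 | h5
      · exact absurd (show Even (finrank (ZMod 2) (W.L j)) by
          rw [show finrank (ZMod 2) (W.L j) = 2 by omega]; decide) h3
      · exact h5
    rw [Par_card_L h]
    calc (8 : ℕ) = 2 ^ 3 := by norm_num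
      _ ≤ 2 ^ finrank (ZMod 2) (W.L j) := Nat.pow_le_pow_right (by norm_num) h4
  · obtain ⟨j, h1, h2, h3⟩ := Par_exists h hk
    refine ⟨_, card_Z_le_pow h (B := 8) h1 ?_ (by norm_num)⟩
    rw [Par_card_L h]
    calc 2 ^ finrank (ZMod 2) (W.L j) ≤ 2 ^ 3 := Nat.pow_le_pow_right (by norm_num) h3
      _ = 8 := by norm_num

end Tower

end Pool.Agent.Sm
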