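import Pool.Agent.Lib.Sm.P.LS

/-!
# SMITH block P, module Rz: reciprocity for `ZMod 2`-valued cocycles (abstract part)

`Sys.Rz S al be w`: there is a 2-finite cocycle of `G` with values in `ZMod 2` whose restriction to
`D v` has the class `w v * (al v ∪ be v)`, `w` has finite support and `∑ w v = 0`.
`Sys.HasseF S`: the Hasse principle with local conditions at the finite places only.

`recipZ_of`: if `delta_v + delta_inf` is such a `w` for all finite `v`, then `S.RecipZ`.
-/

set_option autoImplicit false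

namespace Pool.Agent.Sm

variable {G V Pl M : Type*} [Group G] [AddCommGroup V] [DistribMulAction G V]
  [AddCommGroup M] [DistribMulAction G M]

namespace Sys

variable (S : Sys G V Pl)

/-- The Hasse principle without a condition at infinity. -/
def HasseF : Prop :=
  ∀ c : G → G → ZMod 2, S.TF2 c →
    (∀ s t w, c s t + c (s * t) w = c t w + c s (t * w)) →
    (∀ v, v ≠ S.inf → ∃ b : G → ZMod 2, S.TFOn (S.D v) b ∧
      ∀ s ∈ S.D v, ∀ t ∈ S.D v, c s t = b s + b t + b (s * t)) →
    ∃ b : G → ZMod 2, S.TF b ∧ ∀ s t, c s t = b s + b t + b (s * t)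

/-- `w` is the family of local invariants of a global class. -/
def Rz (al be : Pl → G → ZMod 2) (w : Pl → ZMod 2) : Prop :=
  (Function.support w).Finite ∧ ∑ᶠ v, w v = 0 ∧
    ∃ z : G → G → ZMod 2, S.TF2 z ∧ (∀ s t r, z s t + z (s * t) r = z t r + z s (t * r)) ∧
      ∀ v, S.CB v z (fun s t => w v * cup2 (al v) (be v) s t)

variable {S}

theorem Rz.zero (h : S.Ok) (al be : Pl → G → ZMod 2) : S.Rz al be (fun _ => 0) := by
  refine ⟨by simp, by simp, fun _ _ => 0, ⟨⊤, h.top_mem, fun _ _ _ _ _ _ => rfl⟩,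
    fun _ _ _ => rfl, fun v => CB.of_eq h fun s _ t _ => ?_⟩
  rw [zero_mul]

theorem Rz.add (h : S.Ok) {al be : Pl → G → ZMod 2} {w w' : Pl → ZMod 2} (hw : S.Rz al be w)
    (hw' : S.Rz al be w') : S.Rz al be (fun v => w v + w' v) := by
  obtain ⟨h1, h2, z, ⟨N, hN, h3⟩, h4, h5⟩ := hw
  obtain ⟨h1', h2', z', ⟨N', hN', h3'⟩, h4', h5'⟩ := hw'
  refine ⟨(h1.union h1').subset ?_, ?_, fun s t => z s t + z' s t,
    ⟨N ⊓ N', h.inf_mem _ hN _ hN', fun s t n hn m hm => ?_⟩, fun s t r => ?_, fun v => ?_⟩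
  · exact Function.support_add w w'
  · rw [finsum_add_distrib h1 h1', h2, h2', add_zero]
  · beta_reduce
    rw [h3 s t n hn.1 m hm.1, h3' s t n hn.2 m hm.2]
  · linear_combination h4 s t r + h4' s t r
  · refine ((h5 v).add h (h5' v)).trans h (CB.of_eq h fun s _ t _ => ?_)
    rw [add_mul]

theorem Rz.sum (h : S.Ok) {al be : Pl → G → ZMod 2} {ι : Type*} (T : Finset ι)
    {w : ι → Pl → ZMod 2} (hw : ∀ i ∈ T, S.Rz al be (w i)) :
    S.Rz al be (fun v => ∑ i ∈ T, w i v) := by
  classical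
  induction T using Finset.induction_on with
  | empty =>
    simp only [Finset.sum_empty]
    exact Rz.zero h al be
  | insert a T ha ih =>
    simp only [Finset.sum_insert ha]
    exact (hw a (Finset.mem_insert_self a T)).add h
      (ih fun i hi => hw i (Finset.mem_insert_of_mem hi))

open scoped Classical in
/-- Every `w` which vanishes at `inf` can be changed at `inf` to a family of invariants. -/
theorem Rz.of_fin (h : S.Ok) {al be : Pl → G → ZMod 2} {f : Pl → ZMod 2}
    (hT : ∀ v, v ≠ S.inf → f v ≠ 0 → S.Rz al be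
      (fun u => (if u = v then 1 else 0) + (if u = S.inf then 1 else 0)))
    (hf : (Function.support f).Finite) :
    ∃ w, S.Rz al be w ∧ ∀ v, v ≠ S.inf → w v = f v := by
  refine ⟨_, Rz.sum h (hf.toFinset.erase S.inf) (w := fun v u => (if u = v then 1 else 0) +
    (if u = S.inf then 1 else 0)) (fun v hv => hT v (Finset.ne_of_mem_erase hv)
      (hf.mem_toFinset.1 (Finset.mem_of_mem_erase hv))), ?_⟩
  intro v hv
  simp only [if_neg hv, add_zero]
  by_cases h0 : f v = 0
  · rw [h0]
    refine Finset.sum_eq_zero fun u hu => if_neg ?_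
    rintro rfl
    have := (hf.mem_toFinset.1 (Finset.mem_of_mem_erase hu))
    exact this h0
  · have h1 : f v = 1 := by
      revert h0
      generalize f v = a
      revert a
      decide
    rw [h1, Finset.sum_ite_eq, if_pos]
    exact Finset.mem_erase.2 ⟨hv, hf.mem_toFinset.2 h0⟩

/-- Uniqueness of the invariant at infinity. -/
theorem Rz.inv_inf (h : S.Ok) (hF : S.MFr M) (hH : S.HasseF) {al be : Pl → G → ZMod 2}
    (hl : S.LH al be) {z : G → G → ZMod 2} {w : Pl → ZMod 2} (hz : S.TF2 z)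
    (hzc : ∀ s t r, z s t + z (s * t) r = z t r + z s (t * r))
    (hw : ∀ v, S.CB v z (fun s t => w v * cup2 (al v) (be v) s t))
    (h0 : ∀ v, v ≠ S.inf → w v = 0) : w S.inf = 0 := by
  obtain ⟨b, hb, hb'⟩ := hH z hz hzc (fun v hv => by
    obtain ⟨b, h1, h2⟩ := hw v
    refine ⟨b, h1, fun s hs t ht => ?_⟩
    rw [h2 s hs t ht, h0 v hv]
    beta_reduce
    rw [zero_mul, zero_add])
  refine al_be_ne h hF hl S.inf _ ((hw S.inf).symm.trans h ⟨b, hb.on _, fun s _ t _ => ?_⟩)
  rw [hb' s t, zero_add]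

open scoped Classical in
/-- **Reciprocity for `ZMod 2`-valued 2-cocycles whose local restrictions are cup products.** -/
theorem recipZ_of {hf : ZMod 2 →+ M} (h : S.Ok) (hM : S.MOk hf) (hF : S.MFr M) (hH : S.HasseF)
    {al be : Pl → G → ZMod 2} (hl : S.LH al be)
    (hT : ∀ v, v ≠ S.inf → S.Rz al be
      (fun u => (if u = v then 1 else 0) + (if u = S.inf then 1 else 0))) : S.RecipZ := by
  intro c x a hc hcc hloc
  by_cases hfin : (Function.support fun v => S.sy v (S.loc v (x v)) (S.loc v (a v))).Finite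
  swap
  · exact finsum_of_infinite_support hfin
  set f : Pl → ZMod 2 := fun v => S.sy v (S.loc v (x v)) (S.loc v (a v)) with hfdef
  obtain ⟨w, ⟨h1, h2, z, ⟨N, hN, h3⟩, h4, h5⟩, h6⟩ := Rz.of_fin h (fun v hv _ => hT v hv) hfin
  obtain ⟨N', hN', h3'⟩ := hc
  have hcv : ∀ v, S.CB v c (fun s t => f v * cup2 (al v) (be v) s t) := by
    intro v
    obtain ⟨e1, e2, e3, e4, b, e5, e6⟩ := hloc v
    exact CB.trans h ⟨b, e5, e6⟩ (ls h hM hF hl v e1 e3 e2 e4)
  have h7 := Rz.inv_inf (z := fun s t => c s t + z s t) (w := fun v => f v + w v) h hF hH hl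
    ⟨N' ⊓ N, h.inf_mem _ hN' _ hN, fun s t n hn m hm => by
      beta_reduce
      rw [h3 s t n hn.2 m hm.2, h3' s t n hn.1 m hm.1]⟩
    (fun s t r => by linear_combination hcc s t r + h4 s t r)
    (fun v => ((hcv v).add h (h5 v)).trans h (CB.of_eq h fun s _ t _ => by rw [add_mul]))
    (fun v hv => by rw [h6 v hv, LS_two])
  have h8 : ∑ᶠ v, (f v + w v) = 0 := by
    rw [← finsum_zero (α := Pl)]
    refine finsum_congr fun v => ?_
    by_cases hv : v = S.inf
    · rw [hv]; exact h7
    · rw [h6 v hv, LS_two]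
  rw [finsum_add_distrib hfin h1, h2, add_zero] at h8
  exact h8

end Sys

end Pool.Agent.Sm
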