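import Pool.Agent.Lib.Sm.P.Rz
import Pool.Agent.Lib.SmF.Inst

/-!
# SMITH block P, module Sym: global classes with two nonzero invariants

For the concrete data over `k(t)`: `sy1 f g` (the family of local symbols of two elements of `k(t)`)
is a family of invariants (`Rz.sy1`), and `delta_v + delta_inf` is one for every finite place `v`
(`Rz.theta`), by induction on the degree: take the symbol of `P` with a non-residue modulo `P` of
smaller degree.
-/

set_option autoImplicit false

open Polynomial Pool.Agent.BSDFF Pool.Agent.BSDP.R Pool.Agent.Lib.SmD Pool.Agent.SmF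

namespace Pool.Agent.Sm

variable {k : Type} [Field k] [Finite k] {Ω : Type} [Field Ω] [Algebra (RatFunc k) Ω]
  [IsSepClosure (RatFunc k) Ω] {V M : Type*} [AddCommGroup V]
  [DistribMulAction (Ω ≃ₐ[RatFunc k] Ω) V] [AddCommGroup M]
  [DistribMulAction (Ω ≃ₐ[RatFunc k] Ω) M]

/-- A non-residue modulo `P` of degree less than the degree of `P`. -/
theorem Sym_exists_nonres (h2 : (2 : k) ≠ 0) {P : k[X]} (hP : Irreducible P) :
    ∃ a : k[X], a ≠ 0 ∧ a.natDegree < P.natDegree ∧ ¬ P ∣ a ∧ leg P a = 1 := by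
  have : Fact (Irreducible P) := ⟨hP⟩
  have hfin : Finite (AdjoinRoot P) := by
    have : Module.Finite k (AdjoinRoot P) := (AdjoinRoot.powerBasis hP.ne_zero).finite
    exact Module.finite_of_finite k
  have h2' : (2 : AdjoinRoot P) ≠ 0 := by
    rw [← map_ofNat (algebraMap k (AdjoinRoot P)) 2]
    exact (map_ne_zero_iff _ (algebraMap k (AdjoinRoot P)).injective).mpr h2
  have : Fintype (AdjoinRoot P) := Fintype.ofFinite _
  have hch : ringChar (AdjoinRoot P) ≠ 2 := by
    intro h
    apply h2'
    have h1 := CharP.cast_eq_zero (AdjoinRoot P) (ringChar (AdjoinRoot P))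
    rw [h] at h1
    exact_mod_cast h1
  obtain ⟨a, ha⟩ := FiniteField.exists_nonsquare hch
  obtain ⟨g, rfl⟩ := AdjoinRoot.mk_surjective a
  have hmod : AdjoinRoot.mk P (g % P) = AdjoinRoot.mk P g := by
    rw [AdjoinRoot.mk_eq_mk]
    refine ⟨-(g / P), ?_⟩
    have h1 := EuclideanDomain.div_add_mod g P
    linear_combination h1
  have hnd : ¬ P ∣ g % P := by
    intro h
    rw [← hmod, AdjoinRoot.mk_eq_zero.2 h] at ha
    exact ha IsSquare.zero
  refine ⟨g % P, fun h => hnd (h ▸ dvd_zero P), ?_, hnd, ?_⟩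
  · have h0 : P.natDegree ≠ 0 := hP.natDegree_pos.ne'
    exact natDegree_mod_lt g h0
  · have h1 := (leg_eq_zero P (g % P) hnd)
    rw [hmod] at h1
    exact zmod2_ne_zero fun h => ha (h1.1 h)

section

variable {S : Sys (Ω ≃ₐ[RatFunc k] Ω) V (Place k (RatFunc k))} {hf : ZMod 2 →+ M}
  {al be : Place k (RatFunc k) → (Ω ≃ₐ[RatFunc k] Ω) → ZMod 2}

/-- The local symbols of two elements of `k(t)` are the invariants of a global class. -/
theorem Sys.Rz.sy1 (h2 : (2 : k) ≠ 0) (h : S.Ok) (hM : S.MOk hf) (hF : S.MFr M)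
    (hl : S.LH al be) (hNN : S.NN = Pool.Agent.SmD.NN (RatFunc k) Ω)
    (hsg : S.sg = Pool.Agent.Lib.SmD.sg Ω) (hph : S.phi = Pool.Agent.Lib.SmD.ph Ω)
    (heps : S.eps = Pool.Agent.SmF.eps) {f g : RatFunc k} (hf0 : f ≠ 0) (hg0 : g ≠ 0) :
    S.Rz al be (sy1 (Pool.Agent.Lib.SmD.sg Ω) (Pool.Agent.Lib.SmD.ph Ω) f g) := by
  have H := locVals_sg_ph (k := k) Ω h2
  have hx : S.HomG (fun s => chi (RatFunc k) f s) :=
    (S.smf_homG hNN _).2 (chi_homG (two_ratFunc h2) hf0)
  have hy : S.HomG (fun s => chi (RatFunc k) g s) :=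
    (S.smf_homG hNN _).2 (chi_homG (two_ratFunc h2) hg0)
  refine ⟨H.fin_sy1 h2 hf0 hg0, H.recip1 h2 hf0 hg0,
    Sys.cup2 (fun s => chi (RatFunc k) f s) (fun s => chi (RatFunc k) g s), ?_, ?_, ?_⟩
  · obtain ⟨N, hN, h1⟩ := hx.1
    obtain ⟨N', hN', h3⟩ := hy.1
    refine ⟨N ⊓ N', h.inf_mem _ hN _ hN', fun s t n hn m hm => ?_⟩
    beta_reduce at h1 h3
    rw [Sys.cup2, Sys.cup2, h1 s n hn.1, h3 t m hm.2]
  · intro s t r
    have h1 := hx.2 s t
    have h3 := hy.2 t r
    beta_reduce at h1 h3
    rw [Sys.cup2, Sys.cup2, Sys.cup2, Sys.cup2, h1, h3]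
    ring
  · intro v
    have h1 := Sys.ls1 h hM hF hl v (hx.1.on _) (hy.1.on _) (fun s _ t _ => hx.2 s t)
      (fun s _ t _ => hy.2 s t)
    rw [hsg, hph, heps] at h1
    exact h1

open scoped Classical in
/-- **`delta_v + delta_inf` is a family of invariants for every finite place.** -/
theorem Sys.Rz.theta (h2 : (2 : k) ≠ 0) (h : S.Ok) (hM : S.MOk hf) (hF : S.MFr M)
    (hl : S.LH al be) (hNN : S.NN = Pool.Agent.SmD.NN (RatFunc k) Ω)
    (hsg : S.sg = Pool.Agent.Lib.SmD.sg Ω) (hph : S.phi = Pool.Agent.Lib.SmD.ph Ω)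
    (heps : S.eps = Pool.Agent.SmF.eps) (hinf : S.inf = placeInfty k) :
    ∀ v, v ≠ S.inf → S.Rz al be
      (fun u => (if u = v then 1 else 0) + (if u = S.inf then 1 else 0)) := by
  have H := locVals_sg_ph (k := k) Ω h2
  have key : ∀ n : ℕ, ∀ P : k[X], P.natDegree = n → ∀ (hP : Irreducible P), P.Monic →
      S.Rz al be (fun u => (if u = placeOf P hP then 1 else 0) +
        (if u = S.inf then 1 else 0)) := by
    intro n
    induction n using Nat.strong_induction_on with
    | _ n ih =>
      intro P hn hP hm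
      obtain ⟨a, ha0, hadeg, had, hleg⟩ := Sym_exists_nonres h2 hP
      have haK : algebraMap k[X] (RatFunc k) a ≠ 0 := by simpa using ha0
      have hPK : algebraMap k[X] (RatFunc k) P ≠ 0 := by simpa using hP.ne_zero
      have hR := Sys.Rz.sy1 h2 h hM hF hl hNN hsg hph heps haK hPK
      set w0 := Pool.Agent.SmF.sy1 (Pool.Agent.Lib.SmD.sg Ω) (Pool.Agent.Lib.SmD.ph Ω)
        (algebraMap k[X] (RatFunc k) a) (algebraMap k[X] (RatFunc k) P) with hw0
      have hwP : w0 (placeOf P hP) = 1 := by
        rw [hw0, SmF.sy1, H.sg_of_not_dvd hP had, H.sg_self hP, H.ph_leg hP had, hleg]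
        ring
      have hwQ : ∀ (Q : k[X]) (hQ : Irreducible Q), Q.Monic → Q ≠ P → w0 (placeOf Q hQ) ≠ 0 →
          Q.natDegree < n := by
        intro Q hQ hmQ hne hw
        have h1 : Q ∣ a := by
          by_contra h1
          apply hw
          rw [hw0, SmF.sy1, H.sg_of_not_dvd hQ h1,
            H.sg_of_not_dvd hQ (not_dvd_of_ne hQ hmQ hP hm hne)]
          ring
        rw [← hn]
        exact (natDegree_le_of_dvd h1 ha0).trans_lt hadeg
      obtain ⟨w, hw, hwv⟩ := Sys.Rz.of_fin (f := fun v => if v = placeOf P hP then 0 else w0 v) h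
        (fun v hv hv0 => by
          by_cases h1 : v = placeOf P hP
          · rw [if_pos h1] at hv0
            exact absurd rfl hv0
          · rw [if_neg h1] at hv0
            rcases place_cases v with rfl | ⟨Q, hQ, hmQ, rfl⟩
            · exact absurd hinf.symm hv
            · have hne : Q ≠ P := by
                rintro rfl
                exact h1 rfl
              exact ih Q.natDegree (hwQ Q hQ hmQ hne hv0) Q rfl hQ hmQ)
        (hR.1.subset fun v hv => by
          rw [Function.mem_support] at hv ⊢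
          intro h1
          apply hv
          rw [h1, ite_self])
      have hsum := hR.add h hw
      have hPinf : placeOf P hP ≠ S.inf := by
        rw [hinf]
        exact (placeInfty_ne hP).symm
      have e1 : ∀ v, v ≠ S.inf → w0 v + w v = if v = placeOf P hP then 1 else 0 := by
        intro v hv
        rw [hwv v hv]
        by_cases h1 : v = placeOf P hP
        · rw [if_pos h1, if_pos h1, h1, hwP, add_zero]
        · rw [if_neg h1, if_neg h1, Sys.LS_two]
      have e2 : w0 S.inf + w S.inf = 1 := by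
        have h1 := hsum.2.1
        rw [finsum_eq_sum_of_support_subset (s := {placeOf P hP, S.inf}) _ (by
          intro v hv
          rw [Finset.coe_insert, Finset.coe_singleton]
          by_contra hcon
          simp only [Set.mem_insert_iff, Set.mem_singleton_iff, not_or] at hcon
          apply hv
          beta_reduce
          rw [e1 v hcon.2, if_neg hcon.1]), Finset.sum_pair hPinf, e1 _ hPinf, if_pos rfl] at h1
        have h3 : ∀ x : ZMod 2, 1 + x = 0 → x = 1 := by decide
        exact h3 _ h1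
      have e3 : (fun v => w0 v + w v) = fun u => (if u = placeOf P hP then 1 else 0) +
          (if u = S.inf then 1 else 0) := by
        funext v
        by_cases hv : v = S.inf
        · rw [hv, e2, if_pos rfl, if_neg hPinf.symm, zero_add]
        · rw [e1 v hv, if_neg hv, add_zero]
      rw [← e3]
      exact hsum
  intro v hv
  rcases place_cases v with rfl | ⟨Q, hQ, hmQ, rfl⟩
  · exact absurd hinf.symm hv
  · exact key _ Q rfl hQ hmQ

end

end Pool.Agent.Sm
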