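import Pool.Agent.Lib.Sm.G.CTDefs

/-!
# SMITH block P (parity), module Theta: quadratic refinements of the Weil pairings

`M` = roots of unity of 2-power order, written additively, with the action of `G`. For every `n`
`be n` is a bilinear form on `V[2^n]` whose alternation `e n` is the Weil pairing, and
`qq n s` is the quadratic map with polar form `be n (s x) (s y) - s (be n x y)`. So
`(z, x) ↦ (s z + qq n s x, s x)` is an action of `G` on the Heisenberg group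
`M × V[2^n]`, `(z, x) (z', x') = (z + z' + be n x x', x + x')`. For a cocycle `Psi` with values in
`V[2^n]` the cochain `Ob n Psi` is the obstruction to a lift to the Heisenberg group.
-/

set_option autoImplicit false

namespace Pool.Agent.Sm

section

/-- The data: bilinear forms `be n`, quadratic maps `qq n s`, and the embedding of `ZMod 2`. -/
structure Theta (G V M : Type*) [AddCommGroup M] where
  be : ℕ → V → V → M
  qq : ℕ → G → V → M
  hf : ZMod 2 →+ M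

variable {G V Pl M : Type*} [Group G] [AddCommGroup V] [DistribMulAction G V]
  [AddCommGroup M] [DistribMulAction G M]

namespace Theta

/-- The alternating form. -/
def e (T : Theta G V M) (n : ℕ) (x y : V) : M := T.be n x y - T.be n y x

/-- The obstruction cochain. -/
def Ob (T : Theta G V M) (chi : G → ZMod 2) (n : ℕ) (Psi : G → V) (s t : G) : M :=
  T.be n (Psi s) (tw chi s (Psi t)) + T.qq n s (Psi t)

/-- The cup product for the form `e n`. -/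
def cup (T : Theta G V M) (chi : G → ZMod 2) (n : ℕ) (Psi Phi : G → V) (s t : G) : M :=
  T.e n (Psi s) (tw chi s (Phi t))

/-- The properties of the theta data; only arguments in `V[2^n]` matter. -/
structure Ok (T : Theta G V M) (S : Sys G V Pl) : Prop where
  be_add_left : ∀ (n : ℕ) (x x' y : V), (2 : ℕ) ^ n • x = 0 → (2 : ℕ) ^ n • x' = 0 →
    (2 : ℕ) ^ n • y = 0 → T.be n (x + x') y = T.be n x y + T.be n x' y
  be_add_right : ∀ (n : ℕ) (x y y' : V), (2 : ℕ) ^ n • x = 0 → (2 : ℕ) ^ n • y = 0 →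
    (2 : ℕ) ^ n • y' = 0 → T.be n x (y + y') = T.be n x y + T.be n x y'
  qq_add : ∀ (n : ℕ) (s : G) (x y : V), (2 : ℕ) ^ n • x = 0 → (2 : ℕ) ^ n • y = 0 →
    T.qq n s (x + y) = T.qq n s x + T.qq n s y + (T.be n (s • x) (s • y) - s • T.be n x y)
  qq_mul : ∀ (n : ℕ) (s t : G) (x : V), (2 : ℕ) ^ n • x = 0 →
    T.qq n (s * t) x = s • T.qq n t x + T.qq n s (t • x)
  qq_neg : ∀ (n : ℕ) (s : G) (x : V), (2 : ℕ) ^ n • x = 0 → T.qq n s (-x) = T.qq n s x
  be_two : ∀ (n : ℕ) (x y : V), (2 : ℕ) ^ (n + 1) • x = 0 → (2 : ℕ) ^ (n + 1) • y = 0 →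
    T.be n ((2 : ℕ) • x) ((2 : ℕ) • y) = (2 : ℕ) • T.be (n + 1) x y
  qq_two : ∀ (n : ℕ) (s : G) (x : V), (2 : ℕ) ^ (n + 1) • x = 0 →
    T.qq n s ((2 : ℕ) • x) = (2 : ℕ) • T.qq (n + 1) s x
  shift : ∀ (n : ℕ) (x y : V), (2 : ℕ) ^ n • x = 0 → (2 : ℕ) ^ (n + 1) • y = 0 →
    T.e (n + 1) x y = T.e n x ((2 : ℕ) • y)
  be_low : ∀ (n : ℕ), 2 ≤ n → ∀ x y : V, (2 : ℕ) • x = 0 → (2 : ℕ) • y = 0 → T.be n x y = 0
  qq_low : ∀ (n : ℕ), 2 ≤ n → ∀ (s : G) (x : V), (2 : ℕ) • x = 0 → T.qq n s x = 0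
  e_iota : ∀ (n : ℕ) (w : V1) (y : V), (2 : ℕ) ^ (n + 1) • y = 0 →
    T.e (n + 1) (S.iota w) y = T.hf (ee w (S.un ((2 : ℕ) ^ n • y)))
  qq_fin : ∀ n : ℕ, ∃ N ∈ S.NN, ∀ s, ∀ m ∈ N, ∀ x : V, (2 : ℕ) ^ n • x = 0 →
    T.qq n (s * m) x = T.qq n s x

end Theta

namespace Sys

variable (S : Sys G V Pl)

/-- The 2-cochains `c`, `c'` with values in `M` differ on `H` by the coboundary of a 2-finite
cochain. -/
def Coh (H : Subgroup G) (c c' : G → G → M) : Prop :=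
  ∃ b : G → M, S.TFOn H b ∧ ∀ s ∈ H, ∀ t ∈ H, c s t = c' s t + (b s + s • b t - b (s * t))

/-- Reciprocity for classes of `H^2(G, M)` whose local restrictions are cup products of
homomorphisms to `V1`. -/
def RecipM (hf : ZMod 2 →+ M) : Prop :=
  ∀ (c : G → G → M) (x a : Pl → G → V1), S.TF2 c →
    (∀ s t w, c s t + c (s * t) w = s • c t w + c s (t * w)) →
    (∀ v, S.TFOn (S.D v) (x v) ∧ (∀ s ∈ S.D v, ∀ t ∈ S.D v, x v (s * t) = x v s + x v t) ∧
      S.TFOn (S.D v) (a v) ∧ (∀ s ∈ S.D v, ∀ t ∈ S.D v, a v (s * t) = a v s + a v t) ∧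
      S.Coh (S.D v) c (fun s t => hf (ee (x v s) (a v t)))) →
    ∑ᶠ v, S.sy v (S.loc v (x v)) (S.loc v (a v)) = 0

variable {S}

theorem Coh.refl (h : S.Ok) (H : Subgroup G) (c : G → G → M) : S.Coh H c c :=
  ⟨fun _ => 0, (TF_const h 0).on H, fun s _ t _ => by simp⟩

theorem Coh.of_eq (h : S.Ok) {H : Subgroup G} {c c' : G → G → M}
    (he : ∀ s ∈ H, ∀ t ∈ H, c s t = c' s t) : S.Coh H c c' :=
  ⟨fun _ => 0, (TF_const h 0).on H, fun s hs t ht => by simp [he s hs t ht]⟩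

theorem Coh.symm {H : Subgroup G} {c c' : G → G → M} (hc : S.Coh H c c') : S.Coh H c' c := by
  obtain ⟨b, hb, h1⟩ := hc
  refine ⟨fun s => -b s, hb.comp _, fun s hs t ht => ?_⟩
  beta_reduce
  rw [h1 s hs t ht, smul_neg]
  abel

theorem Coh.trans (h : S.Ok) {H : Subgroup G} {c c' c'' : G → G → M} (hc : S.Coh H c c')
    (hc' : S.Coh H c' c'') : S.Coh H c c'' := by
  obtain ⟨b, hb, h1⟩ := hc
  obtain ⟨b', hb', h2⟩ := hc'
  refine ⟨fun s => b s + b' s, TFOn.comp₂ h hb hb' _, fun s hs t ht => ?_⟩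
  beta_reduce
  rw [h1 s hs t ht, h2 s hs t ht, smul_add]
  abel

theorem Coh.add (h : S.Ok) {H : Subgroup G} {c c' d d' : G → G → M} (hc : S.Coh H c c')
    (hd : S.Coh H d d') : S.Coh H (fun s t => c s t + d s t) (fun s t => c' s t + d' s t) := by
  obtain ⟨b, hb, h1⟩ := hc
  obtain ⟨b', hb', h2⟩ := hd
  refine ⟨fun s => b s + b' s, TFOn.comp₂ h hb hb' _, fun s hs t ht => ?_⟩
  simp only [h1 s hs t ht, h2 s hs t ht, smul_add]
  abel

end Sys

namespace Theta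

variable {T : Theta G V M} {S : Sys G V Pl}

theorem be_zero_left (hT : T.Ok S) (n : ℕ) {y : V} (hy : (2 : ℕ) ^ n • y = 0) :
    T.be n 0 y = 0 := by
  have := hT.be_add_left n 0 0 y (smul_zero _) (smul_zero _) hy
  rw [add_zero] at this
  exact left_eq_add.mp this

theorem be_zero_right (hT : T.Ok S) (n : ℕ) {x : V} (hx : (2 : ℕ) ^ n • x = 0) :
    T.be n x 0 = 0 := by
  have := hT.be_add_right n x 0 0 hx (smul_zero _) (smul_zero _)
  rw [add_zero] at this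
  exact left_eq_add.mp this

theorem neg_lev {n : ℕ} {x : V} (hx : (2 : ℕ) ^ n • x = 0) : (2 : ℕ) ^ n • (-x) = 0 := by
  rw [smul_neg, hx, neg_zero]

theorem smul_lev (s : G) {n : ℕ} {x : V} (hx : (2 : ℕ) ^ n • x = 0) :
    (2 : ℕ) ^ n • (s • x) = 0 := by
  rw [smul_comm, hx, smul_zero]

theorem tw_lev (chi : G → ZMod 2) (s : G) {n : ℕ} {x : V} (hx : (2 : ℕ) ^ n • x = 0) :
    (2 : ℕ) ^ n • tw chi s x = 0 := by
  rw [← tw_nsmul, hx, tw_zero]

theorem add_lev {n : ℕ} {x y : V} (hx : (2 : ℕ) ^ n • x = 0) (hy : (2 : ℕ) ^ n • y = 0) :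
    (2 : ℕ) ^ n • (x + y) = 0 := by
  rw [smul_add, hx, hy, add_zero]

theorem sub_lev {n : ℕ} {x y : V} (hx : (2 : ℕ) ^ n • x = 0) (hy : (2 : ℕ) ^ n • y = 0) :
    (2 : ℕ) ^ n • (x - y) = 0 := by
  rw [smul_sub, hx, hy, sub_zero]

theorem lev_mono {n m : ℕ} (hnm : n ≤ m) {x : V} (hx : (2 : ℕ) ^ n • x = 0) :
    (2 : ℕ) ^ m • x = 0 := by
  obtain ⟨i, rfl⟩ := Nat.exists_eq_add_of_le hnm
  rw [pow_add, mul_comm, mul_smul, hx, smul_zero]

theorem be_neg_left (hT : T.Ok S) (n : ℕ) {x y : V} (hx : (2 : ℕ) ^ n • x = 0)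
    (hy : (2 : ℕ) ^ n • y = 0) : T.be n (-x) y = -T.be n x y := by
  have := hT.be_add_left n (-x) x y (neg_lev hx) hx hy
  rw [neg_add_cancel, be_zero_left hT n hy] at this
  exact eq_neg_of_add_eq_zero_left this.symm

theorem be_neg_right (hT : T.Ok S) (n : ℕ) {x y : V} (hx : (2 : ℕ) ^ n • x = 0)
    (hy : (2 : ℕ) ^ n • y = 0) : T.be n x (-y) = -T.be n x y := by
  have := hT.be_add_right n x (-y) y hx (neg_lev hy) hy
  rw [neg_add_cancel, be_zero_right hT n hx] at this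
  exact eq_neg_of_add_eq_zero_left this.symm

theorem be_sub_left (hT : T.Ok S) (n : ℕ) {x x' y : V} (hx : (2 : ℕ) ^ n • x = 0)
    (hx' : (2 : ℕ) ^ n • x' = 0) (hy : (2 : ℕ) ^ n • y = 0) :
    T.be n (x - x') y = T.be n x y - T.be n x' y := by
  rw [sub_eq_add_neg, hT.be_add_left n _ _ _ hx (neg_lev hx') hy, be_neg_left hT n hx' hy,
    sub_eq_add_neg]

theorem be_sub_right (hT : T.Ok S) (n : ℕ) {x y y' : V} (hx : (2 : ℕ) ^ n • x = 0)
    (hy : (2 : ℕ) ^ n • y = 0) (hy' : (2 : ℕ) ^ n • y' = 0) :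
    T.be n x (y - y') = T.be n x y - T.be n x y' := by
  rw [sub_eq_add_neg, hT.be_add_right n _ _ _ hx hy (neg_lev hy'), be_neg_right hT n hx hy',
    sub_eq_add_neg]

theorem qq_zero (hT : T.Ok S) (n : ℕ) (s : G) : T.qq n s 0 = 0 := by
  have h0 : (2 : ℕ) ^ n • (0 : V) = 0 := smul_zero _
  have := hT.qq_add n s 0 0 h0 h0
  rw [add_zero, smul_zero, be_zero_left hT n h0, smul_zero, sub_zero, add_zero] at this
  exact left_eq_add.mp this

theorem qq_one (hT : T.Ok S) (n : ℕ) {x : V} (hx : (2 : ℕ) ^ n • x = 0) : T.qq n 1 x = 0 := by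
  have := hT.qq_mul n 1 1 x hx
  rw [one_mul, one_smul, one_smul] at this
  exact left_eq_add.mp this

/-- Signs do not matter: twisted action. -/
theorem be_tw (hT : T.Ok S) (chi : G → ZMod 2) (n : ℕ) (s : G) {x y : V}
    (hx : (2 : ℕ) ^ n • x = 0) (hy : (2 : ℕ) ^ n • y = 0) :
    T.be n (tw chi s x) (tw chi s y) = T.be n (s • x) (s • y) := by
  rcases sgn_eq (chi s) with h' | h'
  · simp [tw, h']
  · simp only [tw, h', neg_smul, one_smul]
    rw [be_neg_left hT n (smul_lev s hx) (neg_lev (smul_lev s hy)),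
      be_neg_right hT n (smul_lev s hx) (smul_lev s hy), neg_neg]

theorem qq_tw (hT : T.Ok S) (chi : G → ZMod 2) (n : ℕ) (s t : G) {x : V}
    (hx : (2 : ℕ) ^ n • x = 0) : T.qq n s (tw chi t x) = T.qq n s (t • x) := by
  rcases sgn_eq (chi t) with h' | h'
  · simp [tw, h']
  · simp only [tw, h', neg_smul, one_smul]
    exact hT.qq_neg n s _ (smul_lev t hx)

/-- The obstruction cochain is a cocycle. -/
theorem ob_coc (hT : T.Ok S) {chi : G → ZMod 2} (hchi : ∀ s t, chi (s * t) = chi s + chi t)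
    (n : ℕ) {Psi : G → V} (hlev : ∀ s, (2 : ℕ) ^ n • Psi s = 0)
    (hc : ∀ s t, Psi (s * t) = Psi s + tw chi s (Psi t)) (s t w : G) :
    T.Ob chi n Psi s t + T.Ob chi n Psi (s * t) w =
      s • T.Ob chi n Psi t w + T.Ob chi n Psi s (t * w) := by
  simp only [Ob, hc, tw_mul hchi, tw_add, smul_add]
  rw [hT.be_add_left n _ _ _ (hlev s) (tw_lev chi s (hlev t)) (tw_lev chi s (tw_lev chi t (hlev w))),
    hT.be_add_right n _ _ _ (hlev s) (tw_lev chi s (hlev t)) (tw_lev chi s (tw_lev chi t (hlev w))),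
    hT.qq_add n s _ _ (hlev t) (tw_lev chi t (hlev w)), hT.qq_mul n s t _ (hlev w),
    qq_tw hT chi n s t (hlev w), be_tw hT chi n s (hlev t) (tw_lev chi t (hlev w))]
  abel

theorem ob_tf2 (h : S.Ok) (hT : T.Ok S) {chi : G → ZMod 2} (hchi : S.HomG chi) (n : ℕ)
    {Psi : G → V} (hlev : ∀ s, (2 : ℕ) ^ n • Psi s = 0) (hPsi : S.TF Psi) :
    S.TF2 (T.Ob chi n Psi) := by
  obtain ⟨N1, hN1, h1⟩ := hPsi
  obtain ⟨N2, hN2, h2⟩ := Sys.act_tf h hchi n
  obtain ⟨N3, hN3, h3⟩ := hT.qq_fin n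
  refine ⟨N1 ⊓ (N2 ⊓ N3), h.inf_mem _ hN1 _ (h.inf_mem _ hN2 _ hN3), fun s t a ha b hb => ?_⟩
  simp only [Ob, h1 s a ha.1, h1 t b hb.1, h2 s a ha.2.1 _ (hlev t), h3 s a ha.2.2 _ (hlev t)]

/-- Polar form of the obstruction: the cup product, up to the coboundary of `be (Psi s) (Phi s)`. -/
theorem ob_add (h : S.Ok) (hT : T.Ok S) {chi : G → ZMod 2} (n : ℕ) {H : Subgroup G}
    {Psi Phi : G → V} (hl : ∀ s ∈ H, (2 : ℕ) ^ n • Psi s = 0)
    (hl' : ∀ s ∈ H, (2 : ℕ) ^ n • Phi s = 0) (hf : S.TFOn H Psi) (hf' : S.TFOn H Phi)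
    (hc : ∀ s ∈ H, ∀ t ∈ H, Psi (s * t) = Psi s + tw chi s (Psi t))
    (hc' : ∀ s ∈ H, ∀ t ∈ H, Phi (s * t) = Phi s + tw chi s (Phi t)) :
    S.Coh H (T.Ob chi n (fun s => Psi s + Phi s))
      (fun s t => T.Ob chi n Psi s t + T.Ob chi n Phi s t + T.cup chi n Phi Psi s t) := by
  refine ⟨fun s => -T.be n (Psi s) (Phi s), (Sys.TFOn.comp₂ h hf hf' (fun a b => -T.be n a b)),
    fun s hs t ht => ?_⟩
  have hs1 := hl s hs
  have hs2 := hl' s hs
  have ht1 := hl t ht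
  have ht2 := hl' t ht
  simp only [Ob, cup, e, hc s hs t ht, hc' s hs t ht, tw_add, smul_neg]
  rw [hT.be_add_left n _ _ _ hs1 hs2 (add_lev (tw_lev chi s ht1) (tw_lev chi s ht2)),
    hT.be_add_right n _ _ _ hs1 (tw_lev chi s ht1) (tw_lev chi s ht2),
    hT.be_add_right n _ _ _ hs2 (tw_lev chi s ht1) (tw_lev chi s ht2),
    hT.be_add_left n _ _ _ hs1 (tw_lev chi s ht1) (add_lev hs2 (tw_lev chi s ht2)),
    hT.be_add_right n _ _ _ hs1 hs2 (tw_lev chi s ht2),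
    hT.be_add_right n _ _ _ (tw_lev chi s ht1) hs2 (tw_lev chi s ht2),
    hT.qq_add n s _ _ ht1 ht2, be_tw hT chi n s ht1 ht2]
  abel

/-- The form `e` is equivariant. -/
theorem e_smul (hT : T.Ok S) (n : ℕ) (s : G) {x y : V} (hx : (2 : ℕ) ^ n • x = 0)
    (hy : (2 : ℕ) ^ n • y = 0) : T.e n (s • x) (s • y) = s • T.e n x y := by
  have h1 := hT.qq_add n s x y hx hy
  have h2 := hT.qq_add n s y x hy hx
  rw [add_comm y x, h1] at h2
  have h3 : T.be n (s • x) (s • y) - s • T.be n x y = T.be n (s • y) (s • x) - s • T.be n y x := by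
    rw [add_comm (T.qq n s y) (T.qq n s x)] at h2
    exact add_left_cancel h2
  simp only [e, smul_sub]
  rw [sub_eq_iff_eq_add] at h3 ⊢
  rw [h3]
  abel

theorem e_tw (hT : T.Ok S) (chi : G → ZMod 2) (n : ℕ) (s : G) {x y : V}
    (hx : (2 : ℕ) ^ n • x = 0) (hy : (2 : ℕ) ^ n • y = 0) :
    T.e n (tw chi s x) (tw chi s y) = s • T.e n x y := by
  rw [← e_smul hT n s hx hy, e, e, be_tw hT chi n s hx hy, be_tw hT chi n s hy hx]

theorem e_sub_left (hT : T.Ok S) (n : ℕ) {x x' y : V} (hx : (2 : ℕ) ^ n • x = 0)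
    (hx' : (2 : ℕ) ^ n • x' = 0) (hy : (2 : ℕ) ^ n • y = 0) :
    T.e n (x - x') y = T.e n x y - T.e n x' y := by
  rw [e, e, e, be_sub_left hT n hx hx' hy, be_sub_right hT n hy hx hx']
  abel

theorem e_add_right (hT : T.Ok S) (n : ℕ) {x y y' : V} (hx : (2 : ℕ) ^ n • x = 0)
    (hy : (2 : ℕ) ^ n • y = 0) (hy' : (2 : ℕ) ^ n • y' = 0) :
    T.e n x (y + y') = T.e n x y + T.e n x y' := by
  rw [e, e, e, hT.be_add_right n _ _ _ hx hy hy', hT.be_add_left n _ _ _ hy hy' hx]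
  abel

end Theta

end

end Pool.Agent.Sm
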