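import Pool.Agent.Lib.Sm.P.Mat
import Pool.Agent.Lib.Sm.JDefs

/-!
SMITH, block P: the Weil pairing family from a compatible basis `B` of `V` and a compatible family
`z m : ZMod (2 ^ m) →+ M`: `we B z m x y = z m (x₁ y₂ - x₂ y₁)`.

* `we_add_left`, `we_add_right`, `we_self`, `we_neg_left`, `we_swap`;
* `we_smul`: `e (s x) (s y) = s (e x y)` if `s (z m a) = z m (det s * a)`;
* `we_shift`: `e (m + 1) x y = e m x (2 y)` for `x` of level `m`;
* `we_two`: `2 e (m + 1) x y = e m (2 x) (2 y)`;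
* `we_iota`, `we_iota_left`: the pairing with elements of `V[2]`.
-/

set_option autoImplicit false

open Matrix

namespace Pool.Agent.SmP

variable {V M : Type*} [AddCommGroup V] [AddCommGroup M] (B : CB V)

/-- The alternating form in coordinates. -/
noncomputable def cc (m : ℕ) (x y : V) : ZMod (2 ^ m) :=
  (B.co m x).1 * (B.co m y).2 - (B.co m x).2 * (B.co m y).1

theorem cc_add_left (m : ℕ) {x x' : V} (y : V) (hx : (2 : ℕ) ^ m • x = 0)
    (hx' : (2 : ℕ) ^ m • x' = 0) : cc B m (x + x') y = cc B m x y + cc B m x' y := by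
  rw [cc, cc, cc, B.co_add m hx hx', Prod.fst_add, Prod.snd_add]
  ring

theorem cc_add_right (m : ℕ) (x : V) {y y' : V} (hy : (2 : ℕ) ^ m • y = 0)
    (hy' : (2 : ℕ) ^ m • y' = 0) : cc B m x (y + y') = cc B m x y + cc B m x y' := by
  rw [cc, cc, cc, B.co_add m hy hy', Prod.fst_add, Prod.snd_add]
  ring

theorem cc_self (m : ℕ) (x : V) : cc B m x x = 0 := by
  rw [cc, mul_comm, sub_self]

theorem cc_swap (m : ℕ) (x y : V) : cc B m y x = -cc B m x y := by
  rw [cc, cc]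
  ring

theorem co_int (m : ℕ) (a b : ℤ) :
    B.co m (a • B.P m + b • B.Q m) = ((a : ZMod (2 ^ m)), (b : ZMod (2 ^ m))) := by
  rw [← B.ev_int, B.co_ev]

theorem cc_int (m : ℕ) (a b c d : ℤ) :
    cc B m (a • B.P m + b • B.Q m) (c • B.P m + d • B.Q m) =
      ((a * d - b * c : ℤ) : ZMod (2 ^ m)) := by
  rw [cc, co_int, co_int]
  push_cast
  ring

theorem cc_cast (m : ℕ) {x y : V} (hx : (2 : ℕ) ^ (m + 1) • x = 0)
    (hy : (2 : ℕ) ^ (m + 1) • y = 0) :
    ZMod.castHom (pow_dvd_pow 2 (Nat.le_succ m)) (ZMod (2 ^ m)) (cc B (m + 1) x y) =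
      cc B m ((2 : ℕ) • x) ((2 : ℕ) • y) := by
  obtain ⟨a, b, rfl⟩ := B.exists_coord (m + 1) x hx
  obtain ⟨c, d, rfl⟩ := B.exists_coord (m + 1) y hy
  have h1 : ∀ a b : ℤ, (2 : ℕ) • (a • B.P (m + 1) + b • B.Q (m + 1)) =
      a • B.P m + b • B.Q m := by
    intro a b
    rw [smul_add, smul_comm (2 : ℕ) a, smul_comm (2 : ℕ) b, B.P_succ, B.Q_succ]
  rw [h1, h1, cc_int, cc_int, map_intCast]

section smul

variable {G : Type*} [Group G] [DistribMulAction G V]

theorem cc_smul (m : ℕ) (s : G) {x y : V} (hx : (2 : ℕ) ^ m • x = 0)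
    (hy : (2 : ℕ) ^ m • y = 0) : cc B m (s • x) (s • y) = dt B m s * cc B m x y := by
  obtain ⟨a, b, rfl⟩ := B.exists_coord m x hx
  obtain ⟨c, d, rfl⟩ := B.exists_coord m y hy
  obtain ⟨a', b', c', d', h1, h3, h4⟩ := dt_int B m s
  have h5 : ∀ a b : ℤ, s • (a • B.P m + b • B.Q m) =
      (a * a' + b * c') • B.P m + (a * b' + b * d') • B.Q m := by
    intro a b
    rw [smul_add, smul_comm s a, smul_comm s b, h1, h3, smul_add, smul_add, ← mul_smul, ← mul_smul,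
      ← mul_smul, ← mul_smul, add_smul, add_smul]
    abel
  rw [h5, h5, cc_int, cc_int, h4, ← Int.cast_mul]
  congr 1
  ring

end smul

/-- The Weil pairing family. -/
noncomputable def we (z : (m : ℕ) → ZMod (2 ^ m) →+ M) (m : ℕ) (x y : V) : M :=
  z m (cc B m x y)

variable (z : (m : ℕ) → ZMod (2 ^ m) →+ M)

theorem we_add_left (m : ℕ) {x x' : V} (y : V) (hx : (2 : ℕ) ^ m • x = 0)
    (hx' : (2 : ℕ) ^ m • x' = 0) : we B z m (x + x') y = we B z m x y + we B z m x' y := by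
  rw [we, cc_add_left B m y hx hx', map_add, we, we]

theorem we_add_right (m : ℕ) (x : V) {y y' : V} (hy : (2 : ℕ) ^ m • y = 0)
    (hy' : (2 : ℕ) ^ m • y' = 0) : we B z m x (y + y') = we B z m x y + we B z m x y' := by
  rw [we, cc_add_right B m x hy hy', map_add, we, we]

theorem we_self (m : ℕ) (x : V) : we B z m x x = 0 := by rw [we, cc_self, map_zero]

theorem we_swap (m : ℕ) (x y : V) : we B z m y x = -we B z m x y := by
  rw [we, cc_swap, map_neg, we]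

theorem we_zero_left (m : ℕ) (y : V) : we B z m 0 y = 0 := by
  have h := we_add_left B z m (x := 0) (x' := 0) y (smul_zero _) (smul_zero _)
  rw [add_zero] at h
  exact left_eq_add.mp h

theorem we_zero_right (m : ℕ) (x : V) : we B z m x 0 = 0 := by
  rw [we_swap, we_zero_left, neg_zero]

theorem we_neg_left (m : ℕ) {x : V} (y : V) (hx : (2 : ℕ) ^ m • x = 0) :
    we B z m (-x) y = -we B z m x y := by
  have h := we_add_left B z m (x := -x) (x' := x) y (by rw [smul_neg, hx, neg_zero]) hx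
  rw [neg_add_cancel, we_zero_left] at h
  exact eq_neg_of_add_eq_zero_left h.symm

theorem we_neg_right (m : ℕ) (x : V) {y : V} (hy : (2 : ℕ) ^ m • y = 0) :
    we B z m x (-y) = -we B z m x y := by
  rw [we_swap, we_neg_left B z m x hy, ← we_swap]

theorem we_two (hz : ∀ (m : ℕ) (a : ZMod (2 ^ (m + 1))), (2 : ℕ) • z (m + 1) a =
      z m (ZMod.castHom (pow_dvd_pow 2 (Nat.le_succ m)) (ZMod (2 ^ m)) a))
    (m : ℕ) {x y : V} (hx : (2 : ℕ) ^ (m + 1) • x = 0) (hy : (2 : ℕ) ^ (m + 1) • y = 0) :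
    (2 : ℕ) • we B z (m + 1) x y = we B z m ((2 : ℕ) • x) ((2 : ℕ) • y) := by
  rw [we, hz, cc_cast B m hx hy, we]

theorem we_shift (hz : ∀ (m : ℕ) (a : ZMod (2 ^ (m + 1))), (2 : ℕ) • z (m + 1) a =
      z m (ZMod.castHom (pow_dvd_pow 2 (Nat.le_succ m)) (ZMod (2 ^ m)) a))
    (m : ℕ) {x y : V} (hx : (2 : ℕ) ^ m • x = 0) (hy : (2 : ℕ) ^ (m + 1) • y = 0) :
    we B z (m + 1) x y = we B z m x ((2 : ℕ) • y) := by
  obtain ⟨a, b, rfl⟩ := B.exists_coord m x hx
  have h1 : a • B.P m + b • B.Q m = (2 : ℕ) • (a • B.P (m + 1) + b • B.Q (m + 1)) := by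
    rw [smul_add, smul_comm (2 : ℕ) a, smul_comm (2 : ℕ) b, B.P_succ, B.Q_succ]
  have h3 : (2 : ℕ) ^ (m + 1) • (a • B.P (m + 1) + b • B.Q (m + 1)) = 0 := by
    rw [smul_add, smul_comm _ a, smul_comm _ b, B.tors_P, B.tors_Q, smul_zero, smul_zero, add_zero]
  rw [h1, ← we_two B z hz m h3 hy, two_nsmul, two_nsmul, we_add_left B z (m + 1) y h3 h3]

/-- `e (m + 1) x y = 2 e m x y` for `x`, `y` of level `m`. -/
theorem we_up (hz : ∀ (m : ℕ) (a : ZMod (2 ^ (m + 1))), (2 : ℕ) • z (m + 1) a =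
      z m (ZMod.castHom (pow_dvd_pow 2 (Nat.le_succ m)) (ZMod (2 ^ m)) a))
    (m : ℕ) {x y : V} (hx : (2 : ℕ) ^ m • x = 0) (hy : (2 : ℕ) ^ m • y = 0) :
    we B z (m + 1) x y = (2 : ℕ) • we B z m x y := by
  rw [we_shift B z hz m hx (by rw [pow_succ', mul_smul, hy, smul_zero]), two_nsmul, two_nsmul,
    we_add_right B z m x hy hy]

section equiv

variable {G : Type*} [Group G] [DistribMulAction G V] [DistribMulAction G M]

theorem we_smul {m : ℕ} {s : G} (hs : ∀ a, s • z m a = z m (dt B m s * a)) {x y : V}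
    (hx : (2 : ℕ) ^ m • x = 0) (hy : (2 : ℕ) ^ m • y = 0) :
    we B z m (s • x) (s • y) = s • we B z m x y := by
  rw [we, cc_smul B m s hx hy, ← hs, we]

end equiv

/-- The pairing on `V[2]`. -/
theorem we_iota {iota : ZMod 2 × ZMod 2 →+ V} (hP : B.P 1 = iota (1, 0))
    (hQ : B.Q 1 = iota (0, 1)) {hf : ZMod 2 →+ M} (hhf : ∀ a : ℤ, hf (a : ZMod 2) = z 1 a)
    (w w' : ZMod 2 × ZMod 2) : we B z 1 (iota w) (iota w') = hf (Pool.Agent.Sm.ee w w') := by
  have key : ∀ w : ZMod 2 × ZMod 2, ∃ a b : ℤ, w = ((a : ZMod 2), (b : ZMod 2)) ∧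
      iota w = a • B.P 1 + b • B.Q 1 := by
    rintro ⟨x, y⟩
    obtain ⟨a, rfl⟩ := ZMod.intCast_surjective x
    obtain ⟨b, rfl⟩ := ZMod.intCast_surjective y
    refine ⟨a, b, rfl, ?_⟩
    rw [hP, hQ, ← map_zsmul, ← map_zsmul, ← map_add]
    congr 1
    simp
  obtain ⟨a, b, hw, h1⟩ := key w
  obtain ⟨c, d, hw', h3⟩ := key w'
  rw [we, h1, h3, cc_int, ← hhf, Pool.Agent.Sm.ee, hw, hw']
  congr 1
  push_cast
  exact CharTwo.sub_eq_add _ _

/-- The pairing of an element of `V[2]` with an element of level `n + 1`. -/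
theorem we_iota_left (hz : ∀ (m : ℕ) (a : ZMod (2 ^ (m + 1))), (2 : ℕ) • z (m + 1) a =
      z m (ZMod.castHom (pow_dvd_pow 2 (Nat.le_succ m)) (ZMod (2 ^ m)) a))
    {x : V} (hx : (2 : ℕ) • x = 0) (n : ℕ) {y : V} (hy : (2 : ℕ) ^ (n + 1) • y = 0) :
    we B z (n + 1) x y = we B z 1 x ((2 : ℕ) ^ n • y) := by
  induction n generalizing y with
  | zero => rw [pow_zero, one_smul, zero_add]
  | succ n ih =>
    have h1 : (2 : ℕ) ^ (n + 1) • x = 0 := by rw [pow_succ, mul_smul, hx, smul_zero]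
    rw [we_shift B z hz (n + 1) h1 hy, ih (by rw [← mul_smul, ← pow_succ, hy]), ← mul_smul,
      ← pow_succ]

end Pool.Agent.SmP
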